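import Pool.Agent.P.MP_9344a7_nt.Gt.Iface

/-! Steps RES, NF, GF. -/

set_option linter.unusedSectionVars false
set_option linter.unusedVariables false

namespace Pool.Agent.P.MP_9344a7_nt.Gt

open WithZero Module
open Pool.Agent.P.MP_6f117a_ag (Place FF)
open Pool.Agent.P.MP_ab3ecb_nt.Inv
open Pool.Agent.P.MP_9344a7_nt.R (Fr rr_fd)
open Pool.Agent.P.MP_9344a7_nt.Tor (Prd ExF IsUP AL)
open scoped Classical PowerSeries IntermediateField Polynomial Polynomial.Bivariate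

section

section

variable {k E : Type} [Field k] [Field E] [Algebra k E] [IsAlgClosed k] [FF k E]
  {P : Place k E} {t f : E} {a : ℤ}

lemma res_le (ht : P.v t = exp (-a)) (hf : P.v f ≤ exp a) : P.v (t * f) ≤ 1 := by
  rwa [map_mul, ht, exp_neg, inv_mul_le_iff₀ exp_pos, mul_one]

lemma res_zero (ht : P.v t = exp (-a)) (hf : P.v f ≤ exp a) :
    ev P (t * f) = 0 ↔ P.v f < exp a := by
  rw [ev_eq_zero_iff (res_le ht hf), map_mul, ht, exp_neg, inv_mul_lt_iff₀ exp_pos, mul_one]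

lemma res_dim {g : ℕ} {W A : Dv k E} (h : Can g W) (hA : 0 < deg A) :
    (lS (W + A) : ℤ) = g + deg A - 1 := by
  rw [h.big (by rw [map_add, h.deg_W]; omega), map_add, h.deg_W]
  ring

end

theorem p_RES :
    S_RES := by
  intro k E _ _ _ _ _ g W hW ι _ U t hU ht
  rcases isEmpty_or_nonempty ι with e | e
  · exact ⟨0, fun i => e.elim i, fun f _ => by simp⟩
  have hn : 0 < Fintype.card ι := Fintype.card_pos
  have le : ∀ f ∈ LS (W + ∑ i, pt (U i)), ∀ i, (U i).v f ≤ exp (W (U i) + 1) := fun f hf i => by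
    simpa only [Finsupp.add_apply, sum_pt_self hU] using mem_LS.1 hf (U i)
  let ld : LS (W + ∑ i, pt (U i)) →ₗ[k] ι → k :=
    { toFun := fun f i => ev (U i) (t i * f)
      map_add' := fun f f' => funext fun i => by
        rw [Submodule.coe_add, mul_add]
        exact ev_add (res_le (ht i) (le _ f.2 i)) (res_le (ht i) (le _ f'.2 i))
      map_smul' := fun c f => funext fun i => by
        rw [Submodule.coe_smul, Algebra.smul_def, mul_left_comm,
          ev_mul ((U i).triv c) (res_le (ht i) (le _ f.2 i)), ev_const]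
        rfl }
  have fd := rr_fd (W + ∑ i, pt (U i))
  have sub : LS W ≤ LS (W + ∑ i, pt (U i)) := LS_mono (le_add_of_nonneg_right (sum_pt_nonneg _ U))
  have h1 : finrank k (Submodule.comap (LS (W + ∑ i, pt (U i))).subtype (LS W)) ≤
      finrank k (LinearMap.ker ld) := Submodule.finrank_mono fun f hf => funext fun i =>
    (res_zero (ht i) (le _ f.2 i)).2 ((mem_LS.1 hf (U i)).trans_lt (exp_lt_exp.2 (lt_add_one _)))
  have h2 : finrank k (Submodule.comap (LS (W + ∑ i, pt (U i))).subtype (LS W)) = g :=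
    (Submodule.comapSubtypeEquivOfLe sub).finrank_eq.trans hW.lS_W
  have h3 : _ = lS (W + ∑ i, pt (U i)) := ld.finrank_range_add_finrank_ker
  have h4 := res_dim (A := ∑ i, pt (U i)) hW (by rw [deg_sum_pt]; exact_mod_cast hn)
  rw [deg_sum_pt, Finset.card_univ] at h4
  obtain ⟨φ, φ0, hφ⟩ := (LinearMap.range ld).exists_le_ker_of_lt_top
    (Submodule.lt_top_of_finrank_lt_finrank (by rw [finrank_fintype_fun_eq_card]; omega))
  have ex : ∀ x, φ x = ∑ i, φ (fun j => if i = j then 1 else 0) * x i := fun x => by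
    rw [φ.pi_apply_eq_sum_univ]
    exact Finset.sum_congr rfl fun i _ => mul_comm _ _
  have key : ∀ f ∈ LS (W + ∑ i, pt (U i)),
      ∑ i, φ (fun j => if i = j then 1 else 0) * ev (U i) (t i * f) = 0 := fun f hf =>
    (ex _).symm.trans (hφ ⟨⟨f, hf⟩, rfl⟩)
  refine ⟨_, fun i hi => φ0 (LinearMap.ext fun x => ?_), key⟩
  refine (ex x).trans (Finset.sum_eq_zero fun j _ => mul_eq_zero_of_left (by_contra fun hj => ?_) _)
  have ij : i ≠ j := by
    rintro rfl
    exact hj hi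
  obtain ⟨f, f1, f2⟩ := exists_of_lS_lt (D := W + (pt (U i) + pt (U j)) - pt (U j))
    (D' := W + (pt (U i) + pt (U j))) (by
      have a := res_dim (A := pt (U i)) hW (by simp)
      have b := res_dim (A := pt (U i) + pt (U j)) hW (by simp)
      rw [map_add, deg_single, deg_single] at b
      rw [deg_single] at a
      rw [add_sub_assoc, add_sub_cancel_right]
      omega)
  have f3 : f ∈ LS (W + ∑ i, pt (U i)) := LS_mono (add_le_add_right (by
    rw [← Finset.sum_pair (f := fun i => pt (U i)) ij]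
    exact Finset.sum_le_sum_of_subset_of_nonneg (Finset.subset_univ _)
      fun _ _ _ => pt_nonneg _) W) f1
  have h5 := key f f3
  rw [Finset.sum_eq_single j (fun l _ lj => ?_) (by simp), mul_eq_zero, or_iff_right hj,
    res_zero (ht j) (le f f3 j)] at h5
  · refine f2 (mem_LS_sub_pt.2 ⟨f1, ?_⟩)
    rwa [Finsupp.add_apply, Finsupp.add_apply, pt_ne (hU.ne ij.symm), Finsupp.single_eq_same,
      zero_add]
  · rcases eq_or_ne l i with rfl | li
    · exact mul_eq_zero_of_left hi _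
    · refine mul_eq_zero_of_right _ ((res_zero (ht l) (le f f3 l)).2 ((mem_LS.1 f1 _).trans_lt ?_))
      rw [Finsupp.add_apply, Finsupp.add_apply, pt_ne (hU.ne li), pt_ne (hU.ne lj), add_zero,
        add_zero]
      exact exp_lt_exp.2 (lt_add_one _)

end

section

section

variable {k E : Type} [Field k] [Field E] [Algebra k E] [IsAlgClosed k] [FF k E] {H : Dv k E}
  {A B z P : Place k E} {u : E}

lemma nf_pos (le : pt A + pt B ≤ H) : 0 < H A := by
  have h1 : (pt A + pt B) A ≤ H A := le A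
  have h2 : 0 ≤ pt B A := pt_nonneg B A
  rw [Finsupp.add_apply, Finsupp.single_eq_same] at h1
  omega

lemma nf_ne (le : pt A + pt B ≤ H) (h : H z = 0) : z ≠ A := fun e => (nf_pos le).ne' (e ▸ h)

lemma nf_lt {D : Dv k E} (h : 0 ≤ D) (hz : D z = 0) : lS (D - pt z) < lS D :=
  lS_lt (sub_le_self _ (pt_nonneg z)) (one_mem_LS.2 h) fun e => by
    simpa [hz] using (mem_LS_sub_pt.1 e).2

lemma nf_all (le : pt A + pt B ≤ H) (one : lS (H - pt B - pt A) = 1)
    (u1 : u ∈ LS (H - pt B)) (u2 : u ∉ LS (H - pt A)) :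
    u ∈ LS H ∧ Transcendental k u ∧ A.v u = exp (H A) ∧
      (∀ z, H z = 0 → u - algebraMap k E (ev z u) ∈ LS (H - pt B - pt z)) ∧
      ∀ z P, H z = 0 → H P = 0 → ev P u ≠ ev z u → lS (H - pt B - pt z - pt P) = 0 := by
  have u0 : u ∈ LS H := LS_mono (sub_le_self _ (pt_nonneg B)) u1
  have uA : A.v u = exp (H A) :=
    le_antisymm (mem_LS.1 u0 A) (not_lt.1 fun h => u2 (mem_LS_sub_pt.2 ⟨u0, h⟩))
  have p0 : 0 ≤ H - pt B := (pt_nonneg A).trans (le_sub_iff_add_le.2 le)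
  have z0 : ∀ z, H z = 0 → (H - pt B) z = 0 := fun z hz => by
    rw [Finsupp.sub_apply, hz, pt_ne (nf_ne (add_comm (pt A) _ ▸ le) hz), sub_zero]
  have mu : ∀ z, H z = 0 → u - algebraMap k E (ev z u) ∈ LS (H - pt B - pt z) := fun z hz =>
    mem_LS_sub_pt.2 ⟨sub_mem u1 (const_mem_LS p0 _), by
      rw [z0 z hz, exp_zero]
      exact ev_spec (le_one_of_LS u0 hz.le)⟩
  refine ⟨u0, trans_of_ord (P := A) ?_, uA, mu, fun z P hz hP e => ?_⟩
  · rw [ord_of_v uA]
    exact neg_ne_zero.2 (nf_pos le).ne'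
  · have h1 := lS_step (H - pt B) A
    have h2 := nf_lt p0 (z0 z hz)
    have h3 := lS_lt (sub_le_self _ (pt_nonneg P)) (mu z hz) fun h => e (ev_eq (by
      refine (mem_LS_sub_pt.1 h).2.trans_le ?_
      rw [Finsupp.sub_apply, z0 P hP, ← exp_zero, exp_le_exp]
      exact sub_nonpos.2 (pt_nonneg z P)))
    omega

end

theorem p_NF :
    S_NF := by
  intro k E _ _ _ _ _ m N
  have le' : pt N.B + pt N.A ≤ N.Y := add_comm (pt N.A) _ ▸ N.le
  obtain ⟨a1, a2, a3, a4, a5⟩ := nf_all N.le (sub_right_comm N.Y _ _ ▸ N.one) N.u1 N.u2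
  obtain ⟨b1, b2, b3, b4, b5⟩ := nf_all le' N.one N.v1 N.v2
  have d : deg N.Y = m + 4 := by
    have := N.can.deg_W
    rw [map_add, deg_sum_pt, Finset.card_fin] at this
    push_cast at this
    omega
  have p : 0 ≤ N.Y := (add_nonneg (pt_nonneg _) (pt_nonneg _)).trans N.le
  refine ⟨d, .of_mem p (by exact_mod_cast d.le) a1, .of_mem p (by exact_mod_cast d.le) b1, a2, b2,
    a3, b3, fun P h => ⟨le_one_of_LS a1 h.le, le_one_of_LS b1 h.le, nf_ne N.le h, nf_ne le' h⟩,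
    a4, b4, fun z h => ?_, a5, b5⟩
  have := nf_lt (D := N.Y - pt N.A - pt N.B) (z := z) (by rw [sub_sub, sub_nonneg]; exact N.le)
    (by rw [Finsupp.sub_apply, Finsupp.sub_apply, h, pt_ne (nf_ne N.le h), pt_ne (nf_ne le' h)]
        rfl)
  have := N.one
  omega

end

section

lemma gf_alg {k : Type} [Field k] {p q r aP aR bP bQ cQ cR sP sQ tQ tR c0 c1 c2 : k}
    (hq : q ≠ 0) (hr : r ≠ 0) (ha : aR ≠ 0) (hb : bQ ≠ 0) (hs : sQ ≠ 0) (hc : c0 = 0 → c1 ≠ 0)
    (r0 : p * aP + r * aR = 0) (r1 : p * (bP * sP) + q * (bQ * sQ) = 0)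
    (r2 : q * (cQ * tQ) + r * (cR * tR) = 0) (dP : c0 * aP + c1 * bP = 0)
    (dQ : c1 * bQ + c2 * cQ = 0) (dR : c0 * aR + c2 * cR = 0) : sP * tQ = sQ * tR := by
  have h1 : c0 * (r * aR) = c1 * p * bP := by linear_combination c0 * r0 - p * dP
  have h0 : c1 * p * bP ≠ 0 := fun e => by
    have e0 : c0 = 0 := (mul_eq_zero.1 (h1.trans e)).resolve_right (mul_ne_zero hr ha)
    have e1 : c1 * (q * (bQ * sQ)) = 0 := by linear_combination c1 * r1 - sP * e
    exact mul_ne_zero (hc e0) (mul_ne_zero hq (mul_ne_zero hb hs)) e1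
  refine mul_left_cancel₀ h0 ?_
  linear_combination c1 * tQ * r1 + sQ * c2 * r2 - sQ * q * tQ * dQ - sQ * r * tR * dR
    + sQ * tR * h1

section

variable {k E : Type} [Field k] [Field E] [Algebra k E] [IsAlgClosed k] [FF k E]
  {X : Place k E} {f h : E} {D : Dv k E}

lemma gf_le (hf : f ∈ LS D) (e : D X ≤ 1) : X.v (X.π * f) ≤ 1 := by
  rw [map_mul, X.v_π, ← exp_zero, ← neg_add_cancel (1 : ℤ), exp_add]
  exact mul_le_mul_right ((mem_LS.1 hf X).trans (exp_le_exp.2 e)) _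

lemma gf_zero (hf : f ∈ LS D) (e : D X ≤ 0) : ev X (X.π * f) = 0 := by
  rw [ev_mul X.v_π_le (le_one_of_LS hf e), ev_of_lt (z := X.π), zero_mul]
  rw [X.v_π, ← exp_zero, exp_lt_exp]
  omega

lemma gf_mul (hf : f ∈ LS D) (e : D X ≤ 1) (hh : X.v h ≤ 1) (c : k) :
    ev X (X.π * (f * (h - algebraMap k E c))) = ev X (X.π * f) * (ev X h - c) := by
  rw [← mul_assoc, ev_mul (gf_le hf e) (X.v.map_sub_le hh (X.triv c)), ev_sub hh (X.triv c),
    ev_const]

lemma gf_ne (h0 : f ≠ 0) (e : dv k f X = -1) : ev X (X.π * f) ≠ 0 := by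
  rw [dv_apply] at e
  refine ev_ne_zero ((eq_one_iff (mul_ne_zero X.π_ne h0)).2 ?_)
  rw [ord_mul X X.π_ne h0, ord_π, e]
  rfl

lemma gf_lin {f0 f1 f2 : E} {c0 c1 c2 : k} (h0 : X.v (X.π * f0) ≤ 1) (h1 : X.v (X.π * f1) ≤ 1)
    (h2 : X.v (X.π * f2) ≤ 1) (e : c0 • f0 + c1 • f1 + c2 • f2 = 0) :
    c0 * ev X (X.π * f0) + c1 * ev X (X.π * f1) + c2 * ev X (X.π * f2) = 0 := by
  have a : ∀ (c : k) (x : E), X.v x ≤ 1 → X.v (algebraMap k E c * x) ≤ 1 ∧
      ev X (algebraMap k E c * x) = c * ev X x := fun c x hx =>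
    ⟨by rw [map_mul]; exact mul_le_one' (X.triv c) hx, by rw [ev_mul (X.triv c) hx, ev_const]⟩
  rw [← (a c0 _ h0).2, ← (a c1 _ h1).2, ← (a c2 _ h2).2, ← ev_add (a c0 _ h0).1 (a c1 _ h1).1,
    ← ev_add (X.v.map_add_le (a c0 _ h0).1 (a c1 _ h1).1) (a c2 _ h2).1]
  simp only [Algebra.smul_def] at e
  rw [show algebraMap k E c0 * (X.π * f0) + algebraMap k E c1 * (X.π * f1) +
    algebraMap k E c2 * (X.π * f2) = 0 by linear_combination X.π * e, ev_zero]

lemma gf_dep {f0 f1 f2 : E} (hD : lS D ≤ 2) (h0 : f0 ∈ LS D) (h1 : f1 ∈ LS D) (h2 : f2 ∈ LS D)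
    (n2 : f2 ≠ 0) : ∃ c0 c1 c2 : k, c0 • f0 + c1 • f1 + c2 • f2 = 0 ∧ (c0 = 0 → c1 ≠ 0) := by
  have := rr_fd D
  have a : ¬ LinearIndependent k (![⟨f0, h0⟩, ⟨f1, h1⟩, ⟨f2, h2⟩] : Fin 3 → LS D) := fun e => by
    have := e.fintype_card_le_finrank
    rw [Fintype.card_fin] at this
    unfold lS at hD
    omega
  obtain ⟨c, b, i, hi⟩ := Fintype.not_linearIndependent_iff.1 a
  rw [Fin.sum_univ_three] at b
  have b' : c 0 • f0 + c 1 • f1 + c 2 • f2 = 0 := congrArg Subtype.val b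
  refine ⟨c 0, c 1, c 2, b', fun e0 e1 => hi ?_⟩
  rw [e0, e1, zero_smul, zero_smul, zero_add, zero_add, smul_eq_zero] at b'
  have e2 := b'.resolve_right n2
  fin_cases i
  exacts [e0, e1, e2]

lemma gf_mem {A B : Dv k E} (h0 : f ≠ 0) (e : dv k f = A - B) (hD : 0 ≤ A - B + D) : f ∈ LS D :=
  (mem_LS' h0).2 (e ▸ hD)

lemma gf_lt (h0 : 0 ≤ D) (e : D X = 0) : lS (D - pt X) < lS D :=
  lS_lt (sub_le_self D (pt_nonneg X)) (one_mem_LS.2 h0) fun a => by
    have := (mem_LS_sub_pt.1 a).2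
    rw [map_one, e, exp_zero] at this
    exact this.false

/-- The space that contains the three functions has dimension at most two. -/
lemma gf_dim {m : ℕ} {N : Net k E m} (hN : N.NF) {z P Q R T0 T1 : Place k E} {Z3 : Dv k E}
    (hz : N.Y z = 0) (p3 : 0 ≤ Z3)
    (e3 : Pr (pt T0 + Z3 - (pt N.B + (pt N.A + pt z + pt P + N.S))))
    (n0 : (pt N.B + (pt N.A + pt z + pt P + N.S)) T0 = 0) (n1 : Z3 T1 = 0) :
    lS (pt N.B + (pt N.A + pt z + pt P + N.S) - pt T0 - pt T1 + pt Q + pt R) ≤ 2 := by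
  have hS : deg N.S = m := by rw [deg_sum_pt, Finset.card_fin]
  have h0 : 0 ≤ pt N.B + (pt N.A + pt z + pt P + N.S) :=
    add_nonneg (pt_nonneg _) (add_nonneg (add_nonneg (add_nonneg (pt_nonneg _) (pt_nonneg _))
      (pt_nonneg _)) (sum_pt_nonneg _ _))
  have h1 := N.can.ns (D := pt N.B + (pt N.A + pt z + pt P + N.S)) (by
    have a := lS_mono (sub_le_self (N.Y - pt N.A - pt N.B - pt z) (pt_nonneg P))
    rw [hN.l1 z hz] at a
    rw [show N.Y + N.S - (pt N.B + (pt N.A + pt z + pt P + N.S)) =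
      N.Y - pt N.A - pt N.B - pt z - pt P by abel]
    exact Nat.le_zero.1 a)
  rw [map_add, map_add, map_add, map_add, hS, deg_single, deg_single, deg_single, deg_single] at h1
  generalize pt N.B + (pt N.A + pt z + pt P + N.S) = C at *
  have h2 := gf_lt h0 n0
  have h3 := gf_lt p3 n1
  have h4 : lS Z3 = lS (C - pt T0) :=
    Pr.lS_eq (by rwa [show Z3 - (C - pt T0) = pt T0 + Z3 - C by abel])
  have h5 : lS (Z3 - pt T1) = lS (C - pt T0 - pt T1) :=
    Pr.lS_eq (by rwa [show Z3 - pt T1 - (C - pt T0 - pt T1) = pt T0 + Z3 - C by abel])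
  have h6 := lS_step (C - pt T0 - pt T1 + pt Q + pt R) R
  have h7 := lS_step (C - pt T0 - pt T1 + pt Q) Q
  rw [add_sub_cancel_right] at h6 h7
  push_cast at h1
  omega

end

theorem p_GF (hRES : S_RES) (hNF : S_NF) :
    S_GF := by
  intro k E _ _ _ _ _ m N z P Q R T0 T1 Z0 Z1 Z2 Z3 G C
  have hN := hNF k E m N
  obtain ⟨f0, n0, e0⟩ := C.e0
  obtain ⟨f1, n1, e1⟩ := C.e1
  obtain ⟨f2, n2, e2⟩ := C.e2
  have pp : ∀ X V : Place k E, 0 ≤ pt X + pt V := fun X V => add_nonneg (pt_nonneg X) (pt_nonneg V)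
  obtain ⟨c0, c1, c2, hc, hc'⟩ := gf_dep (gf_dim (Q := Q) (R := R) hN G.oz.1 C.p3 C.e3 C.n0 C.n1)
    (gf_mem n0 e0 ((add_nonneg C.p0 (pp z Q)).trans_eq (by abel)))
    (gf_mem n1 e1 ((add_nonneg C.p1 (pp N.A R)).trans_eq (by abel)))
    (gf_mem n2 e2 ((add_nonneg C.p2 (pp N.B P)).trans_eq (by abel))) n2
  have m0 := gf_mem n0 e0 ((add_nonneg (pp T0 T1) C.p0).trans_eq (sub_add_cancel _ _).symm)
  have m1 := gf_mem n1 e1 ((add_nonneg (pp T0 T1) C.p1).trans_eq (sub_add_cancel _ _).symm)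
  have m2 := gf_mem n2 e2 ((add_nonneg (pp T0 T1) C.p2).trans_eq (sub_add_cancel _ _).symm)
  have off : ∀ X, N.Off X → N.S X = 0 ∧ pt N.A X = 0 ∧ pt N.B X = 0 := fun X hX =>
    ⟨sum_pt_eq_zero.2 hX.2, pt_ne (hN.reg X hX.1).2.2.1, pt_ne (hN.reg X hX.1).2.2.2⟩
  obtain ⟨sP, aP, bP⟩ := off P G.oP
  obtain ⟨sQ, aQ, bQ⟩ := off Q G.oQ
  obtain ⟨sR, aR, bR⟩ := off R G.oR
  have zP := pt_ne G.zP.symm
  have zQ := pt_ne G.zQ.symm
  have zR := pt_ne G.zR.symm
  have PQ := pt_ne G.PQ.symm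
  have PR := pt_ne G.PR.symm
  have QR := pt_ne G.QR.symm
  have QP := pt_ne G.PQ
  have RP := pt_ne G.PR
  have RQ := pt_ne G.QR
  have ss : ∀ X : Place k E, pt X X = 1 := fun X => Finsupp.single_eq_same
  have d0P : (pt R + pt N.B + (pt N.A + pt P + N.S)) P = 1 := by
    simp only [Finsupp.add_apply, RP, bP, aP, sP, ss]; rfl
  have d0Q : (pt R + pt N.B + (pt N.A + pt P + N.S)) Q = 0 := by
    simp only [Finsupp.add_apply, RQ, bQ, aQ, sQ, PQ]; rfl
  have d0R : (pt R + pt N.B + (pt N.A + pt P + N.S)) R = 1 := by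
    simp only [Finsupp.add_apply, PR, bR, aR, sR, ss]; rfl
  have d1P : (pt Q + pt N.B + (pt z + pt P + N.S)) P = 1 := by
    simp only [Finsupp.add_apply, QP, bP, zP, sP, ss]; rfl
  have d1Q : (pt Q + pt N.B + (pt z + pt P + N.S)) Q = 1 := by
    simp only [Finsupp.add_apply, PQ, bQ, zQ, sQ, ss]; rfl
  have d1R : (pt Q + pt N.B + (pt z + pt P + N.S)) R = 0 := by
    simp only [Finsupp.add_apply, PR, bR, zR, sR, QR]; rfl
  have d2P : (pt Q + pt R + (pt z + pt N.A + N.S)) P = 0 := by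
    simp only [Finsupp.add_apply, QP, RP, zP, sP, aP]; rfl
  have d2Q : (pt Q + pt R + (pt z + pt N.A + N.S)) Q = 1 := by
    simp only [Finsupp.add_apply, RQ, aQ, zQ, sQ, ss]; rfl
  have d2R : (pt Q + pt R + (pt z + pt N.A + N.S)) R = 1 := by
    simp only [Finsupp.add_apply, QR, aR, zR, sR, ss]; rfl
  have inj : Function.Injective ![P, Q, R] := fun i j e => by
    fin_cases i <;> fin_cases j
    exacts [rfl, absurd e G.PQ, absurd e G.PR, absurd e G.PQ.symm, rfl, absurd e G.QR,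
      absurd e G.PR.symm, absurd e G.QR.symm, rfl]
  obtain ⟨ρ, hρ, res⟩ := hRES k E _ _ N.can (Fin 3) ![P, Q, R] ![P.π, Q.π, R.π] inj fun i => by
    have a : ∀ X, N.Off X → X.v X.π = exp (-((N.Y + N.S) X + 1)) := fun X hX => by
      rw [Finsupp.add_apply, hX.1, (off X hX).1, X.v_π]; rfl
    fin_cases i
    exacts [a P G.oP, a Q G.oQ, a R G.oR]
  have res' : ∀ f ∈ LS (N.Y + N.S + (pt P + pt Q + pt R)), ρ 0 * ev P (P.π * f) +
      ρ 1 * ev Q (Q.π * f) + ρ 2 * ev R (R.π * f) = 0 := fun f hf => by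
    have := res f (by rwa [Fin.sum_univ_three])
    rwa [Fin.sum_univ_three] at this
  have r0 := res' f0 (LS_mono (sub_nonneg.1 ((add_nonneg (sub_nonneg.2 N.le) (pt_nonneg Q)).trans_eq
    (by abel))) m0)
  have r1 := res' _ (LS_mono (sub_nonneg.1 ((pt_nonneg R).trans_eq (by abel)))
    (mul_mem_LS m1 (hN.mu z G.oz.1)))
  have r2 := res' _ (LS_mono (sub_nonneg.1 ((pt_nonneg P).trans_eq (by abel)))
    (mul_mem_LS m2 (hN.mv z G.oz.1)))
  have gP := hN.reg P G.oP.1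
  have gQ := hN.reg Q G.oQ.1
  have gR := hN.reg R G.oR.1
  have z0 := gf_zero m0 d0Q.le
  have z1 := gf_zero m1 d1R.le
  have z2 := gf_zero m2 d2P.le
  rw [z0, mul_zero, add_zero] at r0
  rw [gf_mul m1 d1P.le gP.1, gf_mul m1 d1Q.le gQ.1, gf_mul m1 (d1R.le.trans zero_le_one) gR.1, z1,
    zero_mul, mul_zero, add_zero] at r1
  rw [gf_mul m2 (d2P.le.trans zero_le_one) gP.2.1, gf_mul m2 d2Q.le gQ.2.1, gf_mul m2 d2R.le gR.2.1,
    z2, zero_mul, mul_zero, zero_add] at r2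
  have lP := gf_lin (gf_le m0 d0P.le) (gf_le m1 d1P.le) (gf_le m2 (d2P.le.trans zero_le_one)) hc
  have lQ := gf_lin (gf_le m0 (d0Q.le.trans zero_le_one)) (gf_le m1 d1Q.le) (gf_le m2 d2Q.le) hc
  have lR := gf_lin (gf_le m0 d0R.le) (gf_le m1 (d1R.le.trans zero_le_one)) (gf_le m2 d2R.le) hc
  rw [z2, mul_zero, add_zero] at lP
  rw [z0, mul_zero, zero_add] at lQ
  rw [z1, mul_zero, add_zero] at lR
  exact gf_alg (hρ 1) (hρ 2) (gf_ne n0 (by rw [e0, Finsupp.sub_apply, C.nR, d0R]; rfl))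
    (gf_ne n1 (by rw [e1, Finsupp.sub_apply, C.nQ, d1Q]; rfl)) (sub_ne_zero.2 G.uQ) hc' r0 r1 r2
    lP lQ lR

end

end Pool.Agent.P.MP_9344a7_nt.Gt
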