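import Pool.Agent.P.MP_9344a7_nt.Gt.Iface

/-! Steps FUN. -/

set_option linter.unusedSectionVars false
set_option linter.unusedVariables false

namespace Pool.Agent.P.MP_9344a7_nt.Gt

open WithZero Module
open Pool.Agent.P.MP_6f117a_ag (Place FF)
open Pool.Agent.P.MP_ab3ecb_nt.Inv
open Pool.Agent.P.MP_9344a7_nt.R (Fr rr_fd)
open Pool.Agent.P.MP_9344a7_nt.Tor (Prd ExF IsUP AL)
open scoped Classical PowerSeries IntermediateField Polynomial Polynomial.Bivariate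

section

lemma fun_const {F : Type} [Field F] {sB δ : F} {σ ν κ : J4 → F} (hs : sB ≠ 0) (hδ : δ ≠ 0)
    (hσ : ∀ j, σ j ≠ 0) (hν : ∀ j, ν j ≠ 0) (hB : ∀ j, σ j ≠ sB) (su : ∀ j, IsSquare (σ j))
    (sv : ∀ j, IsSquare (ν j * δ)) (rel : σ (0, 0) * σ (1, 1) = σ (0, 1) * σ (1, 0))
    (hκ : ∀ j, κ j * σ j = (σ j - sB) * ν j) :
    ∃ (d q : Fin 2 → F) (a : J4 → F), (∀ i, d i ≠ 0) ∧ (∀ i, q i ≠ 0) ∧
      (∀ j : J4, q j.1 * sB = σ j * d j.2) ∧ (∀ j, a j ≠ 0) ∧ (∀ j, κ j ≠ 0) ∧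
      ∀ j : J4, a j ^ 2 * κ j = q j.1 - d j.2 := by
  choose r hr using su
  choose w hw using sv
  have r0 : ∀ j, r j ≠ 0 := fun j e => hσ j (by rw [hr, e, mul_zero])
  have w0 : ∀ j, w j ≠ 0 := fun j e => mul_ne_zero (hν j) hδ (by rw [hw, e, mul_zero])
  obtain ⟨e, e0, he⟩ : ∃ e : Fin 2 → F, (∀ i, e i ≠ 0) ∧ ∀ j : J4, σ (j.1, 0) = σ j * e j.2 ^ 2 := by
    have h1 : (r (0, 0) / r (0, 1)) ^ 2 = σ (0, 0) / σ (0, 1) := by
      rw [div_pow, sq, sq, ← hr, ← hr]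
    have h2 := hσ (0, 1)
    refine ⟨![1, r (0, 0) / r (0, 1)], Fin.forall_fin_two.2 ⟨one_ne_zero, div_ne_zero (r0 _) (r0 _)⟩,
      Prod.forall.2 (Fin.forall_fin_two.2 ⟨Fin.forall_fin_two.2 ⟨by simp, ?_⟩,
        Fin.forall_fin_two.2 ⟨by simp, ?_⟩⟩)⟩
    · show σ (0, 0) = σ (0, 1) * (r (0, 0) / r (0, 1)) ^ 2
      rw [h1, mul_div_cancel₀ _ h2]
    · show σ (1, 0) = σ (1, 1) * (r (0, 0) / r (0, 1)) ^ 2
      rw [h1, mul_div_assoc', eq_div_iff h2]
      linear_combination -rel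
  refine ⟨fun i => sB * δ * e i ^ 2, fun i => σ (i, 0) * δ, fun j => e j.2 * r j * w j / ν j,
    fun i => mul_ne_zero (mul_ne_zero hs hδ) (pow_ne_zero _ (e0 i)), fun i => mul_ne_zero (hσ _) hδ,
    fun j => by simp only [he j]; ring,
    fun j => div_ne_zero (mul_ne_zero (mul_ne_zero (e0 _) (r0 _)) (w0 _)) (hν j), fun j h => ?_,
    fun j => ?_⟩
  · exact mul_ne_zero (sub_ne_zero.2 (hB j)) (hν j) (by rw [← hκ, h, zero_mul])
  · have := hν j
    dsimp only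
    rw [he j, div_pow, div_mul_eq_mul_div, div_eq_iff (pow_ne_zero _ this)]
    linear_combination (e j.2 ^ 2 * ν j * δ) * hκ j - e j.2 ^ 2 * κ j * (w j * w j) * hr j -
      e j.2 ^ 2 * κ j * σ j * hw j

lemma fun_fn {E : Type} [Field E] {m : ℕ} (t : Bs m → E) (h : Fn m → E) (a : Bs m) {i : Fn m}
    (hi : i ≠ .s) : fn t h a i = t a ^ mu a * h i := by
  cases a <;> cases i <;> first | rfl | exact absurd rfl hi

lemma fun_sep {m : ℕ} (j : J4) {d d' : Fin 3 ⊕ Fin m} (h : d ≠ d') :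
    Sep (cfar j d) (cfar j d') := by
  rcases d with d | d <;> rcases d' with d' | d'
  · fin_cases d <;> fin_cases d' <;> simp [Sep, cfar] at h ⊢
  · fin_cases d <;> simp [Sep, cfar]
  · fin_cases d' <;> simp [Sep, cfar]
  · simpa [Sep, cfar] using h

lemma fun_sepB {m : ℕ} (j : J4) (d : Fin 3 ⊕ Fin m) :
    Sep (cfar j d) .B ∧ ∀ l, Sep (cfar j d) (.Z l) := by
  rcases d with d | d
  · fin_cases d <;> simp [Sep, cfar]
  · simp [Sep, cfar]

section geo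

variable {k E : Type} [Field k] [Field E] [Algebra k E] {P : Place k E} {D : Dv k E} {z t : E}

lemma fun_le_one {ι : Type} [Fintype ι] {U : ι → Place k E} (h : Function.Injective U)
    (Q : Place k E) : (∑ i, pt (U i)) Q ≤ 1 := by
  by_cases e : ∃ i, U i = Q
  · obtain ⟨i, rfl⟩ := e
    exact (sum_pt_self h i).le
  · rw [sum_pt_ne fun i _ e' => e ⟨i, e'⟩]
    exact zero_le_one

lemma fun_vt (ht : ord P t = 1) : P.v t = exp (-1) :=
  (ord_eq_iff (ne_zero_of_ord (by rw [ht]; exact one_ne_zero))).1 ht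

lemma fun_reg (ht : ord P t = 1) (hz : z ∈ LS D) (r : ℕ) : P.v (t ^ r * z) ≤ exp (D P - r) := by
  rw [map_mul, map_pow, fun_vt ht, ← exp_nsmul, sub_eq_neg_add, exp_add, nsmul_eq_mul, mul_neg_one]
  exact mul_le_mul_right (mem_LS.1 hz P) _

lemma fun_le (ht : ord P t = 1) (hz : z ∈ LS D) {r : ℕ} (h : D P ≤ r) : P.v (t ^ r * z) ≤ 1 :=
  (fun_reg ht hz r).trans (by rw [← exp_zero, exp_le_exp]; omega)

lemma fun_lt (ht : ord P t = 1) (hz : z ∈ LS D) {r : ℕ} (h : D P < r) : P.v (t ^ r * z) < 1 :=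
  (fun_reg ht hz r).trans_lt (by rw [← exp_zero, exp_lt_exp]; omega)

end geo

section fin

variable {F : Type} [Field F] [Fintype F] {g : ℕ} {C : Cv F g} {P : C.Pl} {t f : C.E}

lemma fun_pick (hAVD : S_AVD) {W D : Dv (Kb F) C.E} (hW : Can g W) (hD : D ∈ C.D0) (hP : C.Rat P)
    (h0 : lS (W - D) = 0) (ht : t ∈ C.E0) (h1 : ord P t = 1) {r : ℕ} (hr : D P + 1 = r) :
    ∃ h ∈ C.E0, h ∈ LS (pt P + D) ∧ C.vl P (t ^ r * h) = 1 := by
  have h2 := hW.ns h0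
  have h3 := hW.ns (D := pt P + D) (Nat.le_zero.1 ((lS_mono (sub_le_sub_left
    (le_add_of_nonneg_left (pt_nonneg P)) W)).trans h0.le))
  rw [map_add, deg_single] at h3
  obtain ⟨z, z1, z2, z3⟩ := hAVD F g C _ (add_mem hP.pt_mem hD) Unit Finset.univ (fun _ => LS D)
    Fintype.one_lt_card fun _ _ e => by
      have := rr_fd D
      have h1 : lS (pt P + D) ≤ lS D := Submodule.finrank_mono e
      omega
  have h4 : (pt P + D) P = r := by rw [Finsupp.add_apply, Finsupp.single_eq_same, add_comm, hr]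
  have h5 : t ^ r * z ∈ C.O P := ⟨mul_mem (pow_mem ht r) z2, fun_le h1 z1 h4.le⟩
  have h6 : C.vl P (t ^ r * z) ≠ 0 := fun e => z3 () (Finset.mem_univ _) (by
    have := mem_LS_sub_pt.2 ⟨z1, van h1 ((Cv.vl_eq_zero hP h5).1 e) (.inl ⟨rfl, h4⟩)⟩
    rwa [add_sub_cancel_left] at this)
  refine ⟨C.c (C.vl P (t ^ r * z))⁻¹ * z, mul_mem (Cv.c_mem _) z2, ?_, ?_⟩
  · rw [Cv.c_apply, ← Algebra.smul_def]
    exact Submodule.smul_mem _ _ z1
  · rw [mul_left_comm, Cv.vl_mul hP (Cv.c_mem_O P _) h5, Cv.vl_c, inv_mul_cancel₀ h6]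

lemma fun_ex0 (h1 : ord P t = 1) {a0 a1 : F} (h : P.v (f - C.c a0 - C.c a1 * t) < exp (-1)) :
    a0 = C.vl P f := by
  have h2 : (exp (-1) : ℤᵐ⁰) < 1 := by rw [← exp_zero, exp_lt_exp]; omega
  refine (Cv.vl_eq (ev_eq ?_)).symm
  have h3 : P.v (C.c a1 * t) < 1 := by
    rw [map_mul, fun_vt h1]
    exact (mul_le_of_le_one_left' (P.triv _)).trans_lt h2
  have := P.v.map_add_lt (h.trans h2) h3
  rwa [sub_add_cancel] at this

lemma fun_ex1 (h1 : ord P t = 1) {a0 a1 : F} (h0 : a0 = 0)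
    (h : P.v (t ^ 2 * f - C.c a0 - C.c a1 * t) < exp (-1)) : a1 = C.vl P (t ^ 1 * f) := by
  refine (Cv.vl_eq (ev_eq ?_)).symm
  have h2 : t ^ 2 * f - C.c a0 - C.c a1 * t = t * (t ^ 1 * f - C.c a1) := by
    rw [h0, map_zero]; ring
  rw [h2, map_mul, fun_vt h1] at h
  exact (mul_lt_iff_lt_one_right exp_pos).1 h

end fin

theorem p_FUN (hNF : S_NF) (hKAP : S_KAP) (hAVD : S_AVD) (hUNI : S_UNI) (hAUX : S_AUX) :
    S_FUN := by
  intro m C1
  obtain ⟨q0, hq0⟩ := hAUX (m + 3) C1 (m + 7)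
  refine ⟨2 * (4 * (m + 3) + 1) + (2 * m + 8), q0, ?_⟩
  intro F _ _ C N z P hp hM R S G V rel
  have NF := hNF _ _ m N
  obtain ⟨Z, Z1, Z2, Z3⟩ := hq0 F C (insert N.B (insert N.A (insert z
    (Finset.univ.image P ∪ Finset.univ.image N.c)))) (hp.le.trans char_le) hM (by
      have h1 : (Finset.univ.image P).card ≤ 4 := Finset.card_image_le
      have h2 : (Finset.univ.image N.c).card ≤ m := Finset.card_image_le.trans (by simp)
      refine (Finset.card_insert_le _ _).trans (Nat.succ_le_succ ((Finset.card_insert_le _ _).trans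
        (Nat.succ_le_succ ((Finset.card_insert_le _ _).trans (Nat.succ_le_succ
          ((Finset.card_union_le _ _).trans (by omega))))))))
  simp only [Finset.mem_insert, Finset.mem_union, Finset.mem_image, Finset.mem_univ, true_and,
    not_or, not_exists] at Z2
  have rat : ∀ a, C.Rat (al N z P Z a) := fun
    | .B => R.B
    | .A => R.A
    | .z => G.rat
    | .P j => (V j).rat
    | .c i => R.c i
    | .Z l => (Z2 l).1
  have zP : ∀ j, z ≠ P j := fun j e => (V j).uz (by rw [← e])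
  have rz := NF.reg z G.off.1
  have rP := fun j => NF.reg (P j) (V j).off.1
  have sep : ∀ a a', Sep a a' → al N z P Z a ≠ al N z P Z a' := by
    have h1 := N.AB
    have h2 := N.cA
    have h3 := N.cB
    have h4 := G.off.2
    have h5 := fun j => (V j).off.2
    have h6 := N.inj
    rintro a a' ⟨h7, h8⟩ e
    cases a <;> cases a' <;> simp only [al] at e <;>
      first
        | exact h7 rfl
        | exact h8 _ _ ⟨rfl, rfl⟩
        | exact h7 (by rw [h6 e])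
        | exact h7 (by rw [Z1 e])
        | exact h1 e | exact h1 e.symm | exact h2 _ e | exact h2 _ e.symm | exact h3 _ e
        | exact h3 _ e.symm | exact h4 _ e | exact h4 _ e.symm | exact h5 _ _ e
        | exact h5 _ _ e.symm | exact zP _ e | exact zP _ e.symm | exact rz.2.2.1 e
        | exact rz.2.2.1 e.symm | exact rz.2.2.2 e | exact rz.2.2.2 e.symm
        | exact (rP _).2.2.1 e | exact (rP _).2.2.1 e.symm | exact (rP _).2.2.2 e
        | exact (rP _).2.2.2 e.symm | exact (Z2 _).2.1 e | exact (Z2 _).2.1 e.symm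
        | exact (Z2 _).2.2.1 e | exact (Z2 _).2.2.1 e.symm | exact (Z2 _).2.2.2.1 e
        | exact (Z2 _).2.2.2.1 e.symm | exact (Z2 _).2.2.2.2.1 _ e
        | exact (Z2 _).2.2.2.2.1 _ e.symm | exact (Z2 _).2.2.2.2.2 _ e
        | exact (Z2 _).2.2.2.2.2 _ e.symm
  -- the local coordinates
  obtain ⟨t, tB, t0, t1, tb⟩ : ∃ t : Bs m → C.E, t .B = (N.v - C.c (C.vl z N.v))⁻¹ ∧
      (∀ a, t a ∈ C.E0) ∧ (∀ a, ord (al N z P Z a) (t a) = 1) ∧
      ∀ a, Bd (Kb F) (4 * (m + 3) + 1) (t a) := by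
    choose t t0 t1 tb using fun a => (hUNI F _ C _ (rat a)).1
    have h1 : ord N.B (N.v - C.c (C.vl z N.v))⁻¹ = 1 := by
      have h2 : N.B.v (C.c (C.vl z N.v)) < N.B.v N.v := by
        rw [NF.vB, S.2]
        exact (N.B.triv _).trans_lt (by rw [← exp_zero, exp_lt_exp]; omega)
      rw [ord_inv, ord_of_v ((N.B.v.map_sub_eq_of_lt_left h2).trans NF.vB), S.2, neg_neg]
    refine ⟨Function.update t .B (N.v - C.c (C.vl z N.v))⁻¹, Function.update_self .., ?_⟩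
    rw [← forall_and, ← forall_and]
    intro a
    rcases eq_or_ne a .B with rfl | e
    · rw [Function.update_self]
      exact ⟨inv_mem (sub_mem R.v (Cv.c_mem _)), h1, (NF.bv.sub_const _).inv.mono (by omega)⟩
    · rw [Function.update_of_ne e]
      exact ⟨t0 a, t1 a, tb a⟩
  -- the divisors
  obtain ⟨T, hT⟩ : ∃ T : J4 → Dv (Kb F) C.E, ∀ j, T j = ∑ d, pt (al N z P Z (cfar j d)) :=
    ⟨_, fun _ => rfl⟩
  obtain ⟨Φ, hΦ⟩ : ∃ Φ : I12 → Dv (Kb F) C.E, ∀ I, Φ I = ∑ d, pt (al N z P Z (far I d)) :=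
    ⟨_, fun _ => rfl⟩
  obtain ⟨SZ, hZ⟩ : ∃ SZ : Dv (Kb F) C.E, SZ = ∑ l, pt (Z l) := ⟨_, rfl⟩
  have eT : ∀ j, T j = pt N.A + pt z + pt (P j) + N.S := fun j => by
    rw [hT, Fintype.sum_sum_type, Fin.sum_univ_three]; rfl
  have e0 : ∀ j, Φ (j, 0) = pt N.A + pt (P j) + N.S := fun j => by
    rw [hΦ, Fintype.sum_sum_type, Fin.sum_univ_two]; rfl
  have e1 : ∀ j, Φ (j, 1) = pt z + pt (P j) + N.S := fun j => by
    rw [hΦ, Fintype.sum_sum_type, Fin.sum_univ_two]; rfl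
  have e2 : ∀ j, Φ (j, 2) = pt z + pt N.A + N.S := fun j => by
    rw [hΦ, Fintype.sum_sum_type, Fin.sum_univ_two]; rfl
  have uP : ∀ j, ev (P j) N.u ≠ ev z N.u := fun j e => (V j).uz (by rw [Cv.vl, e, Cv.vl])
  have vP : ∀ j, ev (P j) N.v ≠ ev z N.v := fun j e => (V j).vz (by rw [Cv.vl, e, Cv.vl])
  have hF : ∀ I : I12, Φ I ≤ T I.1 ∧ lS (N.Y + N.S - (pt N.B + Φ I)) = 0 := by
    rintro ⟨j, i⟩
    rw [eT]
    fin_cases i
    · exact ⟨(e0 j).le.trans (by gcongr; exact le_add_of_nonneg_right (pt_nonneg _)),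
        (congrArg lS (by erw [e0]; abel)).trans (NF.l1 _ (V j).off.1)⟩
    · exact ⟨(e1 j).le.trans (by gcongr; exact le_add_of_nonneg_left (pt_nonneg _)),
        (congrArg lS (by erw [e1]; abel)).trans (NF.l2 _ _ G.off.1 (V j).off.1 (uP j))⟩
    · exact ⟨(e2 j).le.trans (add_le_add_left
          ((add_comm _ _).le.trans (le_add_of_nonneg_right (pt_nonneg _))) _),
        (congrArg lS (by erw [e2]; abel)).trans (NF.l1 _ G.off.1)⟩
  have nT : ∀ j, lS (N.Y + N.S - T j) = 0 := fun j =>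
    (congrArg lS (by rw [eT]; abel)).trans (NF.l3 _ _ G.off.1 (V j).off.1 (vP j))
  have T0 : ∀ j, T j ∈ C.D0 := fun j => hT j ▸ sum_mem fun d _ => (rat _).pt_mem
  have Φ0 : ∀ I, Φ I ∈ C.D0 := fun I => hΦ I ▸ sum_mem fun d _ => (rat _).pt_mem
  have S0 : SZ ∈ C.D0 := hZ ▸ sum_mem fun l _ => (Z2 l).1.pt_mem
  have pT : ∀ j, 0 ≤ T j := fun j => hT j ▸ sum_pt_nonneg _ _
  have pΦ : ∀ I, 0 ≤ Φ I := fun I => hΦ I ▸ sum_pt_nonneg _ _
  have pZ : 0 ≤ SZ := hZ ▸ sum_pt_nonneg _ _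
  have pB := pt_nonneg N.B
  have TB : ∀ j, T j N.B = 0 := fun j => hT j ▸ sum_pt_ne fun d _ => sep _ _ (fun_sepB j d).1
  have TZ : ∀ j l, T j (Z l) = 0 := fun j l =>
    hT j ▸ sum_pt_ne fun d _ => sep _ _ ((fun_sepB j d).2 l)
  have ΦB : ∀ I, Φ I N.B = 0 := fun I => le_antisymm (((hF I).1 _).trans (TB _).le) (pΦ I _)
  have ΦZ : ∀ I l, Φ I (Z l) = 0 := fun I l => le_antisymm (((hF I).1 _).trans (TZ _ l).le) (pΦ I _)
  have SB : SZ N.B = 0 := hZ ▸ sum_pt_ne fun l _ => (Z2 l).2.1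
  have BZ : ∀ l, pt N.B (Z l) = 0 := fun l => pt_ne (Z2 l).2.1
  have BB : pt N.B N.B = 1 := Finsupp.single_eq_same
  have ZS : ∀ l, pt (Z l) ≤ SZ := fun l =>
    hZ ▸ Finset.single_le_sum (fun i _ => pt_nonneg (Z i)) (Finset.mem_univ l)
  have hG : ∀ j a, (pt N.B + pt N.B + T j + SZ) (al N z P Z a) ≤ mu a := fun j a => by
    simp only [Finsupp.add_apply]
    rcases eq_or_ne a .B with rfl | e
    · exact (show pt N.B N.B + pt N.B N.B + T j N.B + SZ N.B = 2 by rw [BB, TB, SB]; rfl).le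
    · have h1 : mu a = 1 := by cases a <;> first | rfl | exact absurd rfl e
      have h2 : T j (al N z P Z a) ≤ 1 := hT j ▸ fun_le_one (fun d d' e => by_contra fun h =>
        sep _ _ (fun_sep j h) e) _
      have h3 : SZ (al N z P Z a) ≤ 1 := hZ ▸ fun_le_one Z1 _
      have h4 : pt N.B (al N z P Z a) = 0 := pt_ne (sep a .B ⟨e, by simp⟩)
      by_cases h5 : ∃ l, Z l = al N z P Z a
      · obtain ⟨l, h5⟩ := h5
        have := h5 ▸ TZ j l
        omega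
      · have : SZ (al N z P Z a) = 0 := hZ ▸ sum_pt_ne fun l _ e => h5 ⟨l, e⟩
        omega
  have dG : ∀ j, deg (pt N.B + pt N.B + T j + SZ) = (2 * m + 8 : ℕ) := fun j => by
    rw [map_add, map_add, map_add, deg_single, hT, hZ, deg_sum_pt, deg_sum_pt]
    simp
    ring
  -- the functions
  rw [← hZ] at Z3
  obtain ⟨h0, h01, h02, h03⟩ := fun_pick hAVD C.can S0 R.B Z3 (t0 .B) (t1 .B) (r := 1)
    (by rw [SB]; rfl)
  obtain ⟨h1, h11, h12, h13⟩ := fun_pick hAVD C.can (add_mem R.B.pt_mem S0) R.B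
    (Nat.le_zero.1 ((lS_mono (sub_le_sub_left (le_add_of_nonneg_left pB) _)).trans Z3.le))
    (t0 .B) (t1 .B) (r := 2) (by rw [Finsupp.add_apply, SB, BB]; rfl)
  choose f f1 f2 f3 using fun I => fun_pick hAVD N.can (add_mem R.B.pt_mem (Φ0 I)) R.B (hF I).2
    (t0 .B) (t1 .B) (r := 2) (by rw [Finsupp.add_apply, ΦB, BB]; rfl)
  choose g g1 g2 g3 using fun I l => fun_pick hAVD N.can (add_mem R.B.pt_mem (Φ0 I)) (Z2 l).1
    (hF I).2 (t0 (.Z l)) (t1 (.Z l)) (r := 1) (by rw [Finsupp.add_apply, ΦZ, BZ]; rfl)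
  choose c c1 c2 c3 using fun j => fun_pick hAVD N.can (T0 j) R.B (nT j) (t0 .B) (t1 .B) (r := 1)
    (by rw [TB]; rfl)
  let h : Fn m → C.E := fun
    | .h i => ![h0, h1] i
    | .f I => f I
    | .g I l => g I l
    | .c j => c j
    | .s => N.u - C.c (C.vl z N.u)
  have mh : ∀ i, h (.h i) ∈ C.E0 ∧ h (.h i) ∈ LS (pt N.B + pt N.B + SZ) :=
    Fin.forall_fin_two.2 ⟨⟨h01, LS_mono (by gcongr; exact le_add_of_nonneg_left pB) h02⟩,
      h11, by rw [add_assoc]; exact h12⟩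
  have mf : ∀ I, f I ∈ LS (pt N.B + pt N.B + Φ I + SZ) := fun I =>
    LS_mono (by rw [← add_assoc]; exact le_add_of_nonneg_right pZ) (f2 I)
  have mg : ∀ I l, g I l ∈ LS (pt N.B + pt N.B + Φ I + SZ) := fun I l =>
    LS_mono (by rw [add_comm (pt (Z l))]; gcongr; exacts [le_add_of_nonneg_left pB, ZS l]) (g2 I l)
  have hm : ∀ i, i ≠ .s → h i ∈ C.E0 ∧ ∃ j, h i ∈ LS (pt N.B + pt N.B + T j + SZ) := fun
    | .h i, _ => ⟨(mh i).1, 0, LS_mono (add_le_add_left (le_add_of_nonneg_right (pT 0)) _) (mh i).2⟩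
    | .f I, _ => ⟨f1 I, I.1, LS_mono (by gcongr; exact (hF I).1) (mf I)⟩
    | .g I l, _ => ⟨g1 I l, I.1, LS_mono (by gcongr; exact (hF I).1) (mg I l)⟩
    | .c j, _ => ⟨c1 j, j, LS_mono ((le_add_of_nonneg_right pZ).trans' (by
        gcongr; exact le_add_of_nonneg_left pB)) (c2 j)⟩
    | .s, e => absurd rfl e
  have uB : N.u ∈ C.O N.B := ⟨R.u, le_one_of_LS N.u1 (by rw [Finsupp.sub_apply, S.2, BB]; rfl)⟩
  have hr : ∀ a i, fn t h a i ∈ C.O (al N z P Z a) ∧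
      Bd (Kb F) (2 * (4 * (m + 3) + 1) + (2 * m + 8)) (fn t h a i) := fun a i => by
    rcases eq_or_ne i .s with rfl | e
    · rcases eq_or_ne a .B with rfl | e'
      · exact ⟨sub_mem uB (Cv.c_mem_O _ _), (NF.bu.sub_const _).mono (by omega)⟩
      · have : fn t h a .s = 0 := by cases a <;> first | rfl | exact absurd rfl e'
        rw [this]
        exact ⟨zero_mem _, 0, le_rfl, Int.natCast_nonneg _, zero_mem _⟩
    · obtain ⟨h2, j, h3⟩ := hm i e
      have h4 : mu a ≤ 2 := by cases a <;> simp [mu]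
      rw [fun_fn t h a e]
      exact ⟨⟨mul_mem (pow_mem (t0 a) _) h2, fun_le (t1 a) h3 (hG j a)⟩,
        (((tb a).pow _).mono (Nat.mul_le_mul_right _ h4)).mul (Bd.of_mem
          (add_nonneg (add_nonneg (add_nonneg pB pB) (pT j)) pZ) (dG j).le h3)⟩
  choose a0 a1 ex using fun a i => (hUNI F _ C _ (rat a)).2 _ (t0 a) (t1 a) _ (hr a i).1
  have v0 : ∀ a i, a0 a i = C.vl (al N z P Z a) (fn t h a i) := fun a i => fun_ex0 (t1 a) (ex a i)
  have z0 : ∀ a i D, i ≠ .s → h i ∈ LS D → D (al N z P Z a) < mu a → a0 a i = 0 :=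
    fun a i D e h2 h3 => (v0 a i).trans ((Cv.vl_eq_zero (rat a) (hr a i).1).2 (by
      rw [fun_fn t h a e]; exact fun_lt (t1 a) h2 h3))
  have h00 : a0 .B (.h 0) = 0 := z0 _ _ _ nofun h02 (by
    show (pt N.B + SZ) N.B < 2
    rw [Finsupp.add_apply, SB, BB]; omega)
  have c0 : ∀ j, a0 .B (.c j) = 0 := fun j => z0 _ _ _ nofun (c2 j) (by
    show (pt N.B + T j) N.B < 2
    rw [Finsupp.add_apply, TB, BB]; omega)
  have f0 : ∀ I, a0 .B (.f I) = 1 := fun I => (v0 _ _).trans (f3 I)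
  obtain ⟨d, q, a, k1, k2, k3, k4, k5, k6⟩ := fun_const (sub_ne_zero.2 G.uB.symm)
    (sub_ne_zero.2 G.vA.symm) (fun j => sub_ne_zero.2 (V j).uz) (fun j => sub_ne_zero.2 (V j).vz)
    (fun j e => (V j).uB (sub_left_inj.1 e)) (fun j => (V j).su) (fun j => (V j).sv) rel
    (κ := fun j => a1 .B (.f (j, 0)) - a1 .B (.f (j, 1))) fun j => by
      have x0 := ex .B (.f (j, 0))
      have x1 := ex .B (.f (j, 1))
      rw [f0, map_one] at x0 x1
      have := hKAP _ _ m N z (P j) (t .B) (f (j, 0)) (f (j, 1)) _ _ S.2 G.off (V j).off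
        (by rw [tB, Cv.c_apply, Cv.vl_spec G.rat R.v]) (by rw [← e0, add_assoc]; exact f2 _)
        (by rw [← e1, add_assoc]; exact f2 _) (zP j) x0 x1
      apply (algebraMap F (Kb F)).injective
      simp only [map_mul, map_sub, Cv.vl_spec G.rat R.u, Cv.vl_spec G.rat R.v, Cv.vl_spec R.B R.u,
        Cv.vl_spec (V j).rat R.u, Cv.vl_spec (V j).rat R.v]
      linear_combination this
  refine ⟨⟨Z, t, h, fun
    | .sB => C.vl N.B N.u - C.vl z N.u
    | .σ j => C.vl (P j) N.u - C.vl z N.u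
    | .d i => d i
    | .q i => q i
    | .a j => a j, a0, a1,
    ⟨rat, t0, t1, fun a => (tb a).mono (by omega), fun a i => (hr a i).1, fun a i => (hr a i).2, ex⟩,
    sep, ⟨h00, (fun_ex1 (t1 .B) h00 (ex .B (.h 0))).trans h03, (v0 _ _).trans h13, f0,
      fun I l => z0 _ _ _ nofun (g2 I l) ?_, c0,
      fun j => (fun_ex1 (t1 .B) (c0 j) (ex .B (.c j))).trans (c3 j), (v0 _ _).trans ?_,
      fun l I => z0 _ _ _ nofun (f2 I) ?_, fun l I => (v0 _ _).trans (g3 I l),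
      fun l I l' e => z0 _ _ _ nofun (g2 I l') ?_, sub_ne_zero.2 G.uB.symm, k1, k2, k3, k4,
      fun j => sub_ne_zero.1 (k5 j), k6⟩, tB, rfl, fun _ => rfl, fun i => hZ ▸ (mh i).2,
    fun I => hZ ▸ hΦ I ▸ mf I, fun I l => hZ ▸ hΦ I ▸ mg I l, fun j => hT j ▸ c2 j⟩⟩
  · show (pt (Z l) + (pt N.B + Φ I)) N.B < 2
    rw [Finsupp.add_apply, Finsupp.add_apply, ΦB, BB, pt_ne (Ne.symm (Z2 l).2.1)]
    omega
  · exact (Cv.vl_sub R.B uB (Cv.c_mem_O _ _)).trans (by rw [Cv.vl_c])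
  · show (pt N.B + (pt N.B + Φ I)) (Z l) < 1
    rw [Finsupp.add_apply, Finsupp.add_apply, ΦZ, BZ]
    omega
  · show (pt (Z l') + (pt N.B + Φ I)) (Z l) < 1
    rw [Finsupp.add_apply, Finsupp.add_apply, ΦZ, BZ, pt_ne (Z1.ne e.symm)]
    omega

end

end Pool.Agent.P.MP_9344a7_nt.Gt
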