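import Pool.Agent.P.MP_9344a7_nt.Gt.Iface

/-! Steps M2, HH, TEL. -/

set_option linter.unusedSectionVars false
set_option linter.unusedVariables false

namespace Pool.Agent.P.MP_9344a7_nt.Gt

open WithZero Module
open Pool.Agent.P.MP_6f117a_ag (Place FF)
open Pool.Agent.P.MP_ab3ecb_nt.Inv
open Pool.Agent.P.MP_9344a7_nt.R (Fr rr_fd)
open Pool.Agent.P.MP_9344a7_nt.Tor (Prd ExF IsUP AL)
open scoped Classical PowerSeries IntermediateField Polynomial Polynomial.Bivariate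

section

section m2

variable {F : Type} [Field F] [Fintype F] {m : ℕ} {C D : Cv F (m + 3)} {T : Tr C D}
  {N : Net (Kb F) C.E m} {N' : Net (Kb F) D.E m} {z P Q R T0 T1 : C.Pl}
  {Z0 Z1 Z2 Z3 : Dv (Kb F) C.E}

lemma m2_off (h : T.Mt N N') (hP : T.Ok P) (o : N.Off P) (e : N'.Y (T.φ P) = 0) :
    N'.Off (T.φ P) := ⟨e, fun i => h.c i ▸ (h.oc i).ne hP (o.2 i)⟩

lemma m2_S (h : T.Mt N N') : N.S ∈ T.S ∧ T.mp N.S = N'.S :=
  ⟨sum_mem fun i _ => (h.oc i).pt_mem, by simp only [Net.S, map_sum, Tr.mp_pt, h.c]⟩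

lemma m2_cert (h : T.Mt N N') (hz : T.Ok z) (hP : T.Ok P) (hQ : T.Ok Q) (hR : T.Ok R)
    (h0 : T.Ok T0) (h1 : T.Ok T1) (s0 : Z0 ∈ T.S) (s1 : Z1 ∈ T.S) (s2 : Z2 ∈ T.S) (s3 : Z3 ∈ T.S)
    (c : N.Cert z P Q R T0 T1 Z0 Z1 Z2 Z3) :
    N'.Cert (T.φ z) (T.φ P) (T.φ Q) (T.φ R) (T.φ T0) (T.φ T1) (T.mp Z0) (T.mp Z1) (T.mp Z2)
      (T.mp Z3) := by
  obtain ⟨a, b⟩ := m2_S h
  have mz := hz.pt_mem
  have mP := hP.pt_mem
  have mQ := hQ.pt_mem
  have mR := hR.pt_mem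
  have mA := h.oA.pt_mem
  have mB := h.oB.pt_mem
  have mT := add_mem h0.pt_mem h1.pt_mem
  have m3 := add_mem mB (add_mem (add_mem (add_mem mA mz) mP) a)
  have e0 := Tr.mp_pr (sub_mem (add_mem mT s0) (add_mem (add_mem mR mB)
    (add_mem (add_mem mA mP) a))) c.e0
  have e1 := Tr.mp_pr (sub_mem (add_mem mT s1) (add_mem (add_mem mQ mB)
    (add_mem (add_mem mz mP) a))) c.e1
  have e2 := Tr.mp_pr (sub_mem (add_mem mT s2) (add_mem (add_mem mQ mR)
    (add_mem (add_mem mz mA) a))) c.e2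
  have e3 := Tr.mp_pr (sub_mem (add_mem h0.pt_mem s3) m3) c.e3
  have nR := (Tr.mp_apply (add_mem mT s0) hR).trans c.nR
  have nQ := (Tr.mp_apply (add_mem mT s1) hQ).trans c.nQ
  have n0 := (Tr.mp_apply m3 h0).trans c.n0
  simp only [map_sub, map_add, Tr.mp_pt, b, h.A, h.B] at e0 e1 e2 e3 nR nQ n0
  exact ⟨⟨Tr.mp_nonneg c.p0, Tr.mp_nonneg c.p1, e0, e1, nR, nQ⟩, Tr.mp_nonneg c.p2,
    Tr.mp_nonneg c.p3, e2, e3, n0, (Tr.mp_apply s3 h1).trans c.n1⟩

lemma m2_far (I : I12) (d : Fin 2 ⊕ Fin m) (l : Fin (m + 3)) : far I d ≠ .Z l := by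
  obtain ⟨j, r⟩ := I
  rcases d with d | i
  · fin_cases r <;> fin_cases d <;> exact fun e => nomatch e
  · exact fun e => nomatch e

lemma m2_cfar (j : J4) (d : Fin 3 ⊕ Fin m) (l : Fin (m + 3)) : cfar j d ≠ .Z l := by
  rcases d with d | i
  · fin_cases d <;> exact fun e => nomatch e
  · exact fun e => nomatch e

lemma m2_alg {K : Type} [Field K] {s00 s01 s10 s11 a0 a1 b0 b1 r0 r1 : K} (h0 : a0 ≠ 0)
    (h1 : a1 ≠ 0) (e00 : s00 * a0 = b0 * r0) (e01 : s01 * a0 = b0 * r1) (e10 : s10 * a1 = b1 * r0)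
    (e11 : s11 * a1 = b1 * r1) : s00 * s11 = s01 * s10 :=
  mul_right_cancel₀ (mul_ne_zero h0 h1) (by
    linear_combination s11 * a1 * e00 + b0 * r0 * e11 - s10 * a1 * e01 - b0 * r1 * e10)

end m2

theorem p_M2 (hNF : S_NF) (hGF : S_GF) (hTRF : S_TRF) (hMK : S_MK) (hME : S_ME) (hFUN : S_FUN) (hCF : S_CF) :
    S_M2 := by
  intro m C1
  obtain ⟨n, p1, hF⟩ := hFUN m C1
  obtain ⟨n1, hC⟩ := hCF m n
  have : Nonempty (Bs m) := ⟨.B⟩
  obtain ⟨C2, p2, hT⟩ := hTRF (m + 3) n Sc (Un m) (Bs m) (Fn m) (Pn m) bs Sep (HM m) (SM m)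
    (hME m).1 (hME m).2 (hMK m)
  refine ⟨2 * C2, p1 + p2 + 2 * ((n1 + 5 * (m + 4)) * C2), ?_⟩
  intro F _ _ C D T N N' z P hp hM hS ht hz hzB hzY hP he
  obtain ⟨Δ⟩ := hF F C N z P (by omega) hM ht.rn ht.sim hz (fun j => (hP j).1) he
  obtain ⟨X0, c0, hX0⟩ := hC F C N z P Δ ht.rn hz fun j => (hP j).1
  have nf := hNF _ _ m N'
  obtain ⟨Xu, cu, hu⟩ := nf.bu.fibre nf.tu (ev (T.φ z) N'.u)
  obtain ⟨Xv, cv, hv⟩ := nf.bv.fibre nf.tv (ev (T.φ z) N'.v)
  have cY : N'.Y.support.card ≤ m + 4 := by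
    have := card_support_le ((add_nonneg (pt_nonneg _) (pt_nonneg _)).trans N'.le)
    rw [nf.deg] at this
    exact_mod_cast this
  obtain ⟨X, hX⟩ : ∃ X, X = T.B ∪ X0 ∪ (N'.Y.support ∪ Xu ∪ Xv).image T.φ' := ⟨_, rfl⟩
  have cX : X.card * C2 ≤ Fintype.card F := by
    have a1 := Finset.card_union_le (T.B ∪ X0) ((N'.Y.support ∪ Xu ∪ Xv).image T.φ')
    have a2 := Finset.card_union_le T.B X0
    have a3 := Finset.card_image_le (s := N'.Y.support ∪ Xu ∪ Xv) (f := T.φ')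
    have a4 := Finset.card_union_le (N'.Y.support ∪ Xu) Xv
    have a5 := Finset.card_union_le N'.Y.support Xu
    have a6 : X.card ≤ T.B.card + (n1 + 5 * (m + 4)) := by
      rw [hX]
      omega
    have a7 := Nat.mul_le_mul_right C2 a6
    have a8 := hS.1
    have a9 := char_le (F := F)
    rw [add_mul] at a7
    rw [mul_left_comm] at a8
    omega
  obtain ⟨y, p, hN, hs⟩ := hT F C Δ.c _ Δ.t _ Δ.a0 Δ.a1 X (by omega) Δ.loc Δ.sep Δ.hm cX
  have key := hX0 X y p (hX ▸ Finset.subset_union_right.trans Finset.subset_union_left) hN hs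
  have oz : T.Ok z := ⟨hz.rat, hzB⟩
  have oP : ∀ j, T.Ok (P j) := fun j => ⟨(hP j).1.rat, (hP j).2.1⟩
  have out : ∀ i, p i ∉ X → T.Ok (p i) ∧ N'.Y (T.φ (p i)) = 0 ∧
      ev (T.φ (p i)) N'.u ≠ ev (T.φ z) N'.u ∧ ev (T.φ (p i)) N'.v ≠ ev (T.φ z) N'.v := fun i h => by
    rw [hX, Finset.mem_union, Finset.mem_union, not_or, not_or] at h
    have o : T.Ok (p i) := ⟨hN.rat i, h.1.1⟩
    have e := o.not_mem h.2
    rw [Finset.mem_union, Finset.mem_union, not_or, not_or] at e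
    exact ⟨o, Finsupp.notMem_support_iff.1 e.1.1, (hu _ e.1.2).2, (hv _ e.2).2⟩
  have ok : ∀ i, (∀ l, bs i ≠ .Z l) → T.Ok (p i) := fun i h => by
    rcases hN.dic i with e | e
    · exact (out i e).1
    · rw [e]
      generalize bs i = a at h
      cases a with
      | B => exact ht.oB
      | A => exact ht.oA
      | z => exact oz
      | P j => exact oP j
      | c i => exact ht.oc i
      | Z l => exact absurd rfl (h l)
  have sF : ∀ I, ∑ d, pt (p (.F I d)) ∈ T.S := fun I =>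
    sum_mem fun d _ => (ok (.F I d) (m2_far I d)).pt_mem
  have con : ∀ j : J4, N'.Conc (T.φ z) (T.φ (P j)) (T.φ (p (.Q j.1))) (T.φ (p (.R j.2))) :=
    fun j => by
      obtain ⟨g, c, hQ, hR, h0⟩ := key j
      obtain ⟨oQ, yQ, uQ, vQ⟩ := out _ hQ
      obtain ⟨oR, yR, -, -⟩ := out _ hR
      exact hGF _ _ m N' _ _ _ _ _ _ _ _ _ _
        ⟨m2_off ht oz g.oz hzY, m2_off ht (oP j) g.oP (hP j).2.2, m2_off ht oQ g.oQ yQ,
          m2_off ht oR g.oR yR, oz.ne (oP j) g.zP, oz.ne oQ g.zQ, oz.ne oR g.zR,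
          (oP j).ne oQ g.PQ, (oP j).ne oR g.PR, oQ.ne oR g.QR, uQ, vQ⟩
        (m2_cert ht oz (oP j) oQ oR (out _ (h0 0)).1 (out _ (h0 1)).1 (sF _) (sF _) (sF _)
          (sum_mem fun d _ => (ok (.C j d) (m2_cfar j d)).pt_mem) c)
  refine (algebraMap F (Kb F)).injective ?_
  simp only [map_mul, map_sub, Cv.vl_spec oz.rat ht.rn'.u, fun j => Cv.vl_spec (oP j).rat ht.rn'.u]
  exact m2_alg (sub_ne_zero.2 (out _ (key (0, 0)).2.2.1).2.2.2)
    (sub_ne_zero.2 (out _ (key (1, 1)).2.2.1).2.2.2) (con (0, 0)) (con (0, 1)) (con (1, 0))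
    (con (1, 1))

end

section

theorem hh_sqrt (hFIX : S_FIX) {K : Type} [Field K] [CharZero K] {f : K⟦X⟧} {c : K} (hc : c ≠ 0)
    (hf : PowerSeries.constantCoeff f = c ^ 2) : ∃ w : K⟦X⟧, w ^ 2 = f := by
  obtain ⟨g, hg⟩ : PowerSeries.X ∣ f - PowerSeries.C (c ^ 2) :=
    PowerSeries.X_dvd_iff.2 (by rw [map_sub, hf, PowerSeries.constantCoeff_C, sub_self])
  obtain ⟨y, hy⟩ := hFIX K Unit
    (fun y _ => PowerSeries.C (2 * c)⁻¹ * (g - PowerSeries.X * y () ^ 2)) fun n a b h _ => by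
      obtain ⟨d, hd⟩ := h ()
      exact ⟨-(PowerSeries.C (2 * c)⁻¹ * d * (a () + b ())), by
        linear_combination
          (-(PowerSeries.C (2 * c)⁻¹ * PowerSeries.X * (a () + b ()))) * hd⟩
  have h1 : PowerSeries.C (2 * c)⁻¹ * (g - PowerSeries.X * y () ^ 2) = y () := congrFun hy ()
  have h2 : PowerSeries.C (2 * c)⁻¹ * (2 * PowerSeries.C c) = (1 : K⟦X⟧) := by
    rw [← map_ofNat (PowerSeries.C (R := K)) 2, ← map_mul, ← map_mul,
      inv_mul_cancel₀ (mul_ne_zero two_ne_zero hc), map_one]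
  rw [map_pow] at hg
  exact ⟨PowerSeries.C c + PowerSeries.X * y (), by
    linear_combination -hg - 2 * PowerSeries.C c * PowerSeries.X * h1 +
      PowerSeries.X * (g - PowerSeries.X * y () ^ 2) * h2⟩

/-- The conditions on the constants. -/
def hh_H (M : ℕ) : PrdH (Fin M × Fin 2 × Fin 5) Unit Unit := fun _ _ c a0 _ =>
  ∀ j l, c (j, 0, 0) ≠ 0 ∧ c (j, l, 4) - c (j, l, 3) ≠ 0 ∧ a0 () () = c (j, l, 4)

/-- The system. -/
def hh_S (M : ℕ) : PrdS (Fin M × Fin 2 × Fin 5) (Option (Fin M × Fin 2 × Fin 2)) (Fin M) Unit :=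
  fun _ _ c y x V => ∀ j l, y none ≠ 0 ∧ x j ≠ 0 ∧
    x j * (c (j, 0, 0) ^ 2 + c (j, 0, 1) * y none ^ 2) = y none ^ 2 ∧
    y (some (j, l, 0)) ^ 2 = c (j, 0, 0) ^ 2 + (c (j, 0, 1) - c (j, l, 2)) * y none ^ 2 ∧
    y (some (j, l, 1)) ^ 2 = (V j () - c (j, l, 3)) * (c (j, l, 4) - c (j, l, 3))

theorem hh_exH (M : ℕ) : ExH (hh_H M) := by
  refine .all fun j => .all fun l => .and (.ne ?_ ?_) (.and (.ne ?_ ?_) (.eq ?_ ?_)) <;>
    intro L L' _ _ φ x <;> simp only [map_zero, map_sub]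

theorem hh_exS (M : ℕ) : ExS (hh_S M) := by
  refine .all fun j => .all fun l => .and (.ne ?_ ?_) (.and (.ne ?_ ?_) (.and (.eq ?_ ?_)
    (.and (.eq ?_ ?_) (.eq ?_ ?_)))) <;>
    intro L L' _ _ φ x <;> simp only [map_zero, map_sub, map_add, map_mul, map_pow]

theorem hh_solv (hFIX : S_FIX) (hLIP : S_LIP) (M : ℕ) : Solv (fun _ => ()) (hh_H M) (hh_S M) := by
  intro K _ _ c r h
  have h1 : ∀ j : Fin M, ∃ x : K⟦X⟧, PowerSeries.constantCoeff x = 0 ∧
      x * (PowerSeries.C (c (j, 0, 0)) ^ 2 + PowerSeries.C (c (j, 0, 1)) * PowerSeries.X ^ 2) =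
        PowerSeries.X ^ 2 := fun j =>
    ⟨PowerSeries.X ^ 2 *
      (PowerSeries.C (c (j, 0, 0)) ^ 2 + PowerSeries.C (c (j, 0, 1)) * PowerSeries.X ^ 2)⁻¹,
      by simp, by rw [mul_assoc, PowerSeries.inv_mul_cancel _ (by simpa using (h j 0).1), mul_one]⟩
  choose x x0 x1 using h1
  have h2 := fun (j : Fin M) (l : Fin 2) => hh_sqrt hFIX (f := PowerSeries.C (c (j, 0, 0)) ^ 2 +
    (PowerSeries.C (c (j, 0, 1)) - PowerSeries.C (c (j, l, 2))) * PowerSeries.X ^ 2) (h j l).1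
    (by simp)
  have h3 := fun (j : Fin M) (l : Fin 2) => hh_sqrt hFIX
    (f := ((r () ()).subst (x j) - PowerSeries.C (c (j, l, 3))) *
      (PowerSeries.C (c (j, l, 4)) - PowerSeries.C (c (j, l, 3)))) (h j l).2.1 (by
      have e : PowerSeries.coeff 0 (r () ()) = c (j, l, 4) := (h j l).2.2
      rw [map_mul, map_sub, map_sub, ((hLIP K _).1 _ (x0 j)).1, e, sq]
      simp only [PowerSeries.constantCoeff_C])
  choose w hw using h2
  choose w' hw' using h3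
  refine ⟨fun o => o.elim PowerSeries.X fun p => ![w p.1 p.2.1, w' p.1 p.2.1] p.2.2, x, x0,
    fun j l => ⟨PowerSeries.X_ne_zero, fun e => ?_, x1 j, hw j l, hw' j l⟩⟩
  have := x1 j
  rw [e, zero_mul] at this
  exact pow_ne_zero 2 PowerSeries.X_ne_zero this.symm

theorem p_HH (hTRF : S_TRF) (hFIX : S_FIX) (hLIP : S_LIP) :
    S_HH := by
  intro g n M
  obtain ⟨C0, p0, h⟩ := hTRF g n _ _ _ _ _ _ (fun _ _ => False) _ _ (hh_exH M) (hh_exS M)
    (hh_solv hFIX hLIP M)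
  refine ⟨C0, p0, fun F _ _ C A u v ε γ a b X hp hA hu hv bu bv ho hε hb hX => ?_⟩
  have u0 : u ≠ 0 := ne_zero_of_ord (by rw [ho]; decide)
  have u1 : A.v u = exp 1 := (ord_eq_iff u0).1 ho
  have u2 : A.v u⁻¹ = exp (-1) := by rw [map_inv₀, u1, exp_neg]
  have sp : ∀ z ∈ C.O A, A.v (z - C.c (C.vl A z)) < 1 := fun z hz => by
    rw [Cv.c_apply, Cv.vl_spec hA hz.1]
    exact ev_spec hz.2
  have z0 : (v - C.c (C.vl A v)) * u ∈ C.O A := by
    refine ⟨mul_mem (sub_mem hv.1 (Cv.c_mem _)) hu, ?_⟩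
    have := sp v hv
    rw [← exp_zero, lt_exp_iff_le] at this
    change A.v _ ≤ 1
    rw [map_mul, u1]
    exact (mul_le_mul_left this _).trans_eq (by rw [← exp_add]; rfl)
  obtain ⟨y, P, hN, hS⟩ := h F C (fun p => ![ε p.1, γ p.1, a p.1 p.2.1, b p.1 p.2.1, C.vl A v] p.2.2)
    (fun _ => A) (fun _ => u⁻¹) (fun _ _ => v) (fun _ _ => C.vl A v)
    (fun _ _ => C.vl A ((v - C.c (C.vl A v)) * u)) X hp
    ⟨fun _ => hA, fun _ => inv_mem hu, fun _ => by rw [ord_inv, ho, neg_neg], fun _ => bu.inv,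
      fun _ _ => hv, fun _ _ => bv, fun _ _ => by
        rw [show ∀ e : C.E, v - C.c (C.vl A v) - e * u⁻¹ =
          u⁻¹ * ((v - C.c (C.vl A v)) * u - e) from fun e => by field_simp, map_mul, u2]
        exact mul_lt_of_lt_one_right exp_pos (sp _ z0)⟩
    (fun _ _ => False.elim) (fun j l => ⟨hε j, sub_ne_zero.2 (hb j l).symm, rfl⟩) hX
  refine ⟨(y none ^ 2)⁻¹, P, fun j => ?_⟩
  obtain ⟨s0, x0, e1, -⟩ := hS j 0
  have p1 : (P j).v u⁻¹ = 1 := le_antisymm (hN.t0 j) (not_lt.1 fun e =>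
    x0 ((Cv.vl_eq_zero (hN.rat j) ⟨C.E0.inv_mem hu, hN.t0 j⟩).2 e))
  have p2 : C.vl (P j) u = ε j ^ 2 * (y none ^ 2)⁻¹ + γ j := by
    have e2 : C.vl (P j) u⁻¹ * (ε j ^ 2 + γ j * y none ^ 2) = y none ^ 2 := e1
    have e3 : C.vl (P j) u⁻¹ ≠ 0 := x0
    rw [← inv_inv u, Cv.vl_inv (hN.rat j) (inv_mem hu) p1]
    generalize C.vl (P j) u⁻¹ = x at e2 e3
    field_simp
    linear_combination -e2
  refine ⟨hN.rat j, (hN.dic j).resolve_right fun e => ?_, p2, fun l => ⟨?_, ?_⟩⟩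
  · rw [e, u2, ← exp_zero, exp_inj] at p1
    omega
  · have e2 : y (some (j, l, 0)) ^ 2 = ε j ^ 2 + (γ j - a j l) * y none ^ 2 := (hS j l).2.2.2.1
    refine ⟨y (some (j, l, 0)) / y none, ?_⟩
    rw [p2]
    field_simp
    linear_combination -e2
  · exact ⟨y (some (j, l, 1)), ((sq _).symm.trans (hS j l).2.2.2.2).symm⟩

end

section

lemma tel_top {F : Type} [Field F] [Fintype F] {K : ℕ} (hK : K < ringChar F)
    (H : AddSubgroup F) (h : Fintype.card F ≤ K * Nat.card H) : H = ⊤ := by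
  obtain ⟨n, hp, hn⟩ := FiniteField.card F (ringChar F)
  have h1 : H.index * Nat.card H = Fintype.card F := by
    rw [H.index_mul_card, Nat.card_eq_fintype_card]
  have h2 : H.index ≤ K := Nat.le_of_mul_le_mul_right (h1.le.trans h) Nat.card_pos
  obtain ⟨j, -, hj⟩ := (Nat.dvd_prime_pow hp).1 (show H.index ∣ ringChar F ^ (n : ℕ) from
    ⟨_, by rw [← hn, h1]⟩)
  rcases j with _ | j
  · exact AddSubgroup.index_eq_one.1 (by simpa using hj)
  · have := Nat.le_self_pow (show j + 1 ≠ 0 by omega) (ringChar F)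
    omega

lemma tel_aff {F : Type} [Field F] (c d : ℕ → F) (r : ℕ) : ∃ μ, ∀ w : ℕ → F,
    (∀ i < r, w (i + 1) = c i * w i + d i) → w r = (∏ i ∈ Finset.range r, c i) * w 0 + μ := by
  induction r with
  | zero => exact ⟨0, fun w _ => by simp⟩
  | succ r ih =>
    obtain ⟨μ, h⟩ := ih
    refine ⟨c r * μ + d r, fun w hw => ?_⟩
    rw [hw r (by omega), h w fun i hi => hw i (by omega), Finset.prod_range_succ]
    ring

lemma tel_ext {Pt : Type} {G : Pt → Prop} {z : Pt} (hz : G z) {r : ℕ} (a : Fin r → Pt)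
    (ha : ∀ i, G (a i)) : ∃ a' : ℕ → Pt, (∀ i, G (a' i)) ∧ ∀ i : Fin r, a' i = a i :=
  ⟨fun i => if h : i < r then a ⟨i, h⟩ else z, fun i => by
    by_cases h : i < r
    · simpa only [dif_pos h] using ha _
    · simpa only [dif_neg h] using hz, fun i => dif_pos i.2⟩

section

variable {F Pt : Type} [Field F] (u u' : Pt → F) (G : Pt → Prop) (V : Pt → Pt → Prop)

/-- Two points related by the homothety of ratio four. -/
def tel_Pair (z P N : Pt) : Prop := V z P ∧ V z N ∧ u P - u z = 4 * (u N - u z)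

/-- Two families of points. -/
def tel_HH (K : ℕ) : Prop := ∀ (g g' : ℕ → F) (c1 c2 c3 c4 : ℕ → Pt) (S : Finset F),
  (∀ i, G (c1 i)) → (∀ i, G (c2 i)) → (∀ i, G (c3 i)) → (∀ i, G (c4 i)) → S.card ≤ 1 →
  ∃ (τ : F) (P N : ℕ → Pt), ∀ i < K, u (P i) = τ + g i ∧ 4 * u (N i) = τ + g' i ∧
    V (c1 i) (P i) ∧ V (c2 i) (P i) ∧ V (c3 i) (N i) ∧ V (c4 i) (N i) ∧ u' (P i) ∉ S ∧ u' (N i) ∉ S

variable {u u' G V}

lemma tel_hh {K : ℕ} (hK : 0 < K) (h2 : (2 : F) ≠ 0)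
    (hh : ∀ (ε γ : Fin (K + K) → F) (ce : Fin (K + K) → Fin 2 → Pt) (S : Finset F), (∀ j, ε j ≠ 0) →
      (∀ j l, G (ce j l)) → S.card ≤ K + K → ∃ (τ : F) (P : Fin (K + K) → Pt), ∀ j,
        u (P j) = ε j ^ 2 * τ + γ j ∧ (∀ l, V (ce j l) (P j)) ∧ u' (P j) ∉ S) :
    tel_HH u u' G V K := by
  intro g g' c1 c2 c3 c4 S h1 h3 h4 h5 hS
  obtain ⟨τ, Q, hQ⟩ := hh (Fin.addCases (fun _ => 1) fun _ => 2⁻¹)
    (Fin.addCases (fun i => g i) fun i => g' i / 4)
    (Fin.addCases (fun i => ![c1 i, c2 i]) fun i => ![c3 i, c4 i]) S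
    (fun j => by
      refine Fin.addCases (fun i => ?_) (fun i => ?_) j
      · rw [Fin.addCases_left]
        exact one_ne_zero
      · rw [Fin.addCases_right]
        exact inv_ne_zero h2)
    (fun j => by
      refine Fin.addCases (fun i => ?_) (fun i => ?_) j
      · rw [Fin.addCases_left]
        exact Fin.forall_fin_two.2 ⟨h1 i, h3 i⟩
      · rw [Fin.addCases_right]
        exact Fin.forall_fin_two.2 ⟨h4 i, h5 i⟩) (by omega)
  refine ⟨τ, fun i => if h : i < K then Q (Fin.castAdd K ⟨i, h⟩) else c1 0,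
    fun i => if h : i < K then Q (Fin.natAdd K ⟨i, h⟩) else c1 0, fun i hi => ?_⟩
  obtain ⟨a1, a2, a3⟩ := hQ (Fin.castAdd K ⟨i, hi⟩)
  obtain ⟨b1, b2, b3⟩ := hQ (Fin.natAdd K ⟨i, hi⟩)
  simp only [Fin.addCases_left, Fin.addCases_right] at a1 a2 b1 b2
  simp only [dif_pos hi]
  have h6 : (4 : F) ≠ 0 := by
    rw [show (4 : F) = 2 * 2 by norm_num]
    exact mul_ne_zero h2 h2
  refine ⟨by rw [a1]; ring, ?_, a2 0, a2 1, b2 0, b2 1, a3, b3⟩
  rw [b1]
  field_simp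
  ring

lemma tel_chain {K r : ℕ} (hh : tel_HH u u' G V K) (hr : r < K) {a b : ℕ → Pt} (ha : ∀ i, G (a i))
    (hb : ∀ i, G (b i)) (s : F) : ∃ P N : ℕ → Pt, P r = P 0 ∧ u' (P 0) ≠ s ∧ ∀ i < r,
      u (P i) = u (P 0) + 3 * ∑ l ∈ Finset.range i, (u (b l) - u (a l)) ∧
      tel_Pair u V (b i) (P i) (N i) ∧ ((i + 1 < r ∨ ∑ l ∈ Finset.range r, u (a l) =
        ∑ l ∈ Finset.range r, u (b l)) → tel_Pair u V (a i) (P (i + 1)) (N i)) := by
  obtain ⟨τ, P, N, h⟩ := hh (fun i => 3 * ∑ l ∈ Finset.range i, (u (b l) - u (a l)))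
    (fun i => 3 * ∑ l ∈ Finset.range i, (u (b l) - u (a l)) + 3 * u (b i)) b
    (fun i => a (if i = 0 then r - 1 else i - 1)) b a {s} hb (fun _ => ha _) hb ha (by simp)
  obtain ⟨z1, -, -, z2, -, -, z3, -⟩ := h 0 (by omega)
  rw [Finset.sum_range_zero, mul_zero, add_zero] at z1
  refine ⟨fun i => if i = r then P 0 else P i, N, by simp, by simpa using z3, fun i hi => ?_⟩
  obtain ⟨a1, a2, a3, -, a4, a5, -, -⟩ := h i (by omega)
  simp only [if_neg hi.ne, ite_self]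
  refine ⟨by rw [a1, z1], ⟨a3, a4, by linear_combination a1 - a2⟩, fun h1 => ?_⟩
  by_cases e : i + 1 = r
  · rw [if_pos e]
    subst e
    have h2 := h1.resolve_left (lt_irrefl _)
    rw [Finset.sum_range_succ, Finset.sum_range_succ] at h2
    rw [Finset.sum_sub_distrib] at a2
    exact ⟨by simpa using z2, a5, by linear_combination z1 - a2 + 3 * h2⟩
  · rw [if_neg e]
    obtain ⟨b1, -, -, b2, -⟩ := h (i + 1) (by omega)
    rw [Finset.sum_range_succ] at b1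
    exact ⟨by simpa using b2, a5, by linear_combination b1 - a2⟩

lemma tel_rho {K : ℕ} (hh : tel_HH u u' G V K) (hK : 0 < K)
    (m2 : ∀ z P0 P1 P2 P3, G z → V z P0 → V z P1 → V z P2 → V z P3 →
      (u P0 - u z) * (u P3 - u z) = (u P1 - u z) * (u P2 - u z) →
      (u' P0 - u' z) * (u' P3 - u' z) = (u' P1 - u' z) * (u' P2 - u' z)) (z : Pt) :
    ∃ ρ : Fˣ, G z → ∀ P N, tel_Pair u V z P N → u' P - u' z = ρ * (u' N - u' z) := by
  by_cases hz : G z
  · obtain ⟨τ, P, N, h⟩ := hh (fun _ => 0) (fun _ => 3 * u z) (fun _ => z) (fun _ => z)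
      (fun _ => z) (fun _ => z) {u' z} (fun _ => hz) (fun _ => hz) (fun _ => hz) (fun _ => hz)
      (by simp)
    obtain ⟨a1, a2, a3, -, a4, -, a5, a6⟩ := h 0 hK
    rw [Finset.mem_singleton, ← sub_eq_zero] at a5 a6
    refine ⟨Units.mk0 _ (div_ne_zero a5 a6), fun _ P' N' h' => ?_⟩
    have := m2 z P' (P 0) N' (N 0) hz h'.1 a3 h'.2.1 a4 (by
      rw [h'.2.2]
      linear_combination (u z - u N') * (a1 - a2))
    rw [Units.val_mk0, div_mul_eq_mul_div, eq_div_iff a6, this]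
  · exact ⟨1, fun h => (hz h).elim⟩

end

theorem p_TEL (hFRE : Tor.S_FRE) :
    S_TEL := by
  intro C0 n
  refine ⟨(9 * C0 + n + 10) + (9 * C0 + n + 10), C0 + n + 3,
    fun F Pt _ _ u u' G V hp dens m2 hh0 fib => ?_⟩
  obtain ⟨k, hpr, hk⟩ := FiniteField.card F (ringChar F)
  have hc : ∀ j : ℕ, 0 < j → j ≤ n + 3 → (j : F) ≠ 0 := fun j h1 h2 e => by
    have := Nat.le_of_dvd h1 ((ringChar.spec F j).1 e)
    omega
  have hh := tel_hh (by omega) (by exact_mod_cast hc 2 (by omega) (by omega)) hh0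
  choose ρ hρ using tel_rho hh (by omega) m2
  have step : ∀ a b P P' N, G a → G b → tel_Pair u V b P N → tel_Pair u V a P' N →
      u' P' = (ρ a / ρ b : F) * u' P + (u' a - ρ a / ρ b * u' b + ρ a * (u' b - u' a)) :=
    fun a b P P' N ha hb h1 h2 => by
      have e1 := hρ b hb P N h1
      have e2 := hρ a ha P' N h2
      have e3 := (ρ b).ne_zero
      field_simp
      linear_combination (ρ b : F) * e2 - (ρ a : F) * e1
  obtain ⟨z0, hz0, -⟩ := dens ∅ (by simp)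
  set D : Finset F := Finset.univ.filter (fun d => ∃ z, G z ∧ u z = d) with hD
  have hDm : ∀ d, d ∈ D ↔ ∃ z, G z ∧ u z = d := fun d => by simp [hD]
  have hcard : Fintype.card F ≤ C0 * D.card := by
    by_contra h
    obtain ⟨z, h1, h2⟩ := dens D (by rw [mul_comm]; omega)
    exact h2 ((hDm _).2 ⟨z, h1, rfl⟩)
  have fre : ∀ (A : Type) [AddCommGroup A] (f : Pt → A), (∀ r ≤ 9 * C0 + 9, ∀ a b : ℕ → Pt,
      (∀ i, G (a i)) → (∀ i, G (b i)) → ∑ l ∈ Finset.range r, u (a l) =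
      ∑ l ∈ Finset.range r, u (b l) → ∑ l ∈ Finset.range r, f (a l) =
      ∑ l ∈ Finset.range r, f (b l)) → ∃ (Λ : F →+ A) (e : A), ∀ z, G z → f z = Λ (u z) + e := by
    intro A _ f hf
    have : Nonempty Pt := ⟨z0⟩
    choose! s hs using fun d => (hDm d).1
    obtain ⟨Λ, e, h⟩ := hFRE C0 F A D (fun d => f (s d)) (tel_top (by omega)) hcard (by
      intro m hm a b ha hb hab
      obtain ⟨a', a1, a2⟩ := tel_ext hz0 _ fun i => (hs _ (ha i)).1
      obtain ⟨b', b1, b2⟩ := tel_ext hz0 _ fun i => (hs _ (hb i)).1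
      have := hf m hm a' b' a1 b1 (by
        simp only [Finset.sum_range, a2, b2, (hs _ (ha _)).2, (hs _ (hb _)).2, hab])
      simpa only [Finset.sum_range, a2, b2] using this)
    refine ⟨Λ, e, fun z hz => ?_⟩
    have h1 := (hDm _).2 ⟨z, hz, rfl⟩
    have := hf 1 (by omega) (fun _ => z) (fun _ => s (u z)) (fun _ => hz) (fun _ => (hs _ h1).1)
      (by simp only [Finset.sum_range_one, (hs _ h1).2])
    rw [Finset.sum_range_one, Finset.sum_range_one] at this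
    rw [this, h _ h1]
  obtain ⟨Λ, e, he⟩ := fre (Additive Fˣ) (fun z => Additive.ofMul (ρ z)) (by
    intro r hr a b ha hb hab
    obtain ⟨μ, hμ⟩ := tel_aff (fun i => (ρ (a i) / ρ (b i) : F)) (fun i => u' (a i) -
      ρ (a i) / ρ (b i) * u' (b i) + ρ (a i) * (u' (b i) - u' (a i))) r
    obtain ⟨P, N, h1, h2, h3⟩ := tel_chain hh (r := r) (by omega) ha hb
      (μ / (1 - ∏ i ∈ Finset.range r, (ρ (a i) / ρ (b i) : F)))
    have h4 := hμ (fun i => u' (P i)) fun i hi =>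
      step _ _ _ _ _ (ha i) (hb i) (h3 i hi).2.1 ((h3 i hi).2.2 (Or.inr hab))
    rw [h1] at h4
    have h5 : ∏ i ∈ Finset.range r, (ρ (a i) / ρ (b i) : F) = 1 := by
      by_contra h
      exact h2 (eq_div_of_mul_eq (sub_ne_zero.2 (Ne.symm h)) (by linear_combination h4))
    rw [Finset.prod_div_distrib, div_eq_one_iff_eq
      (Finset.prod_ne_zero_iff.2 fun i _ => (ρ (b i)).ne_zero)] at h5
    rw [← ofMul_prod, ← ofMul_prod]
    congr 1
    exact Units.ext (by simpa only [Units.coe_prod] using h5))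
  have : Fact (ringChar F).Prime := ⟨hpr⟩
  have hΛ : ∀ x, Λ x = 0 := fun x => by
    have h1 : ringChar F • Λ x = 0 := by
      rw [← map_nsmul, nsmul_eq_mul, ringChar.Nat.cast_ringChar, zero_mul, map_zero]
    have h2 : ((Λ x).toMul : F) ^ ringChar F = 1 := by
      rw [← Units.val_pow_eq_pow_val, ← toMul_nsmul, h1]
      rfl
    exact Additive.toMul.injective (Units.ext (frobenius_inj F (ringChar F)
      (h2.trans (map_one _).symm)))
  have hρe : ∀ z, G z → ρ z = e.toMul := fun z hz => by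
    have := he z hz
    rw [hΛ, zero_add] at this
    rw [← this]
    rfl
  have step' : ∀ a b P P' N, G a → G b → tel_Pair u V b P N → tel_Pair u V a P' N →
      u' P' - u' P = ((e.toMul : F) - 1) * (u' b - u' a) := fun a b P P' N ha hb h1 h2 => by
    rw [step a b P P' N ha hb h1 h2, hρe a ha, hρe b hb, div_self (Units.ne_zero _)]
    ring
  have he1 : (e.toMul : F) - 1 ≠ 0 := fun h0 => by
    obtain ⟨z1, hz1, h1⟩ := dens {u z0} (by
      have := Nat.le_self_pow k.ne_zero (ringChar F)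
      rw [Finset.card_singleton]
      omega)
    rw [Finset.mem_singleton, ← sub_eq_zero] at h1
    obtain ⟨P, N, -, -, h3⟩ := tel_chain hh (r := n + 1) (by omega) (a := fun _ => z0)
      (b := fun _ => z1) (fun _ => hz0) (fun _ => hz1) 0
    have h4 : ∀ i < n + 1, u' (P i) = u' (P 0) := fun i hi => by
      induction i with
      | zero => rfl
      | succ i ih =>
        have := step' _ _ _ _ _ hz0 hz1 (h3 i (by omega)).2.1 ((h3 i (by omega)).2.2 (Or.inl hi))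
        rw [h0, zero_mul, sub_eq_zero] at this
        rw [this, ih (by omega)]
    have h5 := fib (u' (P 0)) ((Finset.range (n + 1)).image P) fun Q hQ => by
      obtain ⟨i, hi, rfl⟩ := Finset.mem_image.1 hQ
      exact ⟨⟨z1, (h3 i (Finset.mem_range.1 hi)).2.1.1⟩, h4 i (Finset.mem_range.1 hi)⟩
    have h6 : (3 : F) ≠ 0 := by exact_mod_cast hc 3 (by omega) (by omega)
    rw [Finset.card_image_of_injOn fun i hi j hj h => ?_, Finset.card_range] at h5
    · omega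
    · have hi' : i < n + 1 := by simpa using hi
      have hj' : j < n + 1 := by simpa using hj
      have a1 := (h3 i hi').1
      have a2 := (h3 j hj').1
      rw [h, a2, add_right_inj, mul_right_inj' h6, Finset.sum_const, Finset.sum_const,
        Finset.card_range, Finset.card_range, nsmul_eq_mul, nsmul_eq_mul, mul_left_inj' h1] at a1
      exact (CharP.natCast_injOn_Iio F (ringChar F) (show j < _ by omega) (show i < _ by omega)
        a1).symm
  refine fre F u' fun r hr a b ha hb hab => ?_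
  obtain ⟨P, N, h1, -, h3⟩ := tel_chain hh (r := r) (by omega) ha hb 0
  have h4 := Finset.sum_range_sub (fun i => u' (P i)) r
  rw [h1, sub_self, Finset.sum_congr rfl fun i hi => step' _ _ _ _ _ (ha i) (hb i)
    (h3 i (Finset.mem_range.1 hi)).2.1 ((h3 i (Finset.mem_range.1 hi)).2.2 (Or.inr hab)),
    ← Finset.mul_sum, mul_eq_zero, Finset.sum_sub_distrib] at h4
  exact (sub_eq_zero.1 (h4.resolve_left he1)).symm

end

end Pool.Agent.P.MP_9344a7_nt.Gt
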