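import Pool.Agent.P.MP_9344a7_nt.Gt.Iface

/-! Steps DEN, AFF, MOB, FRM, RAT, FROB. -/

set_option linter.unusedSectionVars false
set_option linter.unusedVariables false

namespace Pool.Agent.P.MP_9344a7_nt.Gt

open WithZero Module
open Pool.Agent.P.MP_6f117a_ag (Place FF)
open Pool.Agent.P.MP_ab3ecb_nt.Inv
open Pool.Agent.P.MP_9344a7_nt.R (Fr rr_fd)
open Pool.Agent.P.MP_9344a7_nt.Tor (Prd ExF IsUP AL)
open scoped Classical PowerSeries IntermediateField Polynomial Polynomial.Bivariate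

section

lemma den_one {F : Type} [Field F] [Fintype F] {g n : ℕ} {C : Cv F g} {a : C.E} (h0 : a ∈ C.E0)
    (ht : Transcendental (Kb F) a) (h : Bd (Kb F) n a) (S : Finset F) : ∃ X : Finset C.Pl,
    X.card ≤ (S.card + 1) * (2 * n) ∧ ∀ P ∉ X, P.v a ≤ 1 ∧ (C.Rat P → C.vl P a ∉ S) := by
  choose V h1 h2 using fun c : F => h.fibre ht (algebraMap F (Kb F) c)
  refine ⟨(insert 0 S).biUnion V, (Finset.card_biUnion_le_card_mul _ _ _ fun c _ => h1 c).trans
    (Nat.mul_le_mul_right _ (Finset.card_insert_le _ _)), fun P hP => ?_⟩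
  simp only [Finset.mem_biUnion, not_exists, not_and] at hP
  exact ⟨(h2 0 P (hP 0 (Finset.mem_insert_self _ _))).1, fun r e =>
    (h2 _ P (hP _ (Finset.mem_insert_of_mem e))).2 (Cv.vl_spec r h0).symm⟩

theorem p_DEN :
    S_DEN := by
  refine fun n C1 => ⟨(8 * n + 2) * C1, ?_⟩
  intro F _ _ g C D T a a' X S hC hT h0 h0' ht ht' hb hb' hX hS hq
  obtain ⟨V, y1, y2⟩ := den_one h0 ht hb S
  obtain ⟨V', y1', y2'⟩ := den_one h0' ht' hb' S
  obtain ⟨z, z1, z2⟩ := hC (T.B ∪ X ∪ V ∪ V'.image T.φ') (by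
    have h1 : (T.B ∪ X ∪ V ∪ V'.image T.φ').card ≤
        T.B.card + X.card + (S.card + 1) * (2 * n) + (S.card + 1) * (2 * n) :=
      (Finset.card_union_le _ _).trans (add_le_add ((Finset.card_union_le _ _).trans
        (add_le_add (Finset.card_union_le _ _) y1)) (Finset.card_image_le.trans y1'))
    refine (Nat.mul_le_mul_right C1 h1).trans (Nat.le_of_mul_le_mul_left ?_ (8 * n + 1).succ_pos)
    have h2 := hT.1
    have h3 := Nat.mul_le_mul_left (4 * n) hS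
    have h4 := Nat.mul_le_mul_left (4 * n) hq
    rw [Nat.succ_eq_add_one]
    linarith)
  simp only [Finset.mem_union, not_or] at z2
  have o : T.Ok z := ⟨z1, z2.1.1.1⟩
  exact ⟨z, o, z2.1.1.2, (y2 z z2.1.2).1, (y2' _ (o.not_mem z2.2)).1, (y2 z z2.1.2).2 z1,
    (y2' _ (o.not_mem z2.2)).2 o.rat⟩

end

section

lemma aff_fib {F : Type} [Field F] [Fintype F] {g n : ℕ} (C : Cv F g) {f : C.E} (h0 : f ∈ C.E0)
    (hb : Bd (Kb F) n f) (ht : Transcendental (Kb F) f) (S : Finset F) :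
    ∃ X : Finset C.Pl, X.card ≤ S.card * (2 * n) ∧ ∀ P, C.Rat P → P ∉ X → C.vl P f ∉ S := by
  choose X h1 h2 using fun c : F => hb.fibre ht (algebraMap F (Kb F) c)
  refine ⟨S.biUnion X, Finset.card_biUnion_le_card_mul _ _ _ fun c _ => h1 c, fun P hP hX hS => ?_⟩
  exact (h2 _ P fun e => hX (Finset.mem_biUnion.2 ⟨_, hS, e⟩)).2 (Cv.vl_spec hP h0).symm

lemma aff_supp {k E : Type} [Field k] [Field E] [Algebra k E] {m : ℕ} {N : Net k E m}
    (h : N.NF) : N.Y.support.card ≤ m + 4 := by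
  have := card_support_le ((add_nonneg (pt_nonneg _) (pt_nonneg _)).trans N.le)
  rw [h.deg] at this
  exact_mod_cast this

lemma aff_X {F : Type} [Field F] [Fintype F] {m : ℕ} {C D : Cv F (m + 3)} (T : Tr C D)
    {N : Net (Kb F) C.E m} {N' : Net (Kb F) D.E m} (h : N.NF) (h' : N'.NF) (r : C.RN N) :
    ∃ X : Finset C.Pl, X.card ≤ 7 * (m + 4) ∧
      ∀ z, T.Ok z → z ∉ X → Gz N z ∧ N'.Y (T.φ z) = 0 := by
  obtain ⟨X1, a1, b1⟩ := aff_fib C r.u h.bu h.tu {C.vl N.B N.u}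
  obtain ⟨X2, a2, b2⟩ := aff_fib C r.v h.bv h.tv {C.vl N.A N.v}
  refine ⟨N.Y.support ∪ Finset.univ.image N.c ∪ X1 ∪ X2 ∪ N'.Y.support.image T.φ', ?_,
    fun z hz hX => ?_⟩
  · have c1 := aff_supp h
    have c2 : (Finset.univ.image N.c).card ≤ m := Finset.card_image_le.trans (by simp)
    have c3 := (Finset.card_image_le (f := T.φ')).trans (aff_supp h')
    rw [Finset.card_singleton] at a1 a2
    refine (Finset.card_union_le _ _).trans ((Nat.add_le_add_right ((Finset.card_union_le _ _).trans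
      (Nat.add_le_add_right ((Finset.card_union_le _ _).trans
        (Nat.add_le_add_right (Finset.card_union_le _ _) _)) _)) _).trans ?_)
    omega
  · simp only [Finset.mem_union, not_or] at hX
    obtain ⟨⟨⟨⟨x1, x2⟩, x3⟩, x4⟩, x5⟩ := hX
    exact ⟨⟨hz.1, ⟨Finsupp.notMem_support_iff.1 x1,
      fun i e => x2 (Finset.mem_image.2 ⟨i, Finset.mem_univ _, e⟩)⟩,
      fun e => b1 z hz.1 x3 (Finset.mem_singleton.2 e),
      fun e => b2 z hz.1 x4 (Finset.mem_singleton.2 e)⟩,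
      Finsupp.notMem_support_iff.1 (hz.not_mem x5)⟩

lemma aff_card {F : Type} {M : ℕ} (a : Fin M → Fin 2 → F) :
    (Finset.univ.image fun x : Fin M × Fin 2 => a x.1 x.2).card ≤ M * 2 :=
  Finset.card_image_le.trans (by simp)

theorem p_AFF (hNF : S_NF) (hM2 : S_M2) (hHH : S_HH) (hTEL : S_TEL) (hDEN : S_DEN) :
    S_AFF := by
  intro m C1
  obtain ⟨Cd, hd⟩ := hDEN (m + 4) C1
  obtain ⟨M, pt', ht⟩ := hTEL Cd (2 * (m + 4))
  obtain ⟨Ch, ph, hh⟩ := hHH (m + 3) (m + 4) M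
  obtain ⟨Cm, pm, hm⟩ := hM2 m C1
  refine ⟨7 * (m + 4), Cd + Cm + 2 * Ch,
    pt' + ph + pm + 7 * (m + 4) * Cd + Cd + (7 * (m + 4) + 5 * (M * (2 * (m + 4)))) * (2 * Ch),
    fun F _ _ C D T N N' hp hC hT hM => ?_⟩
  have nf := hNF _ _ m N
  have nf' := hNF _ _ m N'
  have hq := char_le (F := F)
  obtain ⟨X, hX, gX⟩ := aff_X T nf nf' hM.rn
  obtain ⟨Λ, e, he⟩ := ht F C.Pl (fun z => C.vl z N.u) (fun z => D.vl (T.φ z) N'.u)
    (fun z => T.Ok z ∧ z ∉ X) (fun z P => Vg N z P ∧ P ∉ T.B ∧ N'.Y (T.φ P) = 0) (by omega)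
    (fun S hS => by
      obtain ⟨z, z1, z2, -, -, z3, -⟩ := hd F _ C D T N.u N'.u X S hC (hT.mono (by omega))
        hM.rn.u hM.rn'.u nf.tu nf'.tu nf.bu nf'.bu
        ((Nat.mul_le_mul_right _ hX).trans (by omega)) hS (by omega)
      exact ⟨z, ⟨z1, z2⟩, z3⟩)
    (fun z P0 P1 P2 P3 hz h0 h1 h2 h3 e =>
      hm F C D T N N' z (fun j => ![![P0, P1], ![P2, P3]] j.1 j.2) (by omega) hC
        (hT.mono (by omega)) hM (gX z hz.1 hz.2).1 hz.1.2 (gX z hz.1 hz.2).2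
        (fun j => by
          obtain ⟨i, j⟩ := j
          fin_cases i <;> fin_cases j <;> assumption) e)
    (fun ε γ ce S hε hce hS => by
      obtain ⟨X1, a1, b1⟩ := aff_fib C hM.rn.u nf.bu nf.tu
        (Finset.univ.image fun x : Fin M × Fin 2 => C.vl (ce x.1 x.2) N.u)
      obtain ⟨X2, a2, b2⟩ := aff_fib C hM.rn.v nf.bv nf.tv
        (Finset.univ.image fun x : Fin M × Fin 2 => C.vl (ce x.1 x.2) N.v)
      obtain ⟨X3, a3, b3⟩ := aff_fib D hM.rn'.u nf'.bu nf'.tu S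
      have a1' := a1.trans (Nat.mul_le_mul_right _ (aff_card fun j l => C.vl (ce j l) N.u))
      have a2' := a2.trans (Nat.mul_le_mul_right _ (aff_card fun j l => C.vl (ce j l) N.v))
      have a3' := (Finset.card_image_le (f := T.φ')).trans (a3.trans (Nat.mul_le_mul_right _ hS))
      have hu : N.A.v N.u = exp 1 := by rw [nf.uA, hM.sim.1]
      have hc : (T.B ∪ X ∪ X1 ∪ X2 ∪ X3.image T.φ').card ≤
          T.B.card + (7 * (m + 4) + 5 * (M * (2 * (m + 4)))) := by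
        refine (Finset.card_union_le _ _).trans ((Nat.add_le_add_right
          ((Finset.card_union_le _ _).trans (Nat.add_le_add_right ((Finset.card_union_le _ _).trans
            (Nat.add_le_add_right (Finset.card_union_le _ _) _)) _)) _).trans ?_)
        rw [mul_right_comm M 2] at a1' a2'
        omega
      obtain ⟨τ, P, hP⟩ := hh F C N.A N.u N.v ε γ (fun j l => C.vl (ce j l) N.u)
        (fun j l => C.vl (ce j l) N.v) (T.B ∪ X ∪ X1 ∪ X2 ∪ X3.image T.φ') (by omega) hM.rn.A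
        hM.rn.u ⟨hM.rn.v, le_one_of_LS N.v1 (by simp [hM.sim.1])⟩ nf.bu nf.bv
        ((ord_eq_iff fun e => by rw [e, map_zero] at hu; exact exp_ne_zero hu.symm).2 (by
          simpa using hu)) hε
        (fun j l => (gX _ (hce j l).1 (hce j l).2).1.vA) (by
          have h1 := (hT.mono (b := Cd + Cm + 2 * Ch) (a := 2 * Ch) (by omega)).1
          have h2 := Nat.mul_le_mul_right Ch hc
          rw [add_mul] at h2
          rw [mul_left_comm] at h1
          rw [mul_left_comm _ 2 Ch] at hp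
          omega)
      refine ⟨τ, P, fun j => ?_⟩
      obtain ⟨p1, p2, p3, p4⟩ := hP j
      simp only [Finset.mem_union, not_or] at p2
      obtain ⟨⟨⟨⟨x1, x2⟩, x3⟩, x4⟩, x5⟩ := p2
      have ok : T.Ok (P j) := ⟨p1, x1⟩
      obtain ⟨g1, g2⟩ := gX _ ok x2
      exact ⟨p3, fun l => ⟨⟨p1, g1.off, g1.uB,
        fun e => b1 _ p1 x3 (Finset.mem_image.2 ⟨(j, l), Finset.mem_univ _, e.symm⟩),
        fun e => b2 _ p1 x4 (Finset.mem_image.2 ⟨(j, l), Finset.mem_univ _, e.symm⟩),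
        (p4 l).1, (p4 l).2⟩, x1, g2⟩, b3 _ ok.rat (ok.not_mem x5)⟩)
    (fun c S hS => by
      obtain ⟨X3, a3, b3⟩ := aff_fib D hM.rn'.u nf'.bu nf'.tu {c}
      have ok : ∀ P ∈ S, T.Ok P := fun P hP =>
        let ⟨⟨_, h⟩, _⟩ := hS P hP
        ⟨h.1.rat, h.2.1⟩
      rw [Finset.card_singleton, one_mul] at a3
      refine (Finset.card_le_card_of_injOn T.φ (fun P hP => ?_)
        fun P hP Q hQ => (ok P hP).inj (ok Q hQ)).trans a3
      by_contra hc
      exact b3 _ (ok P hP).rat hc (Finset.mem_singleton.2 (hS P hP).2))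
  exact ⟨X, Λ, e, hX, fun z h1 h2 => he z ⟨h1, h2⟩⟩

end

section

theorem mob_range {F : Type} [Field F] [Fintype F] (Λ : F →+ F) (e : F)
    (h : ¬ Function.Injective Λ) :
    (Finset.univ.image fun w => Λ w + e).card * ringChar F ≤ Fintype.card F := by
  rw [injective_iff_map_eq_zero] at h
  push Not at h
  obtain ⟨x, hx, hx0⟩ := h
  have h1 : (Nat.card Λ.ker : F) = 0 := by
    have := congrArg Subtype.val (card_nsmul_eq_zero' (x := (⟨x, hx⟩ : Λ.ker)))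
    rw [AddSubgroup.coe_nsmul, nsmul_eq_mul] at this
    exact (mul_eq_zero.1 this).resolve_right hx0
  have h2 : ringChar F ≤ Nat.card Λ.ker := Nat.le_of_dvd Nat.card_pos (ringChar.dvd h1)
  have h3 := Λ.ker.card_mul_index
  rw [AddSubgroup.index_ker, Nat.card_eq_fintype_card (α := F)] at h3
  have h4 : (Finset.univ.image fun w => Λ w + e).card ≤ Nat.card Λ.range := by
    rw [Nat.card_eq_fintype_card, ← Finset.card_univ]
    refine le_trans (Finset.card_le_card fun y hy => ?_)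
      (Finset.card_image_le (f := fun w : Λ.range => w.1 + e))
    obtain ⟨w, -, rfl⟩ := Finset.mem_image.1 hy
    exact Finset.mem_image.2 ⟨⟨Λ w, w, rfl⟩, Finset.mem_univ _, rfl⟩
  rw [← h3, mul_comm]
  exact Nat.mul_le_mul h2 h4

theorem p_MOB (hHUA : Tor.S_HUA) :
    S_MOB := by
  intro C0
  refine ⟨2 * C0, fun F Pt _ _ u u' G Λ Λ' e e' hp hd h => ?_⟩
  have hq : ringChar F ≤ Fintype.card F :=
    Nat.le_of_dvd Fintype.card_pos (ringChar.dvd (FiniteField.cast_card_eq_zero F))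
  obtain ⟨S, hS⟩ : ∃ S : Finset F, ∀ w, w ∈ S ↔ ∃ z, G z ∧ u z = w :=
    ⟨Finset.univ.filter fun w => ∃ z, G z ∧ u z = w, fun w => by simp⟩
  have h1 : Fintype.card F < S.card * C0 := by
    by_contra hc
    obtain ⟨z, hz, h2, -⟩ := hd S (not_lt.1 hc)
    exact h2 ((hS _).2 ⟨z, hz, rfl⟩)
  have hinj : Function.Injective Λ := by
    by_contra hc
    obtain ⟨z, hz, -, h2⟩ := hd _ ((Nat.mul_le_mul_left _ (by omega)).trans (mob_range Λ e hc))
    exact h2 (Finset.mem_image.2 ⟨u z, Finset.mem_univ _, (h z hz).2.2.1.symm⟩)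
  have h2 : 2 * C0 * S.card ≤ ringChar F * S.card := Nat.mul_le_mul_right _ hp.le
  have h3 : 2 ≤ S.card := by
    by_contra hc
    have : S.card * C0 ≤ 1 * C0 := Nat.mul_le_mul_right _ (by omega)
    omega
  obtain ⟨τ, c, hc, hτ⟩ := hHUA F S Λ Λ' e e' (by nlinarith) h3 (fun w hw => by
    obtain ⟨z, hz, rfl⟩ := (hS w).1 hw
    obtain ⟨a1, a2, a3, a4⟩ := h z hz
    exact ⟨a1, by rw [← a3, ← a4, mul_inv_cancel₀ a2]⟩) hinj.injOn
  refine ⟨τ, c⁻¹, inv_ne_zero hc, fun z hz => ?_⟩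
  rw [(h z hz).2.2.1, hτ, inv_mul_cancel_left₀ hc]

end

section

lemma frm_gen (hRM2 : S_RM2) (g : ℕ) : ∃ c d : ℕ, ∀ (k E : Type) [Field k] [Field E] [Algebra k E]
    [IsAlgClosed k] [FF k E] (W : Dv k E), Can g W → Ch k d → ∀ S : Finset (Dv k E),
    (∀ D ∈ S, deg D ≤ 2 * g) → ∃ X : Finset (Place k E), X.card ≤ S.card * c ∧ ∀ P ∉ X, ∀ D ∈ S,
      (lS D ≠ 0 → lS (D - pt P) + 1 = lS D) ∧ (2 ≤ lS D → lS (D - pt P - pt P) + 2 = lS D) := by
  obtain ⟨c, d, h⟩ := hRM2 g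
  refine ⟨2 * g + c, d, fun k E _ _ _ _ _ W hW hd S hS => ?_⟩
  have key : ∀ D : Dv k E, ∃ X : Finset (Place k E), deg D ≤ 2 * g → X.card ≤ 2 * g + c ∧ ∀ P ∉ X,
      (lS D ≠ 0 → lS (D - pt P) + 1 = lS D) ∧ (2 ≤ lS D → lS (D - pt P - pt P) + 2 = lS D) := by
    intro D
    by_cases h0 : lS D = 0
    · exact ⟨∅, fun _ => ⟨by simp, fun _ _ => ⟨fun e => (e h0).elim, fun e => by omega⟩⟩⟩
    obtain ⟨X, a, b⟩ := base_pts h0
    by_cases h2 : 2 ≤ lS D ∧ deg D ≤ 2 * g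
    · obtain ⟨Z, a', b'⟩ := h k E W D hW hd h2.1 h2.2
      refine ⟨X ∪ Z, fun e => ⟨(Finset.card_union_le _ _).trans (by omega), fun P hP => ?_⟩⟩
      rw [Finset.mem_union, not_or] at hP
      exact ⟨fun _ => b P hP.1, fun _ => b' P hP.2⟩
    · exact ⟨X, fun e => ⟨by omega, fun P hP => ⟨fun _ => b P hP, fun e' => (h2 ⟨e', e⟩).elim⟩⟩⟩
  choose X hX using key
  exact ⟨S.biUnion X, Finset.card_biUnion_le_card_mul _ _ _ fun D hD => (hX D (hS D hD)).1,
    fun P hP D hD => (hX D (hS D hD)).2 P fun e => hP (Finset.mem_biUnion.2 ⟨D, hD, e⟩)⟩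

lemma frm_mk (hAVD : S_AVD) {F : Type} [Field F] [Fintype F] {g : ℕ} (C : Cv F g)
    (G : Fin g → C.Pl) (h1 : Function.Injective G) (h2 : ∀ i, C.Rat (G i))
    (h3 : lS (C.W - ∑ j, pt (G j)) = 0) : ∃ Γ : Frm C.W g, Γ.G = G ∧ C.RF Γ := by
  have key : ∀ i, ∃ z ∈ LS (C.W - ∑ j, pt (G j) + pt (G i)), z ∈ C.E0 ∧ z ≠ 0 := fun i => by
    have a := C.can (∑ j ∈ Finset.univ.erase i, pt (G j))
    have b := lS_pos (sum_pt_nonneg (Finset.univ.erase i) G)
    have e : C.W - ∑ j ∈ Finset.univ.erase i, pt (G j) = C.W - ∑ j, pt (G j) + pt (G i) := by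
      rw [← Finset.add_sum_erase _ _ (Finset.mem_univ i)]
      abel
    have i1 := i.pos
    rw [deg_sum_pt, e, Finset.card_erase_of_mem (Finset.mem_univ i), Finset.card_fin] at a
    obtain ⟨z, z1, z2, z3⟩ := hAVD F g C (C.W - ∑ j, pt (G j) + pt (G i))
      (add_mem (sub_mem Cv.W_mem (sum_mem fun j _ => (h2 j).pt_mem)) (h2 i).pt_mem) Unit {()}
      (fun _ => ⊥) (by simpa using Fintype.one_lt_card) fun _ _ e' => by
        have := lS_eq_zero.2 fun z hz => (Submodule.mem_bot _).1 (e' hz)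
        omega
    exact ⟨z, z1, z2, fun e' => z3 () (by simp) (by simp [e'])⟩
  choose w w1 w2 w3 using key
  exact ⟨⟨G, w, h1, w1, w3, h3⟩, rfl, fun i => ⟨h2 i, w2 i⟩⟩

theorem p_FRM (hRM2 : S_RM2) (hAVD : S_AVD) :
    S_FRM := by
  intro g C1
  obtain ⟨c, d, hg⟩ := frm_gen hRM2 g
  refine ⟨2 * C1, d + 2 * ((g + (2 ^ g + 2 ^ g * g) * c + c) * C1),
    fun F _ _ C D T hp hM hT => ?_⟩
  have hd : Ch (Kb F) d := ch_of_lt (by omega)
  have key : ∀ r ≤ g, ∃ s : Finset C.Pl, s.card = r ∧ (∀ P ∈ s, T.Ok P) ∧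
      (∀ t ⊆ s, lS (C.W - ∑ P ∈ t, pt P) + t.card = g) ∧
      (∀ t ⊆ s, ∀ i ∈ t, t.card < g → lS (C.W - ∑ P ∈ t, pt P - pt i) + t.card + 1 = g) ∧
      lS (D.W - ∑ P ∈ s, pt (T.φ P)) + r = g := by
    intro r hr
    induction r with
    | zero =>
      refine ⟨∅, rfl, by simp, fun t ht => ?_, fun t ht i hi => by simpa using ht hi, ?_⟩
      · rw [Finset.subset_empty.1 ht]
        simpa using C.can.lS_W
      · simpa using D.can.lS_W
    | succ r ih =>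
      obtain ⟨s, s1, s2, s3, s4, s5⟩ := ih (by omega)
      obtain ⟨X, x1, x2⟩ := hg _ _ C.W C.can hd
        (s.powerset.image (fun t => C.W - ∑ P ∈ t, pt P) ∪
          (s.powerset ×ˢ s).image fun t => C.W - ∑ P ∈ t.1, pt P - pt t.2) fun A hA => by
        simp only [Finset.mem_union, Finset.mem_image] at hA
        rcases hA with ⟨t, -, rfl⟩ | ⟨t, -, rfl⟩ <;>
          simp only [map_sub, deg_sum_pt _ fun P => P, deg_single, C.can.deg_W] <;> omega
      obtain ⟨Z, y1, y2⟩ := hg _ _ D.W D.can hd {D.W - ∑ P ∈ s, pt (T.φ P)} fun A hA => by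
        rw [Finset.mem_singleton.1 hA, map_sub, deg_sum_pt, D.can.deg_W]
        omega
      have x3 : X.card ≤ (2 ^ g + 2 ^ g * g) * c := by
        refine x1.trans (Nat.mul_le_mul_right _ ((Finset.card_union_le _ _).trans ?_))
        have h2 : 2 ^ r ≤ 2 ^ g := Nat.pow_le_pow_right two_pos (by omega)
        refine add_le_add (Finset.card_image_le.trans ?_) (Finset.card_image_le.trans ?_)
        · rwa [Finset.card_powerset, s1]
        · rw [Finset.card_product, Finset.card_powerset, s1]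
          exact Nat.mul_le_mul h2 (by omega)
      obtain ⟨P, p1, p2⟩ := hM (T.B ∪ (s ∪ X ∪ Z.image T.φ')) (by
        have h1 : (s ∪ X ∪ Z.image T.φ').card ≤ g + (2 ^ g + 2 ^ g * g) * c + c :=
          (Finset.card_union_le _ _).trans (add_le_add ((Finset.card_union_le _ _).trans
            (add_le_add (by omega) x3)) (Finset.card_image_le.trans (by simpa using y1)))
        have h2 := Nat.mul_le_mul_right C1 ((Finset.card_union_le T.B _).trans
          (Nat.add_le_add_left h1 _))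
        have h3 := hT.1
        have h4 := char_le (F := F)
        rw [add_mul] at h2
        rw [mul_left_comm] at h3
        omega)
      simp only [Finset.mem_union, not_or] at p2
      obtain ⟨p2, ⟨p3, p4⟩, p5⟩ := p2
      have ok : T.Ok P := ⟨p1, p2⟩
      have a1 := fun t (ht : t ⊆ s) => x2 P p4 (C.W - ∑ P ∈ t, pt P) (Finset.mem_union_left _
        (Finset.mem_image.2 ⟨t, Finset.mem_powerset.2 ht, rfl⟩))
      have a2 := fun t (ht : t ⊆ s) i (hi : i ∈ s) => (x2 P p4 (C.W - ∑ P ∈ t, pt P - pt i)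
        (Finset.mem_union_right _ (Finset.mem_image.2
          ⟨(t, i), Finset.mk_mem_product (Finset.mem_powerset.2 ht) hi, rfl⟩))).1
      have cs : ∀ t ⊆ insert P s, t ⊆ s ∨ ∃ u ⊆ s, t = insert P u ∧ t.card = u.card + 1 ∧
          u.card ≤ r ∧ C.W - ∑ Q ∈ t, pt Q = C.W - ∑ Q ∈ u, pt Q - pt P := fun t ht => by
        by_cases e : P ∈ t
        · have h1 := Finset.subset_insert_iff.1 ht
          refine Or.inr ⟨_, h1, (Finset.insert_erase e).symm, (Finset.card_erase_add_one e).symm,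
            s1 ▸ Finset.card_le_card h1, ?_⟩
          rw [← Finset.add_sum_erase _ _ e]
          abel
        · exact Or.inl ((Finset.subset_insert_iff_of_notMem e).1 ht)
      refine ⟨insert P s, by rw [Finset.card_insert_of_notMem p3, s1], fun Q hQ => ?_,
        fun t ht => ?_, fun t ht i hi h => ?_, ?_⟩
      · rcases Finset.mem_insert.1 hQ with rfl | e
        exacts [ok, s2 Q e]
      · rcases cs t ht with e | ⟨u, u1, -, u2, u3, u4⟩
        · exact s3 t e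
        · have b1 := s3 u u1
          have b2 := (a1 u u1).1
          rw [u4]
          omega
      · rcases cs t ht with e | ⟨u, u1, u0, u2, u3, u4⟩
        · exact s4 t e i hi h
        · rw [u4]
          rcases Finset.mem_insert.1 (u0 ▸ hi) with rfl | e
          · have b1 := s3 u u1
            have b2 := (a1 u u1).2
            omega
          · have b1 := s4 u u1 i e (by omega)
            have b2 := a2 u u1 i (u1 e)
            rw [sub_right_comm]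
            omega
      · have b := (y2 _ (ok.not_mem p5) _ (Finset.mem_singleton_self _)).1
        rw [Finset.sum_insert p3, add_comm (pt _), ← sub_sub]
        omega
  obtain ⟨s, s1, s2, s3, s4, s5⟩ := key g le_rfl
  set G : Fin g → C.Pl := fun i => (Finset.equivFinOfCardEq s1).symm i with hG
  have g1 : ∀ i, G i ∈ s := fun i => ((Finset.equivFinOfCardEq s1).symm i).2
  have g2 : Function.Injective G :=
    Subtype.val_injective.comp (Finset.equivFinOfCardEq s1).symm.injective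
  have g3 : ∀ {M : Type} [AddCommMonoid M] (f : C.Pl → M), ∑ j, f (G j) = ∑ P ∈ s, f P :=
    fun f => ((Finset.equivFinOfCardEq s1).symm.sum_comp fun P => f P.1).trans
      (Finset.sum_coe_sort s f)
  obtain ⟨Γ, a, b⟩ := frm_mk hAVD C G g2 (fun i => (s2 _ (g1 i)).1) (by
    have := s3 s subset_rfl
    rw [g3 pt]
    omega)
  obtain ⟨Γ', a', b'⟩ := frm_mk hAVD D (fun i => T.φ (G i))
    (fun i j e => g2 ((s2 _ (g1 i)).inj (s2 _ (g1 j)) e)) (fun i => (s2 _ (g1 i)).rat) (by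
      rw [g3 fun P => pt (T.φ P)]
      omega)
  refine ⟨Γ, Γ', b, b', fun i j e => ?_, fun i => a ▸ s2 _ (g1 i), fun i => by rw [a, a']⟩
  have i1 := i.pos
  have h1 := Finset.card_erase_add_one (g1 j)
  have h2 := s4 (s.erase (G j)) (Finset.erase_subset _ _) (G i)
    (Finset.mem_erase.2 ⟨g2.ne e, g1 i⟩) (by omega)
  have h3 : C.W - ∑ P ∈ s.erase (G j), pt P = C.W - ∑ l, pt (G l) + pt (G j) := by
    rw [g3 pt, ← Finset.add_sum_erase _ _ (g1 j)]
    abel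
  rw [h3] at h2
  rw [a]
  omega

end

section

lemma rat_net (hNETF : S_NETF) {F : Type} [Field F] [Fintype F] {m : ℕ} {C D : Cv F (m + 3)}
    {T : Tr C D} {Γ : Frm C.W (m + 3)} {Γ' : Frm D.W (m + 3)} (h : T.Mf Γ Γ') {i j : Fin (m + 3)}
    (hij : i ≠ j) : ∃ N N', T.Mt (m := m) N N' ∧ N.u = Γ.w i / Γ.w j ∧ N'.u = Γ'.w i / Γ'.w j := by
  have hc : ({i, j}ᶜ : Finset (Fin (m + 3))).card = m + 1 := by
    rw [Finset.card_compl, Finset.card_pair hij, Fintype.card_fin]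
    rfl
  have h1 : ∀ a, ({i, j}ᶜ : Finset (Fin (m + 3))).orderEmbOfFin hc a ≠ i ∧
      ({i, j}ᶜ : Finset (Fin (m + 3))).orderEmbOfFin hc a ≠ j := fun a => by
    simpa only [Finset.mem_compl, Finset.mem_insert, Finset.mem_singleton, not_or] using
      Finset.orderEmbOfFin_mem _ hc a
  have h2 := (({i, j}ᶜ : Finset (Fin (m + 3))).orderEmbOfFin hc).injective
  generalize (({i, j}ᶜ : Finset (Fin (m + 3))).orderEmbOfFin hc : Fin (m + 1) → Fin (m + 3)) = f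
    at h1 h2
  have h3 : ∀ a : Fin m, f a.succ ≠ i ∧ f a.succ ≠ j ∧ f a.succ ≠ f 0 := fun a =>
    ⟨(h1 _).1, (h1 _).2, h2.ne a.succ_ne_zero⟩
  obtain ⟨N, a1, a2, a3, a4, a5, a6⟩ := hNETF _ _ m _ Γ i j (f 0) (fun a => f a.succ) C.can hij
    (h1 0).1.symm (h1 0).2.symm (h2.comp (Fin.succ_injective m)) h3
  obtain ⟨N', b1, b2, b3, b4, b5, -⟩ := hNETF _ _ m _ Γ' i j (f 0) (fun a => f a.succ) D.can hij
    (h1 0).1.symm (h1 0).2.symm (h2.comp (Fin.succ_injective m)) h3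
  exact ⟨N, N', ⟨⟨a1 ▸ (h.rf _).1, a2 ▸ (h.rf _).1, fun a => a3 a ▸ (h.rf _).1,
    a4 ▸ div_mem (h.rf _).2 (h.rf _).2, a5 ▸ div_mem (h.rf _).2 (h.rf _).2⟩,
    ⟨b1 ▸ (h.rf' _).1, b2 ▸ (h.rf' _).1, fun a => b3 a ▸ (h.rf' _).1,
    b4 ▸ div_mem (h.rf' _).2 (h.rf' _).2, b5 ▸ div_mem (h.rf' _).2 (h.rf' _).2⟩, a6 h.sim,
    a1 ▸ h.ok _, a2 ▸ h.ok _, fun a => a3 a ▸ h.ok _, by rw [a1, b1, h.eq], by rw [a2, b2, h.eq],
    fun a => by rw [a3, b3, h.eq]⟩, a4, b4⟩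

theorem p_RAT (hFRB : S_FRB) (hNETF : S_NETF) (hDEN : S_DEN) (hAFF : S_AFF) (hMOB : S_MOB) :
    S_RAT := by
  intro m C1
  obtain ⟨n, Ca, pa, hA⟩ := hAFF m C1
  obtain ⟨Cd, hD⟩ := hDEN (2 * (m + 3)) C1
  obtain ⟨pm, hM⟩ := hMOB Cd
  refine ⟨2 * n + 8 * (m + 3), Ca + Cd, pa + pm + (2 * n + 8 * (m + 3)) * Cd + Cd,
    fun F _ _ C D T Γ Γ' hp hC hT h i j hij => ?_⟩
  have hq := char_le (F := F)
  have f1 := hFRB _ _ _ _ Γ C.can
  have f2 := hFRB _ _ _ _ Γ' D.can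
  obtain ⟨N1, N1', m1, u1, u1'⟩ := rat_net hNETF h hij
  obtain ⟨N2, N2', m2, u2, u2'⟩ := rat_net hNETF h hij.symm
  obtain ⟨X1, Λ, e, x1, a1⟩ := hA F C D T N1 N1' (by omega) hC (hT.mono (by omega)) m1
  obtain ⟨X2, Λ', e', x2, a2⟩ := hA F C D T N2 N2' (by omega) hC (hT.mono (by omega)) m2
  rw [u1, u1'] at a1
  rw [u2, u2', ← inv_div (Γ.w i), ← inv_div (Γ'.w i)] at a2
  obtain ⟨X3, x3, a3⟩ := (f1.bd i j).unit (div_ne_zero (Γ.ne i) (Γ.ne j))
  obtain ⟨X4, x4, a4⟩ := (f2.bd i j).unit (div_ne_zero (Γ'.ne i) (Γ'.ne j))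
  have e1 : Γ.w i / Γ.w j ∈ C.E0 := div_mem (h.rf i).2 (h.rf j).2
  have e2 : Γ'.w i / Γ'.w j ∈ D.E0 := div_mem (h.rf' i).2 (h.rf' j).2
  have hX : (X1 ∪ X2 ∪ (X3 ∪ X4.image T.φ')).card ≤ 2 * n + 8 * (m + 3) := by
    have := Finset.card_union_le (X1 ∪ X2) (X3 ∪ X4.image T.φ')
    have := Finset.card_union_le X1 X2
    have := Finset.card_union_le X3 (X4.image T.φ')
    have : (X4.image T.φ').card ≤ X4.card := Finset.card_image_le
    omega
  have hG : ∀ z, T.Ok z → z ∉ X1 ∪ X2 ∪ (X3 ∪ X4.image T.φ') → z ∉ X1 ∧ z ∉ X2 ∧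
      z.v (Γ.w i / Γ.w j) = 1 ∧ (T.φ z).v (Γ'.w i / Γ'.w j) = 1 := fun z h1 h2 => by
    simp only [Finset.mem_union, not_or] at h2
    exact ⟨h2.1.1, h2.1.2, a3 z h2.2.1, a4 _ (h1.not_mem h2.2.2)⟩
  obtain ⟨τ, c, c0, hc⟩ := hM F C.Pl (fun z => C.vl z (Γ.w i / Γ.w j))
    (fun z => D.vl (T.φ z) (Γ'.w i / Γ'.w j))
    (fun z => T.Ok z ∧ z ∉ X1 ∪ X2 ∪ (X3 ∪ X4.image T.φ')) Λ Λ' e e' (by omega)
    (fun S hS => by
      obtain ⟨z, z1, z2, -, -, z3, z4⟩ := hD F _ C D T _ _ _ S hC (hT.mono (by omega)) e1 e2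
        (trans_of_ord (f1.neg i j hij).ne) (trans_of_ord (f2.neg i j hij).ne) (f1.bd i j)
        (f2.bd i j) ((Nat.mul_le_mul_right Cd hX).trans (by omega)) hS (by omega)
      exact ⟨z, ⟨z1, z2⟩, z3, z4⟩)
    fun z hz => by
      obtain ⟨g1, g2, g3, g4⟩ := hG z hz.1 hz.2
      refine ⟨fun h0 => ((Cv.vl_eq_zero hz.1.1 ⟨e1, g3.le⟩).1 h0).ne g3,
        fun h0 => ((Cv.vl_eq_zero hz.1.rat ⟨e2, g4.le⟩).1 h0).ne g4, a1 z hz.1 g1, ?_⟩
      rw [← Cv.vl_inv hz.1.1 e1 g3, ← Cv.vl_inv hz.1.rat e2 g4]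
      exact a2 z hz.1 g2
  refine ⟨_, τ, c, hX, c0, fun z h1 h2 => ?_⟩
  obtain ⟨-, -, g3, g4⟩ := hG z h1 h2
  have o2 : Γ'.w i / Γ'.w j ∈ D.O (T.φ z) := ⟨e2, g4.le⟩
  exact ⟨g3.le, (mul_mem (Cv.c_mem_O _ c) o2).2, by
    rw [Cv.vl_mul h1.rat (Cv.c_mem_O _ c) o2, Cv.vl_c, hc z ⟨h1, h2⟩]⟩

end

section

lemma frob_pow (F : Type) [Field F] [Fintype F] (α : F ≃+* F) :
    ∃ Q : ℕ, 0 < Q ∧ Q * ringChar F ≤ Fintype.card F ∧ ∀ x, α x = x ^ Q := by
  obtain ⟨p, hp⟩ : ∃ p, p = ringChar F := ⟨_, rfl⟩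
  have : CharP F p := hp ▸ ringChar.charP F
  have : Fact p.Prime := ⟨CharP.char_is_prime F p⟩
  have h1 : 0 < p := (Fact.out : p.Prime).pos
  let _ := ZMod.algebra F p
  obtain ⟨i, hi⟩ := (FiniteField.bijective_frobeniusAlgHom_pow (ZMod p) F).2
    ⟨α.toRingHom, fun r => DFunLike.congr_fun (RingHom.ext_zmod (α.toRingHom.comp (algebraMap _ F))
      (algebraMap (ZMod p) F)) r⟩
  refine ⟨p ^ i.1, pow_pos h1 _, ?_, fun x => ?_⟩
  · rw [← hp, ← pow_succ, Module.card_eq_pow_finrank (K := ZMod p), ZMod.card]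
    exact Nat.pow_le_pow_right h1 i.2
  · have := DFunLike.congr_fun hi x
    rw [AlgHom.coe_pow, FiniteField.coe_frobeniusAlgHom, pow_iterate, ZMod.card] at this
    exact this.symm

theorem p_FROB :
    S_FROB := by
  intro n C1
  refine ⟨2 * C1, 20 * n * C1, fun F _ _ g C a b G α β c X hp hM ha hb na nb oa b0 ob hX h => ?_⟩
  obtain ⟨Q, q0, q1, q2⟩ := frob_pow F α
  obtain ⟨R, r0, r1, r2⟩ := frob_pow F β
  have a0 := ne_zero_of_ord oa
  by_cases e : a ^ Q * b - C.c c * (a * b ^ R) = 0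
  · rw [sub_eq_zero] at e
    have c0 : C.c c ≠ 0 := fun k => mul_ne_zero (pow_ne_zero Q a0) b0 (by rw [e, k, zero_mul])
    have e1 := congrArg (ord G) e
    rw [ord_mul G (pow_ne_zero Q a0) b0, ord_mul G c0 (mul_ne_zero a0 (pow_ne_zero R b0)),
      ord_mul G a0 (pow_ne_zero R b0), ord_pow, ord_pow, ob, Cv.c_apply, ord_const] at e1
    have e2 : (Q : ℤ) = 1 := mul_right_cancel₀ oa (by linarith)
    have e3 : Q = 1 := by exact_mod_cast e2
    exact RingEquiv.ext fun x => by rw [q2, e3, pow_one]; rfl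
  · exfalso
    obtain ⟨Z, y1, y2⟩ := (((na.pow Q).mul nb).sub ((na.mul (nb.pow R)).cmul
      (algebraMap F (Kb F) c))).unit e
    obtain ⟨A, a1, a2⟩ := na.poles
    obtain ⟨B, b1, b2⟩ := nb.poles
    obtain ⟨z, z1, z2⟩ := hM (X ∪ (Z ∪ (A ∪ B))) (by
      have u1 := (Finset.card_union_le X (Z ∪ (A ∪ B))).trans (Nat.add_le_add_left
        ((Finset.card_union_le Z (A ∪ B)).trans (Nat.add_le_add y1
          ((Finset.card_union_le A B).trans (Nat.add_le_add a1 b1)))) _)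
      have u2 := Nat.mul_le_mul_right C1 u1
      have u3 := (Nat.mul_le_mul_left Q hp.le).trans q1
      have u4 := (Nat.mul_le_mul_left R hp.le).trans r1
      have u5 := Nat.le_mul_of_pos_left (n * C1) q0
      nlinarith)
    simp only [Finset.mem_union, not_or] at z2
    have oa : a ∈ C.O z := ⟨ha, a2 z z2.2.2.1⟩
    have ob : b ∈ C.O z := ⟨hb, b2 z z2.2.2.2⟩
    have o1 := mul_mem (pow_mem oa Q) ob
    have o2 := mul_mem oa (pow_mem ob R)
    have o3 := mul_mem (Cv.c_mem_O z c) o2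
    refine ((Cv.vl_eq_zero z1 (sub_mem o1 o3)).1 ?_).ne (y2 z z2.2.1)
    rw [Cv.vl_sub z1 o1 o3, Cv.vl_mul z1 (pow_mem oa Q) ob, Cv.vl_mul z1 (Cv.c_mem_O z c) o2,
      Cv.vl_mul z1 oa (pow_mem ob R), Cv.vl_pow z1 oa, Cv.vl_pow z1 ob, Cv.vl_c, ← q2, ← r2,
      h z z1 z2.1 oa.2 ob.2, mul_assoc, sub_self]

end

end Pool.Agent.P.MP_9344a7_nt.Gt
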