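import Pool.Agent.P.MP_9344a7_nt.Gt.Iface

/-! Steps TAU, ISO, EMB, NHI, HT. -/

set_option linter.unusedSectionVars false
set_option linter.unusedVariables false

namespace Pool.Agent.P.MP_9344a7_nt.Gt

open WithZero Module
open Pool.Agent.P.MP_6f117a_ag (Place FF)
open Pool.Agent.P.MP_ab3ecb_nt.Inv
open Pool.Agent.P.MP_9344a7_nt.R (Fr rr_fd)
open Pool.Agent.P.MP_9344a7_nt.Tor (Prd ExF IsUP AL)
open scoped Classical PowerSeries IntermediateField Polynomial Polynomial.Bivariate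

section

/-- The relation between three automorphisms that comes from `A = B * U`. -/
lemma tau_rel {F : Type} [Field F] [Fintype F] {g : ℕ} {C D : Cv F g} {T : Tr C D}
    {X1 X2 X3 : Finset C.Pl} {t1 t2 t3 : F ≃+* F} {B U : C.E} {B' U' : D.E} {c1 c2 c3 : F}
    (hB : B ∈ C.E0) (hU : U ∈ C.E0) (hB' : B' ∈ D.E0) (hU' : U' ∈ D.E0) (n2 : c2 ≠ 0) (n3 : c3 ≠ 0)
    (h1 : T.Rl X1 t1 (B * U) (D.c c1 * (B' * U'))) (h2 : T.Rl X2 t2 B (D.c c2 * B'))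
    (h3 : T.Rl X3 t3 U (D.c c3 * U')) (z : C.Pl) (hz : C.Rat z) (hX : z ∉ T.B ∪ (X1 ∪ X2 ∪ X3)) :
    (t1.trans t3.symm) (C.vl z (B * U)) * C.vl z B =
      t3.symm (c1 / (c2 * c3)) * C.vl z (B * U) * (t2.trans t3.symm) (C.vl z B) := by
  simp only [Finset.mem_union, not_or] at hX
  have ok : T.Ok z := ⟨hz, hX.1⟩
  obtain ⟨-, -, a3⟩ := h1 z ok hX.2.1.1
  obtain ⟨b1, b2, b3⟩ := h2 z ok hX.2.1.2
  obtain ⟨y1, y2, y3⟩ := h3 z ok hX.2.2
  have o2 : D.c c2 * B' ∈ D.O (T.φ z) := ⟨mul_mem (Cv.c_mem _) hB', b2⟩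
  have o3 : D.c c3 * U' ∈ D.O (T.φ z) := ⟨mul_mem (Cv.c_mem _) hU', y2⟩
  have e : D.c c1 * (B' * U') = D.c (c1 / (c2 * c3)) * (D.c c2 * B' * (D.c c3 * U')) := by
    have : D.c c1 = D.c (c1 / (c2 * c3)) * (D.c c2 * D.c c3) := by
      rw [← map_mul, ← map_mul, div_mul_cancel₀ _ (mul_ne_zero n2 n3)]
    rw [this]
    ring
  rw [e, Cv.vl_mul ok.rat (Cv.c_mem_O _ _) (mul_mem o2 o3), Cv.vl_mul ok.rat o2 o3, Cv.vl_c, b3,
    y3] at a3
  rw [RingEquiv.trans_apply, RingEquiv.trans_apply, ← a3, map_mul, map_mul,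
    RingEquiv.symm_apply_apply, Cv.vl_mul hz ⟨hB, b1⟩ ⟨hU, y1⟩]
  ring

theorem p_TAU (hFRB : S_FRB) (hRAT : S_RAT) (hFROB : S_FROB) :
    S_TAU := by
  intro m C1
  obtain ⟨n, C0, p0, hR⟩ := hRAT m C1
  obtain ⟨C2, p2, hF⟩ := hFROB (2 * (m + 3)) C1
  refine ⟨(m + 3) * n, C0 + 2 * C2, p0 + p2 + 6 * n * C2, ?_⟩
  intro F _ _ C D T Γ Γ' hp hM hS hf
  have hR' := hR F C D T Γ Γ' (by omega) hM (hS.mono (by omega)) hf
  choose! X τ c hX hc hRl using hR'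
  have ff := hFRB _ _ _ _ Γ C.can
  have m0 : ∀ i j, Γ.w i / Γ.w j ∈ C.E0 := fun i j => div_mem (hf.rf i).2 (hf.rf j).2
  have m0' : ∀ i j, Γ'.w i / Γ'.w j ∈ D.E0 := fun i j => div_mem (hf.rf' i).2 (hf.rf' j).2
  have h10 : (1 : Fin (m + 3)) ≠ 0 := by simp
  have key : ∀ j, j ≠ 0 → τ j 0 = τ 1 0 := by
    intro j hj
    by_cases h1 : j = 1
    · rw [h1]
    have e : Γ.w j / Γ.w 1 * (Γ.w 1 / Γ.w 0) = Γ.w j / Γ.w 0 := div_mul_div_cancel₀ (Γ.ne 1)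
    have e' : Γ'.w j / Γ'.w 1 * (Γ'.w 1 / Γ'.w 0) = Γ'.w j / Γ'.w 0 := div_mul_div_cancel₀ (Γ'.ne 1)
    have r := tau_rel (m0 j 1) (m0 1 0) (m0' j 1) (m0' 1 0) (hc j 1 h1) (hc 1 0 h10)
      (by rw [e, e']; exact hRl j 0 hj) (hRl j 1 h1) (hRl 1 0 h10)
    rw [e] at r
    have o : ord (Γ.G 0) (Γ.w j / Γ.w 0) ≠ 0 := by
      have := ff.neg 0 j hj.symm
      rw [← inv_div, ord_inv] at this
      omega
    have cd : (T.B ∪ (X j 0 ∪ X j 1 ∪ X 1 0)).card * C2 ≤ Fintype.card F := by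
      have a1 := Finset.card_union_le T.B (X j 0 ∪ X j 1 ∪ X 1 0)
      have a2 := Finset.card_union_le (X j 0 ∪ X j 1) (X 1 0)
      have a3 := Finset.card_union_le (X j 0) (X j 1)
      have a4 := hX j 0 hj
      have a5 := hX j 1 h1
      have a6 := hX 1 0 h10
      have a7 := (hS.mono (a := 2 * C2) (by omega)).1
      have a8 := char_le (F := F)
      have a9 := Nat.mul_le_mul_right C2
        (show (T.B ∪ (X j 0 ∪ X j 1 ∪ X 1 0)).card ≤ T.B.card + 3 * n by omega)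
      nlinarith
    have := hF F _ C _ _ (Γ.G 0) _ _ _ _ (by omega) hM (m0 j 0) (m0 j 1) (ff.bd j 0) (ff.bd j 1) o
      (div_ne_zero (Γ.ne j) (Γ.ne 1)) (ff.zero hf.sim 0 1 j h10.symm hj.symm) cd
      fun z a b _ _ => r z a b
    ext x
    simpa [RingEquiv.symm_apply_eq] using RingEquiv.congr_fun this x
  refine ⟨(Finset.univ.erase 0).biUnion fun j => X j 0, τ 1 0, fun j => if j = 0 then 1 else c j 0,
    ?_, fun i => ?_⟩
  · refine (Finset.card_biUnion_le_card_mul _ _ n fun j hj => hX j 0 (Finset.ne_of_mem_erase hj)).trans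
      (Nat.mul_le_mul_right _ ?_)
    simp
  · by_cases hi : i = 0
    · subst hi
      simp only [if_true, div_self (Γ.ne 0), div_self (Γ'.ne 0), mul_one]
      refine ⟨one_ne_zero, fun z _ _ => ⟨by simp, by simp, ?_⟩⟩
      rw [Cv.vl_c, ← C.c.map_one, Cv.vl_c, map_one]
    · simp only [if_neg hi]
      refine ⟨hc i 0 hi, fun z a b => ?_⟩
      rw [← key i hi]
      exact hRl i 0 hi z a fun e => b (Finset.mem_biUnion.2 ⟨i, by simp [hi], e⟩)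

end

section

lemma iso_frac {R E E' : Type} [CommRing R] [Field E] [Field E'] (φ : R →+* E) (ψ : R →+* E')
    (h : ∀ r, φ r = 0 ↔ ψ r = 0) (h1 : ∀ z, ∃ a b, z = φ a / φ b)
    (h2 : ∀ z, ∃ a b, z = ψ a / ψ b) : ∃ i : E ≃+* E', ∀ r, i (φ r) = ψ r := by
  let φ' : R ⧸ RingHom.ker φ →+* E := Ideal.Quotient.lift _ φ fun _ ha => ha
  let ψ' : R ⧸ RingHom.ker φ →+* E' := Ideal.Quotient.lift _ ψ fun a ha => (h a).1 ha
  have i1 : Function.Injective φ' := RingHom.lift_injective_of_ker_le_ideal _ _ le_rfl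
  have i2 : Function.Injective ψ' :=
    RingHom.lift_injective_of_ker_le_ideal _ _ fun a ha => (h a).2 ha
  let _ := φ'.toAlgebra
  let _ := ψ'.toAlgebra
  have := (faithfulSMul_iff_algebraMap_injective _ E).2 i1
  have := (faithfulSMul_iff_algebraMap_injective _ E').2 i2
  have : IsFractionRing (R ⧸ RingHom.ker φ) E := IsFractionRing.of_field _ _ fun z => by
    obtain ⟨a, b, e⟩ := h1 z
    exact ⟨Ideal.Quotient.mk _ a, Ideal.Quotient.mk _ b, e⟩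
  have : IsFractionRing (R ⧸ RingHom.ker φ) E' := IsFractionRing.of_field _ _ fun z => by
    obtain ⟨a, b, e⟩ := h2 z
    exact ⟨Ideal.Quotient.mk _ a, Ideal.Quotient.mk _ b, e⟩
  exact ⟨(IsLocalization.algEquiv (nonZeroDivisors (R ⧸ RingHom.ker φ)) E E').toRingEquiv,
    fun r => (IsLocalization.algEquiv (nonZeroDivisors (R ⧸ RingHom.ker φ)) E E').commutes
      (Ideal.Quotient.mk _ r)⟩

open Polynomial in
lemma iso_ker {k E : Type} [Field k] [Field E] [Algebra k E] {a b : E} (ha : Transcendental k a)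
    {Ψ : k[X][Y]} (hΨ : Irreducible Ψ) (h0 : aevalAeval a b Ψ = 0) (G : k[X][Y]) :
    aevalAeval a b G = 0 ↔ Ψ ∣ G := by
  refine ⟨fun hG => ?_, fun ⟨u, hu⟩ => by rw [hu, map_mul, h0, zero_mul]⟩
  have hi : Function.Injective ((aeval a : k[X] →ₐ[k] E) : k[X] →+* E) :=
    transcendental_iff_injective.1 ha
  have hd : Ψ.natDegree ≠ 0 := fun e => by
    rw [eq_C_of_natDegree_eq_zero e, aevalAeval_C] at h0
    refine hΨ.ne_zero ?_
    rw [eq_C_of_natDegree_eq_zero e, transcendental_iff.1 ha _ h0, map_zero]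
  have hp := hΨ.isPrimitive hd
  let φ : (FractionRing k[X])[X] →+* E := eval₂RingHom (IsFractionRing.lift hi) b
  have hφ : φ.comp (mapRingHom (algebraMap k[X] (FractionRing k[X]))) =
      ((aevalAeval a b : k[X][Y] →ₐ[k] E) : k[X][Y] →+* E) :=
    Polynomial.ringHom_ext (fun p => by simp [φ]) (by simp [φ])
  have e : ∀ p : k[X][Y], φ (p.map (algebraMap _ _)) = aevalAeval a b p := fun p =>
    DFunLike.congr_fun hφ p
  refine hp.dvd_of_fraction_map_dvd_fraction_map (K := FractionRing k[X]) ?_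
  refine (((hp.irreducible_iff_irreducible_map_fraction_map).1 hΨ).dvd_or_isRelPrime).resolve_right
    fun hr => ?_
  obtain ⟨u, v, huv⟩ := hr.isCoprime
  have := congrArg φ huv
  rw [map_add, map_mul, map_mul, e, e, h0, hG, map_one] at this
  simp at this

open Polynomial in
lemma iso_gen {k E : Type} [Field k] [Field E] [Algebra k E] {a b : E} (h : k⟮a, b⟯ = ⊤) (z : E) :
    ∃ p q : k[X][Y], z = aevalAeval a b p / aevalAeval a b q := by
  obtain ⟨r, hr, s, hs, e⟩ := IntermediateField.mem_adjoin_iff_div.1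
    (show z ∈ k⟮a, b⟯ from h ▸ trivial)
  have key : Algebra.adjoin k ({a, b} : Set E) ≤ (aevalAeval a b : k[X][Y] →ₐ[k] E).range :=
    Algebra.adjoin_le (Set.insert_subset ⟨C X, aevalAeval_X a b⟩
      (Set.singleton_subset_iff.2 ⟨X, aevalAeval_Y a b⟩))
  obtain ⟨p, rfl⟩ := key hr
  obtain ⟨q, rfl⟩ := key hs
  exact ⟨p, q, e⟩

open Polynomial in
theorem p_ISO :
    S_ISO := by
  intro F _ _ g C D a b a' b' s Ψ ha hb ha' hb' ta ta' ga ga' hΨ h0 h0'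
  let ρ : (Kb F)[X][Y] ≃+* (Kb F)[X][Y] := mapEquiv (mapEquiv s)
  have hρ : ∀ p, ρ p = p.map (mapRingHom (s : Kb F →+* Kb F)) := fun _ => rfl
  rw [← hρ] at h0'
  obtain ⟨i, hi⟩ := iso_frac ((aevalAeval a b : (Kb F)[X][Y] →ₐ[Kb F] C.E) : (Kb F)[X][Y] →+* C.E)
    (((aevalAeval a' b' : (Kb F)[X][Y] →ₐ[Kb F] D.E) : (Kb F)[X][Y] →+* D.E).comp
      (ρ : (Kb F)[X][Y] →+* (Kb F)[X][Y]))
    (fun r => (iso_ker ta hΨ h0 r).trans ((map_dvd_iff ρ).symm.trans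
      (iso_ker ta' ((MulEquiv.irreducible_iff ρ).2 hΨ) h0' (ρ r)).symm))
    (iso_gen ga) fun z => by
      obtain ⟨p, q, e⟩ := iso_gen ga' z
      exact ⟨ρ.symm p, ρ.symm q, by simpa using e⟩
  have hi' : ∀ r, i (aevalAeval a b r) = aevalAeval a' b' (ρ r) := hi
  have i1 : ∀ c, i (algebraMap _ C.E c) = algebraMap _ D.E (s c) := fun c => by
    simpa [hρ] using hi' (Polynomial.C (Polynomial.C c))
  have i2 : i a = a' := by simpa [hρ] using hi' (Polynomial.C X)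
  have i3 : i b = b' := by simpa [hρ] using hi' X
  refine ⟨i, s, i1, fun z => ?_⟩
  have hz : z ∈ (Kb F)⟮a, b⟯ := ga ▸ trivial
  induction hz using IntermediateField.adjoin_induction with
  | mem z hz =>
    rcases hz with rfl | rfl
    · rw [Cv.mem_E0.1 ha, i2, Cv.mem_E0.1 ha']
    · rw [Cv.mem_E0.1 hb, i3, Cv.mem_E0.1 hb']
  | algebraMap c => rw [C.σ.h, i1, i1, D.σ.h, C.fr.2.2, D.fr.2.2, map_pow]
  | add a b _ _ h1 h2 => simp only [map_add, h1, h2]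
  | inv a _ h1 => simp only [map_inv₀, h1]
  | mul a b _ _ h1 h2 => simp only [map_mul, h1, h2]

end

section

theorem p_EMB (hBDP : S_BDP) (hREL : S_REL) (hISO : S_ISO) :
    S_EMB := by
  intro n C1
  obtain ⟨d, hd⟩ := hREL n
  refine ⟨3 * C1 * (2 * (2 * d * n) + 1), ?_⟩
  intro F _ _ g C D T a b a' b' X τ hM hT hX hC ea eb ea' eb' ba bb ba' bb' ta ta' ga ga' ra rb
  obtain ⟨Ψ, h1, -, h2, h3, h4, -⟩ := hd _ _ a b ta ba bb
  let s : Kb F ≃+* Kb F := IsAlgClosure.equivOfEquiv (Kb F) (Kb F) τ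
  have hs : ∀ x, s (algebraMap F _ x) = algebraMap F _ (τ x) :=
    IsAlgClosure.equivOfEquiv_algebraMap (Kb F) (Kb F) τ
  refine hISO F g C D a b a' b' s Ψ ea eb ea' eb' ta ta' ga ga' h1 h4 (by_contra fun h0 => ?_)
  obtain ⟨k1, k2⟩ := hBDP _ _ n d a' b' (Ψ.map (Polynomial.mapRingHom (s : Kb F →+* Kb F))) ba' bb'
    (Polynomial.natDegree_map_le.trans h2) fun i => by
      rw [Polynomial.coeff_map]
      exact Polynomial.natDegree_map_le.trans (h3 i)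
  obtain ⟨Z, z1, z2⟩ := k1.unit h0
  obtain ⟨z, hz, hz'⟩ := hM (T.B ∪ X ∪ Z.image T.φ') (by
    have e1 := Nat.mul_le_mul_right C1 ((Finset.card_union_le (T.B ∪ X) (Z.image T.φ')).trans
      (Nat.add_le_add (Finset.card_union_le _ _) (Finset.card_image_le.trans z1)))
    have e2 := (Nat.mul_le_mul_left _ (Nat.le_mul_of_pos_right (3 * C1) (Nat.succ_pos _))).trans hT.1
    have e3 := (Nat.mul_le_mul_left _ (Nat.le_mul_of_pos_right (3 * C1) (Nat.succ_pos _))).trans hX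
    have e4 := (Nat.mul_le_mul_left (3 * C1) (Nat.le_succ _)).trans hC
    generalize 2 * (2 * d * n) = c at e1 e4
    linarith)
  rw [Finset.mem_union, Finset.mem_union, not_or, not_or] at hz'
  have ok : T.Ok z := ⟨hz, hz'.1.1⟩
  obtain ⟨a1, a2, a3⟩ := ra z ok hz'.1.2
  obtain ⟨b1, b2, b3⟩ := rb z ok hz'.1.2
  obtain ⟨c1, c2⟩ := k2 _ a2 b2
  have c3 := ((hBDP _ _ n d a b Ψ ba bb h2 h3).2 z a1 b1).2
  rw [h4, (ev_eq_zero_iff (by simp)).2 (by simp)] at c3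
  rw [← Cv.vl_spec ok.rat ea', ← Cv.vl_spec ok.rat eb', a3, b3, ← hs, ← hs, Cv.vl_spec hz ea,
    Cv.vl_spec hz eb] at c2
  have c4 := c2.trans (Polynomial.map_mapRingHom_evalEval (s : Kb F →+* Kb F) Ψ _ _)
  rw [← c3, map_zero, ev_eq_zero_iff c1, z2 _ (ok.not_mem hz'.2)] at c4
  exact lt_irrefl _ c4

end

section

lemma nhi_bd {k E ι : Type} [Field k] [Field E] [Algebra k E] {n : ℕ} {x : ι → E}
    (h : ∀ i, Bd k n (x i)) (s : Finset ι) : Bd k (s.card * n) (∑ i ∈ s, x i) := by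
  induction s using Finset.induction_on with
  | empty => simpa using Bd.const (k := k) (E := E) 0 0
  | insert a s ha ih =>
    rw [Finset.sum_insert ha, Finset.card_insert_of_notMem ha, add_mul, one_mul, add_comm (_ * _)]
    exact (h a).add ih

lemma nhi_rl {F ι : Type} [Field F] [Fintype F] [Fintype ι] {g : ℕ} {C D : Cv F g} {T : Tr C D}
    {X : Finset C.Pl} {τ : F ≃+* F} {x : ι → C.E} {x' : ι → D.E} (h0 : ∀ i, x i ∈ C.E0)
    (h0' : ∀ i, x' i ∈ D.E0) (h : ∀ i, T.Rl X τ (x i) (x' i)) (y : ι → F) :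
    T.Rl X τ (∑ i, C.c (y i) * x i) (∑ i, D.c (τ (y i)) * x' i) := fun z hz hX => by
  have a : ∀ i, x i ∈ C.O z := fun i => ⟨h0 i, (h i z hz hX).1⟩
  have a' : ∀ i, x' i ∈ D.O (T.φ z) := fun i => ⟨h0' i, (h i z hz hX).2.1⟩
  have b : ∀ i, C.c (y i) * x i ∈ C.O z := fun i => mul_mem (Cv.c_mem_O _ _) (a i)
  have b' : ∀ i, D.c (τ (y i)) * x' i ∈ D.O (T.φ z) := fun i => mul_mem (Cv.c_mem_O _ _) (a' i)
  refine ⟨(sum_mem fun i _ => b i : _ ∈ C.O z).2, (sum_mem fun i _ => b' i : _ ∈ D.O _).2, ?_⟩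
  rw [Cv.vl_sum hz.rat _ b', Cv.vl_sum hz.1 _ b, map_sum]
  refine Finset.sum_congr rfl fun i _ => ?_
  rw [Cv.vl_mul hz.rat (Cv.c_mem_O _ _) (a' i), Cv.vl_mul hz.1 (Cv.c_mem_O _ _) (a i), Cv.vl_c,
    Cv.vl_c, map_mul, (h i z hz hX).2.2]

theorem p_NHI (hFRB : S_FRB) (hNH : S_NH) (hPRIM : S_PRIM) (hAVF : S_AVF) (hTAU : S_TAU) (hEMB : S_EMB) :
    S_NHI := by
  intro m C1
  obtain ⟨c, d, hP⟩ := hPRIM (m + 3) (2 * (m + 3))
  obtain ⟨n, C0, p0, hT⟩ := hTAU m C1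
  obtain ⟨C2, hE⟩ := hEMB ((m + 3) * (2 * (m + 3))) C1
  refine ⟨C0 + C2, p0 + d + 2 * c + (n + 1) * C2, fun F _ _ C D T Γ Γ' hp hM hS hf n1 n2 => ?_⟩
  have hq := char_le (F := F)
  rw [add_mul, one_mul] at hp
  obtain ⟨X, τ, e, hX, he⟩ := hT F C D T Γ Γ' (by omega) hM (hS.mono (by omega)) hf
  have f1 := hFRB _ _ _ _ Γ C.can
  have f2 := hFRB _ _ _ _ Γ' D.can
  obtain ⟨Z, y1, y2⟩ := hNH _ _ _ _ Γ 0 C.can n1
  obtain ⟨Z', y1', y2'⟩ := hNH _ _ _ _ Γ' 0 D.can n2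
  have h10 : (1 : Fin (m + 3)) ≠ 0 := one_ne_zero
  have t1 : Transcendental (Kb F) (Γ.w 1 / Γ.w 0) := trans_of_ord (f1.neg 1 0 h10).ne
  have e0 : ∀ i, D.c (e i) ≠ 0 := fun i => (map_ne_zero D.c).2 (he i).1
  have t2 : Transcendental (Kb F) (D.c (e 1) * (Γ'.w 1 / Γ'.w 0)) := by
    refine trans_of_ord (P := Γ'.G 1) ?_
    rw [ord_mul _ (e0 1) (div_ne_zero (Γ'.ne 1) (Γ'.ne 0)), Cv.c_apply, ord_const, zero_add]
    exact (f2.neg 1 0 h10).ne
  have b2 : ∀ i, Bd (Kb F) (2 * (m + 3)) (D.c (e i) * (Γ'.w i / Γ'.w 0)) := fun i =>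
    (f2.bd i 0).cmul _
  have ch : Ch (Kb F) d := ch_of_lt (by omega)
  obtain ⟨Δ, d1, d2, d3⟩ := hP _ _ _ _ _ _ Z C.can ch t1 (f1.bd 1 0) y1 y2
  obtain ⟨Δ', d1', d2', d3'⟩ := hP _ _ _ _ _ _ Z' D.can ch t2 (b2 1) y1' y2'
  let s : Kb F ≃+* Kb F := IsAlgClosure.equivOfEquiv (Kb F) (Kb F) τ
  have hs : ∀ a, s (algebraMap F (Kb F) a) = algebraMap F (Kb F) (τ a) :=
    IsAlgClosure.equivOfEquiv_algebraMap _ _ τ
  obtain ⟨y, hy⟩ := hAVF F (Kb F) (Fin (m + 3))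
    (Δ ∪ Δ'.image fun δ i => s.symm (algebraMap F (Kb F) (e i) * δ i))
    (lt_of_le_of_lt ((Finset.card_union_le _ _).trans (Nat.add_le_add d1
      (Finset.card_image_le.trans d1'))) (by omega)) (fun δ hδ => by
      rcases Finset.mem_union.1 hδ with h | h
      · exact d2 δ h
      · obtain ⟨δ', h', rfl⟩ := Finset.mem_image.1 h
        refine fun h0 => d2' δ' h' (funext fun i => ?_)
        simpa [(he i).1] using congrFun h0 i)
  have g1 := d3 (fun i => algebraMap F (Kb F) (y i)) fun δ h => hy δ (Finset.mem_union_left _ h)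
  have g2 := d3' (fun i => algebraMap F (Kb F) (τ (y i) * e i)) fun δ h h0 =>
    hy _ (Finset.mem_union_right _ (Finset.mem_image_of_mem _ h)) (s.injective (by
      rw [map_sum, map_zero, ← h0]
      exact Finset.sum_congr rfl fun i _ => by
        rw [map_mul, hs, s.apply_symm_apply, map_mul, mul_assoc]))
  have m1 : ∀ i, Γ.w i / Γ.w 0 ∈ C.E0 := fun i => div_mem (hf.rf i).2 (hf.rf 0).2
  have m2 : ∀ i, D.c (e i) * (Γ'.w i / Γ'.w 0) ∈ D.E0 := fun i =>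
    mul_mem (Cv.c_mem _) (div_mem (hf.rf' i).2 (hf.rf' 0).2)
  have le : 2 * (m + 3) ≤ (m + 3) * (2 * (m + 3)) := Nat.le_mul_of_pos_left _ (by omega)
  refine hE F _ C D T _ _ _ _ X τ hM (hS.mono (by omega))
    ((Nat.mul_le_mul_right _ hX).trans (by omega)) (by omega) (m1 1)
    (sum_mem fun i _ => mul_mem (Cv.c_mem _) (m1 i)) (m2 1)
    (sum_mem fun i _ => mul_mem (Cv.c_mem _) (m2 i)) ((f1.bd 1 0).mono le) ?_ ((b2 1).mono le) ?_
    t1 t2 ?_ ?_ (he 1).2 (nhi_rl m1 m2 (fun i => (he i).2) y)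
  · simpa only [Finset.card_univ, Fintype.card_fin] using
      nhi_bd (x := fun i => C.c (y i) * (Γ.w i / Γ.w 0)) (fun i => (f1.bd i 0).cmul _) Finset.univ
  · simpa only [Finset.card_univ, Fintype.card_fin] using
      nhi_bd (x := fun i => D.c (τ (y i)) * (D.c (e i) * (Γ'.w i / Γ'.w 0)))
        (fun i => (b2 i).cmul _) Finset.univ
  · simpa only [Algebra.smul_def, Cv.c_apply] using g1
  · simpa only [Algebra.smul_def, Cv.c_apply, map_mul, mul_assoc] using g2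

end

section

lemma ht_le {k E : Type} [Field k] [Field E] [Algebra k E] {A : Dv k E} {P : Place k E}
    (h : 0 ≤ A) (h1 : 0 < A P) : pt P ≤ A := fun Q => by
  rcases eq_or_ne Q P with rfl | e
  · rwa [Finsupp.single_eq_same]
  · exact (pt_ne e).trans_le (h Q)

lemma ht_one {k E : Type} [Field k] [Field E] [Algebra k E] {A : Dv k E} (h : 0 ≤ A)
    (h1 : deg A = 1) : ∃ P, A = pt P := by
  obtain ⟨P, hP⟩ := Finsupp.support_nonempty_iff.2 (show A ≠ 0 by rintro rfl; simp at h1)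
  have h2 := ht_le h (lt_of_le_of_ne (h P) (Finsupp.mem_support_iff.1 hP).symm)
  exact ⟨P, sub_eq_zero.1 (eq_zero_of_deg (sub_nonneg.2 h2) (by rw [map_sub, h1, deg_single]; rfl))⟩

variable {F : Type} [Field F] [Fintype F] {g : ℕ} {C D : Cv F g} {a : C.E}

lemma ht_pick {C1 : ℕ} (T : Tr C D) (h0 : 10 * C1 ≤ Fintype.card F) (hM : C.Many C1)
    (hT : T.Sm (10 * C1)) (ht : Transcendental (Kb F) a) (hb : Bd (Kb F) 2 a) (c : Kb F) :
    ∃ z, T.Ok z ∧ z.v a ≤ 1 ∧ ev z a ≠ c ∧ ∀ b ∈ T.B, ev z a ≠ ev b a := by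
  choose X hX hX' using hb.fibre ht
  obtain ⟨z, h1, h2⟩ := hM (T.B ∪ (X c ∪ T.B.biUnion fun b => X (ev b a))) (by
    have e1 := Finset.card_biUnion_le_card_mul T.B (fun b => X (ev b a)) 4 fun b _ => hX _
    have e2 := (Finset.card_union_le T.B _).trans (Nat.add_le_add_left
      ((Finset.card_union_le (X c) _).trans (Nat.add_le_add (hX c) e1)) _)
    have := Nat.mul_le_mul_right C1 e2
    have := hT.1
    nlinarith)
  simp only [Finset.mem_union, Finset.mem_biUnion, not_or, not_exists, not_and] at h2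
  exact ⟨z, ⟨h1, h2.1⟩, (hX' c z h2.2.1).1, (hX' c z h2.2.1).2,
    fun b e => (hX' _ z (h2.2.2 b e)).2⟩

lemma ht_pole (ha : a ∈ C.E0) (ht : Transcendental (Kb F) a) (hb : Bd (Kb F) 2 a) :
    ∃ H ∈ C.D0, 0 ≤ H ∧ deg H ≤ 2 ∧ a ∈ LS H ∧ ∀ P, H P = 0 ∨ P.v a = exp (H P) := by
  obtain ⟨H, h1, h2, h3⟩ := hb
  have a0 : a ≠ 0 := fun e => ht (e ▸ isAlgebraic_zero)
  refine ⟨-dv (Kb F) a ⊔ 0, R.dm_eq.2 fun P => ?_, le_sup_right, (deg_mono (sup_le ?_ h1)).trans h2,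
    (mem_LS' a0).2 (neg_le_iff_add_nonneg'.1 le_sup_left), fun P => ?_⟩
  · simp only [Finsupp.sup_apply, Finsupp.neg_apply, Cv.D0_apply (Cv.dv_mem ha), Finsupp.zero_apply]
  · exact neg_le_iff_add_nonneg'.2 ((mem_LS' a0).1 h3)
  · rw [Finsupp.sup_apply, Finsupp.neg_apply, dv_apply, Finsupp.zero_apply]
    exact (le_total _ _).imp max_eq_right fun e => by rw [max_eq_left e, v_eq P a0]

lemma ht_split (T : Tr C D) (ha : a ∈ C.E0) (ht : Transcendental (Kb F) a) {H : Dv (Kb F) C.E}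
    (h0 : H ∈ C.D0) (h1 : 0 ≤ H) (h2 : deg H ≤ 2) (h3 : a ∈ LS H)
    (h4 : ∀ P, H P = 0 ∨ P.v a = exp (H P)) {z : C.Pl} (hz : T.Ok z) (hv : z.v a ≤ 1)
    (hB : ∀ b ∈ T.B, ev z a ≠ ev b a) : ∃ Z, Pr (Z - H) ∧ ((deg H = 1 ∧ Z = pt z) ∨
      (deg H = 2 ∧ ∃ y, T.Ok y ∧ ev y a = ev z a ∧ Z = pt z + pt y)) := by
  obtain ⟨u, hu⟩ : ∃ u, u = a - algebraMap (Kb F) C.E (ev z a) := ⟨_, rfl⟩
  have u0 : u ≠ 0 := hu ▸ sub_ne_zero.2 fun e => ht (e ▸ isAlgebraic_algebraMap _)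
  have u1 : u ∈ C.E0 := by
    rw [hu, ← Cv.vl_spec hz.1 ha]; exact sub_mem ha (Cv.c_mem _)
  have u2 : 0 ≤ dv (Kb F) u + H := (mem_LS' u0).1 (hu ▸ sub_mem h3 (const_mem_LS h1 _))
  have u3 : pt z ≤ dv (Kb F) u + H := ht_le u2 (by
    have := (lt_one_iff u0).1 (hu ▸ ev_spec hv)
    have : 0 ≤ H z := h1 z
    rw [Finsupp.add_apply, dv_apply]
    omega)
  have u4 : deg (dv (Kb F) u + H - pt z) = deg H - 1 := by
    rw [map_sub, map_add, deg_dv, zero_add, deg_single]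
  have u5 := deg_nonneg (sub_nonneg.2 u3)
  refine ⟨dv (Kb F) u + H, ⟨u, u0, (add_sub_cancel_right _ _).symm⟩, ?_⟩
  rcases eq_or_ne (deg H) 1 with e | e
  · exact Or.inl ⟨e, sub_eq_zero.1 (eq_zero_of_deg (sub_nonneg.2 u3) (by omega))⟩
  obtain ⟨y, hy⟩ := ht_one (sub_nonneg.2 u3) (by omega)
  have y1 : C.Rat y := by
    have := Cv.mem_D0.1 (hy ▸ sub_mem (add_mem (Cv.dv_mem u1) h0) hz.1.pt_mem)
    rw [C.σ.dm_single] at this
    exact Finsupp.single_left_injective one_ne_zero this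
  have y2 : ev y a = ev z a := by
    have e1 := DFunLike.congr_fun hy y
    have e2 : 0 ≤ pt z y := pt_nonneg z y
    have e3 : 0 ≤ H y := h1 y
    rw [Finsupp.sub_apply, Finsupp.add_apply, dv_apply, Finsupp.single_eq_same] at e1
    refine ev_eq (hu ▸ (lt_one_iff u0).2 ?_)
    by_contra e4
    have e5 := (h4 y).resolve_left (by omega)
    have e6 : y.v u = exp (H y) := by
      rw [hu, y.v.map_sub_eq_of_lt_left, e5]
      exact (y.triv _).trans_lt (by rw [e5, ← exp_zero, exp_lt_exp]; omega)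
    have := ord_of_v e6
    omega
  exact Or.inr ⟨by omega, y, ⟨y1, fun b => hB y b y2.symm⟩, y2, sub_eq_iff_eq_add'.1 hy⟩

theorem p_HT :
    S_HT := by
  refine fun C1 => ⟨10 * C1, fun F _ _ g C D T a hg h0 hM hT ha ht hb => ?_⟩
  obtain ⟨H, h1, h2, h3, h4, h5⟩ := ht_pole ha ht hb
  obtain ⟨z, z1, z2, -, z4⟩ := ht_pick T h0 hM hT ht hb 0
  obtain ⟨w, w1, w2, w3, w4⟩ := ht_pick T h0 hM hT ht hb (ev z a)
  obtain ⟨Z, p1, hZ⟩ := ht_split T ha ht h1 h2 h3 h4 h5 z1 z2 z4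
  obtain ⟨W, p2, hW⟩ := ht_split T ha ht h1 h2 h3 h4 h5 w1 w2 w4
  have p3 : Pr (Z - W) := by simpa using p1.sub p2
  rcases hZ with ⟨d1, rfl⟩ | ⟨d1, y, y1, -, rfl⟩ <;> rcases hW with ⟨d2, rfl⟩ | ⟨d2, x, x1, x2, rfl⟩
  · exact absurd (congrArg (ev · a) (C.can.eq_of_pr hg p3)).symm w3
  · omega
  · omega
  refine ⟨T.φ w, T.φ x, fun e => ?_⟩
  have p4 := Tr.mp_pr (sub_mem (add_mem z1.pt_mem y1.pt_mem) (add_mem w1.pt_mem x1.pt_mem)) p3
  rw [map_sub, map_add, map_add, Tr.mp_pt, Tr.mp_pt, Tr.mp_pt, Tr.mp_pt] at p4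
  have e1 := DFunLike.congr_fun (R.eff_unique e (add_nonneg (pt_nonneg _) (pt_nonneg _))
    (add_nonneg (pt_nonneg _) (pt_nonneg _)) p4) (T.φ z)
  have e2 : 0 ≤ pt (T.φ y) (T.φ z) := pt_nonneg _ _
  rw [Finsupp.add_apply, Finsupp.add_apply, Finsupp.single_eq_same,
    pt_ne (z1.ne w1 fun e => w3 (e ▸ rfl)), pt_ne (z1.ne x1 fun e => w3 (x2 ▸ e ▸ rfl))] at e1
  omega

end

end Pool.Agent.P.MP_9344a7_nt.Gt
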