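import Pool.Agent.P.MP_9344a7_nt.Gt.Iface
import Pool.Agent.P.MP_9344a7_nt.Tor.Mod1A

/-! Steps HM1, HM2. -/

set_option linter.unusedSectionVars false
set_option linter.unusedVariables false

namespace Pool.Agent.P.MP_9344a7_nt.Gt

open WithZero Module
open Pool.Agent.P.MP_6f117a_ag (Place FF)
open Pool.Agent.P.MP_ab3ecb_nt.Inv
open Pool.Agent.P.MP_9344a7_nt.R (Fr rr_fd)
open Pool.Agent.P.MP_9344a7_nt.Tor (Prd ExF IsUP AL)
open scoped Classical PowerSeries IntermediateField Polynomial Polynomial.Bivariate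

section

section gen

open Polynomial
open Mod1x (TT TT_apply TT_rank TT0_rank TT0_le aeval_mem_LS nd_le)

variable {k E : Type} [Field k] [IsAlgClosed k] [Field E] [Algebra k E] [FF k E]
  {D : Dv k E} {x y z : E} {n : ℕ}

lemma hm1_deg (hx : x ∈ LS D) (ht : Transcendental k x)
    (hp : ∀ P, 0 < D P → P.v x = exp (D P)) {p : k[X]} (h : aeval x p ∈ LS (n • D)) :
    p.natDegree ≤ n := by
  rcases eq_or_ne p 0 with rfl | p0
  · simp
  obtain ⟨Q, hQ⟩ := PL.exists_pole ht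
  have h1 : 0 < D Q := by
    have := hQ.trans_le (mem_LS.1 hx Q)
    rwa [← exp_zero, exp_lt_exp] at this
  have : Q.v.IsTrivialOn k := ⟨fun a ha => Q.v_const ha⟩
  have h2 := mem_LS.1 h Q
  rw [valuation_aeval_eq_valuation_X_pow_natDegree_of_one_lt_valuation_X x hQ p0, hp Q h1,
    ← exp_nsmul, exp_le_exp, Finsupp.smul_apply, nsmul_eq_mul, nsmul_eq_mul] at h2
  exact_mod_cast le_of_mul_le_mul_right h2 h1

lemma hm1_poly (h0 : 0 ≤ D) (hx : x ∈ LS D) (ht : Transcendental k x)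
    (hp : ∀ P, 0 < D P → P.v x = exp (D P)) (hz : z ∈ LS (n • D)) (m : ℕ) : ∀ a b : k[X], b ≠ 0 →
    b.natDegree = m → z * aeval x b = aeval x a → ∃ p : k[X], z = aeval x p := by
  induction m with
  | zero =>
    intro a b b0 hb e
    rw [eq_C_of_natDegree_eq_zero hb] at e b0
    have c0 : algebraMap k E (b.coeff 0) ≠ 0 := by simpa using b0
    refine ⟨a * C (b.coeff 0)⁻¹, ?_⟩
    rw [map_mul, ← e, aeval_C, aeval_C, map_inv₀, mul_inv_cancel_right₀ c0]
  | succ m ih =>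
    intro a b b0 hb e
    obtain ⟨r, hr⟩ := IsAlgClosed.exists_root b (by
      rw [degree_eq_natDegree b0, hb]; exact_mod_cast m.succ_ne_zero)
    have t1 := MP_6f117a_ag.trans_sub ht r
    have t0 := MP_6f117a_ag.trans_ne t1
    obtain ⟨Q, hQ⟩ := PL.exists_pole (MP_6f117a_ag.trans_inv t1)
    rw [map_inv₀, one_lt_inv₀ (zero_lt_iff.2 (v_ne Q t0))] at hQ
    have v1 := le_one_of_sub hQ
    have d0 : D Q = 0 := le_antisymm (not_lt.1 fun h1 => by
      rw [hp Q h1, ← exp_zero, exp_le_exp] at v1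
      omega) (h0 Q)
    have vp : ∀ p : k[X], Q.v (aeval x p) ≤ 1 := fun p => by
      simpa [d0] using mem_LS.1 (aeval_mem_LS h0 hx (le_refl p.natDegree)) Q
    have vr : ∀ p : k[X], p.IsRoot r → Q.v (aeval x p) < 1 := fun p hp => by
      obtain ⟨q, rfl⟩ := dvd_iff_isRoot.2 hp
      rw [map_mul, map_mul, map_sub, aeval_X, aeval_C]
      exact mul_lt_one_of_lt_of_le hQ (vp q)
    have vz : Q.v z ≤ 1 := by simpa [d0] using mem_LS.1 hz Q
    have ha : a.IsRoot r := by
      by_contra h1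
      have h2 := vr (a - C (a.eval r)) (by simp)
      have h3 : Q.v (aeval x a) < 1 := by
        rw [← e, map_mul, mul_comm]
        exact mul_lt_one_of_lt_of_le (vr b hr) vz
      have h4 := Q.v.map_sub_lt h3 h2
      rw [← map_sub (aeval x : k[X] →ₐ[k] E), sub_sub_cancel, aeval_C, Q.v_const h1] at h4
      exact lt_irrefl _ h4
    obtain ⟨a', rfl⟩ := dvd_iff_isRoot.2 ha
    obtain ⟨b', rfl⟩ := dvd_iff_isRoot.2 hr
    have b1 : b' ≠ 0 := right_ne_zero_of_mul b0
    rw [natDegree_mul (X_sub_C_ne_zero r) b1, natDegree_X_sub_C] at hb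
    refine ih a' b' b1 (by omega) (mul_left_cancel₀ t0 ?_)
    simp only [map_mul, map_sub, aeval_X, aeval_C] at e
    linear_combination e

lemma hm1_ind (h0 : 0 ≤ D) (hx : x ∈ LS D) (ht : Transcendental k x)
    (hp : ∀ P, 0 < D P → P.v x = exp (D P)) (hy : y ∈ LS (n • D))
    (hn : y ∉ LinearMap.range (TT (k := k) x 0 (n + 1) 0)) (p q : k[X])
    (e : aeval x p + aeval x q * y = 0) : p = 0 ∧ q = 0 := by
  have hq : q = 0 := by
    by_contra q0
    obtain ⟨r, rfl⟩ := hm1_poly h0 hx ht hp hy _ (-p) q q0 rfl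
      (by rw [map_neg]; linear_combination e)
    refine hn ⟨(⟨r, mem_degreeLT.2 ?_⟩, 0), by simp [TT_apply]⟩
    exact degree_le_natDegree.trans_lt (by exact_mod_cast Nat.lt_succ_of_le (hm1_deg hx ht hp hy))
  subst hq
  exact ⟨by_contra fun hp => MP_6f117a_ag.aeval_ne ht hp (by simpa using e), rfl⟩

lemma hm1_quad (h0 : 0 ≤ D) (hx : x ∈ LS D) (hy : y ∈ LS (n • D))
    (hr : finrank k (LS ((n + n) • D)) = n + n + 1 + (n + 1))
    (hi : ∀ p q : k[X], aeval x p + aeval x q * y = 0 → p = 0 ∧ q = 0) :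
    ∃ a b : k[X], a.natDegree ≤ n + n ∧ b.natDegree ≤ n ∧ y ^ 2 = aeval x a + aeval x b * y := by
  have e : n • D + n • D = (n + n) • D := (add_nsmul D n n).symm
  have h1 : LinearMap.range (TT (k := k) x y (n + n + 1) (n + 1)) ≤ LS ((n + n) • D) := by
    rintro _ ⟨p, rfl⟩
    exact add_mem (aeval_mem_LS h0 hx (nd_le p.1.2))
      (e ▸ Gt.mul_mem_LS (aeval_mem_LS h0 hx (nd_le p.2.2)) hy)
  have := rr_fd ((n + n) • D)
  have h2 : y ^ 2 ∈ LS ((n + n) • D) := by rw [pow_two]; exact e ▸ Gt.mul_mem_LS hy hy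
  rw [← Submodule.eq_of_le_of_finrank_eq h1 (by rw [TT_rank fun p q _ => hi p q, hr])] at h2
  obtain ⟨p, hp⟩ := h2
  exact ⟨_, _, nd_le p.1.2, nd_le p.2.2, hp.symm⟩

lemma hm1_aeval (σ : SA k E) (hx : σ.s x = x) (p : k[X]) :
    σ.s (aeval x p) = aeval x (p.map σ.s0.toRingHom) := by
  induction p using Polynomial.induction_on' with
  | add p q hp hq => simp only [map_add, Polynomial.map_add, hp, hq]
  | monomial n a =>
    rw [Polynomial.map_monomial, aeval_monomial, aeval_monomial, map_mul, map_pow, hx]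
    exact congrArg (· * x ^ n) (σ.h a)

lemma hm1_top (h0 : 0 ≤ D) (hx : x ∈ LS D) (ht : Transcendental k x) (hd : deg D = 2)
    (hi : ∀ p q : k[X], aeval x p + aeval x q * y = 0 → p = 0 ∧ q = 0) :
    IntermediateField.adjoin k {x, y} = ⊤ := by
  obtain ⟨Z, h1, h2⟩ := PL.exists_poles ht
  have := FF.fin x ht
  have h3 : (finrank k⟮x⟯ E : ℤ) ≤ 2 := by
    rw [← h2, ← hd, deg_eq_of_subset (S := Z ∪ D.support) Finset.subset_union_right]
    refine (Finset.sum_le_sum fun P hP => ?_).trans (Finset.sum_le_sum_of_subset_of_nonneg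
      Finset.subset_union_left fun P _ _ => h0 P)
    exact (log_le_iff_le_exp (v_ne P (MP_6f117a_ag.trans_ne ht))).2 (mem_LS.1 hx P)
  have h4 : LinearIndependent k⟮x⟯ ![(1 : E), y] := by
    refine LinearIndependent.pair_iff.2 fun s t e => ?_
    obtain ⟨a, b, hs⟩ := (IntermediateField.mem_adjoin_simple_iff k (s : E)).1 s.2
    obtain ⟨c, d, hu⟩ := (IntermediateField.mem_adjoin_simple_iff k (t : E)).1 t.2
    have e' : (s : E) * 1 + t * y = 0 := e
    have y0 : y ≠ 0 := fun y0 => one_ne_zero (hi 0 1 (by simp [y0])).2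
    by_cases b0 : aeval x b = 0
    · have s0 : (s : E) = 0 := by rw [hs, b0, div_zero]
      rw [s0, zero_mul, zero_add, mul_eq_zero, or_iff_left y0] at e'
      exact ⟨Subtype.ext s0, Subtype.ext e'⟩
    by_cases d0 : aeval x d = 0
    · have t0 : (t : E) = 0 := by rw [hu, d0, div_zero]
      rw [t0, zero_mul, add_zero, mul_one] at e'
      exact ⟨Subtype.ext e', Subtype.ext t0⟩
    rw [hs, hu] at e'
    obtain ⟨h5, h6⟩ := hi (a * d) (c * b) (by
      rw [map_mul, map_mul]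
      field_simp at e'
      linear_combination e')
    have a0 := (mul_eq_zero.1 h5).resolve_right fun e => d0 (by rw [e, map_zero])
    have c0 := (mul_eq_zero.1 h6).resolve_right fun e => b0 (by rw [e, map_zero])
    exact ⟨Subtype.ext (by rw [hs, a0]; simp), Subtype.ext (by rw [hu, c0]; simp)⟩
  have h5 := h4.fintype_card_le_finrank
  have h6 := h4.span_eq_top_of_card_eq_finrank' (by simp at h5 ⊢; omega)
  refine eq_top_iff.2 fun z _ => ?_
  have h7 : z ∈ Submodule.span k⟮x⟯ (Set.range ![(1 : E), y]) := h6 ▸ Submodule.mem_top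
  rw [Matrix.range_cons, Matrix.range_cons, Matrix.range_empty, Set.union_empty,
    Set.singleton_union, Submodule.mem_span_pair] at h7
  obtain ⟨s, t, rfl⟩ := h7
  have h8 : k⟮x⟯ ≤ IntermediateField.adjoin k {x, y} :=
    IntermediateField.adjoin.mono _ _ _ (by simp)
  exact add_mem (mul_mem (h8 s.2) (one_mem _))
    (mul_mem (h8 t.2) (IntermediateField.subset_adjoin _ _ (by simp)))


lemma hm1_sqf {F : Type} [Field F] (n : ℕ) : ∀ p : F[X], p ≠ 0 → p.natDegree = n →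
    ∃ r f : F[X], p = r ^ 2 * f ∧ Squarefree f := by
  induction n using Nat.strong_induction_on with
  | _ n ih =>
    intro p p0 hp
    by_cases h : Squarefree p
    · exact ⟨1, p, by simp, h⟩
    obtain ⟨u, ⟨q, rfl⟩, hu⟩ : ∃ u : F[X], u * u ∣ p ∧ ¬ IsUnit u := by
      by_contra e
      exact h fun u hu => by_contra fun e' => e ⟨u, hu, e'⟩
    have q0 : q ≠ 0 := right_ne_zero_of_mul p0
    have u0 : u ≠ 0 := left_ne_zero_of_mul (left_ne_zero_of_mul p0)
    have := natDegree_pos_of_not_isUnit_of_dvd_monic (monic_mul_leadingCoeff_inv u0) hu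
      (dvd_mul_right _ _)
    rw [natDegree_mul (mul_ne_zero u0 u0) q0, natDegree_mul u0 u0] at hp
    obtain ⟨r, f, rfl, hf⟩ := ih q.natDegree (by omega) q q0 rfl
    exact ⟨u * r, f, by ring, hf⟩

/-- The divisor of poles. -/
lemma hm1_pole {g : ℕ} {W : Dv k E} (hW : Can g W) (hg : 0 < g) (ht : Transcendental k x)
    (hb : Bd k 2 x) : ∃ D : Dv k E, (∀ P, D P = max (-ord P x) 0) ∧ 0 ≤ D ∧ x ∈ LS D ∧
      deg D = 2 ∧ ∀ P, 0 < D P → P.v x = exp (D P) := by
  have x0 := MP_6f117a_ag.trans_ne ht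
  obtain ⟨D, hD⟩ : ∃ D : Dv k E, ∀ P, D P = max (-ord P x) 0 :=
    ⟨-dv k x ⊔ 0, fun P => by simp [Finsupp.sup_apply]⟩
  have h0 : 0 ≤ D := fun P => by rw [hD]; exact le_max_right _ _
  have hx : x ∈ LS D := mem_LS.2 fun P => (le_exp_iff x0).2 (by rw [hD]; omega)
  refine ⟨D, hD, h0, hx, ?_, fun P hP => by rw [v_eq P x0]; congr 1; rw [hD] at hP ⊢; omega⟩
  obtain ⟨H, a, b, c⟩ := hb
  have h1 : deg D ≤ deg H := deg_mono fun P => by
    have h2 := (le_exp_iff x0).1 (mem_LS.1 c P)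
    have h3 : 0 ≤ H P := a P
    rw [hD]
    omega
  have h2 := deg_nonneg h0
  have := rr_fd ((2 * g) • D)
  have h3 : 2 * g + 1 ≤ lS ((2 * g) • D) :=
    (TT0_rank ht _).ge.trans (Submodule.finrank_mono (TT0_le h0 hx (2 * g)))
  have h4 : deg ((2 * g) • D) = 2 * g * deg D := by rw [map_nsmul, nsmul_eq_mul, Nat.cast_mul]; rfl
  by_contra h5
  rcases (by omega : deg D = 0 ∨ deg D = 1) with e | e <;> rw [e] at h4
  · have := lS_le_deg (D := (2 * g) • D) (by omega)
    omega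
  · have := hW.big (D := (2 * g) • D) (by omega)
    omega

end gen

open Polynomial in
open Mod1x (TT TT0_rank) in
theorem p_HM1 (hAVD : S_AVD) :
    S_HM1 := by
  intro g hg
  refine ⟨g + 1 + (g + 1), 2, fun F _ _ C x hc sx tx hb => ?_⟩
  obtain ⟨D, hD, h0, hx, hd, hp⟩ := hm1_pole C.can hg tx hb
  have dD : D ∈ C.D0 := R.dm_eq.2 fun P => by
    have := Cv.D0_apply (Cv.dv_mem sx) P
    rw [dv_apply, dv_apply] at this
    rw [hD, hD, this]
  have hr : ∀ n : ℕ, g ≤ n → (lS (n • D) : ℤ) = n * 2 + 1 - g := fun n hn => by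
    have e : deg (n • D) = n * 2 := by rw [map_nsmul, hd, nsmul_eq_mul]
    rw [← e]
    exact C.can.big (by omega)
  obtain ⟨y, y1, y2, y3⟩ := hAVD F g C _ (nsmul_mem dD (g + 1)) Unit {()}
    (fun _ => LinearMap.range (TT (k := Kb F) x 0 (g + 1 + 1) 0))
    (by simpa using Fintype.one_lt_card) fun _ _ h => by
      have h1 : lS ((g + 1) • D) ≤ _ := Submodule.finrank_mono h
      have h2 := hr (g + 1) (by omega)
      rw [TT0_rank tx] at h1
      omega
  have hi := hm1_ind h0 hx tx hp y1 (y3 () (by simp))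
  obtain ⟨a, b, ha, hb, e⟩ := hm1_quad h0 hx y1 (by
    have := hr (g + 1 + (g + 1)) (by omega)
    unfold lS at this
    omega) hi
  have sx' := Cv.mem_E0.1 sx
  have e1 := congrArg C.σ.s e
  rw [map_pow, map_add, map_mul, Cv.mem_E0.1 y2, hm1_aeval C.σ sx', hm1_aeval C.σ sx', e] at e1
  obtain ⟨a1, b1⟩ := hi (a - a.map C.σ.s0.toRingHom) (b - b.map C.σ.s0.toRingHom)
    (by rw [map_sub, map_sub]; linear_combination e1)
  rw [sub_eq_zero] at a1 b1
  have lf : ∀ p : (Kb F)[X], p = p.map C.σ.s0.toRingHom →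
      ∃ q : F[X], q.map (algebraMap F _) = p := fun p hp =>
    (mem_lifts p).1 ((lifts_iff_coeff_lifts p).2 fun n => mem_range_iff.1 (by
      have := congrArg (coeff · n) hp
      simp only [coeff_map] at this
      exact (C.fr.2.2 _).symm.trans this.symm))
  obtain ⟨a, rfl⟩ := lf a a1
  obtain ⟨b, rfl⟩ := lf b b1
  rw [natDegree_map] at ha hb
  have ev2 : ∀ p : F[X], aeval x (p.map (algebraMap F (Kb F))) = p.eval₂ C.c x := fun p => by
    rw [aeval_def, eval₂_map]
    rfl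
  have e0 : ∀ p : F[X], p.eval₂ C.c x ∈ C.E0 := fun p => by
    rw [eval₂_eq_sum_range]
    exact sum_mem fun i _ => mul_mem (Cv.c_mem _) (pow_mem sx _)
  have k2 : (2 : Kb F) ≠ 0 := by exact_mod_cast ch_of_lt hc 2 two_pos le_rfl
  have hd' : (4 * a + b ^ 2).natDegree ≤ g + 1 + (g + 1) := by
    refine natDegree_add_le_of_degree_le ?_ (natDegree_pow_le.trans (by omega))
    exact (natDegree_C_mul_le 4 a).trans ha
  have e3 : (2 * y - b.eval₂ C.c x) ^ 2 = (4 * a + b ^ 2).eval₂ C.c x := by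
    rw [ev2, ev2] at e
    rw [eval₂_add, eval₂_mul, eval₂_pow, eval₂_ofNat]
    linear_combination 4 * e
  have hi' : ∀ p q : (Kb F)[X], aeval x p + aeval x q * (2 * y - b.eval₂ C.c x) = 0 →
      p = 0 ∧ q = 0 := fun p q e2 => by
    obtain ⟨h3, h4⟩ := hi (p - q * b.map (algebraMap F _)) (Polynomial.C 2 * q) (by
      rw [map_sub, map_mul, map_mul, aeval_C, map_ofNat, ev2]; linear_combination e2)
    have h5 : q = 0 := (mul_eq_zero.1 h4).resolve_left (C_ne_zero.2 k2)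
    exact ⟨by simpa [h5] using h3, h5⟩
  have z0 : 2 * y - b.eval₂ C.c x ∈ C.E0 := sub_mem (by rw [two_mul]; exact add_mem y2 y2) (e0 b)
  generalize 4 * a + b ^ 2 = f at e3 hd'
  generalize 2 * y - b.eval₂ C.c x = z at e3 hi' z0
  have f0 : f ≠ 0 := by
    rintro rfl
    rw [eval₂_zero, pow_eq_zero_iff two_ne_zero] at e3
    exact one_ne_zero (hi' 0 1 (by simp [e3])).2
  obtain ⟨r, f, rfl, hf⟩ := hm1_sqf _ f f0 rfl
  have r0 : r ≠ 0 := fun e => f0 (by simp [e])
  have r1 : r.map (algebraMap F (Kb F)) ≠ 0 := Polynomial.map_ne_zero r0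
  have r2 : r.eval₂ C.c x ≠ 0 := ev2 r ▸ MP_6f117a_ag.aeval_ne tx r1
  have hi2 : ∀ p q : (Kb F)[X], aeval x p + aeval x q * (z / r.eval₂ C.c x) = 0 →
      p = 0 ∧ q = 0 := fun p q e2 => by
    obtain ⟨h3, h4⟩ := hi' (p * r.map (algebraMap F _)) q (by
      rw [map_mul, ev2]
      field_simp at e2
      linear_combination e2)
    exact ⟨(mul_eq_zero.1 h3).resolve_right r1, h4⟩
  have e4 : (z / r.eval₂ C.c x) ^ 2 = f.eval₂ C.c x := by
    rw [div_pow, e3, eval₂_mul, eval₂_pow, mul_div_cancel_left₀ _ (pow_ne_zero 2 r2)]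
  refine ⟨f, _, div_mem z0 (e0 r), hf, fun h => ?_, ?_, e4, hm1_top h0 hx tx hd hi2⟩
  · obtain ⟨s, hs⟩ := IsAlgClosed.exists_pow_nat_eq (algebraMap F (Kb F) (f.coeff 0)) two_pos
    rw [eq_C_of_natDegree_eq_zero h, eval₂_C, Cv.c_apply, ← hs, map_pow,
      sq_eq_sq_iff_eq_or_eq_neg] at e4
    rcases e4 with e4 | e4
    · exact one_ne_zero (hi2 (-Polynomial.C s) 1 (by simp [e4])).2
    · exact one_ne_zero (hi2 (Polynomial.C s) 1 (by simp [e4])).2
  · rw [natDegree_mul (pow_ne_zero 2 r0) hf.ne_zero] at hd'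
    omega

end

section

section geo

variable {k E : Type} [Field k] [Field E] [Algebra k E] [IsAlgClosed k] [FF k E]

lemma hm2_ev {P : Place k E} {a : E} (ha : P.v a ≤ 1) (p : k[X]) :
    P.v (Polynomial.aeval a p) ≤ 1 ∧ ev P (Polynomial.aeval a p) = p.eval (ev P a) := by
  induction p using Polynomial.induction_on' with
  | add p q hp hq =>
    rw [map_add, Polynomial.eval_add, ev_add hp.1 hq.1, hp.2, hq.2]
    exact ⟨P.v.map_add_le hp.1 hq.1, rfl⟩
  | monomial n c =>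
    have h1 : P.v (a ^ n) ≤ 1 := by rw [map_pow]; exact pow_le_one' ha n
    rw [Polynomial.aeval_monomial, Polynomial.eval_monomial, ev_mul (P.triv c) h1, ev_const,
      ev_pow ha, map_mul]
    exact ⟨mul_le_one' (P.triv c) h1, rfl⟩

lemma hm2_sq {P : Place k E} {a y : E} {p : k[X]} (ha : P.v a ≤ 1)
    (h : y ^ 2 = Polynomial.aeval a p) : P.v y ≤ 1 ∧ ev P y ^ 2 = p.eval (ev P a) := by
  have h1 := hm2_ev ha p
  rw [← h] at h1
  have h2 : P.v y ≤ 1 := by
    have := h1.1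
    rwa [map_pow, pow_le_one_iff two_ne_zero] at this
  exact ⟨h2, (ev_pow h2 2).symm.trans h1.2⟩

lemma hm2_rank {a : E} (ht : Transcendental k a) (hb : Bd k 2 a) : finrank k⟮a⟯ E ≤ 2 := by
  obtain ⟨H, h0, hd, hm⟩ := hb
  obtain ⟨Z, h1, h2⟩ := PL.exists_poles ht
  have h3 : ∀ P ∈ Z, log (P.v a) ≤ H P := fun P _ => by
    have := mem_LS.1 hm P
    rwa [← exp_log (v_ne P (MP_6f117a_ag.trans_ne ht)), exp_le_exp] at this
  have h4 : ∑ P ∈ Z, H P ≤ deg H := by
    rw [deg_eq]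
    refine (Finset.sum_le_sum_of_subset_of_nonneg (Finset.subset_union_left (s₂ := H.support))
      fun P _ _ => h0 P).trans (Finset.sum_subset Finset.subset_union_right fun P _ e => ?_).ge
    exact Finsupp.notMem_support_iff.1 e
  have h5 := Finset.sum_le_sum h3
  rw [h2] at h5
  push_cast at hd
  omega

lemma hm2_frac {x : E} (hx : Transcendental k x) (c : k⟮x⟯) :
    ∃ r s : k[X], s ≠ 0 ∧ (c : E) * Polynomial.aeval x s = Polynomial.aeval x r := by
  obtain ⟨r, s, h⟩ := (IntermediateField.mem_adjoin_simple_iff k (c : E)).1 c.2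
  by_cases hs : s = 0
  · exact ⟨0, 1, one_ne_zero, by simp [h, hs]⟩
  · have : Polynomial.aeval x s ≠ 0 := fun e => hs (transcendental_iff.1 hx s e)
    exact ⟨r, s, hs, by rw [h, div_mul_cancel₀ _ this]⟩

open Polynomial in
lemma hm2_iota {x y : E} {f : k[X]} (ht : Transcendental k x) (hb : Bd k 2 x) (hf : Squarefree f)
    (hd : f.natDegree ≠ 0) (h : y ^ 2 = aeval x f) :
    ∃ ι : E ≃ₐ[k⟮x⟯] E, ι y = -y := by
  have hfin := FF.fin x ht
  have hmem : aeval x f ∈ k⟮x⟯ :=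
    (IntermediateField.mem_adjoin_simple_iff k _).2 ⟨f, 1, by simp⟩
  let a : k⟮x⟯ := ⟨aeval x f, hmem⟩
  have hroot : ∀ z : E, z ^ 2 = y ^ 2 → aeval z (X ^ 2 - C a : k⟮x⟯[X]) = 0 := fun z hz => by
    rw [map_sub, map_pow, aeval_X, aeval_C, hz, h]
    exact sub_self _
  have hm : (X ^ 2 - C a : k⟮x⟯[X]).Monic := monic_X_pow_sub_C a two_ne_zero
  have hy : IsIntegral k⟮x⟯ y := ⟨_, hm, by simpa [aeval_def] using hroot y rfl⟩
  have h2 : 2 ≤ (minpoly k⟮x⟯ y).natDegree := by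
    rw [minpoly.two_le_natDegree_iff hy]
    rintro ⟨c, hc⟩
    obtain ⟨A, B, hB, e0⟩ := hm2_frac ht c
    have hc' : (c : E) = y := hc
    have e : A ^ 2 - B ^ 2 * f = 0 := by
      refine transcendental_iff.1 ht _ ?_
      rw [map_sub, map_mul, map_pow, map_pow, ← h, ← e0, hc']
      ring
    have hdv : B ^ 2 ∣ A ^ 2 := ⟨_, sub_eq_zero.1 e⟩
    obtain ⟨D, rfl⟩ := (UniqueFactorizationMonoid.pow_dvd_pow_iff_dvd two_ne_zero).1 hdv
    have e2 : f = D * D := by
      apply mul_left_cancel₀ (pow_ne_zero 2 hB)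
      linear_combination -e
    have hu : IsUnit D := hf D (by rw [e2])
    exact hd (by rw [e2]; exact natDegree_eq_zero_of_isUnit (hu.mul hu))
  have h3 := minpoly.natDegree_le (A := k⟮x⟯) (x := y)
  have h4 := hm2_rank ht hb
  have htop : k⟮x⟯⟮y⟯ = ⊤ := (Field.primitive_element_iff_minpoly_natDegree_eq _ y).2 (by omega)
  have hmin : minpoly k⟮x⟯ y = X ^ 2 - C a := by
    refine eq_of_monic_of_dvd_of_natDegree_le (minpoly.monic hy) hm
      (minpoly.dvd _ _ (hroot y rfl)) ?_ |>.symm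
    rw [natDegree_X_pow_sub_C]
    exact h2
  let pb : PowerBasis k⟮x⟯ E := (IntermediateField.adjoin.powerBasis hy).map
    ((IntermediateField.equivOfEq htop).trans IntermediateField.topEquiv)
  have hgen : pb.gen = y := rfl
  have hr : aeval (-y) (minpoly k⟮x⟯ pb.gen) = 0 := by
    rw [hgen, hmin]; exact hroot _ (neg_sq y)
  exact ⟨AlgEquiv.ofBijective (pb.lift (-y) hr) (Algebra.IsAlgebraic.algHom_bijective _),
    pb.lift_gen (-y) hr⟩

/-- A point of the fibre is determined by the value of `y`. -/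
lemma hm2_uniq {x y : E} {f : k[X]} (h2 : (2 : k) ≠ 0) (ht : Transcendental k x) (hb : Bd k 2 x)
    (hf : Squarefree f) (hd : f.natDegree ≠ 0) (h : y ^ 2 = Polynomial.aeval x f) {c : k}
    {P Q : Place k E} (hP : P.v (x - algebraMap k E c) < 1) (hQ : Q.v (x - algebraMap k E c) < 1)
    (h0 : ev P y ≠ 0) (e : ev Q y = ev P y) : Q = P := by
  obtain ⟨ι, hι⟩ := hm2_iota ht hb hf hd h
  have hx : ι x = x := ι.commutes ⟨x, IntermediateField.mem_adjoin_simple_self k x⟩
  have hc : ∀ d : k, ι (algebraMap k E d) = algebraMap k E d := fun d =>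
    ι.commutes (algebraMap k k⟮x⟯ d)
  have hP' : (PL.conj P ι).v (x - algebraMap k E c) < 1 := by
    rwa [PL.conj_v, map_sub, hx, hc]
  have hy := (hm2_sq (le_one_of_sub hP) h).1
  have e' : ev (PL.conj P ι) y = -ev P y := ev_eq (by
    rw [PL.conj_v, map_sub, hι, hc, map_neg, ← neg_sub', Valuation.map_neg]
    exact ev_spec hy)
  have hne : -ev P y ≠ ev P y := fun a => h0 (by
    apply mul_left_cancel₀ h2
    linear_combination -a)
  obtain ⟨X, hX, hX'⟩ := (hb.sub_const c).inv.poles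
  have hin : ∀ R : Place k E, R.v (x - algebraMap k E c) < 1 → R ∈ X := fun R hR => by
    by_contra a
    have := hX' R a
    rw [map_inv₀, inv_le_one₀ (zero_lt_iff.2 (v_ne R
      (MP_6f117a_ag.trans_ne (MP_6f117a_ag.trans_sub ht c))))] at this
    exact this.not_gt hR
  by_contra a
  have : 2 < X.card := Finset.two_lt_card.2 ⟨Q, hin _ hQ, P, hin _ hP, PL.conj P ι, hin _ hP', a,
    fun b => hne (by rw [← e', ← b, e]), fun b => hne (by rw [← e', ← b])⟩
  omega

end geo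

theorem p_HM2 :
    S_HM2 := by
  intro F _ _ g C a y f h2 ha hy ht hb hf hd h
  have inj := (algebraMap F (Kb F)).injective
  have h' : y ^ 2 = Polynomial.aeval a (f.map (algebraMap F (Kb F))) := by
    rw [h, Polynomial.aeval_def, Polynomial.eval₂_map]
    rfl
  have hev : ∀ x : F, (f.map (algebraMap F (Kb F))).eval (algebraMap F (Kb F) x) =
      algebraMap F (Kb F) (f.eval x) := fun x => by
    rw [Polynomial.eval_map, Polynomial.eval₂_hom]
  refine ⟨fun P hP hv => ⟨C.vl P y, inj ?_⟩, fun x w hw e => ?_⟩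
  · rw [← hev, Cv.vl_spec hP ha, ← (hm2_sq hv h').2, map_mul, Cv.vl_spec hP hy, sq]
  · have ht' := MP_6f117a_ag.trans_sub ht (algebraMap F (Kb F) x)
    obtain ⟨P, hP⟩ := PL.exists_pole (MP_6f117a_ag.trans_inv ht')
    rw [map_inv₀, one_lt_inv₀ (zero_lt_iff.2 (v_ne P (MP_6f117a_ag.trans_ne ht')))] at hP
    have h1 := (hm2_sq (le_one_of_sub hP) h').2
    rw [ev_eq hP, hev, ← e, map_pow, sq_eq_sq_iff_eq_or_eq_neg, ← map_neg] at h1
    obtain ⟨u, hu, hu0⟩ : ∃ u : F, ev P y = algebraMap F (Kb F) u ∧ u ≠ 0 :=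
      h1.elim (fun b => ⟨w, b, hw⟩) fun b => ⟨-w, b, neg_ne_zero.2 hw⟩
    refine ⟨P, ?_, le_one_of_sub hP, Cv.vl_eq (ev_eq hP)⟩
    refine hm2_uniq (by rwa [← map_ofNat (algebraMap F (Kb F)) 2, map_ne_zero]) ht hb
      (PerfectField.separable_iff_squarefree.2 hf).map.squarefree
      (by rwa [Polynomial.natDegree_map]) h' hP ?_ (by rw [hu]; exact (map_ne_zero _).2 hu0) ?_
    · have := Cv.mem_E0.1 (sub_mem ha (Cv.c_mem (C := C) x))
      rw [Cv.c_apply] at this
      rwa [← this, SA.pl_v]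
    · conv_lhs => rw [← Cv.mem_E0.1 hy]
      rw [SA.ev_pl, C.fr.2.2, hu, ← map_pow, FiniteField.pow_card]

end

end Pool.Agent.P.MP_9344a7_nt.Gt
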