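import Pool.Agent.P.MP_9344a7_nt.Gt.Iface
import Pool.Agent.P.MP_9344a7_nt.Lwm

/-! Steps SQP, HI, TORC, CV, TR, TOR. -/

set_option linter.unusedSectionVars false
set_option linter.unusedVariables false

namespace Pool.Agent.P.MP_9344a7_nt.Gt

open WithZero Module
open Pool.Agent.P.MP_6f117a_ag (Place FF)
open Pool.Agent.P.MP_ab3ecb_nt.Inv
open Pool.Agent.P.MP_9344a7_nt.R (Fr rr_fd)
open Pool.Agent.P.MP_9344a7_nt.Tor (Prd ExF IsUP AL)
open scoped Classical PowerSeries IntermediateField Polynomial Polynomial.Bivariate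

section

theorem sqp_point (n : ℕ) : ∃ p0 : ℕ, 2 ≤ p0 ∧ ∀ (F : Type) [Field F] [Fintype F] (g h : F[X])
    (ε : F) (S : Finset F), p0 < ringChar F → Squarefree g → g.natDegree ≠ 0 → g.natDegree ≤ n →
    ε ≠ 0 → h ≠ 0 → h.natDegree ≤ n → S.card * 8 ≤ Fintype.card F →
    ∃ a, a ∉ S ∧ h.eval a ≠ 0 ∧ ∃ b, b ≠ 0 ∧ b ^ 2 = ε * g.eval a := by
  obtain ⟨p0, hp0⟩ := Lwm.lw_sq n 1
  refine ⟨p0 + 8 * n + 2, by omega, fun F _ _ g h ε S hp hg h0 hn hε hh hhn hS => ?_⟩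
  have h1 := hp0 F g ε (by omega) hg h0 hn hε
  rw [Nat.card_eq_fintype_card] at h1
  have h2 : ringChar F ≤ Fintype.card F :=
    Nat.le_of_dvd Fintype.card_pos (ringChar.dvd (FiniteField.cast_card_eq_zero F))
  by_contra hc
  have h3 : {a : F | ∃ b, b ≠ 0 ∧ b ^ 2 = ε * g.eval a} ⊆ ↑(S ∪ h.roots.toFinset) := by
    intro a ha
    by_contra hn'
    rw [Finset.mem_coe, Finset.mem_union, not_or, Multiset.mem_toFinset,
      Polynomial.mem_roots hh] at hn'
    exact hc ⟨a, hn'.1, hn'.2, ha⟩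
  have h4 := Set.ncard_le_ncard h3 (Finset.finite_toSet _)
  rw [Set.ncard_coe_finset] at h4
  have h5 := Finset.card_union_le S h.roots.toFinset
  have h6 := (Multiset.toFinset_card_le h.roots).trans (Polynomial.card_roots' h)
  omega

theorem sqp_mul {F : Type} [Field F] [Fintype F] {a b : F} (h0 : a * b ≠ 0)
    (h : IsSquare a ↔ IsSquare b) : IsSquare (a * b) := by
  by_cases ha : IsSquare a
  · exact ha.mul (h.1 ha)
  · rw [← quadraticChar_one_iff_isSquare h0, map_mul,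
      quadraticChar_neg_one_iff_not_isSquare.2 ha,
      quadraticChar_neg_one_iff_not_isSquare.2 fun hb => ha (h.2 hb)]
    norm_num

theorem sqp_dec {F : Type} [Field F] (x : F[X]) :
    x ≠ 0 → ∃ r G, r ^ 2 * G = x ∧ Squarefree G := by
  induction x using (wellFounded_dvdNotUnit (α := F[X])).induction with
  | _ x ih =>
    intro hx
    by_cases h : Squarefree x
    · exact ⟨1, x, by rw [one_pow, one_mul], h⟩
    · obtain ⟨s, hs⟩ := not_forall.1 h
      obtain ⟨⟨y, rfl⟩, hu⟩ := Classical.not_imp.1 hs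
      have hy : y ≠ 0 := right_ne_zero_of_mul hx
      obtain ⟨r, G, rfl, hG⟩ := ih y ⟨hy, s * s, fun e => hu (isUnit_of_mul_isUnit_left e),
        mul_comm _ _⟩ hy
      exact ⟨s * r, G, by ring, hG⟩

theorem p_SQP :
    S_SQP := by
  intro n
  obtain ⟨p0, h2, hp0⟩ := sqp_point (2 * n)
  refine ⟨8, p0, fun F _ _ f f' S hp hf hf' h0 hn hn' hS h => ?_⟩
  have hne : f * f' ≠ 0 := mul_ne_zero hf.ne_zero hf'.ne_zero
  have hdeg : (f * f').natDegree ≤ 2 * n := Polynomial.natDegree_mul_le.trans (by omega)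
  obtain ⟨r, G, hrG, hG⟩ := sqp_dec _ hne
  have hG0 : G.natDegree = 0 := by
    by_contra hG0
    obtain ⟨ε, hε⟩ := FiniteField.exists_nonsquare (F := F) (by omega)
    obtain ⟨a, ha, ha0, b, -, hb⟩ := hp0 F G (f * f') ε S hp hG hG0
      ((Polynomial.natDegree_le_of_dvd (Dvd.intro_left _ hrG) hne).trans hdeg)
      (fun e => hε (e ▸ IsSquare.zero)) hne hdeg hS
    have e1 : (f * f').eval a = r.eval a ^ 2 * G.eval a := by
      rw [← hrG, Polynomial.eval_mul, Polynomial.eval_pow]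
    rw [Polynomial.eval_mul] at ha0 e1
    obtain ⟨s, hs⟩ := sqp_mul ha0 (h a ha)
    have hs0 : s ≠ 0 := fun e => ha0 (by rw [hs, e, mul_zero])
    refine hε ⟨b * r.eval a / s, ?_⟩
    field_simp
    rw [hb]
    linear_combination ε * (e1 - hs)
  obtain ⟨c, rfl⟩ := Polynomial.natDegree_eq_zero.1 hG0
  have hc : c ≠ 0 := fun e => hG.ne_zero (by rw [e, map_zero])
  have hu : IsUnit (Polynomial.C c) := Polynomial.isUnit_C.2 hc.isUnit
  obtain ⟨s, rfl⟩ : f ∣ r :=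
    (hf.dvd_pow_iff_dvd two_ne_zero).1 (hu.dvd_mul_right.1 (hrG ▸ dvd_mul_right f f'))
  have e1 : f' = s * s * (Polynomial.C c * f) :=
    mul_left_cancel₀ hf.ne_zero (by linear_combination -hrG)
  obtain ⟨u, hu0, rfl⟩ := Polynomial.isUnit_iff.1 (hf' s (Dvd.intro _ e1.symm))
  obtain ⟨a, ha, -, b, hb0, hb⟩ := hp0 F f f 1 S hp hf h0 (by omega) one_ne_zero hf.ne_zero
    (by omega) hS
  rw [one_mul] at hb
  obtain ⟨t, ht⟩ := (h a ha).1 ⟨b, by rw [← hb, sq]⟩
  rw [e1] at ht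
  simp only [Polynomial.eval_mul, Polynomial.eval_C] at ht
  have e2 : (t / b) ^ 2 = u * u * c := by
    field_simp
    linear_combination -ht - u ^ 2 * c * hb
  refine ⟨t / b, fun e => ?_, ?_⟩
  · rw [e, zero_pow two_ne_zero] at e2
    exact mul_ne_zero (mul_ne_zero hu0.ne_zero hu0.ne_zero) hc e2.symm
  · rw [e2, e1, map_mul, map_mul, mul_assoc _ (Polynomial.C c)]

end

section

lemma hi_sf {F L : Type} [Field F] [Finite F] [Field L] (ι : F →+* L) {f : F[X]}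
    (hf : Squarefree f) : Squarefree (f.map ι) :=
  ((PerfectField.separable_iff_squarefree.2 hf).map (f := ι)).squarefree

open Polynomial in
lemma hi_irr {L : Type} [Field L] {f : L[X]} (hf : Squarefree f) (h0 : f.natDegree ≠ 0) :
    Irreducible (Y ^ 2 - C f : L[X][Y]) := by
  rw [(monic_X_pow_sub_C _ two_ne_zero).irreducible_iff_roots_eq_zero_of_degree_le_three
    (by rw [natDegree_X_pow_sub_C]) (by rw [natDegree_X_pow_sub_C]; omega)]
  refine Multiset.eq_zero_of_forall_notMem fun g hg => ?_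
  have h2 := isRoot_of_mem_roots hg
  rw [IsRoot, eval_sub, eval_pow, eval_X, eval_C, sub_eq_zero] at h2
  have h5 := natDegree_eq_zero_of_isUnit (hf g (by rw [← h2, sq]))
  have h6 := congrArg natDegree h2
  rw [natDegree_pow, h5] at h6
  omega

lemma hi_ev {F : Type} [Field F] [Fintype F] {g : ℕ} (C : Cv F g) {a y : C.E} {f : F[X]}
    (h : y ^ 2 = f.eval₂ C.c a) : Polynomial.aevalAeval a y
      (Y ^ 2 - Polynomial.C (f.map (algebraMap F (Kb F))) : (Kb F)[X][Y]) = 0 := by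
  rw [map_sub, map_pow, Polynomial.aevalAeval_Y, Polynomial.aevalAeval_C, Polynomial.aeval_def,
    Polynomial.eval₂_map, h]
  exact sub_self _

lemma hi_root {F : Type} [Field F] {f : F[X]} (h0 : f.natDegree ≠ 0) {x : F}
    (hx : x ∉ f.roots.toFinset) (h : IsSquare (f.eval x)) : ∃ w, w ≠ 0 ∧ w ^ 2 = f.eval x := by
  obtain ⟨w, e⟩ := h
  refine ⟨w, fun e' => hx ?_, by rw [e, sq]⟩
  rw [Multiset.mem_toFinset, Polynomial.mem_roots (fun z => h0 (by rw [z]; rfl)), Polynomial.IsRoot,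
    e, e', mul_zero]

theorem p_HI (hISO : S_ISO) (hHM1 : S_HM1) (hHM2 : S_HM2) (hSQP : S_SQP) :
    S_HI := by
  intro g n hg
  obtain ⟨d, p1, h1⟩ := hHM1 g hg
  obtain ⟨C0, p2, h2⟩ := hSQP d
  refine ⟨3 * C0, p1 + p2 + 2 + 3 * C0 * (2 * n + 2 * d),
    fun F _ _ C D T a a' X τ hp hT hX ha ha' ta ta' ba ba' hR => ?_⟩
  obtain ⟨f, y, y0, f1, f2, f3, f4, f5⟩ := h1 F C a (by omega) ha ta ba
  obtain ⟨f', y', y0', f1', f2', f3', f4', f5'⟩ := h1 F D a' (by omega) ha' ta' ba'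
  have two : (2 : F) ≠ 0 := fun e => by
    have := Nat.le_of_dvd two_pos ((ringChar.spec F 2).1 (by exact_mod_cast e))
    omega
  obtain ⟨u1, u2⟩ := hHM2 F g C a y f two ha y0 ta ba f1 f2 f4
  obtain ⟨u1', u2'⟩ := hHM2 F g D a' y' f' two ha' y0' ta' ba' f1' f2' f4'
  have dg : (f.map (τ : F →+* F)).natDegree = f.natDegree := Polynomial.natDegree_map _
  have evτ : ∀ x, (f.map (τ : F →+* F)).eval (τ x) = τ (f.eval x) := fun x =>
    Polynomial.eval_map_apply (τ : F →+* F) x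
  obtain ⟨c, c0, hc⟩ := h2 F (f.map (τ : F →+* F)) f'
    ((T.B ∪ X).image (fun P => τ (C.vl P a)) ∪ (T.B' ∪ X.image T.φ).image (fun P => D.vl P a') ∪
      ((f.map (τ : F →+* F)).roots.toFinset ∪ f'.roots.toFinset)) (by omega) (hi_sf _ f1) f1'
    (by omega) (by omega) f3'
    (by
      have k1 := Finset.card_image_le (s := T.B ∪ X) (f := fun P => τ (C.vl P a))
      have k2 := Finset.card_image_le (s := T.B' ∪ X.image T.φ) (f := fun P => D.vl P a')
      have k3 := Finset.card_union_le T.B X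
      have k4 := Finset.card_union_le T.B' (X.image T.φ)
      have k5 := Finset.card_image_le (s := X) (f := T.φ)
      have k6 := (Multiset.toFinset_card_le _).trans (Polynomial.card_roots' (f.map (τ : F →+* F)))
      have k7 := (Multiset.toFinset_card_le _).trans (Polynomial.card_roots' f')
      have k8 := char_le (F := F)
      have k9 := hT.1
      have k10 := hT.2
      refine le_trans (Nat.mul_le_mul_right _ ((Finset.card_union_le _ _).trans
        (Nat.add_le_add (Finset.card_union_le _ _) (Finset.card_union_le _ _)))) ?_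
      refine le_trans (Nat.mul_le_mul_right _
        (?_ : _ ≤ T.B.card + T.B'.card + (2 * n + 2 * d))) ?_
      · omega
      nlinarith)
    (fun x hx => by
      simp only [Finset.mem_union, not_or, Finset.mem_image, not_exists, not_and] at hx
      obtain ⟨⟨x1, x2⟩, x3, x4⟩ := hx
      constructor
      · intro h
        obtain ⟨x, rfl⟩ := τ.surjective x
        obtain ⟨w, w0, w1⟩ := hi_root (by omega) x3 h
        obtain ⟨P, a1, -, a3⟩ := u2 x (τ.symm w) (by simpa using w0)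
          (τ.injective (by rw [map_pow, τ.apply_symm_apply, w1, evτ]))
        have ok : T.Ok P := ⟨a1, fun e => x1 P (Or.inl e) (by rw [a3])⟩
        obtain ⟨-, b2, b3⟩ := hR P ok fun e => x1 P (Or.inr e) (by rw [a3])
        have := u1' _ ok.rat b2
        rwa [b3, a3] at this
      · intro h
        obtain ⟨w, w0, w1⟩ := hi_root f2' x4 h
        obtain ⟨Q, a1, -, a3⟩ := u2' x w w0 w1
        obtain ⟨o1, o2, o3⟩ := T.ok' Q a1 fun e => x2 Q (Or.inl e) a3
        obtain ⟨b1, -, b3⟩ := hR _ ⟨o1, o2⟩ fun e => x2 Q (Or.inr ⟨_, e, o3⟩) a3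
        rw [o3, a3] at b3
        rw [b3, evτ]
        exact (u1 _ o1 b1).map τ)
  have c1 : D.c c ≠ 0 := (map_ne_zero _).2 c0
  refine hISO F g C D a y a' (y' / D.c c) (IsAlgClosure.equivOfEquiv (Kb F) (Kb F) τ)
    (Y ^ 2 - Polynomial.C (f.map (algebraMap F (Kb F)))) ha y0 ha' (div_mem y0' (Cv.c_mem c)) ta ta'
    f5 ?_ (hi_irr (hi_sf _ f1) (by rwa [Polynomial.natDegree_map])) (hi_ev C f4) ?_
  · rw [eq_top_iff, ← f5', IntermediateField.adjoin_le_iff]
    rintro z (rfl | rfl)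
    · exact IntermediateField.subset_adjoin _ _ (Or.inl rfl)
    · rw [← div_mul_cancel₀ z c1]
      refine mul_mem (IntermediateField.subset_adjoin _ _ (Or.inr ?_))
        (IntermediateField.algebraMap_mem _ _)
      rw [div_mul_cancel₀ z c1]
      rfl
  · rw [Polynomial.map_sub, Polynomial.map_pow, Polynomial.map_X, Polynomial.map_C,
      Polynomial.coe_mapRingHom, Polynomial.map_map,
      IsAlgClosure.equivOfEquiv_comp_algebraMap, ← Polynomial.map_map]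
    refine hi_ev D ?_
    rw [div_pow, f4', hc, Polynomial.eval₂_mul, Polynomial.eval₂_C, map_pow,
      mul_div_cancel_left₀ _ (pow_ne_zero 2 c1)]

end

section

theorem p_TORC (hFRB : S_FRB) (hH2 : S_H2) (hMANY : S_MANY) (hFRM : S_FRM) (hRAT : S_RAT) (hNHI : S_NHI) (hHT : S_HT) (hHI : S_HI) :
    S_TORC := by
  intro m
  obtain ⟨C1, p1, h1⟩ := hMANY (m + 3)
  obtain ⟨C2, p2, h2⟩ := hFRM (m + 3) C1
  obtain ⟨n, C3, p3, h3⟩ := hRAT m C1
  obtain ⟨C4, p4, h4⟩ := hNHI m C1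
  obtain ⟨C5, h5⟩ := hHT (2 * C1)
  obtain ⟨C6, p6, h6⟩ := hHI (m + 3) n (by omega)
  refine ⟨2 * C1 + C2 + C3 + C4 + C5 + C6, p1 + p2 + p3 + p4 + C5 + p6,
    fun F _ _ C D T hp hr hT => ?_⟩
  have hM := h1 F C (by omega) hr
  have hq : C5 ≤ Fintype.card F := le_trans (by omega) char_le
  obtain ⟨Γ, Γ', hf⟩ := h2 F C D T (by omega) hM (hT.mono (by omega))
  have h10 : (1 : Fin (m + 3)) ≠ 0 := Fin.zero_ne_one.symm
  have e : Γ.w 1 / Γ.w 0 ∈ C.E0 := div_mem (hf.rf 1).2 (hf.rf 0).2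
  have e' : Γ'.w 1 / Γ'.w 0 ∈ D.E0 := div_mem (hf.rf' 1).2 (hf.rf' 0).2
  have t := trans_of_ord ((hFRB _ _ _ _ Γ C.can).neg 1 0 h10).ne
  have t' := trans_of_ord ((hFRB _ _ _ _ Γ' D.can).neg 1 0 h10).ne
  by_cases hC : G12 (Kb F) C.E
  · have b := hH2 _ _ _ _ Γ 1 0 C.can hC h10
    have hD := h5 F _ C D T _ (by omega) hq (hM.mono (by omega)) (hT.mono (by omega)) e t b
    have b' := hH2 _ _ _ _ Γ' 1 0 D.can hD h10
    obtain ⟨X, τ, c, a1, a2, a3⟩ := h3 F C D T Γ Γ' (by omega) hM (hT.mono (by omega)) hf 1 0 h10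
    refine h6 F C D T _ _ X τ (by omega) (hT.mono (by omega)) a1 e (mul_mem (Cv.c_mem c) e') t
      (fun hh => t' ?_) b (b'.cmul _) a3
    have := (isAlgebraic_algebraMap (R := Kb F) (A := D.E) (algebraMap F (Kb F) c⁻¹)).mul hh
    rwa [← Cv.c_apply, ← mul_assoc, ← map_mul, inv_mul_cancel₀ a2, map_one, one_mul] at this
  · exact h4 F C D T Γ Γ' (by omega) hM (hT.mono (by omega)) hf hC fun hD =>
      hC (h5 F _ D C T.symm _ (by omega) hq (Tr.many hM (hT.mono (by omega)))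
        (hT.mono (by omega)).symm e' t' (hH2 _ _ _ _ Γ' 1 0 D.can hD h10))

end

section

lemma cv_can {k E : Type} [Field k] [Field E] [Algebra k E] [IsAlgClosed k] [FF k E] {t : E}
    {g : ℕ} (ht : Transcendental k t) (h : Genus k E g) : ∃ W : Dv k E, Can g W := by
  obtain ⟨g', T⟩ := R.exists_RR ht
  obtain ⟨O, -⟩ := PL.exists_pole ht
  obtain ⟨c, hc⟩ := T.big
  obtain ⟨⟨D, h1⟩, h2⟩ := h
  have h3 := h2 ⟨Finsupp.single O c, rfl⟩
  have h4 := T.rie D
  have h5 := hc (Finsupp.single O c) (by simp)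
  simp only [R.ell_eq, R.degree_eq] at h1 h3
  obtain rfl : g' = g := by omega
  exact T.canonical O

lemma cv_inv {k E : Type} [Field k] [Field E] [Algebra k E] [IsAlgClosed k] [FF k E] {g Q : ℕ}
    {W : Dv k E} {σ : SA k E} (hg : 0 < g) (h : Can g W) (hσ : Fr σ Q) :
    ∃ A : Dv k E, Can g A ∧ σ.dm A = A := by
  have h1 := h (σ.dm W)
  have h2 := h.deg_W
  have h3 : lS (σ.dm W) = g := (σ.finrank_LS_dm W).trans h.lS_W
  rw [h3, σ.deg_dm] at h1
  have h4 : Pr (W - σ.dm W) := pr_of_lS (by rw [map_sub, σ.deg_dm, sub_self]) (by omega)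
  obtain ⟨X, h5, h6⟩ := hσ.count (x := (W : Pic k E)) (n := 2 * g - 2)
    ((R.ph_mk σ W).trans (R.mk_eq.2 h4).symm) (by rw [R.dg_mk]; omega)
  have h7 : R.ll (W : Pic k E) = g := (R.ll_mk W).trans h.lS_W
  obtain ⟨A, hA⟩ : X.Nonempty := Finset.card_ne_zero.1 fun e => by
    rw [e, zero_mul, zero_add, eq_comm, Nat.pow_eq_one] at h6
    have := hσ.1
    omega
  obtain ⟨⟨-, a, -⟩, b⟩ := (h5 A).1 hA
  obtain ⟨z, z0, hz⟩ := R.mk_eq.1 b
  exact ⟨A, by simpa [hz] using h.add_dv z0, R.dm_eq.2 a⟩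

theorem p_CV :
    S_CV := by
  intro F E _ _ _ _ C g hg hG
  have : FF (Kb F) E := .of_fg C.fg C.tr.le
  obtain ⟨t, ht⟩ := (trdeg_ne_zero_iff.1 (C.tr.trans_ne one_ne_zero)).transcendental
  obtain ⟨W, hW⟩ := cv_can ht hG
  let σ : SA (Kb F) E := ⟨C.Φ, (FiniteField.frobeniusAlgEquivOfAlgebraic F _).toRingEquiv, C.frob⟩
  have hσ : Fr σ (Fintype.card F) := ⟨Fintype.one_lt_card, by
    rw [← map_natCast (algebraMap F _), FiniteField.cast_card_eq_zero, map_zero], fun _ => rfl⟩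
  obtain ⟨A, a, b⟩ := cv_inv hg hW hσ
  refine ⟨‹_›, σ, A, hσ, a, b, rfl, rfl, rfl, ?_⟩
  obtain ⟨f, f1, f2⟩ : ∃ f, C.Φ f = f ∧ Transcendental (Kb F) f := by
    by_contra e
    have : Submodule.span (Kb F) {z | C.Φ z = z} ≤ (integralClosure (Kb F) E).toSubmodule :=
      Submodule.span_le.2 fun z hz => IsAlgebraic.isIntegral (not_not.1 fun h => e ⟨z, hz, h⟩)
    exact ht (IsIntegral.isAlgebraic (this (C.desc.ge Submodule.mem_top)))
  have f0 : f ≠ 0 := fun e => f2 (e ▸ isAlgebraic_zero)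
  have hB : Bd (Kb F) (deg (-dv (Kb F) f ⊔ 0)).toNat f := ⟨_, le_sup_right, Int.self_le_toNat _,
    (mem_LS' f0).2 (neg_le_iff_add_nonneg'.1 le_sup_left)⟩
  choose X _ hX using fun a : F => hB.fibre f2 (algebraMap F _ a)
  refine (Finset.univ.biUnion X).finite_toSet.subset fun P hP => ?_
  have h1 := σ.ev_pl P f
  rw [show σ.pl P = P from hP, show σ.s f = f from f1, hσ.2.2] at h1
  obtain ⟨c, hc⟩ := mem_range_iff.1 h1.symm
  exact Finset.mem_coe.2 (Finset.mem_biUnion.2 ⟨c, Finset.mem_univ c,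
    by_contra fun e => (hX c P e).2 hc.symm⟩)

end

section

section

variable {k E E' : Type} [Field k] [Field E] [Algebra k E] [Field E'] [Algebra k E']
  [IsAlgClosed k] [FF k E] [FF k E']

lemma tr_mk (A : Dv k E) (φ : Place k E → Place k E') :
    ((A.mapDomain φ : Dv k E') : Pic k E') = ∑ P ∈ A.support, A P • cls (φ P) := by
  have e : A.mapDomain φ = ∑ P ∈ A.support, A P • pt (φ P) :=
    Finset.sum_congr rfl fun P _ => by rw [Finsupp.smul_single, smul_eq_mul, mul_one]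
  rw [e]
  refine (map_sum (QuotientAddGroup.mk' (Prin k E')) _ _).trans ?_
  exact Finset.sum_congr rfl fun P _ => map_zsmul (QuotientAddGroup.mk' (Prin k E')) _ _

lemma tr_pr {H : AddSubgroup (Pic k E)} {H' : AddSubgroup (Pic k E')} (ψ : H →+ H')
    (φ : Place k E → Place k E') (A : Dv k E)
    (h : ∀ P ∈ A.support, ∃ x : H, x.1 = cls P ∧ (ψ x).1 = cls (φ P)) (hA : Pr A) :
    Pr (A.mapDomain φ) := by
  choose! x h1 h2 using h
  have e0 : (A : Pic k E) = (0 : Dv k E) := R.mk_eq.2 (by rwa [sub_zero])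
  have e1 : ∑ P ∈ A.support, A P • x P = 0 := by
    apply Subtype.ext
    have := tr_mk A id
    rw [Finsupp.mapDomain_id, e0] at this
    refine Eq.trans ?_ this.symm
    refine (map_sum H.subtype _ _).trans (Finset.sum_congr rfl fun P hP => ?_)
    rw [map_zsmul, AddSubgroup.subtype_apply, h1 P hP, id]
  have e2 : ((A.mapDomain φ : Dv k E') : Pic k E') = (0 : Dv k E') := by
    have := congrArg (H'.subtype.comp ψ) e1
    rw [map_sum, map_zero] at this
    rw [tr_mk]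
    refine Eq.trans (Finset.sum_congr rfl fun P hP => ?_) this
    rw [map_zsmul, ← h2 P hP]
    rfl
  have := R.mk_eq.1 e2
  rwa [sub_zero] at this

end

lemma tr_inj {F : Type} [Field F] [Fintype F] {g : ℕ} (C : Cv F g) (hg : 0 < g) {P Q : C.Pl}
    (e : cls P = cls Q) : P = Q := C.can.eq_of_pr hg (R.mk_eq.1 e)

lemma tr_mem {F : Type} [Field F] [Fintype F] {g : ℕ} {C : Cv F g} {P : C.Pl} (h : C.Rat P) :
    cls P ∈ (R.ph C.σ).eqLocus (.id _) := by
  show R.ph C.σ (cls P) = cls P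
  rw [R.ph_cls, h]

lemma tr_rat {F : Type} [Field F] [Fintype F] {g : ℕ} {C : Cv F g} (hg : 0 < g) {P : C.Pl}
    (x : (R.ph C.σ).eqLocus (.id _)) (h : x.1 = cls P) : C.Rat P := by
  have e : R.ph C.σ x.1 = x.1 := x.2
  rw [h, R.ph_cls] at e
  exact tr_inj C hg e

theorem p_TR :
    S_TR := by
  intro F _ _ g C D ψ B hg hC hD ⟨Q0, _⟩ ⟨P0, _⟩ hc h
  have : Nonempty C.Pl := ⟨P0⟩
  have h0 : ∀ P, ∃ Q, ∀ hP : C.Rat P, P ∉ B → (ψ ⟨cls P, tr_mem hP⟩).1 = cls Q := fun P => by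
    by_cases hP : C.Rat P ∧ P ∉ B
    · obtain ⟨Q, e⟩ := h ⟨cls P, tr_mem hP.1⟩ P hP.2 rfl
      exact ⟨Q, fun _ _ => e⟩
    · exact ⟨Q0, fun a b => absurd ⟨a, b⟩ hP⟩
  choose φ hφ using h0
  set S : Finset C.Pl := hC.toFinset \ B with hS
  have mS : ∀ {P}, P ∈ S ↔ C.Rat P ∧ P ∉ B := by
    intro P
    rw [hS, Finset.mem_sdiff, Set.Finite.mem_toFinset]
    rfl
  have inj : Set.InjOn φ S := fun P a P' b e => by
    have a' := mS.1 a
    have b' := mS.1 b
    have e1 := hφ P a'.1 a'.2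
    rw [e, ← hφ P' b'.1 b'.2] at e1
    exact tr_inj C hg (congrArg Subtype.val (ψ.injective (Subtype.ext e1)))
  have rat : ∀ P ∈ S, D.Rat (φ P) := fun P a => tr_rat hg _ (hφ P (mS.1 a).1 (mS.1 a).2)
  have mB : ∀ {Q}, D.Rat Q → Q ∉ hD.toFinset \ S.image φ → ∃ P ∈ (S : Set C.Pl), φ P = Q := by
    intro Q a b
    rw [Finset.mem_sdiff, not_and, not_not] at b
    exact Finset.mem_image.1 (b (hD.mem_toFinset.2 a))
  refine ⟨⟨B, hD.toFinset \ S.image φ, φ, Function.invFunOn φ S, fun P a b => ?_, fun Q a b => ?_,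
    fun A a => ?_, fun A a => ?_⟩, rfl, ?_⟩
  · have m : P ∈ S := mS.2 ⟨a, b⟩
    exact ⟨rat P m, fun e => (Finset.mem_sdiff.1 e).2 (Finset.mem_image_of_mem φ m),
      inj.leftInvOn_invFunOn m⟩
  · have m := mS.1 (Function.invFunOn_mem (mB a b))
    exact ⟨m.1, m.2, Function.invFunOn_eq (mB a b)⟩
  · exact tr_pr ψ.toAddMonoidHom φ A fun P hP =>
      ⟨⟨cls P, tr_mem (a P hP).1⟩, rfl, hφ P (a P hP).1 (a P hP).2⟩
  · refine tr_pr ψ.symm.toAddMonoidHom _ A fun Q hQ => ?_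
    have m0 := mB (a Q hQ).1 (a Q hQ).2
    have m := mS.1 (Function.invFunOn_mem m0)
    have e := hφ _ m.1 m.2
    rw [Function.invFunOn_eq m0] at e
    refine ⟨ψ ⟨_, tr_mem m.1⟩, e, ?_⟩
    exact congrArg Subtype.val (ψ.symm_apply_apply ⟨_, tr_mem m.1⟩)
  · show (hD.toFinset \ S.image φ).card ≤ B.card
    have c1 : hC.toFinset.card = hD.toFinset.card := by
      rw [← Set.ncard_eq_toFinset_card _ hC, ← Set.ncard_eq_toFinset_card _ hD]
      exact hc
    have c2 : S.image φ ⊆ hD.toFinset := fun Q hQ => by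
      obtain ⟨P, a, rfl⟩ := Finset.mem_image.1 hQ
      exact hD.mem_toFinset.2 (rat P a)
    have c3 := Finset.card_sdiff_add_card_eq_card c2
    have c4 := Finset.card_image_of_injOn inj
    have c5 : hC.toFinset.card ≤ S.card + B.card := Finset.card_le_card_sdiff_add_card
    omega

end

section

lemma tor_tr {G G' : Type} [AddGroup G] [AddGroup G'] {H1 H2 : AddSubgroup G}
    {H1' H2' : AddSubgroup G'} (e : H1 = H2) (e' : H1' = H2') (ψ : H2 ≃+ H2') :
    ∃ ψ' : H1 ≃+ H1', ∀ x : H1, ∃ y : H2, y.1 = x.1 ∧ (ψ' x).1 = (ψ y).1 := by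
  subst e e'
  exact ⟨ψ, fun x => ⟨x, rfl, rfl⟩⟩

theorem p_TOR (hNPT : S_NPT) (hTORC : S_TORC) (hCV : S_CV) (hTR : S_TR) :
    S_TOR := by
  intro g hg
  obtain ⟨m, rfl⟩ := Nat.exists_eq_add_of_le' hg
  obtain ⟨C0, p0, h0⟩ := hTORC m
  obtain ⟨p1, h1⟩ := hNPT (m + 3) (by omega)
  refine ⟨C0, max p0 p1, fun F E E' _ _ _ _ _ _ C D hp gC gD hN ψ B hB hψ => ?_⟩
  obtain ⟨_, σ, W, a1, a2, a3, a4, a5, a6, a7⟩ := hCV F E C _ (by omega) gC
  obtain ⟨_, σ', W', b1, b2, b3, b4, b5, b6, b7⟩ := hCV F E' D _ (by omega) gD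
  obtain ⟨ψ', e⟩ := tor_tr (show (R.ph σ).eqLocus (.id _) = C.PicF by rw [Curve.PicF, a6])
    (show (R.ph σ').eqLocus (.id _) = D.PicF by rw [Curve.PicF, b6]) ψ
  have hψ' : ∀ (x : (R.ph σ).eqLocus (.id _)) (P), P ∉ B → x.1 = cls P → ∃ Q, (ψ' x).1 = cls Q :=
    fun x P h h' => by
      obtain ⟨y, y1, y2⟩ := e x
      exact (hψ y P h (y1.trans h')).imp fun Q hQ => y2.trans hQ
  unfold Curve.pts at hN
  rw [a5, b5] at hN
  let C' : Cv F (m + 3) := ⟨E, σ, a1, W, a2, a3⟩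
  let D' : Cv F (m + 3) := ⟨E', σ', b1, W', b2, b3⟩
  have c1 := h1 F C' ((le_max_right _ _).trans_lt hp)
  obtain ⟨T, t1, t2⟩ := hTR F _ C' D' ψ' B (by omega) a7 b7
    (h1 F D' ((le_max_right _ _).trans_lt hp)) c1 hN hψ'
  obtain ⟨i, s, d1, d2⟩ := h0 F C' D' T ((le_max_left _ _).trans_lt hp) c1
    ⟨(congrArg (fun X : Finset C'.Pl => X.card * C0) t1).le.trans hB,
      (Nat.mul_le_mul_right _ t2).trans hB⟩
  exact ⟨i, s, d1, fun z => by rw [← a4, ← b4]; exact d2 z⟩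

end

end Pool.Agent.P.MP_9344a7_nt.Gt
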