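import Pool.Agent.P.MP_9344a7_nt.Gt.Iface

/-! Steps GC, KAP, BDP, REL. -/

set_option linter.unusedSectionVars false
set_option linter.unusedVariables false

namespace Pool.Agent.P.MP_9344a7_nt.Gt

open WithZero Module
open Pool.Agent.P.MP_6f117a_ag (Place FF)
open Pool.Agent.P.MP_ab3ecb_nt.Inv
open Pool.Agent.P.MP_9344a7_nt.R (Fr rr_fd)
open Pool.Agent.P.MP_9344a7_nt.Tor (Prd ExF IsUP AL)
open scoped Classical PowerSeries IntermediateField Polynomial Polynomial.Bivariate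

section

section

variable {k E : Type} [Field k] [Field E] [Algebra k E] [IsAlgClosed k] [FF k E]
  {X : Place k E} {n : ℤ} {f h : E}

/-- The leading coefficient. -/
noncomputable def gc_ld (X : Place k E) (n : ℤ) (f : E) : k := ev X (X.π ^ n * f)

lemma gc_vp (X : Place k E) (n : ℤ) : X.v (X.π ^ n) = exp (-n) := by
  rw [map_zpow₀, X.v_π, ← exp_zsmul, smul_neg, smul_eq_mul, mul_one]

lemma gc_le (e : X.v f ≤ exp n) : X.v (X.π ^ n * f) ≤ 1 := by
  rw [map_mul, gc_vp, exp_neg, inv_mul_le_one₀ exp_pos]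
  exact e

lemma gc_zero (e : X.v f ≤ exp n) : gc_ld X n f = 0 ↔ X.v f < exp n := by
  rw [gc_ld, ev_eq_zero_iff (gc_le e), map_mul, gc_vp, exp_neg, inv_mul_lt_one₀ exp_pos]

lemma gc_zero' {l : ℤ} (e : X.v f ≤ exp l) (e' : l < n) : gc_ld X n f = 0 :=
  have := e.trans_lt (exp_lt_exp.2 e')
  (gc_zero this.le).2 this

lemma gc_mul (e : X.v f ≤ exp n) (e' : X.v h ≤ 1) : gc_ld X n (f * h) = gc_ld X n f * ev X h := by
  rw [gc_ld, ← mul_assoc, ev_mul (gc_le e) e', gc_ld]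

lemma gc_comb (e : X.v f ≤ exp n) (e' : X.v h ≤ exp n) (a b : k) :
    gc_ld X n (a • f - b • h) = a * gc_ld X n f - b * gc_ld X n h := by
  have m1 : ∀ (c : k) {x : E}, X.v x ≤ 1 → X.v (algebraMap k E c * x) ≤ 1 := fun c x hx => by
    rw [map_mul]
    exact mul_le_one' (X.triv c) hx
  rw [gc_ld, Algebra.smul_def, Algebra.smul_def, mul_sub, mul_left_comm, mul_left_comm _ _ h,
    ev_sub (m1 a (gc_le e)) (m1 b (gc_le e')), ev_mul (X.triv a) (gc_le e),
    ev_mul (X.triv b) (gc_le e'), ev_const, ev_const, gc_ld, gc_ld]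

lemma gc_rel (hRES : S_RES) {g : ℕ} {W : Dv k E} (can : Can g W) {P Q R B : Place k E}
    (PQ : P ≠ Q) (PR : P ≠ R) (PB : P ≠ B) (QR : Q ≠ R) (QB : Q ≠ B) (RB : R ≠ B)
    (WP : W P = 0) (WQ : W Q = 0) (WR : W R = 0) : ∃ r0 r1 r2 r3 : k, r2 ≠ 0 ∧ r3 ≠ 0 ∧
      ∀ f ∈ LS (W + (pt P + pt Q + pt R + pt B)), r0 * gc_ld P 1 f + r1 * gc_ld Q 1 f +
        r2 * gc_ld R 1 f + r3 * gc_ld B (W B + 1) f = 0 := by
  obtain ⟨ρ, h0, h1⟩ := hRES k E g W can (Fin 4) ![P, Q, R, B]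
    (fun i => (![P, Q, R, B] i).π ^ (W (![P, Q, R, B] i) + 1)) (by
      intro i j
      fin_cases i <;> fin_cases j <;> simp [*, PQ.symm, PR.symm, PB.symm, QR.symm, QB.symm, RB.symm])
    fun i => gc_vp _ _
  refine ⟨ρ 0, ρ 1, ρ 2, ρ 3, h0 2, h0 3, fun f hf => ?_⟩
  have := h1 f (by rw [Fin.sum_univ_four]; exact hf)
  rw [Fin.sum_univ_four] at this
  change ρ 0 * gc_ld P (W P + 1) f + ρ 1 * gc_ld Q (W Q + 1) f + ρ 2 * gc_ld R (W R + 1) f +
    ρ 3 * gc_ld B (W B + 1) f = 0 at this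
  rwa [WP, WQ, WR, zero_add] at this

lemma gc_end {D Z : Dv k E} {T0 T1 : Place k E} (h0 : 0 ≤ D) (l2 : lS D = 2) (n0 : D T0 = 0)
    (f0 : f ≠ 0) (hf : f ∈ LS (D - (pt T0 + pt T1))) (dZ : deg Z + 2 = deg D) (ZT : Z T1 = 0)
    (p2 : 0 ≤ Z) (hl : lS (D - pt T0 - Z) ≠ 0) : Pr (pt T0 + pt T1 + Z - D) := by
  obtain ⟨h, a, b⟩ : ∃ h ∈ LS (D - pt T0 - Z), h ≠ 0 := by simpa [lS_eq_zero] using hl
  have a' := (mem_LS' b).1 (LS_mono (sub_le_self _ p2) a)
  have c := (mem_LS' f0).1 hf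
  have c0 : f ∈ LS (D - pt T0) :=
    LS_mono (sub_le_sub_left (le_add_of_nonneg_right (pt_nonneg T1)) D) hf
  have l1 := lS_lt (sub_le_self D (pt_nonneg T0)) (one_mem_LS.2 h0) fun e => by
    have := (mem_LS_sub_pt.1 e).2
    rw [n0, map_one, exp_zero] at this
    exact this.false
  have l0 := lS_ne_zero c0 f0
  have e := R.eff_unique (A := dv k f + (D - pt T0)) (by
    rw [add_comm]
    exact (lS_add_dv f0 _).trans (by omega)) ((mem_LS' f0).1 c0) a'
    ⟨h / f, div_ne_zero b f0, by rw [dv_div b f0]; abel⟩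
  rw [add_left_inj] at e
  have d := (mem_LS' b).1 a
  rw [e] at d
  have key : dv k f + (D - (pt T0 + pt T1)) - Z = 0 := eq_zero_of_deg (fun X => by
    have c1 := c X
    have d1 := d X
    simp only [Finsupp.add_apply, Finsupp.sub_apply, Finsupp.coe_zero, Pi.zero_apply] at c1 d1 ⊢
    rcases eq_or_ne X T1 with rfl | e
    · omega
    · rw [pt_ne e]
      omega) (by
    simp only [map_sub, map_add, deg_dv, deg_single]
    omega)
  exact ⟨f, f0, by rw [← sub_eq_zero, ← key]; abel⟩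

end

theorem p_GC (hRES : S_RES) (hNF : S_NF) :
    S_GC := by
  intro k E _ _ _ _ _ m N z P Q R T0 T1 Z0 Z1 Z2 G
    ⟨p0, p1, ⟨f0, f00, e0⟩, ⟨f1, f10, e1⟩, nR, nQ⟩ con T0P T1P T0B T1B p2 dZ ZT n0 hl
  have F := hNF k E m N
  obtain ⟨uP, vP, PA, PB⟩ := F.reg P G.oP.1
  obtain ⟨uQ, vQ, QA, QB⟩ := F.reg Q G.oQ.1
  obtain ⟨uR, vR, RA, RB⟩ := F.reg R G.oR.1
  obtain ⟨-, -, -, zB⟩ := F.reg z G.oz.1
  have S0 : 0 ≤ N.S := sum_pt_nonneg _ _
  have dS : deg N.S = m := by simp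
  have hP : pt Q P = 0 ∧ pt R P = 0 ∧ pt z P = 0 ∧ pt N.A P = 0 ∧ pt N.B P = 0 ∧ pt T0 P = 0 ∧
      pt T1 P = 0 ∧ N.S P = 0 ∧ N.Y P = 0 ∧ pt P P = 1 :=
    ⟨pt_ne G.PQ, pt_ne G.PR, pt_ne G.zP.symm, pt_ne PA, pt_ne PB, pt_ne T0P.symm, pt_ne T1P.symm,
      sum_pt_eq_zero.2 G.oP.2, G.oP.1, Finsupp.single_eq_same⟩
  have hQ : pt P Q = 0 ∧ pt R Q = 0 ∧ pt z Q = 0 ∧ pt N.A Q = 0 ∧ pt N.B Q = 0 ∧
      N.S Q = 0 ∧ N.Y Q = 0 ∧ pt Q Q = 1 :=
    ⟨pt_ne G.PQ.symm, pt_ne G.QR, pt_ne G.zQ.symm, pt_ne QA, pt_ne QB,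
      sum_pt_eq_zero.2 G.oQ.2, G.oQ.1, Finsupp.single_eq_same⟩
  have hR : pt P R = 0 ∧ pt Q R = 0 ∧ pt z R = 0 ∧ pt N.A R = 0 ∧ pt N.B R = 0 ∧
      N.S R = 0 ∧ N.Y R = 0 ∧ pt R R = 1 :=
    ⟨pt_ne G.PR.symm, pt_ne G.QR.symm, pt_ne G.zR.symm, pt_ne RA, pt_ne RB,
      sum_pt_eq_zero.2 G.oR.2, G.oR.1, Finsupp.single_eq_same⟩
  have hB : pt P N.B = 0 ∧ pt Q N.B = 0 ∧ pt R N.B = 0 ∧ pt z N.B = 0 ∧ pt N.A N.B = 0 ∧
      pt T0 N.B = 0 ∧ pt T1 N.B = 0 ∧ N.S N.B = 0 ∧ pt N.B N.B = 1 :=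
    ⟨pt_ne PB.symm, pt_ne QB.symm, pt_ne RB.symm, pt_ne zB.symm, pt_ne N.AB.symm, pt_ne T0B.symm,
      pt_ne T1B.symm, sum_pt_eq_zero.2 N.cB, Finsupp.single_eq_same⟩
  have can : Can (m + 3) (N.Y + N.S) := N.can
  have YB : 1 ≤ N.Y N.B := by
    have := N.le N.B
    rwa [Finsupp.add_apply, hB.2.2.2.2.1, hB.2.2.2.2.2.2.2.2, zero_add] at this
  have ha := F.mu z G.oz.1
  have hb := F.mv z G.oz.1
  have vb : N.B.v (N.v - algebraMap k E (ev z N.v)) = exp (N.Y N.B) := by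
    rw [← F.vB]
    exact Valuation.map_sub_eq_of_lt_left _ ((N.B.triv _).trans_lt (by
      rw [F.vB, ← exp_zero, exp_lt_exp]; omega))
  have es : ∀ (X : Place k E) (x : E) (c : k), X.v x ≤ 1 → X.v (x - algebraMap k E c) ≤ 1 ∧
      ev X (x - algebraMap k E c) = ev X x - c := fun X x c hx =>
    ⟨X.v.map_sub_le hx (X.triv c), by rw [ev_sub hx (X.triv c), ev_const]⟩
  have l3 := F.l3 z Q G.oz.1 G.oQ.1 G.vQ
  have le := N.le
  have sQ := sub_ne_zero.2 G.uQ
  rw [Net.Conc] at con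
  generalize N.S = S at *
  have pP := pt_nonneg P
  have pQ := pt_nonneg Q
  have pR := pt_nonneg R
  have pz := pt_nonneg z
  have pA := pt_nonneg N.A
  have pB := pt_nonneg N.B
  have pT := add_nonneg (pt_nonneg T0) (pt_nonneg T1)
  obtain ⟨r0, r1, r2, r3, r20, r30, rel⟩ := gc_rel hRES can G.PQ G.PR PB G.QR QB RB
    (by simp only [Finsupp.add_apply, hP, add_zero])
    (by simp only [Finsupp.add_apply, hQ, add_zero])
    (by simp only [Finsupp.add_apply, hR, add_zero])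
  have WB : (N.Y + S) N.B = N.Y N.B := by simp only [Finsupp.add_apply, hB, add_zero]
  rw [WB] at rel
  have m0 : f0 ∈ LS (pt R + pt N.B + (pt N.A + pt P + S) - (pt T0 + pt T1)) :=
    (mem_LS' f00).2 (p0.trans_eq (by rw [e0]; abel))
  have m1 : f1 ∈ LS (pt Q + pt N.B + (pt z + pt P + S) - (pt T0 + pt T1)) :=
    (mem_LS' f10).2 (p1.trans_eq (by rw [e1]; abel))
  have m0' := LS_mono (sub_le_self _ pT) m0
  have m1' := LS_mono (sub_le_self _ pT) m1
  have v0P := mem_LS.1 m0' P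
  have v0Q := mem_LS.1 m0' Q
  have v0B := mem_LS.1 m0' N.B
  have v1P := mem_LS.1 m1' P
  have v1R := mem_LS.1 m1' R
  have v0R : R.v f0 = exp 1 := by
    rw [v_eq R f00, ← dv_apply, e0, Finsupp.sub_apply, nR]
    simp only [Finsupp.add_apply, hR, add_zero, zero_sub, neg_neg]
  have v1Q : Q.v f1 = exp 1 := by
    rw [v_eq Q f10, ← dv_apply, e1, Finsupp.sub_apply, nQ]
    simp only [Finsupp.add_apply, hQ, add_zero, zero_sub, neg_neg]
  simp only [Finsupp.add_apply, hP, hQ, hR, hB, add_zero, zero_add] at v0P v0Q v0B v1P v1R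
  have aR := mt (gc_zero v0R.le).1 v0R.not_lt
  have bQ := mt (gc_zero v1Q.le).1 v1Q.not_lt
  have aQ := gc_zero' v0Q zero_lt_one
  have bR := gc_zero' v1R zero_lt_one
  have R1 := rel f0 (LS_mono (by
    have := add_le_add le (le_add_of_nonneg_right (a := pt R + pt P + S) (add_nonneg pQ pB))
    refine (le_of_eq ?_).trans (this.trans_eq ?_) <;> abel) m0')
  rw [aQ, gc_zero' v0B (Int.lt_add_one_of_le YB)] at R1
  have m2 : f1 * (N.u - algebraMap k E (ev z N.u)) ∈ LS (N.Y + S + (pt P + pt Q)) :=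
    LS_mono (le_of_eq (by abel)) (mul_mem_LS m1' ha)
  have R2 := rel _ (LS_mono (by
    rw [add_assoc (pt P + pt Q)]
    exact add_le_add le_rfl (le_add_of_nonneg_right (add_nonneg pR pB))) m2)
  rw [gc_mul v1P (es P _ _ uP).1, gc_mul v1Q.le (es Q _ _ uQ).1,
    gc_mul (v1R.trans (exp_le_exp.2 zero_le_one)) (es R _ _ uR).1, bR, (es P _ _ uP).2,
    (es Q _ _ uQ).2, gc_zero' (mem_LS.1 m2 N.B) (by
      simp only [Finsupp.add_apply, hB, add_zero, lt_add_one])] at R2
  have aP : gc_ld P 1 f0 ≠ 0 := fun e => mul_ne_zero r20 aR (by linear_combination R1 - r0 * e)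
  have lP := gc_comb v0P v1P (gc_ld P 1 f1) (gc_ld P 1 f0)
  have lQ := gc_comb (v0Q.trans (exp_le_exp.2 zero_le_one)) v1Q.le (gc_ld P 1 f1) (gc_ld P 1 f0)
  have lR := gc_comb v0R.le (v1R.trans (exp_le_exp.2 zero_le_one)) (gc_ld P 1 f1) (gc_ld P 1 f0)
  have m3 : gc_ld P 1 f1 • f0 - gc_ld P 1 f0 • f1 ∈
      LS (pt Q + pt R + (pt z + pt N.A + S) - (pt T0 + pt T1) + pt N.B + pt P) :=
    sub_mem (Submodule.smul_mem _ _ (LS_mono ((le_add_of_nonneg_right (add_nonneg pQ pz)).trans_eq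
      (by abel)) m0)) (Submodule.smul_mem _ _ (LS_mono
        ((le_add_of_nonneg_right (add_nonneg pR pA)).trans_eq (by abel)) m1))
  rw [mul_comm, sub_self] at lP
  rw [aQ, mul_zero, zero_sub] at lQ
  rw [bR, mul_zero, sub_zero] at lR
  generalize gc_ld P 1 f1 • f0 - gc_ld P 1 f0 • f1 = g at lP lQ lR m3
  have g0 : g ≠ 0 := fun e => mul_ne_zero aP bQ (by
    rw [← neg_eq_zero, ← lQ, e, gc_ld, mul_zero, ev_zero])
  have m4 : g ∈ LS (pt Q + pt R + (pt z + pt N.A + S) - (pt T0 + pt T1) + pt N.B) := by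
    have h1 := mem_LS.1 m3 P
    have h2 := (mem_LS_sub_pt (P := P)).2 ⟨m3, by
      simp only [Finsupp.add_apply, Finsupp.sub_apply, hP, add_zero, zero_add, sub_zero] at h1 ⊢
      exact (gc_zero h1).1 lP⟩
    rwa [add_sub_cancel_right] at h2
  have m4' := LS_mono (add_le_add (sub_le_self _ pT) le_rfl) m4
  have m5 : g * (N.v - algebraMap k E (ev z N.v)) ∈ LS (N.Y + S + (pt Q + pt R + pt N.B)) :=
    LS_mono (le_of_eq (by abel)) (mul_mem_LS m4' hb)
  have R3 := rel _ (LS_mono (by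
    rw [add_assoc (pt P), add_assoc (pt P)]
    exact add_le_add le_rfl (le_add_of_nonneg_left pP)) m5)
  have gQ := mem_LS.1 m4' Q
  have gR := mem_LS.1 m4' R
  have gP := mem_LS.1 m5 P
  have gB := mem_LS.1 m5 N.B
  simp only [Finsupp.add_apply, hP, hQ, hR, hB, add_zero, zero_add] at gQ gR gP gB
  rw [gc_zero' gP zero_lt_one, gc_mul gQ (es Q _ _ vQ).1, gc_mul gR (es R _ _ vR).1, lQ, lR,
    (es Q _ _ vQ).2, (es R _ _ vR).2] at R3
  have lB := (gc_zero gB).1 (mul_left_cancel₀ (mul_ne_zero r30 sQ) (by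
    linear_combination (ev Q N.u - ev z N.u) * R3 +
      gc_ld P 1 f0 * (ev Q N.v - ev z N.v) * R2 -
      gc_ld P 1 f1 * (ev Q N.u - ev z N.u) * (ev R N.v - ev z N.v) * R1 -
      r0 * gc_ld P 1 f0 * gc_ld P 1 f1 * con))
  rw [map_mul, vb, add_comm, exp_add, mul_lt_mul_iff_left₀ exp_pos] at lB
  have m6 := (mem_LS_sub_pt (P := N.B)).2 ⟨m4, by
    simpa only [Finsupp.add_apply, Finsupp.sub_apply, hB, add_zero, zero_add, sub_zero] using lB⟩
  rw [add_sub_cancel_right] at m6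
  have dD : deg (pt Q + pt R + (pt z + pt N.A + S)) = m + 4 := by
    simp only [map_add, deg_single, dS]
    omega
  refine gc_end (add_nonneg (add_nonneg pQ pR) (add_nonneg (add_nonneg pz pA) S0)) ?_ n0 g0 m6
    (by omega) ZT p2 hl
  have := can.ns (D := pt Q + pt R + (pt z + pt N.A + S)) (Nat.le_zero.1 ((lS_mono
    ((le_add_of_nonneg_right pR).trans_eq (by abel))).trans_eq l3))
  omega

end

section

theorem p_KAP (hRES : S_RES) (hNF : S_NF) :
    S_KAP := by
  intro k E _ _ _ _ _ m N z P t f0 f1 κ0 κ1 hB hz hP ht h0 h1 hzP e0 e1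
  have nf := hNF k E m N
  obtain ⟨uP, vP, PA, PB⟩ := nf.reg P hP.1
  obtain ⟨-, -, zA, zB⟩ := nf.reg z hz.1
  set w := N.v - algebraMap k E (ev z N.v) with hw
  set s := N.u - algebraMap k E (ev z N.u) with hs
  have SB : N.S N.B = 0 := sum_pt_ne fun i _ => N.cB i
  have SP : N.S P = 0 := sum_pt_ne fun i _ => hP.2 i
  have vw : N.B.v w = exp 1 := by
    have a1 : N.B.v N.v = exp 1 := by rw [nf.vB, hB]
    rw [hw, Valuation.map_sub_eq_of_lt_left, a1]
    rw [a1]
    exact (N.B.triv _).trans_lt (by rw [← exp_zero, exp_lt_exp]; exact zero_lt_one)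
  have w0 : w ≠ 0 := fun e => by simp [e] at vw; exact exp_ne_zero vw.symm
  have tw : t * w = 1 := by rw [ht]; exact inv_mul_cancel₀ w0
  have vt : N.B.v t = exp (-1) := by rw [ht, map_inv₀, vw, exp_neg]
  have t0 : t ≠ 0 := left_ne_zero_of_mul_eq_one tw
  have lt1 : (exp (-1) : ℤᵐ⁰) < 1 := by rw [← exp_zero, exp_lt_exp]; norm_num
  have vk : ∀ c : k, N.B.v (algebraMap k E c * t) < 1 := fun c => by
    rw [map_mul, vt]
    exact mul_lt_one_of_nonneg_of_lt_one_right (N.B.triv c) zero_le lt1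
  have b0 : N.B.v (t ^ 2 * f0 - 1) < 1 := by
    have := N.B.v.map_add_lt (e0.trans lt1) (vk κ0)
    rwa [sub_add_cancel] at this
  have b1 : N.B.v (t ^ 2 * f1 - 1) < 1 := by
    have := N.B.v.map_add_lt (e1.trans lt1) (vk κ1)
    rwa [sub_add_cancel] at this
  obtain ⟨ρ, hρ, hr⟩ := hRES k E (m + 3) _ N.can (Fin 2) ![N.B, P] ![t ^ 2, P.π]
    (by
      intro i j hij
      fin_cases i <;> fin_cases j
      · rfl
      · exact (PB hij.symm).elim
      · exact (PB hij).elim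
      · rfl)
    (by
      intro i
      fin_cases i
      · change N.B.v (t ^ 2) = exp (-((N.Y + N.S) N.B + 1))
        rw [map_pow, vt, ← exp_nsmul, Finsupp.add_apply, SB, hB]
        rfl
      · change P.v P.π = exp (-((N.Y + N.S) P + 1))
        rw [P.v_π, Finsupp.add_apply, SP, hP.1]
        rfl)
  simp only [Fin.sum_univ_two, Matrix.cons_val_zero, Matrix.cons_val_one] at hr
  have m0 : f0 ∈ LS (N.Y + N.S + (pt N.B + pt P)) := by
    refine LS_mono ?_ h0
    have : N.Y + N.S + (pt N.B + pt P) - (pt N.B + pt N.B + (pt N.A + pt P + N.S)) =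
        N.Y - (pt N.A + pt N.B) := by abel
    rw [← sub_nonneg, this, sub_nonneg]
    exact N.le
  have m1 : f1 * s ∈ LS (N.Y + N.S + (pt N.B + pt P)) := by
    have := mul_mem_LS h1 (nf.mu z hz.1)
    rwa [show pt N.B + pt N.B + (pt z + pt P + N.S) + (N.Y - pt N.B - pt z) =
      N.Y + N.S + (pt N.B + pt P) by abel] at this
  have m2 : (f0 - f1) * w ∈ LS (N.Y + N.S + (pt N.B + pt P)) := by
    have a1 : f0 - f1 ∈ LS (pt N.B + pt N.B + (pt N.A + pt z + pt P + N.S)) := by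
      refine sub_mem (LS_mono ?_ h0) (LS_mono ?_ h1)
      · rw [← sub_nonneg, show pt N.B + pt N.B + (pt N.A + pt z + pt P + N.S) -
          (pt N.B + pt N.B + (pt N.A + pt P + N.S)) = pt z by abel]
        exact pt_nonneg z
      · rw [← sub_nonneg, show pt N.B + pt N.B + (pt N.A + pt z + pt P + N.S) -
          (pt N.B + pt N.B + (pt z + pt P + N.S)) = pt N.A by abel]
        exact pt_nonneg _
    have a2 : N.B.v (t ^ 2 * (f0 - f1)) < 1 := by
      have := N.B.v.map_sub_lt b0 b1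
      rwa [show t ^ 2 * f0 - 1 - (t ^ 2 * f1 - 1) = t ^ 2 * (f0 - f1) by ring] at this
    have a3 := van (H := pt N.B + pt N.B + (pt N.A + pt z + pt P + N.S))
      ((ord_eq_iff t0).2 vt) a2 (Or.inl ⟨rfl, by
        simp only [Finsupp.add_apply, SB, pt_ne N.AB.symm, pt_ne zB.symm, pt_ne PB.symm,
          Finsupp.single_eq_same]
        rfl⟩)
    have := mul_mem_LS (mem_LS_sub_pt.2 ⟨a1, a3⟩) (nf.mv z hz.1)
    rwa [show pt N.B + pt N.B + (pt N.A + pt z + pt P + N.S) - pt N.B + (N.Y - pt N.A - pt z) =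
      N.Y + N.S + (pt N.B + pt P) by abel] at this
  have uB : N.B.v N.u ≤ 1 := le_one_of_LS N.u1 (by simp [hB])
  have r0 : ev N.B (t ^ 2 * f0) = 1 := ev_eq (by simpa using b0)
  have r1 : ev N.B (t ^ 2 * (f1 * s)) = ev N.B N.u - ev z N.u := by
    have a1 : N.B.v (t ^ 2 * f1) ≤ 1 := by
      have := N.B.v.map_add_le b1.le (map_one N.B.v).le
      rwa [sub_add_cancel] at this
    rw [← mul_assoc, ev_mul a1 (N.B.v.map_sub_le uB (N.B.triv _)),
      ev_eq (c := 1) (by simpa using b1), one_mul, ev_sub uB (N.B.triv _), ev_const]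
  have r2 : ev N.B (t ^ 2 * ((f0 - f1) * w)) = κ0 - κ1 := by
    refine ev_eq ?_
    have a1 : t ^ 2 * ((f0 - f1) * w) - algebraMap k E (κ0 - κ1) =
        w * (t ^ 2 * f0 - 1 - algebraMap k E κ0 * t - (t ^ 2 * f1 - 1 - algebraMap k E κ1 * t)) := by
      rw [map_sub]
      linear_combination (algebraMap k E κ0 - algebraMap k E κ1) * tw
    rw [a1, map_mul, vw]
    have := mul_lt_mul_of_pos_left (N.B.v.map_sub_lt e0 e1) (exp_pos (a := (1 : ℤ)))
    rwa [← exp_add, add_neg_cancel, exp_zero] at this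
  have reg : ∀ {f : E} {D : Dv k E}, f ∈ LS D → D P = 1 → P.v (P.π * f) ≤ 1 := by
    intro f D hf hD
    have := mul_le_mul_right (mem_LS.1 hf P) (exp (-1))
    rwa [hD, ← exp_add, neg_add_cancel, exp_zero, ← P.v_π, ← map_mul] at this
  have p0 : P.v (P.π * f0) ≤ 1 := reg h0 (by
    simp only [Finsupp.add_apply, SP, pt_ne PA, pt_ne PB, Finsupp.single_eq_same]; rfl)
  have p1 : P.v (P.π * f1) ≤ 1 := reg h1 (by
    simp only [Finsupp.add_apply, SP, pt_ne hzP.symm, pt_ne PB, Finsupp.single_eq_same]; rfl)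
  have q1 : ev P (P.π * (f1 * s)) = ev P (P.π * f1) * (ev P N.u - ev z N.u) := by
    rw [← mul_assoc, ev_mul p1 (P.v.map_sub_le uP (P.triv _)), ev_sub uP (P.triv _), ev_const]
  have q2 : ev P (P.π * ((f0 - f1) * w)) =
      (ev P (P.π * f0) - ev P (P.π * f1)) * (ev P N.v - ev z N.v) := by
    rw [← mul_assoc, mul_sub P.π, ev_mul (P.v.map_sub_le p0 p1) (P.v.map_sub_le vP (P.triv _)),
      ev_sub p0 p1, ev_sub vP (P.triv _), ev_const]
  have E0 := hr _ m0
  have E1 := hr _ m1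
  have E2 := hr _ m2
  rw [r0] at E0
  rw [r1, q1] at E1
  rw [r2, q2] at E2
  refine mul_left_cancel₀ (hρ 0) ?_
  linear_combination (ev P N.u - ev z N.u) * E2 -
    (ev P N.v - ev z N.v) * (ev P N.u - ev z N.u) * E0 + (ev P N.v - ev z N.v) * E1

end

section

theorem p_BDP :
    S_BDP := by
  intro k E _ _ _ _ _ n d a b G ha hb hG hc
  constructor
  · obtain ⟨H, h0, h1, h2⟩ := ha
    obtain ⟨H', h0', h1', h2'⟩ := hb
    refine ⟨d • H + d • H', add_nonneg (nsmul_nonneg h0 d) (nsmul_nonneg h0' d), ?_, ?_⟩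
    · rw [map_add, map_nsmul, map_nsmul, nsmul_eq_mul, nsmul_eq_mul]
      have a1 := mul_le_mul_of_nonneg_left h1 (Nat.cast_nonneg (α := ℤ) d)
      have a2 := mul_le_mul_of_nonneg_left h1' (Nat.cast_nonneg (α := ℤ) d)
      push_cast
      linarith
    · rw [G.as_sum_range_C_mul_X_pow, map_sum]
      refine Submodule.sum_mem _ fun j hj => ?_
      rw [map_mul, map_pow, Polynomial.aevalAeval_C, Polynomial.aevalAeval_Y]
      refine mul_mem_LS ?_ (LS_mono (nsmul_le_nsmul_left h0' ?_) (pow_mem_LS h2' j))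
      · rw [Polynomial.aeval_eq_sum_range]
        refine Submodule.sum_mem _ fun i hi => Submodule.smul_mem _ _
          (LS_mono (nsmul_le_nsmul_left h0 ?_) (pow_mem_LS h2 i))
        have := hc j
        have := Finset.mem_range.1 hi
        omega
      · have := Finset.mem_range.1 hj
        omega
  · intro P pa pb
    have key : ∀ p : k[X], P.v (Polynomial.aeval a p) ≤ 1 ∧
        ev P (Polynomial.aeval a p) = p.eval (ev P a) := by
      intro p
      induction p using Polynomial.induction_on' with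
      | add p q hp hq =>
        rw [map_add, ev_add hp.1 hq.1, hp.2, hq.2, Polynomial.eval_add]
        exact ⟨P.v.map_add_le hp.1 hq.1, rfl⟩
      | monomial i c =>
        have a1 : P.v (a ^ i) ≤ 1 := by rw [map_pow]; exact pow_le_one' pa i
        rw [Polynomial.aeval_monomial, ev_mul (P.triv c) a1, ev_const, ev_pow pa,
          Polynomial.eval_monomial, map_mul]
        exact ⟨mul_le_one' (P.triv c) a1, rfl⟩
    clear hG hc
    induction G using Polynomial.induction_on' with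
    | add p q hp hq =>
      rw [map_add, ev_add hp.1 hq.1, hp.2, hq.2, Polynomial.evalEval_add]
      exact ⟨P.v.map_add_le hp.1 hq.1, rfl⟩
    | monomial j p =>
      have a1 : P.v (b ^ j) ≤ 1 := by rw [map_pow]; exact pow_le_one' pb j
      rw [← Polynomial.C_mul_X_pow_eq_monomial, map_mul, map_pow, Polynomial.aevalAeval_C,
        Polynomial.aevalAeval_Y, ev_mul (key p).1 a1, (key p).2, ev_pow pb,
        Polynomial.evalEval_mul, Polynomial.evalEval_pow, Polynomial.evalEval_C,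
        Polynomial.evalEval_X, map_mul]
      exact ⟨mul_le_one' (key p).1 a1, rfl⟩

end

section

section

open Polynomial

variable {k E : Type} [Field k] [Field E] [Algebra k E]

lemma rel_swap (p : k[X][Y]) (i j : ℕ) :
    ((Bivariate.swap p).coeff j).coeff i = (p.coeff i).coeff j := by
  induction p using Polynomial.induction_on' with
  | add p q hp hq => simp only [map_add, coeff_add, hp, hq]
  | monomial n f =>
    rw [Bivariate.swap_monomial, coeff_mul_C, coeff_map, coeff_C_mul_X_pow, coeff_monomial]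
    by_cases h : n = i
    · simp [h]
    · simp [h, Ne.symm h]

lemma rel_fac (a b : E) (p : k[X][Y]) (h0 : p ≠ 0) (h : aevalAeval a b p = 0) :
    ∃ q, Irreducible q ∧ q ∣ p ∧ aevalAeval a b q = 0 := by
  induction p using WfDvdMonoid.induction_on_irreducible with
  | zero => exact absurd rfl h0
  | unit u hu => exact absurd h (hu.map (aevalAeval a b)).ne_zero
  | mul p q p0 hq ih =>
    rw [map_mul, mul_eq_zero] at h
    rcases h with h | h
    · exact ⟨q, hq, dvd_mul_right _ _, h⟩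
    · obtain ⟨r, h1, h2, h3⟩ := ih p0 h
      exact ⟨r, h1, h2.mul_left _, h3⟩

lemma rel_dvd {a b : E} (ha : Transcendental k a) {p : k[X][Y]} (hp : Irreducible p)
    (h0 : p.natDegree ≠ 0) (h : aevalAeval a b p = 0) (G : k[X][Y]) (hG : aevalAeval a b G = 0) :
    p ∣ G := by
  have inj : Function.Injective (aeval (R := k) a).toRingHom := transcendental_iff_injective.1 ha
  let f : FractionRing k[X] →+* E := IsFractionRing.lift inj
  let : Algebra (FractionRing k[X]) E := f.toAlgebra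
  have e : ∀ q : k[X][Y], aeval b (q.map (algebraMap _ (FractionRing k[X]))) = aevalAeval a b q :=
    fun q => by
      induction q using Polynomial.induction_on' with
      | add p q hp hq => simp only [Polynomial.map_add, map_add, hp, hq]
      | monomial n g =>
        rw [map_monomial, aeval_monomial, ← C_mul_X_pow_eq_monomial, map_mul, map_pow, aevalAeval_C,
          aevalAeval_Y]
        exact congrArg (· * b ^ n) (IsFractionRing.lift_algebraMap inj g)
  have h1 := hp.isPrimitive h0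
  exact h1.dvd_of_fraction_map_dvd_fraction_map (K := FractionRing k[X])
    (((h1.irreducible_iff_irreducible_map_fraction_map.1 hp).dvd_iff_aeval_eq_zero
      ((e p).trans h)).1 ((e G).trans hG))

lemma rel_ex [IsAlgClosed k] [FF k E] {n : ℕ} (n0 : 0 < n) {a b : E} (ha : Bd k n a) (hb : Bd k n b) :
    ∃ p : k[X][Y], p ≠ 0 ∧ p.natDegree ≤ 2 * n ∧ (Bivariate.swap p).natDegree ≤ 2 * n ∧
      aevalAeval a b p = 0 := by
  obtain ⟨H, h1, h2, h3⟩ := ha
  obtain ⟨H', h1', h2', h3'⟩ := hb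
  let D := (2 * n) • H + (2 * n) • H'
  have hm : ∀ x : Fin (2 * n + 1) × Fin (2 * n + 1), a ^ x.1.1 * b ^ x.2.1 ∈ LS D := fun x =>
    LS_mono (add_le_add (nsmul_le_nsmul_left h1 (Nat.le_of_lt_succ x.1.2))
      (nsmul_le_nsmul_left h1' (Nat.le_of_lt_succ x.2.2)))
      (mul_mem_LS (pow_mem_LS h3 _) (pow_mem_LS h3' _))
  have hD : 0 ≤ D := add_nonneg (nsmul_nonneg h1 _) (nsmul_nonneg h1' _)
  have hl := lS_le_deg (deg_nonneg hD)
  have hd : deg D ≤ 2 * n * n + 2 * n * n := by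
    simp only [D, map_add, map_nsmul, nsmul_eq_mul, Nat.cast_mul, Nat.cast_ofNat]
    gcongr
  have := rr_fd D
  have hn : ¬ LinearIndependent k fun x => (⟨_, hm x⟩ : LS D) := fun h => by
    have h4 := h.fintype_card_le_finrank
    rw [Fintype.card_prod, Fintype.card_fin] at h4
    have h5 : ((2 * n + 1) * (2 * n + 1) : ℤ) ≤ lS D := by exact_mod_cast h4
    have : (0 : ℤ) < n := by exact_mod_cast n0
    nlinarith
  obtain ⟨c, hc, x, hx⟩ := Fintype.not_linearIndependent_iff.1 hn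
  refine ⟨∑ x, monomial x.2.1 (monomial x.1.1 (c x)), fun e => hx ?_, ?_, ?_, ?_⟩
  · have := congrArg (fun p : k[X][Y] => (p.coeff x.2).coeff x.1) e
    simp only [finsetSum_coeff, coeff_zero] at this
    rw [Finset.sum_eq_single x (fun y _ hy => ?_) (by simp)] at this
    · simpa using this
    · rw [coeff_monomial]
      split_ifs with e1
      · exact coeff_monomial_of_ne _ fun e2 => hy (Prod.ext (Fin.ext e2.symm) (Fin.ext e1))
      · rfl
  · exact natDegree_sum_le_of_forall_le _ _ fun y _ =>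
      (natDegree_monomial_le _).trans (Nat.le_of_lt_succ y.2.2)
  · rw [map_sum]
    exact natDegree_sum_le_of_forall_le _ _ fun y _ => by
      rw [Bivariate.swap_monomial_monomial]
      exact (natDegree_monomial_le _).trans (Nat.le_of_lt_succ y.1.2)
  · have := congrArg Subtype.val hc
    rw [AddSubmonoidClass.coe_finsetSum] at this
    rw [map_sum]
    refine (Finset.sum_congr rfl fun y _ => ?_).trans this
    rw [← C_mul_X_pow_eq_monomial, map_mul, map_pow, aevalAeval_C, aevalAeval_Y, aeval_monomial,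
      mul_assoc, ← Algebra.smul_def]
    rfl

end

theorem p_REL :
    S_REL := by
  intro n
  refine ⟨2 * (n + 1), fun k E _ _ _ _ _ a b ht ha hb => ?_⟩
  obtain ⟨p, p0, d1, d2, hp⟩ := rel_ex n.succ_pos (ha.mono n.le_succ) (hb.mono n.le_succ)
  obtain ⟨q, hq, h1, h2⟩ := rel_fac a b p p0 hp
  have h3 : q.natDegree ≠ 0 := fun e => by
    rw [Polynomial.eq_C_of_natDegree_eq_zero e, Polynomial.aevalAeval_C] at h2
    rw [Polynomial.eq_C_of_natDegree_eq_zero e, transcendental_iff.1 ht _ h2, map_zero] at hq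
    exact hq.ne_zero rfl
  refine ⟨q, hq, Nat.pos_of_ne_zero h3, (Polynomial.natDegree_le_of_dvd h1 p0).trans d1,
    fun i => ?_, h2, rel_dvd ht hq h3 h2⟩
  have h4 := (Polynomial.natDegree_le_of_dvd (map_dvd Polynomial.Bivariate.swap h1)
    ((map_ne_zero_iff _ Polynomial.Bivariate.swap.injective).2 p0)).trans d2
  refine Polynomial.natDegree_le_iff_coeff_eq_zero.2 fun j hj => ?_
  rw [← rel_swap, Polynomial.coeff_eq_zero_of_natDegree_lt (h4.trans_lt hj), Polynomial.coeff_zero]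

end

end Pool.Agent.P.MP_9344a7_nt.Gt
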