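import Pool.Agent.P.MP_9344a7_nt.Gt.Iface

/-! Steps RAM, RM2, BPF, PRIM, FRB. -/

set_option linter.unusedSectionVars false
set_option linter.unusedVariables false

namespace Pool.Agent.P.MP_9344a7_nt.Gt

open WithZero Module
open Pool.Agent.P.MP_6f117a_ag (Place FF)
open Pool.Agent.P.MP_ab3ecb_nt.Inv
open Pool.Agent.P.MP_9344a7_nt.R (Fr rr_fd)
open Pool.Agent.P.MP_9344a7_nt.Tor (Prd ExF IsUP AL)
open scoped Classical PowerSeries IntermediateField Polynomial Polynomial.Bivariate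

section

section

open Polynomial

variable {k E : Type} [Field k] [Field E] [Algebra k E]

lemma ram_taylor (Ψ : k[X][Y]) (c e : k) : ∃ (γ : k) (K1 K2 : k[X][Y]), Ψ = C (C γ) +
    derivative Ψ * (Y - C (C e)) + K1 * (Y - C (C e)) ^ 2 + K2 * (C X - C (C c)) := by
  obtain ⟨K, hK⟩ := binomExpansion (Ψ.map (C : k[X] →+* k[X][Y])) Y (C (C e) - Y)
  obtain ⟨L, hL⟩ := X_sub_C_dvd_sub_C_eval (p := Ψ.eval (C e)) (a := c)
  rw [add_sub_cancel, derivative_map, eval_map, eval_map, eval_map, eval₂_C_X, eval₂_C_X,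
    eval₂_hom, eq_add_of_sub_eq hL, map_add, map_mul, map_sub] at hK
  exact ⟨(Ψ.eval (C e)).eval c, -K, C L, by linear_combination -hK⟩

lemma ram_int {P : Place k E} {a b : E} (ha : P.v a ≤ 1) (hb : P.v b ≤ 1) (G : k[X][Y]) :
    P.v (aevalAeval a b G) ≤ 1 := by
  induction G using Polynomial.induction_on' with
  | add p q hp hq => rw [map_add]; exact P.v.map_add_le hp hq
  | monomial n p =>
    rw [← C_mul_X_pow_eq_monomial, map_mul, map_pow, aevalAeval_C, aevalAeval_Y, map_mul, map_pow]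
    refine mul_le_one' ?_ (pow_le_one' hb n)
    induction p using Polynomial.induction_on' with
    | add p q hp hq => rw [map_add]; exact P.v.map_add_le hp hq
    | monomial m c =>
      rw [aeval_monomial, map_mul, map_pow]
      exact mul_le_one' (P.triv c) (pow_le_one' ha m)

lemma ram_der {d : ℕ} (hd : Ch k d) {Ψ : k[X][Y]} (h0 : 0 < Ψ.natDegree) (h1 : Ψ.natDegree ≤ d) :
    ¬ Ψ ∣ derivative Ψ := fun h => by
  refine (natDegree_derivative_lt h0.ne').not_ge (natDegree_le_of_dvd h fun e => ?_)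
  have := congrArg (coeff · (Ψ.natDegree - 1)) e
  simp only [coeff_derivative, coeff_zero] at this
  rw [← Nat.cast_succ, Nat.succ_eq_add_one, Nat.sub_add_cancel h0, ← C_eq_natCast, mul_eq_zero,
    C_eq_zero] at this
  exact this.elim (leadingCoeff_ne_zero.2 fun e => by simp [e] at h0) (hd _ h0 h1)

variable [IsAlgClosed k] [FF k E]

lemma ram_loc {P : Place k E} {a b : E} {Ψ : k[X][Y]} (ha : P.v a ≤ 1) (hb : P.v b ≤ 1)
    (h0 : aevalAeval a b Ψ = 0) (h1 : P.v (aevalAeval a b (derivative Ψ)) = 1)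
    (h2 : P.v (a - algebraMap k E (ev P a)) ≤ exp (-2)) :
    P.v (b - algebraMap k E (ev P b)) ≤ exp (-2) := by
  obtain ⟨γ, K1, K2, e⟩ := ram_taylor Ψ (ev P a) (ev P b)
  have e1 := congrArg (aevalAeval a b) e
  simp only [h0, map_add, map_mul, map_sub, map_pow, aevalAeval_C, aevalAeval_Y, aeval_C,
    aeval_X] at e1
  have h3 := ev_spec hb
  have h4 : P.v (b - algebraMap k E (ev P b)) ≤ exp (-1) := by
    simpa using lt_exp_iff_le.1 (h3.trans_eq exp_zero.symm)
  generalize b - algebraMap k E (ev P b) = y at *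
  generalize a - algebraMap k E (ev P a) = x at *
  have h5 : P.v (aevalAeval a b K1 * y ^ 2 + aevalAeval a b K2 * x) ≤ exp (-2) := by
    refine P.v.map_add_le ?_ ?_ <;> rw [map_mul]
    · refine (mul_le_of_le_one_left' (ram_int ha hb K1)).trans ?_
      rw [map_pow]
      exact (pow_le_pow_left' h4 2).trans_eq (by rw [← exp_nsmul]; rfl)
    · exact (mul_le_of_le_one_left' (ram_int ha hb K2)).trans h2
  have h6 : P.v (aevalAeval a b (derivative Ψ) * y) = P.v y := by rw [map_mul, h1, one_mul]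
  have h7 : γ = 0 := by
    rw [← ev_const P γ]
    refine ev_of_lt ?_
    rw [show algebraMap k E γ = -(aevalAeval a b (derivative Ψ) * y +
      (aevalAeval a b K1 * y ^ 2 + aevalAeval a b K2 * x)) by linear_combination -e1, P.v.map_neg]
    exact P.v.map_add_lt (h6.trans_lt h3) (h5.trans_lt (by rw [← exp_zero, exp_lt_exp]; norm_num))
  rw [h7, map_zero] at e1
  rwa [← h6, show aevalAeval a b (derivative Ψ) * y =
    -(aevalAeval a b K1 * y ^ 2 + aevalAeval a b K2 * x) by linear_combination -e1, P.v.map_neg]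

lemma ram_sep {g : ℕ} {W H : Dv k E} (hW : Can g W) (hH : deg H = 2 * g + 1) {P : Place k E}
    (hP : H P = 0) {ι : Type} [Fintype ι] (b : Basis ι k (LS H))
    (h : ∀ i, P.v (b i - algebraMap k E (ev P (b i))) ≤ exp (-2)) : False := by
  have h1 := hW.big (D := H - pt P) (by rw [map_sub, deg_single]; omega)
  have h2 := hW.big (D := H - pt P - pt P) (by rw [map_sub, map_sub, deg_single]; omega)
  simp only [map_sub, deg_single] at h1 h2
  obtain ⟨z, z1, z2⟩ := exists_of_lS_lt (D := H - pt P - pt P) (D' := H - pt P) (by omega)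
  obtain ⟨z3, z4⟩ := mem_LS_sub_pt.1 z1
  obtain ⟨c, hc⟩ : ∃ c : k, P.v (z - algebraMap k E c) ≤ exp (-2) := by
    refine ⟨∑ i, b.repr ⟨z, z3⟩ i * ev P (b i), ?_⟩
    have e : z = ∑ i, b.repr ⟨z, z3⟩ i • (b i : E) := by
      simpa only [map_sum, map_smul, Submodule.subtype_apply] using
        congrArg (LS H).subtype (b.sum_repr ⟨z, z3⟩).symm
    rw [map_sum]
    nth_rw 1 [e]
    rw [← Finset.sum_sub_distrib]
    refine P.v.map_sum_le fun i _ => ?_
    rw [Algebra.smul_def, map_mul, ← mul_sub, map_mul]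
    exact (mul_le_of_le_one_left' (P.triv _)).trans (h i)
  rw [hP, exp_zero] at z4
  rw [← ev_eq (hc.trans_lt (by rw [← exp_zero, exp_lt_exp]; norm_num)), ev_of_lt z4, map_zero,
    sub_zero] at hc
  exact z2 (mem_LS_sub_pt.2 ⟨z1, hc.trans_lt (by rw [exp_lt_exp]; simp [hP])⟩)

end

theorem p_RAM (hBDP : S_BDP) (hREL : S_REL) :
    S_RAM := by
  intro g n
  obtain ⟨d, hd⟩ := hREL (n + (2 * g + 1))
  refine ⟨1 + n + (2 * g + 2) * (2 * (2 * d * (n + (2 * g + 1)))), d, ?_⟩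
  intro k E _ _ _ _ _ W f hW hc ht hf
  obtain ⟨O, -⟩ := PL.exists_pole ht
  obtain ⟨H, h0, h1, h2⟩ : ∃ H : Dv k E, 0 ≤ H ∧ deg H = 2 * g + 1 ∧ ∀ P ≠ O, H P = 0 :=
    ⟨Finsupp.single O (2 * g + 1), Finsupp.single_nonneg.2 (by positivity), deg_single _ _,
      fun P e => Finsupp.single_eq_of_ne e⟩
  have := rr_fd H
  have h3 : lS H ≤ 2 * g + 2 := by
    have := lS_le_deg (D := H) (by omega)
    omega
  let b := Module.finBasis k (LS H)
  have hf' := hf.mono (Nat.le_add_right n (2 * g + 1))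
  have hb : ∀ i, Bd k (n + (2 * g + 1)) (b i : E) := fun i =>
    Bd.of_mem h0 (by rw [h1]; push_cast; omega) (b i).2
  choose Ψ _ p1 p2 p3 p4 p5 using fun i => hd k E f (b i) ht hf' (hb i)
  choose X x1 x2 using fun i => (hBDP k E _ d f (b i) (Polynomial.derivative (Ψ i)) hf' (hb i)
    ((Polynomial.natDegree_derivative_lt (p1 i).ne').le.trans (p2 i)) fun j => by
      rw [Polynomial.coeff_derivative, ← Nat.cast_succ]
      exact Polynomial.natDegree_mul_le.trans
        (by rw [Polynomial.natDegree_natCast]; exact p3 i (j + 1))).1.unit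
    fun e => ram_der hc (p1 i) (p2 i) (p5 i _ e)
  obtain ⟨X0, y1, y2⟩ := hf.poles
  refine ⟨{O} ∪ X0 ∪ Finset.univ.biUnion X, (Finset.card_union_le _ _).trans (add_le_add
    ((Finset.card_union_le _ _).trans (add_le_add (Finset.card_singleton O).le y1))
    ((Finset.card_biUnion_le_card_mul _ _ _ fun i _ => x1 i).trans
      (Nat.mul_le_mul_right _ (by rw [Finset.card_univ, Fintype.card_fin]; exact h3)))), fun P hP => ?_⟩
  simp only [Finset.mem_union, Finset.mem_singleton, Finset.mem_biUnion, Finset.mem_univ,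
    true_and, not_or, not_exists] at hP
  have a1 := y2 P hP.1.2
  have a0 : f - algebraMap k E (ev P f) ≠ 0 :=
    sub_ne_zero.2 fun e => ht (e ▸ isAlgebraic_algebraMap _)
  have a2 := (lt_exp_iff a0).1 ((ev_spec a1).trans_eq exp_zero.symm)
  refine ⟨a1, by_contra fun e => ram_sep hW h1 (h2 P hP.1.1) b fun i => ram_loc a1
    (le_one_of_LS (b i).2 (h2 P hP.1.1).le) (p4 i) (x2 i P (hP.2 i)) ((le_exp_iff a0).2 ?_)⟩
  omega

end

section

theorem p_RM2 (hRAM : S_RAM) :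
    S_RM2 := by
  intro g
  obtain ⟨c, d, h⟩ := hRAM g (2 * g)
  refine ⟨2 * g + c, d, fun k E _ _ _ _ _ W D hW hd h2 hD => ?_⟩
  obtain ⟨b, b1, b0⟩ : ∃ z ∈ LS D, z ≠ 0 := by
    have : lS D ≠ 0 := by omega
    simpa [lS_eq_zero] using this
  have H0 : 0 ≤ D + dv k b := by rw [add_comm]; exact (mem_LS' b0).1 b1
  have Hd : deg (D + dv k b) ≤ (2 * g : ℕ) := by rw [map_add, deg_dv, add_zero]; omega
  obtain ⟨f, f1, f2⟩ := exists_of_lS_lt (D := 0) (D' := D + dv k b) (by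
    rw [lS_zero, lS_add_dv b0]; omega)
  have ft : Transcendental k f := (MP_6f117a_ag.const_or_trans (L := k) f).resolve_left (by
    rintro ⟨a, rfl⟩
    exact f2 (const_mem_LS le_rfl a))
  obtain ⟨X, X1, X2⟩ := h k E W f hW hd ft (Bd.of_mem H0 Hd f1)
  refine ⟨(D + dv k b).support ∪ X, (Finset.card_union_le _ _).trans (Nat.add_le_add_right
    (by exact_mod_cast (card_support_le H0).trans Hd) _ |>.trans (Nat.add_le_add_left X1 _)),
    fun P hP => ?_⟩
  rw [Finset.mem_union, not_or, Finsupp.notMem_support_iff] at hP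
  obtain ⟨-, o1⟩ := X2 P hP.2
  have n0 := ne_zero_of_ord (by rw [o1]; exact one_ne_zero)
  have a1 := lS_lt (sub_le_self _ (pt_nonneg P)) (one_mem_LS.2 H0) fun e => by
    have := (mem_LS_sub_pt.1 e).2
    rw [hP.1, map_one, exp_zero] at this
    exact this.false
  have a2 := lS_lt (sub_le_self (D + dv k b - pt P) (pt_nonneg P))
    (mem_LS_sub_pt.2 ⟨sub_mem f1 (const_mem_LS H0 (ev P f)), by
      rw [lt_exp_iff n0, hP.1, o1]; omega⟩) fun e => by
    have := (mem_LS_sub_pt.1 e).2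
    rw [lt_exp_iff n0, Finsupp.sub_apply, hP.1, o1, Finsupp.single_eq_same] at this
    omega
  have a3 := lS_step D P
  have a4 := lS_step (D - pt P) P
  rw [add_sub_right_comm, lS_add_dv b0, lS_add_dv b0] at a1
  rw [add_sub_right_comm, add_sub_right_comm, lS_add_dv b0, lS_add_dv b0] at a2
  omega

end

section

section

variable {k E : Type} [Field k] [Field E] [Algebra k E] [IsAlgClosed k] [FF k E]
  {g : ℕ} {W H : Dv k E}

lemma bpf_ex (h : Can g W) {D : Dv k E} (hD : 2 * (g : ℤ) ≤ deg D) (P : Place k E) :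
    ∃ z ∈ LS D, z ∉ LS (D - pt P) := by
  have h3 : deg (D - pt P) = deg D - 1 := by rw [map_sub, deg_single]
  have h1 := h.big (D := D) (by omega)
  have h2 := h.big (D := D - pt P) (by omega)
  exact exists_of_lS_lt (by omega)

lemma bpf_div {a x : E} (ha : a ≠ 0) (hx : x ∈ LS (2 • H - dv k a)) : a⁻¹ * x ∈ LS (2 • H) := by
  have := mul_mem_LS ((mem_LS' (D := dv k a) (inv_ne_zero ha)).2 (by simp)) hx
  rwa [add_sub_cancel] at this

lemma bpf_pencil (h : Can g W) (h0 : 0 ≤ H) (hd : 2 * g + 1 ≤ deg H) {a b : E} (a0 : a ≠ 0)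
    (b0 : b ≠ 0) (ha : a ∈ LS H) (hb : b ∈ LS H)
    (hab : ∀ P, (dv k a + H) P ≠ 0 → b ∉ LS (H - pt P)) :
    ∃ x ∈ LS (2 • H), ∃ y ∈ LS (2 • H), a * x + b * y = 1 := by
  have ha' := (mem_LS' a0).1 ha
  have hb' := (mem_LS' b0).1 hb
  have e : (2 • H - dv k a) ⊓ (2 • H - dv k b) = H - dv k a - dv k b := by
    ext P
    have h1 : 0 ≤ (dv k a + H) P := ha' P
    have h2 : 0 ≤ (dv k b + H) P := hb' P
    have h3 := hab P
    rw [mem_LS_sub_pt, lt_exp_iff b0, and_iff_right hb] at h3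
    simp only [Finsupp.inf_apply, Finsupp.sub_apply, Finsupp.add_apply, dv_apply, two_nsmul] at *
    omega
  have le : ∀ {c : E}, 0 ≤ dv k c + H → LS (2 • H - dv k c) ≤ LS (3 • H) := fun {c} hc =>
    LS_mono (sub_nonneg.1 (hc.trans_eq (by abel)))
  have d : ∀ (n : ℕ) (c : E), deg (n • H - dv k c) = n * deg H := fun n c => by
    rw [map_sub, deg_dv, sub_zero, map_nsmul, nsmul_eq_mul]
  have d1 : deg (H - dv k a - dv k b) = deg H := by rw [map_sub, map_sub, deg_dv, deg_dv]; ring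
  have d3 : deg (3 • H) = 3 * deg H := by rw [map_nsmul, nsmul_eq_mul]; rfl
  have da := d 2 a
  have db := d 2 b
  have l1 := h.big (D := H - dv k a - dv k b) (by omega)
  have la := h.big (D := 2 • H - dv k a) (by omega)
  have lb := h.big (D := 2 • H - dv k b) (by omega)
  have l3 := h.big (D := 3 • H) (by omega)
  have := rr_fd (2 • H - dv k a)
  have := rr_fd (2 • H - dv k b)
  have := rr_fd (3 • H)
  have s := Submodule.finrank_sup_add_finrank_inf_eq (LS (2 • H - dv k a)) (LS (2 • H - dv k b))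
  rw [R.LS_inf, e] at s
  have t := Submodule.eq_of_le_of_finrank_le (sup_le (le ha') (le hb')) (by
    unfold lS at l1 la lb l3
    omega)
  obtain ⟨x, hx, y, hy, e1⟩ := Submodule.mem_sup.1 (t.ge (one_mem_LS.2 (nsmul_nonneg h0 3)))
  exact ⟨_, bpf_div a0 hx, _, bpf_div b0 hy, by
    rw [mul_inv_cancel_left₀ a0, mul_inv_cancel_left₀ b0, e1]⟩

end

theorem p_BPF :
    S_BPF := by
  intro k E _ _ _ _ _ g W H h h0 hd
  refine ⟨fun P Q hP hQ e => by_contra fun n => ?_, fun l l1 hl => ?_⟩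
  · obtain ⟨z, z1, z2⟩ := bpf_ex h (D := H - pt P) (by rw [map_sub, deg_single]; omega) Q
    obtain ⟨z3, z4⟩ := mem_LS_sub_pt.1 z1
    refine z2 (mem_LS_sub_pt.2 ⟨z1, ?_⟩)
    rw [hP, exp_zero] at z4
    rw [Finsupp.sub_apply, pt_ne (Ne.symm n), hQ, sub_zero, exp_zero]
    exact (ev_eq_zero_iff (le_one_of_LS z3 hQ.le)).1 ((e z z3).symm.trans (ev_of_lt z4))
  by_cases c : ∃ P, LS H ⊓ LinearMap.ker l ≤ LS (H - pt P)
  · obtain ⟨P, hP⟩ := c
    have key : ∀ a ∈ LS H, a - algebraMap k E (l a) ∈ LS (H - pt P) := fun a ha =>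
      hP ⟨sub_mem ha (const_mem_LS h0 _), by
        simp [Algebra.algebraMap_eq_smul_one, l1]⟩
    have e : H P = 0 := by
      obtain ⟨z, z1, z2⟩ := bpf_ex h (D := H) (by omega) P
      by_contra n
      have h1 : 0 ≤ H P := h0 P
      refine z2 (by
        simpa using add_mem (key z z1) (mem_LS_sub_pt.2 ⟨const_mem_LS h0 (l z),
          (P.triv _).trans_lt (by rw [← exp_zero, exp_lt_exp]; omega)⟩))
    refine ⟨P, e, fun a ha => (ev_eq ?_).symm⟩
    simpa [e] using (mem_LS_sub_pt.1 (key a ha)).2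
  · have ex : ∀ X : Finset (Place k E), ∃ b ∈ LS H, l b = 0 ∧ ∀ P ∈ X, b ∉ LS (H - pt P) :=
      fun X => by
        obtain ⟨b, hb⟩ := Submodule.exists_forall_notMem_of_forall_ne_top
          (fun P : X => (LS (H - pt P.1)).comap (LS H ⊓ LinearMap.ker l).subtype)
          fun P e => c ⟨P, Submodule.comap_subtype_eq_top.1 e⟩
        exact ⟨b, b.2.1, b.2.2, fun P hP => hb ⟨P, hP⟩⟩
    obtain ⟨P, -⟩ : H.support.Nonempty := Finsupp.support_nonempty_iff.2 fun e => by
      rw [e, map_zero] at hd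
      omega
    obtain ⟨a, a1, a2, a3⟩ := ex {P}
    obtain ⟨b, b1, b2, b3⟩ := ex (insert P (dv k a + H).support)
    obtain ⟨x, hx, y, hy, e⟩ := bpf_pencil h h0 hd
      (fun e => a3 P (Finset.mem_singleton_self P) (by rw [e]; exact zero_mem _))
      (fun e => b3 P (Finset.mem_insert_self P _) (by rw [e]; exact zero_mem _)) a1 b1
      fun Q hQ => b3 Q (Finset.mem_insert_of_mem (Finsupp.mem_support_iff.2 hQ))
    have := congrArg l e
    rw [map_add, hl a a1 x hx, hl b b1 y hy, a2, b2, l1] at this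
    simp at this

end

section

section prim

variable {k E : Type} [Field k] [Field E] [Algebra k E] {P Q : Place k E} {t : E}

lemma prim_poly (h : P.v t = Q.v t) (h1 : P.v t < 1) (p : k[X]) :
    P.v (Polynomial.aeval t p) = Q.v (Polynomial.aeval t p) ∧ P.v (Polynomial.aeval t p) ≤ 1 ∧
      (p.coeff 0 = 0 → P.v (Polynomial.aeval t p) < 1) := by
  induction p using Polynomial.recOnHorner with
  | M0 => simp
  | MC p c h0 hc ih =>
    have e : ∀ R : Place k E, R.v (Polynomial.aeval t p) < 1 →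
        R.v (Polynomial.aeval t (p + Polynomial.C c)) = 1 := fun R hR => by
      rw [map_add, Polynomial.aeval_C, R.v.map_add_eq_of_lt_right (by rwa [R.v_const hc]),
        R.v_const hc]
    have a := ih.2.2 h0
    rw [e P a, e Q (ih.1 ▸ a)]
    exact ⟨rfl, le_rfl, fun e' => absurd (by simpa [h0] using e') hc⟩
  | MX p _ ih =>
    have a : P.v (Polynomial.aeval t p) * P.v t < 1 :=
      (mul_le_of_le_one_left' ih.2.1).trans_lt h1
    simp only [map_mul, Polynomial.aeval_X]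
    exact ⟨by rw [ih.1, h], a.le, fun _ => a⟩

lemma prim_val (h : P.v t = Q.v t) (h1 : P.v t < 1) {r : E} (hr : r ∈ k⟮t⟯) : P.v r = Q.v r := by
  obtain ⟨p, q, rfl⟩ := (IntermediateField.mem_adjoin_simple_iff k r).1 hr
  rw [map_div₀, map_div₀, (prim_poly h h1 p).1, (prim_poly h h1 q).1]

variable [IsAlgClosed k] [FF k E]

lemma prim_sum {ι : Type} (s : Finset ι) {f : ι → E} (h : ∀ i ∈ s, P.v (f i) ≤ 1) :
    ev P (∑ i ∈ s, f i) = ∑ i ∈ s, ev P (f i) := by
  induction s using Finset.induction_on with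
  | empty => simp
  | insert i s hi ih =>
    have h' := fun j hj => h j (Finset.mem_insert_of_mem hj)
    rw [Finset.sum_insert hi, Finset.sum_insert hi,
      ev_add (h i (Finset.mem_insert_self _ _)) (P.v.map_sum_le h'), ih h']

lemma prim_deg (ht : Transcendental k t) (Z : Finset (Place k E))
    (hZ : ∀ P ∈ Z, P.v t = exp (-1)) {b : E} (hb : ∀ P ∈ Z, P.v b ≤ 1)
    (hi : Set.InjOn (fun P : Place k E => ev P b) Z) : Z.card ≤ (minpoly k⟮t⟯ b).natDegree := by
  have := FF.fin t ht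
  by_contra hlt
  obtain ⟨P0, h0⟩ := Finset.card_pos.1 ((Nat.zero_le _).trans_lt (not_le.1 hlt))
  have hv : ∀ P ∈ Z, ∀ r ∈ k⟮t⟯, P.v r = P0.v r := fun P hP r hr =>
    prim_val ((hZ P hP).trans (hZ P0 h0).symm) (by rw [hZ P hP, ← exp_zero, exp_lt_exp]; omega) hr
  set m := minpoly k⟮t⟯ b
  obtain ⟨j0, -, hj⟩ := Finset.exists_max_image Finset.univ
    (fun j : Fin (m.natDegree + 1) => P0.v (m.coeff j : E)) Finset.univ_nonempty
  have hm : m.coeff m.natDegree = 1 := minpoly.monic (Algebra.IsIntegral.isIntegral b)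
  have h1 : P0.v (m.coeff j0 : E) ≠ 0 := fun e => by
    simpa [e, hm] using hj (Fin.last _) (Finset.mem_univ _)
  have h2 : (m.coeff j0 : E) ≠ 0 := by simpa using h1
  let u : Fin (m.natDegree + 1) → E := fun j => (m.coeff j : E) / m.coeff j0
  have hu : ∀ j, u j ∈ k⟮t⟯ := fun j => div_mem (m.coeff j).2 (m.coeff j0).2
  have hu1 : ∀ j, P0.v (u j) ≤ 1 := fun j => by
    rw [map_div₀, div_le_one₀ (zero_lt_iff.2 h1)]
    exact hj j (Finset.mem_univ _)
  have hs : ∑ j, u j * b ^ (j : ℕ) = 0 := by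
    have := minpoly.aeval k⟮t⟯ b
    rw [Polynomial.aeval_eq_sum_range, Finset.sum_range] at this
    simp only [u, div_mul_eq_mul_div, ← Finset.sum_div]
    exact div_eq_zero_iff.2 (Or.inl this)
  have h3 := Polynomial.eq_zero_of_degree_lt_of_eval_index_eq_zero Z hi
    (f := ∑ j, Polynomial.C (ev P0 (u j)) * Polynomial.X ^ (j : ℕ))
    ((Polynomial.degree_sum_fin_lt _).trans_le (by exact_mod_cast not_le.1 hlt)) fun P hP => by
      have a : ∀ j, P.v (u j) ≤ 1 := fun j => (hv P hP _ (hu j)).trans_le (hu1 j)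
      have a' : ∀ j : ℕ, P.v (b ^ j) ≤ 1 := fun j => by
        rw [map_pow]
        exact pow_le_one' (hb P hP) j
      rw [← ev_zero P, ← hs, prim_sum _ fun j _ => by
        rw [map_mul]
        exact mul_le_one' (a j) (a' j), Polynomial.eval_finsetSum]
      refine Finset.sum_congr rfl fun j _ => ?_
      rw [ev_mul (a j) (a' j), ev_pow (hb P hP), ev_eq ((hv P hP _ (sub_mem (hu j)
        (IntermediateField.algebraMap_mem _ _))).trans_lt (ev_spec (hu1 j)))]
      simp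
  have h4 := congrArg (Polynomial.coeff · j0) h3
  simp [u, Fin.val_inj, h2] at h4

end prim

theorem p_PRIM (hRAM : S_RAM) :
    S_PRIM := by
  intro g n
  obtain ⟨c0, d, H⟩ := hRAM g n
  refine ⟨2 * n * (2 * n), d, fun k E _ _ _ _ _ W ι _ a x X hW hd ha hn hx hX => ?_⟩
  obtain ⟨V, -, hY⟩ := H k E W a hW hd ha hn
  obtain ⟨c, hc⟩ := Infinite.exists_notMem_finset ((X ∪ V).image fun P => ev P a)
  have t0 : a - algebraMap k E c ≠ 0 := sub_ne_zero.2 fun e => ha (e ▸ isAlgebraic_algebraMap c)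
  obtain ⟨U, hU, hU'⟩ := (hn.sub_const c).unit t0
  let Z := U.filter fun P => P.v (a - algebraMap k E c) < 1
  have hZ : ∀ P, P ∈ Z ↔ P.v (a - algebraMap k E c) < 1 := fun P => by
    rw [Finset.mem_filter, and_iff_right_iff_imp]
    exact fun h => by_contra fun h' => h.ne (hU' P h')
  have hXY : ∀ P ∈ Z, P ∉ X ∧ P ∉ V := fun P hP => by
    rw [← not_or, ← Finset.mem_union]
    exact fun h => hc (Finset.mem_image.2 ⟨P, h, ev_eq ((hZ P).1 hP)⟩)
  have ho : ∀ P ∈ Z, ord P (a - algebraMap k E c) = 1 := fun P hP =>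
    ev_eq ((hZ P).1 hP) ▸ (hY P (hXY P hP).2).2
  have ht : Transcendental k (a - algebraMap k E c) := fun h =>
    ha (by simpa using h.add (isAlgebraic_algebraMap c))
  have hcard : Z.card = finrank k⟮a - algebraMap k E c⟯ E := by
    simpa using (Finset.sum_congr rfl ho).symm.trans (PL.sum_zeros ht Z hZ)
  have hZn : Z.card ≤ 2 * n := (Finset.card_filter_le _ _).trans hU
  refine ⟨Z.offDiag.image fun p i => ev p.1 (x i) - ev p.2 (x i), ?_, ?_, fun y hy => ?_⟩
  · refine Finset.card_image_le.trans ?_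
    rw [Finset.offDiag_card]
    exact (Nat.sub_le _ _).trans (Nat.mul_le_mul hZn hZn)
  · intro δ hδ e
    obtain ⟨p, hp, rfl⟩ := Finset.mem_image.1 hδ
    obtain ⟨h1, h2, h3⟩ := Finset.mem_offDiag.1 hp
    exact h3 (hX _ (hXY _ h1).1 _ (hXY _ h2).1 fun i => sub_eq_zero.1 (congrFun e i))
  have hv : ∀ P ∈ Z, ∀ i, P.v (y i • x i) ≤ 1 := fun P hP i => by
    rw [Algebra.smul_def, map_mul]
    exact mul_le_one' (P.triv _) (hx P (hXY P hP).1 i)
  have he : ∀ P ∈ Z, ev P (∑ i, y i • x i) = ∑ i, y i * ev P (x i) := fun P hP => by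
    rw [prim_sum _ fun i _ => hv P hP i]
    refine Finset.sum_congr rfl fun i _ => ?_
    rw [Algebra.smul_def, ev_mul (P.triv _) (hx P (hXY P hP).1 i), ev_const]
  have h1 := prim_deg ht Z (fun P hP => (ord_eq_iff t0).1 (ho P hP))
    (fun P hP => P.v.map_sum_le fun i _ => hv P hP i) fun P hP Q hQ e => by_contra fun hne => by
      refine hy _ (Finset.mem_image.2 ⟨(P, Q), Finset.mem_offDiag.2 ⟨hP, hQ, hne⟩, rfl⟩) ?_
      simp only [mul_sub, Finset.sum_sub_distrib]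
      exact sub_eq_zero.2 ((he P hP).symm.trans (e.trans (he Q hQ)))
  rw [hcard, MP_6f117a_ag.adjoin_sub] at h1
  have := FF.fin a ha
  rw [← IntermediateField.adjoin_simple_adjoin_simple, (Field.primitive_element_iff_minpoly_natDegree_eq
    _ _).2 (le_antisymm (minpoly.natDegree_le _) h1), IntermediateField.restrictScalars_top]

end

section

section

variable {k E : Type} [Field k] [Field E] [Algebra k E] [IsAlgClosed k] [FF k E]
  {g : ℕ} {W : Dv k E} (Γ : Frm W g)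

lemma frb_mem (i : Fin g) : Γ.w i ∈ LS W := by
  refine LS_mono ?_ (Γ.mem i)
  have : pt (Γ.G i) ≤ ∑ j, pt (Γ.G j) :=
    Finset.single_le_sum (f := fun j => pt (Γ.G j)) (fun j _ => pt_nonneg _) (Finset.mem_univ i)
  rw [sub_add_eq_add_sub, add_sub_assoc]
  exact add_le_of_nonpos_right (sub_nonpos.2 this)

lemma frb_self (i : Fin g) : ord (Γ.G i) (Γ.w i) = -W (Γ.G i) := by
  refine le_antisymm (not_lt.1 fun h => Γ.ne i (lS_eq_zero.1 Γ.ns _ ?_))
    ((le_exp_iff (Γ.ne i)).1 (mem_LS.1 (frb_mem Γ i) _))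
  have h1 : (W - ∑ j, pt (Γ.G j) + pt (Γ.G i)) (Γ.G i) = W (Γ.G i) := by
    rw [Finsupp.add_apply, Finsupp.sub_apply, sum_pt_self Γ.inj, Finsupp.single_eq_same,
      sub_add_cancel]
  have h2 := mem_LS_sub_pt.2 ⟨Γ.mem i, by rw [h1]; exact (lt_exp_iff (Γ.ne i)).2 h⟩
  rwa [add_sub_cancel_right] at h2

lemma frb_app {i j : Fin g} (h : i ≠ j) :
    (W - ∑ l, pt (Γ.G l) + pt (Γ.G j)) (Γ.G i) = W (Γ.G i) - 1 := by
  rw [Finsupp.add_apply, Finsupp.sub_apply, sum_pt_self Γ.inj, pt_ne (Γ.inj.ne h), add_zero]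

lemma frb_other {i j : Fin g} (h : i ≠ j) : 1 - W (Γ.G i) ≤ ord (Γ.G i) (Γ.w j) := by
  have := (le_exp_iff (Γ.ne j)).1 (mem_LS.1 (Γ.mem j) (Γ.G i))
  rw [frb_app Γ h] at this
  omega

lemma frb_sim (hs : Γ.Sim) {i j : Fin g} (h : i ≠ j) : ord (Γ.G i) (Γ.w j) = 1 - W (Γ.G i) := by
  refine le_antisymm (not_lt.1 fun e => Γ.ne j (lS_eq_zero.1 (hs i j h) _ ?_)) (frb_other Γ h)
  refine mem_LS_sub_pt.2 ⟨Γ.mem j, (lt_exp_iff (Γ.ne j)).2 ?_⟩
  rw [frb_app Γ h]
  omega

lemma frb_span {z : E} (hz : z ∈ LS W) : ∃ c : Fin g → k, z = ∑ i, c i • Γ.w i := by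
  refine ⟨fun i => ev (Γ.G i) (z / Γ.w i), sub_eq_zero.1 (lS_eq_zero.1 Γ.ns _ ?_)⟩
  refine zer Γ.inj (sub_mem hz (Submodule.sum_mem _ fun i _ =>
    Submodule.smul_mem _ _ (frb_mem Γ i))) fun i => ?_
  have hv : (Γ.G i).v (Γ.w i) = exp (W (Γ.G i)) := by
    rw [v_eq _ (Γ.ne i), frb_self, neg_neg]
  have h1 : z - ev (Γ.G i) (z / Γ.w i) • Γ.w i ∈ LS (W - pt (Γ.G i)) := by
    refine mem_LS_sub_pt.2 ⟨sub_mem hz (Submodule.smul_mem _ _ (frb_mem Γ i)), ?_⟩
    have h2 : (Γ.G i).v (z / Γ.w i) ≤ 1 := by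
      rw [map_div₀, hv]
      exact div_le_one_of_le₀ (mem_LS.1 hz _) zero_le
    have h3 : z - ev (Γ.G i) (z / Γ.w i) • Γ.w i =
        Γ.w i * (z / Γ.w i - algebraMap k E (ev (Γ.G i) (z / Γ.w i))) := by
      rw [mul_sub, mul_div_cancel₀ _ (Γ.ne i), Algebra.smul_def, mul_comm]
    rw [h3, map_mul, hv]
    simpa using mul_lt_mul_of_pos_left (ev_spec h2) (exp_pos (a := W (Γ.G i)))
  have h4 : ∑ j ∈ Finset.univ.erase i, ev (Γ.G j) (z / Γ.w j) • Γ.w j ∈ LS (W - pt (Γ.G i)) :=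
    Submodule.sum_mem _ fun j hj => Submodule.smul_mem _ _ (mem_LS_sub_pt.2 ⟨frb_mem Γ j,
      (lt_exp_iff (Γ.ne j)).2 (by
        have := frb_other Γ (Finset.ne_of_mem_erase hj).symm
        omega)⟩)
  have h5 := sub_mem h1 h4
  rw [sub_sub, Finset.add_sum_erase Finset.univ (fun j => ev (Γ.G j) (z / Γ.w j) • Γ.w j)
    (Finset.mem_univ i)] at h5
  exact (mem_LS_sub_pt.1 h5).2

end

theorem p_FRB :
    S_FRB := by
  intro k E _ _ _ _ _ g W Γ hW
  refine ⟨fun i j => ?_, fun i j h => ?_, fun hs i j l h h' => ?_, fun z hz => frb_span Γ hz⟩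
  · refine ⟨dv k (Γ.w j) + W, (mem_LS' (Γ.ne j)).1 (frb_mem Γ j), ?_,
      (mem_LS' (div_ne_zero (Γ.ne i) (Γ.ne j))).2 ?_⟩
    · rw [map_add, deg_dv, hW.deg_W]
      push_cast
      omega
    · rw [dv_div (Γ.ne i) (Γ.ne j), ← add_assoc, sub_add_cancel]
      exact (mem_LS' (Γ.ne i)).1 (frb_mem Γ i)
  · have := frb_other Γ h
    rw [ord_div _ (Γ.ne i) (Γ.ne j), frb_self]
    omega
  · rw [ord_div _ (Γ.ne l) (Γ.ne j), frb_sim Γ hs h, frb_sim Γ hs h', sub_self]

end

end Pool.Agent.P.MP_9344a7_nt.Gt
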