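import Pool.Agent.P.MP_9344a7_nt.Gt.Iface

/-! Steps NH, H2, NETF, AVF, DES, AVD, UNI, EXP. -/

set_option linter.unusedSectionVars false
set_option linter.unusedVariables false

namespace Pool.Agent.P.MP_9344a7_nt.Gt

open WithZero Module
open Pool.Agent.P.MP_6f117a_ag (Place FF)
open Pool.Agent.P.MP_ab3ecb_nt.Inv
open Pool.Agent.P.MP_9344a7_nt.R (Fr rr_fd)
open Pool.Agent.P.MP_9344a7_nt.Tor (Prd ExF IsUP AL)
open scoped Classical PowerSeries IntermediateField Polynomial Polynomial.Bivariate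

section

section

variable {k E : Type} [Field k] [Field E] [Algebra k E] [IsAlgClosed k] [FF k E]

lemma nh_self {y : E} (hy : y ≠ 0) : y ∈ LS (-dv k y) := (mem_LS' hy).2 (by simp)

lemma nh_div {W : Dv k E} {x y : E} (hy : y ≠ 0) (hx : x ∈ LS W) : x / y ∈ LS (W + dv k y) := by
  have h := mul_mem_LS hx (nh_self (k := k) (inv_ne_zero hy))
  rwa [dv_inv, neg_neg, ← div_eq_mul_inv] at h

lemma nh_sum {ι : Type} (P : Place k E) (s : Finset ι) (c : ι → k) {u : ι → E}
    (h : ∀ i, P.v (u i) ≤ 1) :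
    P.v (∑ i ∈ s, c i • u i) ≤ 1 ∧ ev P (∑ i ∈ s, c i • u i) = ∑ i ∈ s, c i * ev P (u i) := by
  induction s using Finset.induction_on with
  | empty => simp
  | insert a s ha ih =>
    have h1 : P.v (algebraMap k E (c a) * u a) ≤ 1 := by
      rw [map_mul]
      exact mul_le_one' (P.triv _) (h a)
    rw [Finset.sum_insert ha, Finset.sum_insert ha, Algebra.smul_def]
    exact ⟨P.v.map_add_le h1 ih.1, by
      rw [ev_add h1 ih.1, ih.2, ev_mul (P.triv _) (h a), ev_const]⟩

lemma nh_mem {g : ℕ} {W : Dv k E} (Γ : Frm W g) (i : Fin g) : Γ.w i ∈ LS W := by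
  refine LS_mono ?_ (Γ.mem i)
  have : pt (Γ.G i) ≤ ∑ j, pt (Γ.G j) :=
    Finset.single_le_sum (f := fun j => pt (Γ.G j)) (fun j _ => pt_nonneg _) (Finset.mem_univ i)
  rw [sub_add, sub_le_self_iff]
  exact sub_nonneg.2 this

end

theorem p_NH (hFRB : S_FRB) :
    S_NH := by
  intro k E _ _ _ _ _ g W Γ j hW hG
  have hj := Γ.ne j
  have h0 := hW.add_dv hj
  have hm : ∀ i, Γ.w i / Γ.w j ∈ LS (W + dv k (Γ.w j)) := fun i => nh_div hj (nh_mem Γ i)
  have hv : ∀ P ∉ (W + dv k (Γ.w j)).support, ∀ i, P.v (Γ.w i / Γ.w j) ≤ 1 := fun P hP i =>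
    le_one_of_LS (hm i) (Finsupp.notMem_support_iff.1 hP).le
  refine ⟨_, hv, fun P hP Q hQ e => ?_⟩
  by_contra hne
  have h1 := h0 (pt P)
  have h2 := h0 (pt P + pt Q)
  have h3 : lS (pt P + pt Q) = 1 := by
    by_contra e'
    exact hG ⟨P, Q, e'⟩
  rw [h0.lS_pt j.pos, deg_single] at h1
  rw [h3, map_add, deg_single, deg_single, ← sub_sub] at h2
  obtain ⟨z, a, b⟩ := exists_of_lS_lt (D := W + dv k (Γ.w j) - pt P - pt Q)
    (D' := W + dv k (Γ.w j) - pt P) (by omega)
  have hP0 := Finsupp.notMem_support_iff.1 hP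
  have hQ0 := Finsupp.notMem_support_iff.1 hQ
  have a' := mem_LS_sub_pt.1 a
  have hz := mul_mem_LS a'.1 (nh_self (k := k) hj)
  rw [add_neg_cancel_right] at hz
  obtain ⟨c, hc⟩ := (hFRB k E g W Γ hW).span _ hz
  have hz' : z = ∑ i, c i • (Γ.w i / Γ.w j) := by
    rw [← mul_div_cancel_right₀ z hj, hc, Finset.sum_div]
    exact Finset.sum_congr rfl fun i _ => smul_div_assoc _ _ _
  have s1 := nh_sum P Finset.univ c (hv P hP)
  have s2 := nh_sum Q Finset.univ c (hv Q hQ)
  rw [← hz'] at s1 s2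
  have e1 : ev P z = 0 := ev_of_lt (by simpa only [hP0, exp_zero] using a'.2)
  have e2 : ev Q z = 0 := by
    rw [s2.2, ← e1, s1.2]
    exact Finset.sum_congr rfl fun i _ => by rw [e i]
  refine b (mem_LS_sub_pt.2 ⟨a, ?_⟩)
  rw [Finsupp.sub_apply, hQ0, pt_ne (Ne.symm hne), sub_zero, exp_zero]
  exact (ev_eq_zero_iff s2.1).1 e2

end

section

lemma h2_can {k E : Type} [Field k] [Field E] [Algebra k E] [IsAlgClosed k] [FF k E] {m : ℕ}
    {W : Dv k E} (h : Can (m + 1) W) {P Q : Place k E} (h2 : 2 ≤ lS (pt P + pt Q)) :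
    Pr (W - m • (pt P + pt Q)) := by
  obtain ⟨f, f1, f2⟩ := exists_of_lS_lt (D := pt P + pt Q - pt P) (D' := pt P + pt Q) (by
    rw [add_sub_cancel_left, h.lS_pt (by omega)]
    omega)
  have f3 : P.v f = exp ((pt P + pt Q) P) :=
    le_antisymm (mem_LS.1 f1 P) (not_lt.1 fun e => f2 (mem_LS_sub_pt.2 ⟨f1, e⟩))
  have f4 : 1 ≤ (pt P + pt Q) P := by
    have : (0 : ℤ) ≤ pt Q P := pt_nonneg Q P
    rw [Finsupp.add_apply, Finsupp.single_eq_same]
    omega
  have key : ∀ n : ℕ, n + 1 ≤ lS (n • (pt P + pt Q)) := fun n => by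
    induction n with
    | zero => rw [zero_nsmul, lS_zero]
    | succ n ih =>
      refine lt_of_le_of_lt ih (lS_lt (by
        rw [succ_nsmul]
        exact le_add_of_nonneg_right (add_nonneg (pt_nonneg P) (pt_nonneg Q)))
        (pow_mem_LS f1 _) fun e => ?_)
      have := mem_LS.1 e P
      rw [map_pow, f3, ← exp_nsmul, exp_le_exp, Finsupp.smul_apply, succ_nsmul] at this
      omega
  have a1 := key m
  have a2 := h (m • (pt P + pt Q))
  have a3 : deg (m • (pt P + pt Q)) = 2 * m := by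
    rw [map_nsmul, map_add, deg_single, deg_single, nsmul_eq_mul]
    ring
  refine pr_of_lS (by rw [map_sub, h.deg_W, a3]; push_cast; ring) ?_
  push_cast at a2
  omega

theorem p_H2 :
    S_H2 := by
  intro k E _ _ _ _ _ g W Γ i j h ⟨P, Q, h1⟩ _
  obtain ⟨m, rfl⟩ : ∃ m, g = m + 1 := ⟨g - 1, by have := i.2; omega⟩
  have h2 : 2 ≤ lS (pt P + pt Q) := by
    have := lS_pos (add_nonneg (pt_nonneg P) (pt_nonneg Q))
    omega
  have h3 := h2_can h h2
  choose A a1 a2 using fun l => R.exists_eff (D := pt P + pt Q - pt (Γ.G l)) (by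
    have := lS_step (pt P + pt Q) (Γ.G l)
    change lS _ ≠ 0
    omega)
  have key : ∀ l, dv k (Γ.w l) + (W - ∑ j, pt (Γ.G j) + pt (Γ.G l)) = ∑ j, A j - A l := by
    intro l
    have b1 : ∀ s : Finset (Fin (m + 1)),
        Pr (∑ j ∈ s, (A j - (pt P + pt Q - pt (Γ.G j)))) := fun s =>
      Finset.sum_induction _ Pr (fun _ _ => R.Prin.add) R.Prin.zero fun j _ => a2 j
    have b2 : Pr (∑ j, A j - A l - (W - ∑ j, pt (Γ.G j) + pt (Γ.G l))) := by
      convert ((b1 Finset.univ).sub (a2 l)).sub h3 using 1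
      simp only [Finset.sum_sub_distrib, Finset.sum_const, Finset.card_univ, Fintype.card_fin,
        succ_nsmul]
      abel
    have b3 := lS_step (W - ∑ j, pt (Γ.G j) + pt (Γ.G l)) (Γ.G l)
    rw [add_sub_cancel_right, Γ.ns] at b3
    have b4 := lS_ne_zero (Γ.mem l) (Γ.ne l)
    have b5 := Pr.lS_eq b2
    refine R.eff_unique (show lS _ = 1 by omega)
      (sub_nonneg.2 (Finset.single_le_sum (fun j _ => a1 j) (Finset.mem_univ l)))
      ((mem_LS' (Γ.ne l)).1 (Γ.mem l)) ?_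
    convert R.Prin.sub ⟨_, Γ.ne l, rfl⟩ b2 using 1
    abel
  refine Bd.of_mem (add_nonneg (pt_nonneg (Γ.G i)) (a1 i)) ?_
    ((mem_LS' (div_ne_zero (Γ.ne i) (Γ.ne j))).2 ?_)
  · rw [map_add, (a2 i).deg_eq, map_sub, map_add, deg_single, deg_single, deg_single]
    norm_num
  · rw [dv_div (Γ.ne i) (Γ.ne j), eq_sub_of_add_eq (key i), eq_sub_of_add_eq (key j)]
    refine (add_nonneg (pt_nonneg (Γ.G j)) (a1 j)).trans_eq ?_
    abel

end

section

lemma netf_ord {k E : Type} [Field k] [Field E] [Algebra k E] [IsAlgClosed k] [FF k E]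
    {D : Dv k E} {z : E} {P : Place k E} (h0 : z ≠ 0) (hz : z ∈ LS D) (h : lS (D - pt P) = 0) :
    ord P z + D P = 0 := by
  have h1 := (mem_LS' h0).1 hz
  by_contra h2
  refine h0 (lS_eq_zero.1 h z ((mem_LS' h0).2 fun Q => ?_))
  have h3 : 0 ≤ ord Q z + D Q := by simpa using h1 Q
  rcases eq_or_ne Q P with rfl | e
  · simp only [Finsupp.add_apply, Finsupp.sub_apply, dv_apply, Finsupp.single_eq_same,
      Finsupp.zero_apply]
    omega
  · simpa only [Finsupp.add_apply, Finsupp.sub_apply, dv_apply, pt_ne e, sub_zero,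
      Finsupp.zero_apply] using h3

lemma netf_sum {M : Type} [AddCommMonoid M] {m : ℕ} {i j l : Fin (m + 3)}
    {e : Fin m → Fin (m + 3)} (hij : i ≠ j) (hil : i ≠ l) (hjl : j ≠ l)
    (he : Function.Injective e) (h : ∀ a, e a ≠ i ∧ e a ≠ j ∧ e a ≠ l) (f : Fin (m + 3) → M) :
    ∑ a, f a = ∑ a, f (e a) + f i + f j + f l := by
  have h1 : l ∉ Finset.univ.image e := by simpa using fun a => (h a).2.2
  have h2 : j ∉ insert l (Finset.univ.image e) := by simpa [hjl] using fun a => (h a).2.1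
  have h3 : i ∉ insert j (insert l (Finset.univ.image e)) := by
    simpa [hij, hil] using fun a => (h a).1
  have h4 : insert i (insert j (insert l (Finset.univ.image e))) = Finset.univ :=
    Finset.eq_univ_of_card _ (by
      rw [Finset.card_insert_of_notMem h3, Finset.card_insert_of_notMem h2,
        Finset.card_insert_of_notMem h1, Finset.card_image_of_injective _ he]
      simp)
  rw [← h4, Finset.sum_insert h3, Finset.sum_insert h2, Finset.sum_insert h1,
    Finset.sum_image fun a _ b _ c => he c]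
  abel

theorem p_NETF (hFRB : S_FRB) :
    S_NETF := by
  intro k E _ _ _ _ _ m W Γ i j l e hW hij hil hjl he h
  have hS := netf_sum hij hil hjl he h fun a => pt (Γ.G a)
  have hC : ∀ b, (∀ a, e a ≠ b) → (∑ a, pt (Γ.G (e a))) (Γ.G b) = 0 := fun b hb =>
    sum_pt_ne fun a _ => Γ.inj.ne (hb a)
  have Ci := hC i fun a => (h a).1
  have Cl := hC l fun a => (h a).2.2
  have S1 := sum_pt_self Γ.inj
  have mem := fun a => (mem_LS' (Γ.ne a)).1 (Γ.mem a)
  have ns : ∀ a, lS (W - ∑ b, pt (Γ.G b) + pt (Γ.G a) - pt (Γ.G a)) = 0 := fun a => by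
    rw [add_sub_cancel_right, Γ.ns]
  have o1 : ∀ a, ord (Γ.G a) (Γ.w a) + W (Γ.G a) = 0 := fun a => by
    simpa only [Finsupp.add_apply, Finsupp.sub_apply, S1, Finsupp.single_eq_same,
      sub_add_cancel] using netf_ord (Γ.ne a) (Γ.mem a) (ns a)
  have o2 : Γ.Sim → ∀ a, a ≠ j → ord (Γ.G a) (Γ.w j) + (W (Γ.G a) - 1) = 0 := fun s a ha => by
    simpa only [Finsupp.add_apply, Finsupp.sub_apply, S1, pt_ne (Γ.inj.ne ha), add_zero]
      using netf_ord (Γ.ne j) (Γ.mem j) (s a j ha)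
  have dn : ∀ a, Γ.w a / Γ.w j ≠ 0 := fun a => div_ne_zero (Γ.ne a) (Γ.ne j)
  generalize hC' : ∑ a, pt (Γ.G (e a)) = C at hS Ci Cl
  have e1 : W + dv k (Γ.w j) - C - pt (Γ.G i) - pt (Γ.G l) =
      W - ∑ b, pt (Γ.G b) + pt (Γ.G j) + dv k (Γ.w j) := by rw [hS]; abel
  have nm : ∀ a, C (Γ.G a) = 0 → Γ.w a / Γ.w j ∉ LS (W + dv k (Γ.w j) - C - pt (Γ.G a)) :=
    fun a ha hz => by
      have h1 := (mem_LS' (dn a)).1 hz (Γ.G a)
      have h2 := o1 a
      simp only [Finsupp.add_apply, Finsupp.sub_apply, dv_apply, Finsupp.single_eq_same,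
        Finsupp.zero_apply, ha, ord_div _ (Γ.ne a) (Γ.ne j)] at h1
      omega
  refine ⟨⟨W + dv k (Γ.w j) - C, fun a => Γ.G (e a), Γ.G i, Γ.G l, Γ.w i / Γ.w j, Γ.w l / Γ.w j,
    by rw [hC', sub_add_cancel]; exact hW.add_dv (Γ.ne j), Γ.inj.comp he,
    fun a => Γ.inj.ne (h a).1, fun a => Γ.inj.ne (h a).2.2, Γ.inj.ne hil, ?_, ?_, ?_, nm i Ci, ?_,
    nm l Cl⟩, rfl, rfl, fun _ => rfl, rfl, rfl, fun s => ⟨?_, ?_⟩⟩
  · rw [← sub_nonneg, ← sub_sub, e1, add_comm]
    exact mem j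
  · have h1 := lS_step (W - ∑ b, pt (Γ.G b) + pt (Γ.G j)) (Γ.G j)
    have h2 := lS_ne_zero (Γ.mem j) (Γ.ne j)
    rw [ns j] at h1
    rw [e1, lS_add_dv (Γ.ne j)]
    omega
  · refine (mem_LS' (dn i)).2 ((add_nonneg (mem i) (pt_nonneg (Γ.G j))).trans_eq ?_)
    rw [dv_div (Γ.ne i) (Γ.ne j), hS]
    abel
  · refine (mem_LS' (dn l)).2 ((add_nonneg (mem l) (pt_nonneg (Γ.G j))).trans_eq ?_)
    rw [dv_div (Γ.ne l) (Γ.ne j), hS]
    abel
  · have := o2 s i hij
    simp only [Finsupp.add_apply, Finsupp.sub_apply, dv_apply, Ci]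
    omega
  · have := o2 s l hjl.symm
    simp only [Finsupp.add_apply, Finsupp.sub_apply, dv_apply, Cl]
    omega

end

section

theorem p_AVF :
    S_AVF := by
  intro F k ι _ _ _ _ _ Δ hc h0
  have h := Submodule.iUnion_ssubset_of_forall_ne_top_of_card_lt (K := F) (Finset.univ : Finset Δ)
    (fun δ => LinearMap.ker (Fintype.linearCombination F δ.1)) (fun δ e => h0 δ.1 δ.2 <|
      funext fun i => by
        have : Pi.single i 1 ∈ LinearMap.ker (Fintype.linearCombination F δ.1) :=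
          e ▸ Submodule.mem_top
        simpa using this)
    (by simpa [ENat.card_eq_coe_fintype_card] using hc)
  obtain ⟨y, -, hy⟩ := Set.exists_of_ssubset h
  refine ⟨y, fun δ hδ e => hy (Set.mem_biUnion (Finset.mem_univ ⟨δ, hδ⟩) ?_)⟩
  simpa only [SetLike.mem_coe, LinearMap.mem_ker, Fintype.linearCombination_apply,
    Algebra.smul_def] using e

end

section

lemma des_basis {k V : Type} [Field k] [AddCommGroup V] [Module k V] [FiniteDimensional k V]
    {S : Set V} (h : Submodule.span k S = ⊤) : ∃ b : Basis (Fin (finrank k V)) k V, ∀ i, b i ∈ S := by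
  obtain ⟨s, s1, s2, s3⟩ := exists_linearIndependent k S
  let b : Basis s k V := Basis.mk s3 (by rw [Subtype.range_coe, s2, h])
  refine ⟨b.reindex (b.indexEquiv (finBasis k V)), fun i => ?_⟩
  rw [Basis.reindex_apply, Basis.mk_apply]
  exact s1 (Subtype.prop _)

theorem p_DES :
    S_DES := by
  intro F _ _ g C D hD
  have := rr_fd D
  let θ : LS D →ₛₗ[(C.σ.s0 : Kb F →+* Kb F)] LS D :=
    { toFun z := ⟨C.σ.s z, (congrArg (fun A => C.σ.s z ∈ LS A) (Cv.mem_D0.1 hD)).mp
        (C.σ.mem_LS_dm.2 z.2)⟩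
      map_add' a b := Subtype.ext (by simp)
      map_smul' c a := Subtype.ext (by simp [Algebra.smul_def, C.σ.h]) }
  obtain ⟨b, hb⟩ := des_basis (R.span_fixed C.fr.1 C.fr.2.2 θ
    fun a b e => Subtype.ext (C.σ.s.injective (congrArg Subtype.val e)))
  have e : ∀ z : LS D, z.1 = ∑ i, b.repr z i • (b i).1 := fun z =>
    (congrArg Subtype.val (b.sum_repr z)).symm.trans (Submodule.coe_sum _ _ _)
  refine ⟨fun i => b i, fun i => ⟨congrArg Subtype.val (hb i), (b i).2⟩,
    b.linearIndependent.map' (LS D).subtype (LS D).ker_subtype,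
    fun z hz => ⟨_, e ⟨z, hz⟩⟩, fun z hz h0 => ?_⟩
  have h1 : ∑ i, b.repr ⟨z, hz⟩ i ^ Fintype.card F • b i = ⟨z, hz⟩ := by
    have h2 : θ ⟨z, hz⟩ = ⟨z, hz⟩ := Subtype.ext h0
    rw [← h2]
    conv_rhs => rw [← b.sum_repr ⟨z, hz⟩, map_sum]
    exact Finset.sum_congr rfl fun i _ => by
      rw [h2, map_smulₛₗ, show θ (b i) = b i from hb i]
      exact congrArg (· • b i) (C.fr.2.2 _).symm
  choose c hc using fun i => mem_range_iff.1
    ((congrFun (b.repr_sum_self _) i).symm.trans (congrArg (b.repr · i) h1))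
  exact ⟨c, (e ⟨z, hz⟩).trans (Finset.sum_congr rfl fun i _ => by
    rw [Cv.c_apply, hc, Algebra.smul_def])⟩

end

section

lemma avd_dual {k E : Type} [Field k] [AddCommGroup E] [Module k E] {V U : Submodule k E}
    (h : ¬ V ≤ U) : ∃ l : Module.Dual k E, (∀ z ∈ U, l z = 0) ∧ ∃ z ∈ V, l z ≠ 0 := by
  obtain ⟨z, h1, h2⟩ := SetLike.not_le_iff_exists.1 h
  obtain ⟨l, a, b⟩ := Submodule.exists_dual_map_eq_bot_of_notMem h2 inferInstance
  exact ⟨l, fun w hw => (Submodule.eq_bot_iff _).1 b _ ⟨w, hw, rfl⟩, z, h1, a⟩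

theorem p_AVD (hAVF : S_AVF) (hDES : S_DES) :
    S_AVD := by
  intro F _ _ g C D hD ι s U hs hU
  obtain ⟨b, b1, -, b2, -⟩ := hDES F g C D hD
  choose l l1 l2 using fun i : s => avd_dual (hU i i.2)
  obtain ⟨y, hy⟩ := hAVF F (Kb F) (Fin (lS D)) (Finset.univ.image fun (i : s) j => l i (b j))
    (Finset.card_image_le.trans_lt (by simpa using hs)) (fun δ hδ e => by
      obtain ⟨i, -, rfl⟩ := Finset.mem_image.1 hδ
      obtain ⟨z, z1, z2⟩ := l2 i
      obtain ⟨c, rfl⟩ := b2 z z1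
      refine z2 ?_
      rw [map_sum]
      exact Finset.sum_eq_zero fun j _ => by
        rw [map_smul, show l i (b j) = 0 from congrFun e j, smul_zero])
  refine ⟨∑ j, algebraMap F (Kb F) (y j) • b j,
    sum_mem fun j _ => Submodule.smul_mem _ _ (b1 j).2, sum_mem fun j _ => ?_, fun i hi e => ?_⟩
  · rw [Algebra.smul_def]
    exact mul_mem (Cv.c_mem (y j)) (b1 j).1
  · refine hy _ (Finset.mem_image.2 ⟨⟨i, hi⟩, Finset.mem_univ _, rfl⟩) ?_
    have := l1 ⟨i, hi⟩ _ e
    rw [map_sum] at this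
    simpa only [map_smul, smul_eq_mul] using this

end

section

lemma uni_pole (hAVD : S_AVD) {F : Type} [Field F] [Fintype F] {g : ℕ} (C : Cv F g) {P : C.Pl}
    (hP : C.Rat P) {n : ℕ} (hn : 2 * g ≤ n) :
    ∃ f ∈ C.E0, P.v f = exp (n : ℤ) ∧ Bd (Kb F) n f := by
  have h1 : deg (n • pt P) = n := by rw [map_nsmul, deg_single, nsmul_one]
  have h2 : deg (n • pt P - pt P) = n - 1 := by rw [map_sub, h1, deg_single]
  have h3 := C.can.big (D := n • pt P) (by omega)
  have h4 := C.can.big (D := n • pt P - pt P) (by omega)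
  obtain ⟨z, z1, z2⟩ := exists_of_lS_lt (D := n • pt P - pt P) (D' := n • pt P) (by omega)
  obtain ⟨f, f1, f2, f3⟩ := hAVD F g C (n • pt P) (nsmul_mem hP.pt_mem n) Unit {()}
    (fun _ => LS (n • pt P - pt P)) Fintype.one_lt_card fun _ _ e => z2 (e z1)
  have e : (n • pt P) P = n := by simp
  refine ⟨f, f2, le_antisymm (e ▸ mem_LS.1 f1 P) (not_lt.1 fun h => ?_),
    Bd.of_mem (nsmul_nonneg (pt_nonneg P) n) h1.le f1⟩
  exact f3 () (Finset.mem_singleton_self _) (mem_LS_sub_pt.2 ⟨f1, by rwa [e]⟩)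

theorem p_UNI (hAVD : S_AVD) :
    S_UNI := by
  intro F _ _ g C P hP
  refine ⟨?_, fun t ht h1 f hf => ?_⟩
  · obtain ⟨a, a1, a2, a3⟩ := uni_pole hAVD C hP (n := 2 * g) le_rfl
    obtain ⟨b, b1, b2, b3⟩ := uni_pole hAVD C hP (n := 2 * g + 1) (by omega)
    have e : P.v (a / b) = exp (-1) := by
      rw [map_div₀, a2, b2, ← exp_sub]
      congr 1
      push_cast
      ring
    refine ⟨a / b, div_mem a1 b1, (ord_eq_iff fun h => ?_).2 e, (a3.div b3).mono (by omega)⟩
    rw [h, map_zero] at e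
    exact exp_ne_zero e.symm
  · have t0 : t ≠ 0 := ne_zero_of_ord (by rw [h1]; exact one_ne_zero)
    have tv : P.v t = exp (-1) := (ord_eq_iff t0).1 h1
    have key : ∀ z ∈ C.O P, P.v (z - C.c (C.vl P z)) < 1 := fun z hz => by
      rw [Cv.c_apply, Cv.vl_spec hP hz.1]
      exact ev_spec hz.2
    have h2 := key f hf
    have h3 : (f - C.c (C.vl P f)) / t ∈ C.O P := by
      refine ⟨C.E0.div_mem (C.E0.sub_mem hf.1 (Cv.c_mem _)) ht, ?_⟩
      change P.v _ ≤ 1
      rw [map_div₀, tv, div_le_one₀ exp_pos]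
      exact (lt_exp_iff_le (n := 0)).1 h2
    refine ⟨C.vl P f, C.vl P ((f - C.c (C.vl P f)) / t), ?_⟩
    have h4 := mul_lt_mul_of_pos_right (key _ h3) (exp_pos (a := (-1 : ℤ)))
    rwa [one_mul, ← tv, ← map_mul, sub_mul, div_mul_cancel₀ _ t0, tv] at h4

end

section

lemma exp_abs {R F : Type} [CommRing R] [CommRing F] (c : F →+* R) (v : R →+* F)
    (hc : ∀ a, v (c a) = a) (t : R) (ht : v t = 0) (h0 : ∀ x y, t * x = t * y → x = y)
    (hd : ∀ f, ∃ x, f = c (v f) + t * x) :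
    ∃ e : R →+* F⟦X⟧, e t = PowerSeries.X ∧ (∀ a, e (c a) = PowerSeries.C a) ∧
      ∀ f, PowerSeries.coeff 0 (e f) = v f := by
  choose it hit using hd
  have u : ∀ f a x, f = c a + t * x → it f = x := fun f a x h => by
    have h1 : v f = a := by rw [h, map_add, map_mul, hc, ht, zero_mul, add_zero]
    have h2 := hit f
    rw [h1] at h2
    exact h0 _ _ (add_left_cancel (h2.symm.trans h))
  let e : R → F⟦X⟧ := fun f => PowerSeries.mk fun n => v (it^[n] f)
  have e0 : ∀ f, PowerSeries.coeff 0 (e f) = v f := fun f => PowerSeries.coeff_mk _ _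
  have e1 : ∀ n f, PowerSeries.coeff (n + 1) (e f) = PowerSeries.coeff n (e (it f)) := fun n f => by
    simp only [e, PowerSeries.coeff_mk, Function.iterate_succ_apply]
  have e2 : ∀ f, e f = PowerSeries.C (v f) + PowerSeries.X * e (it f) := fun f => by
    ext (_ | n)
    · rw [e0, map_add, PowerSeries.coeff_zero_X_mul, add_zero, PowerSeries.coeff_zero_C]
    · rw [e1, map_add, PowerSeries.coeff_succ_X_mul, PowerSeries.coeff_succ_C, zero_add]
  have a1 : ∀ n f f', PowerSeries.coeff n (e (f + f')) = PowerSeries.coeff n (e f + e f') := by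
    intro n
    induction n with
    | zero => intro f f'; rw [map_add, e0, e0, e0, map_add]
    | succ n ih =>
      intro f f'
      rw [map_add, e1, e1, e1, u (f + f') (v f + v f') (it f + it f')
        (by rw [map_add]; linear_combination hit f + hit f'), ih, map_add]
  have a2 : ∀ a n f, PowerSeries.coeff n (e (c a * f)) = a * PowerSeries.coeff n (e f) := by
    intro a n
    induction n with
    | zero => intro f; rw [e0, e0, map_mul, hc]
    | succ n ih =>
      intro f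
      rw [e1, e1, u (c a * f) (a * v f) (c a * it f)
        (by rw [map_mul]; linear_combination c a * hit f), ih]
  have a3 : ∀ n f f', PowerSeries.coeff n (e (f * f')) = PowerSeries.coeff n (e f * e f') := by
    intro n
    induction n with
    | zero =>
      intro f f'
      rw [PowerSeries.coeff_zero_eq_constantCoeff, map_mul, ← PowerSeries.coeff_zero_eq_constantCoeff,
        e0, e0, e0, map_mul]
    | succ n ih =>
      intro f f'
      rw [e1, u (f * f') (v f * v f') (c (v f) * it f' + it f * f')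
        (by rw [map_mul]; linear_combination f' * hit f + c (v f) * hit f'), a1, map_add, a2, ih,
        e2 f, add_mul, map_add, PowerSeries.coeff_C_mul, mul_assoc, PowerSeries.coeff_succ_X_mul, e1]
  have z : e 0 = 0 := by
    ext n
    simpa using a2 0 n 0
  have k : ∀ a, e (c a) = PowerSeries.C a := fun a => by
    rw [e2, hc, u (c a) a 0 (by simp), z, mul_zero, add_zero]
  have o : e 1 = 1 := by simpa using k 1
  refine ⟨⟨⟨⟨e, o⟩, fun f f' => PowerSeries.ext fun n => a3 n f f'⟩, z,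
    fun f f' => PowerSeries.ext fun n => a1 n f f'⟩, ?_, k, e0⟩
  change e t = _
  rw [e2, ht, u t 0 1 (by simp), o]
  simp

theorem p_EXP :
    S_EXP := by
  intro F _ _ g C P t hP ht
  have t0 : t.1 ≠ 0 := ne_zero_of_ord (by rw [ht]; exact one_ne_zero)
  have t1 : P.v t.1 = exp (-1) := (ord_eq_iff t0).1 ht
  have dv : ∀ (f : C.O P) (n : ℕ), P.v f.1 < exp (1 - (n : ℤ)) → ∃ x : C.O P, f = t ^ n * x := by
    intro f n h
    refine ⟨⟨f.1 / t.1 ^ n, C.E0.div_mem f.2.1 (C.E0.pow_mem t.2.1 n), ?_⟩, Subtype.ext ?_⟩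
    · change P.v _ ≤ 1
      rw [map_div₀, map_pow, t1, ← exp_nsmul, div_le_one₀ exp_pos]
      simpa using lt_exp_iff_le.1 h
    · change f.1 = t.1 ^ n * (f.1 / t.1 ^ n)
      field_simp
  let c : F →+* C.O P := C.c.codRestrict _ (Cv.c_mem_O P)
  have hc : ∀ a, Cv.vh hP (c a) = a := fun a => Cv.vl_c P a
  obtain ⟨e, h1, h2, h3⟩ := exp_abs c (Cv.vh hP) hc t
    ((Cv.vl_eq_zero hP t.2).2 (by rw [t1, ← exp_zero, exp_lt_exp]; omega))
    (fun x y h => mul_left_cancel₀ (fun e => t0 (congrArg Subtype.val e)) h) (fun f => by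
      obtain ⟨x, hx⟩ := dv (f - c (Cv.vh hP f)) 1 (by
        have : Cv.vh hP (f - c (Cv.vh hP f)) = 0 := by rw [map_sub, hc, sub_self]
        simpa using (Cv.vl_eq_zero hP (f - c (Cv.vh hP f)).2).1 this)
      exact ⟨x, by linear_combination hx⟩)
  refine ⟨e, h1, h2, h3, fun f a0 a1 h => ?_⟩
  obtain ⟨x, hx⟩ := dv (f - c a0 - c a1 * t) 2 h
  have : e f = PowerSeries.C a0 +
      PowerSeries.X * (PowerSeries.C a1 + PowerSeries.X * e x) := by
    have := congrArg e hx
    rw [map_sub, map_sub, map_mul, map_mul, map_pow, h1, h2, h2] at this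
    linear_combination this
  rw [this]
  constructor
  · rw [map_add, PowerSeries.coeff_zero_X_mul, add_zero, PowerSeries.coeff_zero_C]
  · rw [map_add, PowerSeries.coeff_succ_X_mul, PowerSeries.coeff_succ_C, zero_add, map_add,
      PowerSeries.coeff_zero_X_mul, add_zero, PowerSeries.coeff_zero_C]

end

end Pool.Agent.P.MP_9344a7_nt.Gt
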