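import Pool.Agent.P.MP_9344a7_nt.Gt.Iface

/-! Steps ENC. -/

set_option linter.unusedSectionVars false
set_option linter.unusedVariables false

namespace Pool.Agent.P.MP_9344a7_nt.Gt

open WithZero Module
open Pool.Agent.P.MP_6f117a_ag (Place FF)
open Pool.Agent.P.MP_ab3ecb_nt.Inv
open Pool.Agent.P.MP_9344a7_nt.R (Fr rr_fd)
open Pool.Agent.P.MP_9344a7_nt.Tor (Prd ExF IsUP AL)
open scoped Classical PowerSeries IntermediateField Polynomial Polynomial.Bivariate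

section

section geo

variable {k E : Type} [Field k] [Field E] [Algebra k E] [IsAlgClosed k] [FF k E] {P Q : Place k E}
  {D W : Dv k E} {g : ℕ} {z : E}

lemma enc_smul (c : k) (h : P.v z ≤ 1) : P.v (c • z) ≤ 1 ∧ ev P (c • z) = c * ev P z := by
  rw [Algebra.smul_def, ev_mul (P.triv c) h, ev_const, map_mul]
  exact ⟨mul_le_one' (P.triv c) h, rfl⟩

lemma enc_sum {ι : Type} (s : Finset ι) (c : ι → k) {x : ι → E} (h : ∀ i, P.v (x i) ≤ 1) :
    P.v (∑ i ∈ s, c i • x i) ≤ 1 ∧ ev P (∑ i ∈ s, c i • x i) = ∑ i ∈ s, c i * ev P (x i) := by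
  induction s using Finset.cons_induction with
  | empty => simp
  | cons a s ha ih =>
    have := enc_smul (c a) (h a)
    rw [Finset.sum_cons, Finset.sum_cons, ev_add this.1 ih.1, this.2, ih.2]
    exact ⟨P.v.map_add_le this.1 ih.1, rfl⟩

lemma enc_free (h : Can g W) (hd : 2 * (g : ℤ) ≤ deg D) (P : Place k E) :
    ¬ LS D ≤ LS (D - pt P) := fun e => by
  have := rr_fd (D - pt P)
  have h1 : lS D ≤ lS (D - pt P) := Submodule.finrank_mono e
  have h2 := h.big (D := D) (by omega)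
  have h4 : deg (D - pt P) = deg D - 1 := by rw [map_sub, deg_single]
  have h3 := h.big (D := D - pt P) (by omega)
  omega

lemma enc_exact (h : z ∈ LS D) (h' : z ∉ LS (D - pt P)) : P.v z = exp (D P) :=
  le_antisymm (mem_LS.1 h P) (not_lt.1 fun e => h' (mem_LS_sub_pt.2 ⟨h, e⟩))

/-- The sections with the same value at two points. -/
def encEq (hP : D P = 0) (hQ : D Q = 0) : Submodule k E where
  carrier := {z | z ∈ LS D ∧ ev P z = ev Q z}
  add_mem' a b := ⟨add_mem a.1 b.1, by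
    rw [ev_add (le_one_of_LS a.1 hP.le) (le_one_of_LS b.1 hP.le),
      ev_add (le_one_of_LS a.1 hQ.le) (le_one_of_LS b.1 hQ.le), a.2, b.2]⟩
  zero_mem' := ⟨zero_mem _, by simp⟩
  smul_mem' c _ a := ⟨Submodule.smul_mem _ c a.1, by
    rw [(enc_smul c (le_one_of_LS a.1 hP.le)).2, (enc_smul c (le_one_of_LS a.1 hQ.le)).2, a.2]⟩

end geo

section fin

variable {F : Type} [Field F] [Fintype F] {g : ℕ} {C : Cv F g}

lemma enc_pol {n : ℕ} {z : C.E} (h0 : z ∈ C.E0) (h : Bd (Kb F) n z) :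
    ∃ A ∈ C.D0, 0 ≤ A ∧ deg A ≤ n ∧ z ∈ LS A ∧ ∀ P : C.Pl, P.v z ≤ 1 → A P = 0 := by
  obtain ⟨H, a, b, c⟩ := h
  rcases eq_or_ne z 0 with rfl | e
  · exact ⟨0, zero_mem _, le_rfl, by simp, zero_mem _, fun _ _ => rfl⟩
  refine ⟨-dv (Kb F) z ⊔ 0, R.dm_eq.2 fun P => ?_, le_sup_right, (deg_mono (sup_le ?_ a)).trans b,
    (mem_LS' e).2 (neg_le_iff_add_nonneg'.1 le_sup_left), fun P hP => ?_⟩
  · rw [Finsupp.sup_apply, Finsupp.sup_apply, Finsupp.neg_apply, Finsupp.neg_apply,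
      Cv.D0_apply (Cv.dv_mem h0)]
    rfl
  · exact neg_le_iff_add_nonneg'.2 ((mem_LS' e).1 c)
  · rw [Finsupp.sup_apply, Finsupp.neg_apply, dv_apply]
    exact sup_eq_right.2 (neg_nonpos.2 ((le_one_iff e).1 hP))

lemma enc_basis (hDES : S_DES) {D : Dv (Kb F) C.E} (h : D ∈ C.D0) {M : ℕ}
    (h1 : 2 * (g : ℤ) - 1 ≤ deg D) (h2 : (M : ℤ) = deg D + 1 - g) :
    ∃ b : Fin M → C.E, (∀ i, b i ∈ C.E0 ∧ b i ∈ LS D) ∧ LinearIndependent (Kb F) b ∧
      (∀ z ∈ LS D, ∃ c : Fin M → Kb F, z = ∑ i, c i • b i) ∧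
      ∀ z ∈ LS D, z ∈ C.E0 → ∃ c : Fin M → F, z = ∑ i, C.c (c i) * b i := by
  obtain rfl : lS D = M := by exact_mod_cast (C.can.big h1).trans h2.symm
  exact hDES F g C D h

lemma enc_H (hAVD : S_AVD) {β : Type} [Fintype β] {α : β → C.Pl} (a0 : β) (h0 : C.Rat (α a0))
    (hq : Fintype.card β < Fintype.card F) {N : ℕ} (hN : 2 * g ≤ N) :
    ∃ H ∈ C.D0, 0 ≤ H ∧ deg H = N ∧ ∀ a, H (α a) = 0 := by
  have h1 : deg (N • pt (α a0)) = N := by rw [map_nsmul, deg_single, nsmul_one]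
  obtain ⟨z, z1, z2, z3⟩ := hAVD F g C _ (nsmul_mem h0.pt_mem N) β Finset.univ
    (fun a => LS (N • pt (α a0) - pt (α a))) hq fun a _ => enc_free C.can (by omega) _
  have z0 : z ≠ 0 := fun e => z3 a0 (Finset.mem_univ _) (by rw [e]; exact zero_mem _)
  refine ⟨dv (Kb F) z + N • pt (α a0), add_mem (Cv.dv_mem z2) (nsmul_mem h0.pt_mem N),
    (mem_LS' z0).1 z1, by rw [map_add, deg_dv, zero_add, h1], fun a => ?_⟩
  rw [Finsupp.add_apply, dv_apply, ord_of_v (enc_exact z1 (z3 a (Finset.mem_univ _))),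
    neg_add_cancel]

lemma enc_d (hAVD : S_AVD) {φ : Type} [Fintype φ] {n : ℕ} {H : Dv (Kb F) C.E} (hH : H ∈ C.D0)
    (hd : n * (1 + Fintype.card φ) + 2 * (g : ℤ) ≤ deg H) {P : C.Pl} (hP : H P = 0) {t : C.E}
    {f : φ → C.E} (ht : t ∈ C.O P) (hf : ∀ i, f i ∈ C.O P) (bt : Bd (Kb F) n t)
    (bf : ∀ i, Bd (Kb F) n (f i)) :
    ∃ d ∈ C.E0, P.v d = 1 ∧ d ∈ LS H ∧ d * t ∈ LS H ∧ ∀ i, d * f i ∈ LS H := by
  obtain ⟨A, a1, a2, a3, a4, a5⟩ := enc_pol ht.1 bt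
  choose B b1 b2 b3 b4 b5 using fun i => enc_pol (hf i).1 (bf i)
  have h1 : 0 ≤ ∑ i, B i := Finset.sum_nonneg fun i _ => b2 i
  have h2 : deg (∑ i, B i) ≤ Fintype.card φ * n := by
    rw [map_sum]
    simpa using Finset.sum_le_card_nsmul Finset.univ _ _ fun i _ => b3 i
  obtain ⟨d, d1, d2, d3⟩ := hAVD F g C _ (sub_mem hH (add_mem a1 (sum_mem fun i _ => b1 i))) Unit
    Finset.univ (fun _ => LS (H - (A + ∑ i, B i) - pt P)) Fintype.one_lt_card fun _ _ =>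
    enc_free C.can (by rw [map_sub, map_add]; linarith) _
  have key : ∀ {z A'}, z ∈ LS A' → A' ≤ A + ∑ i, B i → d * z ∈ LS H := fun hz h => by
    simpa using mul_mem_LS d1 (LS_mono h hz)
  refine ⟨d, d2, ?_, LS_mono (sub_le_self _ (add_nonneg a2 h1)) d1,
    key a4 (le_add_of_nonneg_right h1), fun i => key (b4 i) ((Finset.single_le_sum
      (fun i _ => b2 i) (Finset.mem_univ i)).trans (le_add_of_nonneg_left a2))⟩
  rw [enc_exact d1 (d3 () (Finset.mem_univ _)), Finsupp.sub_apply, Finsupp.add_apply,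
    Finsupp.finsetSum_apply, hP, a5 P ht.2, Finset.sum_eq_zero fun i _ => b5 i P (hf i).2]
  rfl

lemma enc_w (hBPF : S_BPF) (hAVD : S_AVD) {β : Type} [Fintype β] {α : β → C.Pl}
    (hq : Fintype.card β * Fintype.card β < Fintype.card F) {H : Dv (Kb F) C.E} (hH : H ∈ C.D0)
    (h0 : 0 ≤ H) (hd : 2 * (g : ℤ) + 1 ≤ deg H) (hα : ∀ a, H (α a) = 0) :
    ∃ w ∈ LS H, w ∈ C.E0 ∧ ∀ a a', α a ≠ α a' → ev (α a) w ≠ ev (α a') w := by
  obtain ⟨w, w1, w2, w3⟩ := hAVD F g C H hH (β × β) (Finset.univ.filter fun p => α p.1 ≠ α p.2)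
    (fun p => encEq (hα p.1) (hα p.2))
    ((Finset.card_le_univ _).trans_lt (by rwa [Fintype.card_prod])) fun p hp e =>
    (Finset.mem_filter.1 hp).2
      ((hBPF _ _ g C.W H C.can h0 hd).1 _ _ (hα _) (hα _) fun a ha => (e ha).2)
  exact ⟨w, w1, w2, fun a a' h e => w3 (a, a') (Finset.mem_filter.2 ⟨Finset.mem_univ _, h⟩) ⟨w1, e⟩⟩

lemma enc_val {M : ℕ} {P : C.Pl} (hP : C.Rat P) {b : Fin M → C.E} (hb : ∀ i, b i ∈ C.O P)
    (c : Fin M → F) : C.vl P (∑ i, C.c (c i) * b i) = ∑ i, c i * C.vl P (b i) := by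
  rw [Cv.vl_sum hP _ fun i => mul_mem (Cv.c_mem_O P _) (hb i)]
  exact Finset.sum_congr rfl fun i _ => by rw [Cv.vl_mul hP (Cv.c_mem_O P _) (hb i), Cv.vl_c]

lemma enc_lam {M : ℕ} {b : Fin M → C.E} (hb : LinearIndependent (Kb F) b) (l : Fin M → F) :
    ∃ lam : C.E →ₗ[Kb F] Kb F, ∀ c : Fin M → F,
      lam (∑ i, C.c (c i) * b i) = algebraMap F (Kb F) (∑ i, c i * l i) := by
  obtain ⟨lam, h⟩ := ((Basis.span hb).constr (Kb F) fun i => algebraMap F (Kb F) (l i)).exists_extend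
  have h1 : ∀ i, lam (b i) = algebraMap F (Kb F) (l i) := fun i => by
    have := DFunLike.congr_fun h (Basis.span hb i)
    rwa [Basis.constr_basis, LinearMap.comp_apply, Submodule.subtype_apply, Basis.span_apply] at this
  refine ⟨lam, fun c => ?_⟩
  rw [map_sum, map_sum]
  exact Finset.sum_congr rfl fun i _ => by
    rw [Cv.c_apply, ← Algebra.smul_def, map_smul, h1, smul_eq_mul, map_mul]

lemma enc_att {P : C.Pl} (hP : C.Rat P) {d t : C.E} (hd : d ∈ C.O P) (h0 : C.vl P d ≠ 0)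
    (ht : t ∈ C.E0) (h1 : P.v (d * t) ≤ 1) {x : F} (hx : C.vl P d * x = C.vl P (d * t)) :
    P.v t ≤ 1 ∧ C.vl P t = x := by
  have h2 : P.v d = 1 := le_antisymm hd.2 (not_lt.1 (mt (Cv.vl_eq_zero hP hd).2 h0))
  rw [map_mul, h2, one_mul] at h1
  rw [Cv.vl_mul hP hd ⟨ht, h1⟩] at hx
  exact ⟨h1, (mul_left_cancel₀ h0 hx).symm⟩

end fin

theorem p_ENC (hBPF : S_BPF) (hDES : S_DES) (hAVD : S_AVD) :
    S_ENC := by
  intro g n β φ _ _
  have := Fintype.ofFinite β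
  have := Fintype.ofFinite φ
  obtain ⟨N, hN⟩ : ∃ N, N = n * (1 + Fintype.card φ) + 2 * g + 1 := ⟨_, rfl⟩
  refine ⟨3 * N + 1 - g, N + 1 - g, 2 * N + 1 - g,
    Fintype.card β * Fintype.card β + Fintype.card β + 1, ?_⟩
  rintro F _ _ C α t f a0 a1 hq ⟨s0⟩ L
  obtain ⟨H, H1, H2, H3, H4⟩ := enc_H hAVD s0 (L.rat s0) (by omega) (N := N) (by omega)
  have H5 : 2 * (g : ℤ) + 1 ≤ deg H := by omega
  have hs : ∀ m : ℕ, deg (m • H) = m * N := fun m => by rw [map_nsmul, H3, nsmul_eq_mul]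
  have h2 := hs 2
  have h3 := hs 3
  obtain ⟨A, A1, -, A2, -⟩ := enc_basis hDES H1 (M := N + 1 - g) (by omega) (by omega)
  obtain ⟨B, B1, -, B2, -⟩ := enc_basis hDES (nsmul_mem H1 2) (M := 2 * N + 1 - g) (by omega)
    (by omega)
  obtain ⟨b, b1, b2, -, b3⟩ := enc_basis hDES (nsmul_mem H1 3) (M := 3 * N + 1 - g) (by omega)
    (by omega)
  have tO : ∀ a, t a ∈ C.O (α a) := fun a => ⟨L.t0 a, (le_one_iff (ne_zero_of_ord (by
    rw [L.t1]; exact one_ne_zero))).2 (by rw [L.t1]; exact zero_le_one)⟩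
  choose d d1 d2 d3 d4 d5 using fun a => enc_d hAVD H1 (by rw [H3, hN]; push_cast; omega) (H4 a)
    (tO a) (L.f0 a) (L.tb a) (L.fb a)
  obtain ⟨w, w1, w2, w3⟩ := enc_w hBPF hAVD (by omega) H1 H2 H5 H4
  let el : Jn (N + 1 - g) (2 * N + 1 - g) β φ → C.E := fun
    | .a i => A i
    | .b j => B j
    | .ab i j => A i * B j
    | .one => 1
    | .d a => d a
    | .dt a => d a * t a
    | .df a i => d a * f a i
    | .w => w
  have m1 : LS H ≤ LS (3 • H) := LS_mono (le_self_nsmul H2 (by omega))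
  have hel : ∀ j, el j ∈ LS (3 • H) ∧ el j ∈ C.E0 := fun
    | .a i => ⟨m1 (A1 i).2, (A1 i).1⟩
    | .b j => ⟨LS_mono (nsmul_le_nsmul_left H2 (by omega)) (B1 j).2, (B1 j).1⟩
    | .ab i j => ⟨by rw [succ_nsmul']; exact mul_mem_LS (A1 i).2 (B1 j).2,
        mul_mem (A1 i).1 (B1 j).1⟩
    | .one => ⟨one_mem_LS.2 (nsmul_nonneg H2 3), one_mem _⟩
    | .d a => ⟨m1 (d3 a), d1 a⟩
    | .dt a => ⟨m1 (d4 a), mul_mem (d1 a) (L.t0 a)⟩
    | .df a i => ⟨m1 (d5 a i), mul_mem (d1 a) (L.f0 a i).1⟩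
    | .w => ⟨m1 w1, w2⟩
  choose co hco using fun j => b3 _ (hel j).1 (hel j).2
  have e1 : ∀ j, lin (fun j i => C.c (co j i)) b j = el j := fun j => (hco j).symm
  have bO : ∀ a i, b i ∈ C.O (α a) := fun a i =>
    ⟨(b1 i).1, le_one_of_LS (b1 i).2 (by rw [Finsupp.smul_apply, H4, smul_zero])⟩
  have e2 : ∀ a j, lin co (fun i => C.vl (α a) (b i)) j = C.vl (α a) (el j) := fun a j => by
    rw [hco j, enc_val (L.rat a) (bO a)]
    rfl
  have un : ∀ P Q : C.Pl, H P = 0 → H Q = 0 → (∀ i, ev P (A i) = ev Q (A i)) → P = Q :=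
    fun P Q hP hQ h => (hBPF _ _ g C.W H C.can H2 H5).1 P Q hP hQ fun z hz => by
      obtain ⟨c, rfl⟩ := A2 z hz
      rw [(enc_sum _ c fun i => le_one_of_LS (A1 i).2 hP.le).2,
        (enc_sum _ c fun i => le_one_of_LS (A1 i).2 hQ.le).2]
      exact Finset.sum_congr rfl fun i _ => by rw [h]
  let Q : (Fin (3 * N + 1 - g) → F) → C.Pl → Prop := fun l P =>
    H P = 0 ∧ C.Rat P ∧ ∀ j, el j ∈ LS H → lin co l j = C.vl P (el j)
  have ex : ∀ l, Pnt co l → ∃ P, Q l P := fun l hl => by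
    obtain ⟨lam, h⟩ := enc_lam b2 l
    have h1 : ∀ j, lam (el j) = algebraMap F (Kb F) (lin co l j) := fun j => by rw [hco j, h]; rfl
    obtain ⟨P, hP, h4⟩ := (hBPF _ _ g C.W H C.can H2 H5).2 lam
      ((h1 .one).trans (by rw [hl.1, map_one])) fun x hx y hy => by
        obtain ⟨c, rfl⟩ := A2 x hx
        obtain ⟨c', rfl⟩ := B2 y hy
        have h5 : ∀ i j, lam (A i * B j) = lam (A i) * lam (B j) := fun i j =>
          (h1 (.ab i j)).trans (by rw [← hl.2, map_mul, ← h1, ← h1])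
        simp only [Finset.sum_mul_sum, map_sum, smul_mul_smul_comm, map_smul, h5, smul_eq_mul,
          mul_mul_mul_comm]
    refine ⟨P, hP, un _ _ ((Cv.D0_apply H1 P).trans hP) hP fun i => ?_, fun j hj =>
      (Cv.vl_eq ((h4 _ hj).symm.trans (h1 j))).symm⟩
    have h5 := C.σ.ev_pl P (A i)
    rwa [Cv.mem_E0.1 (A1 i).1, C.fr.2.2, mem_range_iff.2
      ⟨_, (h1 (.a i)).symm.trans (h4 _ (A1 i).2)⟩] at h5
  have : Nonempty C.Pl := ⟨α s0⟩
  choose! pl hpl using fun l (h : ∃ P, Q l P) => h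
  refine ⟨b, co, bO, ⟨e1 _, fun i j => by rw [e1, e1, e1]⟩,
    fun a => ⟨by rw [e1, e1], fun i => by rw [e1, e1]⟩, fun a => ?_, fun a a' h => ?_, pl,
    fun a => ?_, fun l l' h h' e => ?_, fun l hl => ?_⟩
  · rw [e2]
    exact mt (Cv.vl_eq_zero (L.rat a) ⟨d1 a, (d2 a).le⟩).1 (d2 a).not_lt
  · rw [e2, e2]
    refine fun e => w3 a a' h ?_
    rw [← Cv.vl_spec (L.rat a) w2, ← Cv.vl_spec (L.rat a') w2]
    exact congrArg _ e
  · obtain ⟨h4, h5, h6⟩ := hpl _ ⟨α a, H4 a, L.rat a, fun j _ => e2 a j⟩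
    refine un _ _ h4 (H4 a) fun i => ?_
    rw [← Cv.vl_spec h5 (A1 i).1, ← Cv.vl_spec (L.rat a) (A1 i).1]
    exact congrArg _ ((h6 (.a i) (A1 i).2).symm.trans (e2 a _))
  · rw [(hpl l (ex l h)).2.2 .w w1, (hpl l' (ex l' h')).2.2 .w w1, e]
  · obtain ⟨h4, h5, h6⟩ := hpl l (ex l hl)
    refine ⟨h5, fun a x v h7 h8 => ?_⟩
    have h9 := h6 (.d a) (d3 a)
    have hd : d a ∈ C.O (pl l) := ⟨d1 a, le_one_of_LS (d3 a) h4.le⟩
    rw [h9] at h7
    exact ⟨enc_att h5 hd h7 (L.t0 a) (le_one_of_LS (d4 a) h4.le)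
      ((congrArg (· * x) h9).symm.trans (h8.1.trans (h6 (.dt a) (d4 a)))), fun i =>
      enc_att h5 hd h7 (L.f0 a i).1 (le_one_of_LS (d5 a i) h4.le)
        ((congrArg (· * v i) h9).symm.trans ((h8.2 i).trans (h6 (.df a i) (d5 a i))))⟩

end

end Pool.Agent.P.MP_9344a7_nt.Gt
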