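import Pool.Agent.P.MP_9344a7_nt.Gt.Iface
import Pool.Agent.P.MP_9344a7_nt.Tor.TLAU

/-! Steps APP, UPC, MT. -/

set_option linter.unusedSectionVars false
set_option linter.unusedVariables false

namespace Pool.Agent.P.MP_9344a7_nt.Gt

open WithZero Module
open Pool.Agent.P.MP_6f117a_ag (Place FF)
open Pool.Agent.P.MP_ab3ecb_nt.Inv
open Pool.Agent.P.MP_9344a7_nt.R (Fr rr_fd)
open Pool.Agent.P.MP_9344a7_nt.Tor (Prd ExF IsUP AL)
open scoped Classical PowerSeries IntermediateField Polynomial Polynomial.Bivariate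

section

section app

open Filter Topology Polynomial
open Pool.Agent.P.MP_9344a7_nt.Tor (ALf tL tA lau_v lau_t lau_ban lau_lt_one lau_cl lau_cst lau_res)

variable {K : Type} [Field K]

lemma app_small {γ : ℤᵐ⁰} (h : γ ≠ 0) : ∃ s : LaurentSeries K, s ≠ 0 ∧ Valued.v s < γ := by
  refine ⟨HahnSeries.single (1 - log γ) 1, HahnSeries.single_ne_zero one_ne_zero, ?_⟩
  rw [LaurentSeries.valuation_single_zpow, ← exp_log h, exp_lt_exp, log_exp]
  omega

lemma app_nhds {x : LaurentSeries K} {V : Set (LaurentSeries K)} :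
    V ∈ 𝓝 x ↔ ∃ γ : ℤᵐ⁰, γ ≠ 0 ∧ ∀ y, Valued.v (y - x) < γ → y ∈ V := by
  rw [Valued.mem_nhds]
  refine ⟨fun ⟨γ, h⟩ => ⟨MonoidWithZeroHom.ValueGroup₀.embedding γ.1, by simp, fun y hy =>
    h ((Valuation.restrict_lt_iff_lt_embedding _).2 hy)⟩, fun ⟨γ, h0, h⟩ => ?_⟩
  obtain ⟨s, s0, hs⟩ := app_small (K := K) h0
  exact ⟨Units.mk0 (Valued.v.restrict s) (by simpa using s0), fun y hy =>
    h y (((Valuation.restrict_lt_iff _).1 hy).trans hs)⟩

lemma app_mem (Q : RatFunc K) : (Q : LaurentSeries K) ∈ ALf K := by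
  have h : ∀ p : K[X], algebraMap K[X] (LaurentSeries K) p ∈ ALf K := fun p => by
    induction p using Polynomial.induction_on' with
    | add p q hp hq => rw [map_add]; exact add_mem hp hq
    | monomial n a =>
      rw [← C_mul_X_pow_eq_monomial, map_mul, map_pow]
      refine mul_mem ?_ (pow_mem ?_ _)
      · convert (ALf K).algebraMap_mem a
        rw [LaurentSeries.algebraMap_apply]
        exact (congrArg (HahnSeries.ofPowerSeries ℤ K) (coe_C a)).trans (PowerSeries.coe_C a)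
      · convert (tA K).2
        exact (congrArg (HahnSeries.ofPowerSeries ℤ K) coe_X).trans PowerSeries.coe_X
  induction Q using RatFunc.induction_on with
  | f p q hq => rw [RatFunc.algebraMap_apply_div]; exact div_mem (h p) (h q)

/-- All coefficients are small. -/
def AppSm (Q : (LaurentSeries K)[X]) : Prop := ∀ n, Valued.v (Q.coeff n) < 1

lemma app_fix {Q : (LaurentSeries K)[X]} (h : AppSm Q) : ∃ u, Valued.v u < 1 ∧ Q.eval u = u := by
  simpa using lau_ban 0 (fun u => Q.eval u) (fun u hu => by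
    rw [sub_zero] at hu ⊢
    rw [eval_eq_sum_range]
    refine Valuation.map_sum_lt _ one_ne_zero fun i _ => ?_
    rw [map_mul, map_pow]
    exact (mul_le_of_le_one_right' (pow_le_one' hu.le i)).trans_lt (h i)) fun u w hu hw => by
    rw [sub_zero] at hu hw
    rw [eval_eq_sum_range, eval_eq_sum_range, ← Finset.sum_sub_distrib]
    refine Valuation.map_sum_le _ fun i _ => ?_
    rw [← mul_sub, ← geom_sum₂_mul, map_mul, map_mul, lau_t]
    refine mul_le_mul' (lau_lt_one (h i)) (mul_le_of_le_one_left' ?_)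
    refine Valuation.map_sum_le _ fun j _ => ?_
    rw [map_mul, map_pow, map_pow]
    exact mul_le_one' (pow_le_one' hu.le _) (pow_le_one' hw.le _)

lemma app_sm_add {P Q : (LaurentSeries K)[X]} (h : AppSm P) (h' : AppSm Q) : AppSm (P + Q) :=
  fun n => by rw [coeff_add]; exact Valuation.map_add_lt _ (h n) (h' n)

lemma app_sm_ev (R : (LaurentSeries K)[X]) : ∀ᶠ c in 𝓝 0, AppSm (C c * R) := by
  have h : ∀ n, ∀ᶠ c in 𝓝 (0 : LaurentSeries K), Valued.v (c * R.coeff n) < 1 := fun n =>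
    (continuous_mul_const (R.coeff n)).continuousAt.eventually (p := fun y => Valued.v y < 1)
      (app_nhds.2 ⟨1, one_ne_zero, fun y hy => by simpa using hy⟩)
  filter_upwards [(eventually_all_finset R.support).2 fun n _ => h n] with c hc n
  rw [coeff_C_mul]
  by_cases hn : n ∈ R.support
  · exact hc n hn
  · simp [notMem_support_iff.1 hn]

variable {A ι : Type} [CommRing A] {𝓕 : Filter ι}

/-- A simple root moves continuously. -/
lemma app_root {e : A →+* LaurentSeries K} {φ : ι → A →+* LaurentSeries K}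
    (h : ∀ a, Tendsto (fun i => φ i a) 𝓕 (𝓝 (e a))) {θ : LaurentSeries K} {Ψ : A[X]}
    (h0 : (Ψ.map e).eval θ = 0) (h1 : (Ψ.map e).derivative.eval θ ≠ 0)
    {V : Set (LaurentSeries K)} (hV : V ∈ 𝓝 θ) : ∀ᶠ i in 𝓕, ∃ y ∈ V, (Ψ.map (φ i)).eval y = 0 := by
  have key : ∀ (k : LaurentSeries K) (R : (LaurentSeries K)[X]) (G : A[X]), ∀ᶠ i in 𝓕,
      AppSm (C k * ((G.map e).comp R - (G.map (φ i)).comp R)) := fun k R G => by
    induction G using Polynomial.induction_on' with
    | add p q hp hq =>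
      filter_upwards [hp, hq] with i a b
      convert app_sm_add a b using 1
      simp only [Polynomial.map_add, add_comp]
      ring
    | monomial n a =>
      have : Tendsto (fun i => k * (e a - φ i a)) 𝓕 (𝓝 0) := by
        simpa using ((h a).const_sub (e a)).const_mul k
      filter_upwards [this.eventually (app_sm_ev (R ^ n))] with i hi
      convert hi using 1
      simp only [Polynomial.map_monomial, monomial_comp, map_mul, map_sub]
      ring
  obtain ⟨P1, e1⟩ := dvd_iff_isRoot.2 h0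
  obtain ⟨P2, e2⟩ := X_sub_C_dvd_sub_C_eval (p := P1) (a := θ)
  have e3 : P1.eval θ ≠ 0 := by simpa [e1] using h1
  generalize P1.eval θ = a at e2 e3
  obtain ⟨γ, g0, hγ⟩ := app_nhds.1 hV
  obtain ⟨γ', g1, hγ'⟩ := app_nhds.1 (app_sm_ev (C (-a⁻¹) * P2.comp (X + C θ)))
  obtain ⟨s, s0, hs⟩ := app_small (K := K) (γ := min 1 (min γ γ')) (by simp [g0, g1])
  simp only [lt_min_iff] at hs
  have h2 : AppSm (X - C (s * a)⁻¹ * (Ψ.map e).comp (C s * X + C θ)) := by
    have h3 : AppSm (C s * (C (-a⁻¹) * P2.comp (X + C θ))) :=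
      hγ' s (by simpa using hs.2.2)
    have h4 : X - C (s * a)⁻¹ * (Ψ.map e).comp (C s * X + C θ) =
        (C s * (C (-a⁻¹) * P2.comp (X + C θ))).comp (C s * X) * X ^ 2 := by
      have h5 : C (s * a)⁻¹ * C s = C a⁻¹ := by
        rw [← C_mul]; congr 1; field_simp
      have h6 : C a⁻¹ * C a = 1 := by rw [← C_mul, inv_mul_cancel₀ e3, C_1]
      rw [e1, eq_add_of_sub_eq e2]
      simp only [mul_comp, add_comp, sub_comp, X_comp, C_comp, comp_assoc, map_neg, neg_comp]
      linear_combination (-X * (C s * X * P2.comp (C s * X + C θ) + C a)) * h5 -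
        X * h6
    intro n
    rw [h4, coeff_mul_X_pow']
    split_ifs
    · rw [comp_C_mul_X_coeff, map_mul, map_pow]
      exact (mul_le_of_le_one_right' (pow_le_one' hs.1.le _)).trans_lt (h3 _)
    · simp
  filter_upwards [key (s * a)⁻¹ (C s * X + C θ) Ψ] with i hi
  obtain ⟨u, u1, u2⟩ := app_fix (app_sm_add h2 hi)
  refine ⟨s * u + θ, hγ _ ?_, ?_⟩
  · rw [add_sub_cancel_right, map_mul]
    exact (mul_le_of_le_one_right' u1.le).trans_lt hs.2.1
  · simp only [eval_add, eval_sub, eval_mul, eval_X, eval_C, eval_comp] at u2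
    exact (mul_eq_zero.1 (by linear_combination -u2)).resolve_left
      (inv_ne_zero (mul_ne_zero s0 e3))

variable [Algebra K A]

/-- The homomorphism is a limit of homomorphisms with algebraic values. -/
def AppAx (e : A →ₐ[K] LaurentSeries K) : Prop :=
  ∃ (ι : Type) (𝓕 : Filter ι) (φ : ι → A →ₐ[K] AL K), 𝓕.NeBot ∧
    (∀ a, Tendsto (fun i => (φ i a : LaurentSeries K)) 𝓕 (𝓝 (e a))) ∧
    ∀ a, e a = 0 → ∀ᶠ i in 𝓕, φ i a = 0

lemma app_comp {B : Type} [CommRing B] [Algebra K B] {e : A →ₐ[K] LaurentSeries K} (h : AppAx e)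
    (g : B →ₐ[K] A) : AppAx (e.comp g) :=
  let ⟨ι, 𝓕, φ, a, b, c⟩ := h
  ⟨ι, 𝓕, fun i => (φ i).comp g, a, fun x => b (g x), fun x => c (g x)⟩

/-- The generator of the relations. -/
lemma app_gen [CharZero K] (e : A →ₐ[K] LaurentSeries K) (θ : LaurentSeries K) :
    ∃ Ψ : A[X], (Ψ = 0 ∨ (Ψ.map (e : A →+* _)).eval θ = 0 ∧
      (Ψ.map (e : A →+* _)).derivative.eval θ ≠ 0) ∧ ∀ G : A[X], (G.map (e : A →+* _)).eval θ = 0 →
        ∃ b Q, e b ≠ 0 ∧ (C b * G - Q * Ψ).map (e : A →+* LaurentSeries K) = 0 := by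
  let F := IntermediateField.adjoin K (e.range : Set (LaurentSeries K))
  let e' : A →+* F := (e : A →+* _).codRestrict F fun a =>
    IntermediateField.subset_adjoin _ _ ⟨a, rfl⟩
  have he : (e : A →+* LaurentSeries K) = (algebraMap F _).comp e' := rfl
  have clr : ∀ Q : F[X], ∃ (b : A) (Q' : A[X]), e' b ≠ 0 ∧ Q'.map e' = C (e' b) * Q := fun Q => by
    induction Q using Polynomial.induction_on' with
    | add p q hp hq =>
      obtain ⟨b, P, h1, h2⟩ := hp
      obtain ⟨b', P', h3, h4⟩ := hq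
      refine ⟨b * b', C b' * P + C b * P', by rw [map_mul]; exact mul_ne_zero h1 h3, ?_⟩
      simp only [Polynomial.map_add, Polynomial.map_mul, map_C, h2, h4, map_mul]
      ring
    | monomial n x =>
      obtain ⟨r, hr, s, hs, h⟩ := IntermediateField.mem_adjoin_iff_div.1 x.2
      rw [Algebra.adjoin_eq] at hr hs
      obtain ⟨a, rfl⟩ := hr
      obtain ⟨b, rfl⟩ := hs
      have h' : x = e' a / e' b := Subtype.ext h
      rcases eq_or_ne (e' b) 0 with h0 | h0
      · exact ⟨1, 0, by simp, by simp [h', h0]⟩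
      · exact ⟨b, monomial n a, h0, by
          rw [Polynomial.map_monomial, C_mul_monomial, h', mul_div_cancel₀ _ h0]⟩
  have hn : ∀ b, e' b ≠ 0 → e b ≠ 0 := fun b h h' => h (Subtype.ext h')
  have ha : ∀ G : A[X], (G.map (e : A →+* _)).eval θ = aeval θ (G.map e') := fun G => by
    rw [he, ← Polynomial.map_map, eval_map_algebraMap]
  by_cases hi : IsAlgebraic F θ
  · obtain ⟨b, Ψ, h1, h2⟩ := clr (minpoly F θ)
    refine ⟨Ψ, .inr ⟨by rw [ha, h2, map_mul, minpoly.aeval, mul_zero], ?_⟩, fun G hG => ?_⟩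
    · rw [derivative_map, ha, ← derivative_map, h2, derivative_C_mul, map_mul, aeval_C]
      exact mul_ne_zero (hn b h1)
        ((minpoly.irreducible hi.isIntegral).separable.aeval_derivative_ne_zero (minpoly.aeval F θ))
    · obtain ⟨Q, hQ⟩ := minpoly.dvd F θ ((ha G).symm.trans hG)
      obtain ⟨b', Q', h3, h4⟩ := clr Q
      refine ⟨b * b', Q', hn _ (by rw [map_mul]; exact mul_ne_zero h1 h3), ?_⟩
      rw [he, ← Polynomial.map_map]
      simp only [Polynomial.map_sub, Polynomial.map_mul, map_C, h2, h4, hQ, map_mul]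
      ring
  · refine ⟨0, .inl rfl, fun G hG => ⟨1, 0, by simp, ?_⟩⟩
    have : G.map e' = 0 := by_contra fun h => hi ⟨_, h, (ha G).symm.trans hG⟩
    rw [he, ← Polynomial.map_map]
    simp [this]

lemma app_step [CharZero K] {e : A →ₐ[K] LaurentSeries K} (h : AppAx e) (θ : LaurentSeries K) :
    AppAx (aevalTower e θ) := by
  obtain ⟨ι, 𝓕, φ, hb, ht, hz⟩ := h
  obtain ⟨Ψ, h1, h2⟩ := app_gen e θ
  have he : ∀ G : A[X], aevalTower e θ G = (G.map (e : A →+* _)).eval θ := fun G =>
    eval₂_eq_eval_map _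
  have hφ : ∀ i y (G : A[X]), aevalTower (φ i) y G = (G.map (φ i : A →+* _)).eval y :=
    fun i y G => eval₂_eq_eval_map _
  have hne : ∀ a, e a ≠ 0 → ∀ᶠ i in 𝓕, φ i a ≠ 0 := fun a ha =>
    ((ht a).eventually_ne ha).mono fun i hi e => hi (by rw [e]; rfl)
  refine ⟨ι × AL K, (𝓕 ×ˢ comap Subtype.val (𝓝 θ)) ⊓ 𝓟 {x | aevalTower (φ x.1) x.2 Ψ = 0},
    fun x => aevalTower (φ x.1) x.2, ?_, fun G => tendsto_inf_left ?_, fun G hG => ?_⟩
  · rw [← frequently_mem_iff_neBot, frequently_iff]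
    intro U hU
    obtain ⟨S, hS, T, ⟨V, hV, hT⟩, hU⟩ := mem_prod_iff.1 hU
    rcases h1 with rfl | ⟨h0, h1⟩
    · obtain ⟨i, hi⟩ := hb.nonempty_of_mem hS
      obtain ⟨γ, g0, hγ⟩ := app_nhds.1 hV
      obtain ⟨Q, hQ⟩ := LaurentSeries.exists_ratFunc_val_lt θ (Units.mk0 γ g0)
      exact ⟨(i, ⟨Q, app_mem Q⟩), hU ⟨hi, hT (hγ _ (by rwa [Valuation.map_sub_swap]))⟩, map_zero _⟩
    · obtain ⟨n, hn⟩ : ∃ n, e (Ψ.coeff n) ≠ 0 := by
        by_contra! hc
        have : Ψ.map (e : A →+* LaurentSeries K) = 0 := by ext1 n; simpa using hc n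
        simp [this] at h1
      obtain ⟨i, hi, h3, y, hy, h4⟩ := (Eventually.and hS ((hne _ hn).and (app_root
        (φ := fun i => (algebraMap (AL K) _).comp (φ i : A →+* AL K)) ht h0 h1 hV))).exists
      rw [← Polynomial.map_map, eval_map_algebraMap] at h4
      obtain ⟨y, rfl⟩ := lau_cl y ⟨_, fun e => h3 (by simpa using congrArg (coeff · n) e), h4⟩
      refine ⟨(i, y), hU ⟨hi, hT hy⟩, ?_⟩
      rw [aeval_algebraMap_apply, map_eq_zero] at h4
      exact (hφ _ _ _).trans h4
  · induction G using Polynomial.induction_on' with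
    | add p q hp hq => simpa using hp.add hq
    | monomial n a =>
      simpa [← C_mul_X_pow_eq_monomial] using
        ((ht a).comp tendsto_fst).mul ((tendsto_comap.comp tendsto_snd).pow n)
  · obtain ⟨b, Q, h3, h4⟩ := h2 G ((he G).symm.trans hG)
    have h5 := (eventually_all_finset (C b * G - Q * Ψ).support).2 fun n _ =>
      hz ((C b * G - Q * Ψ).coeff n) ((coeff_map _ n).symm.trans (congrArg (coeff · n) h4))
    rw [eventually_inf_principal]
    filter_upwards [tendsto_fst.eventually ((hne b h3).and h5)] with x hx h6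
    have h7 : (C b * G - Q * Ψ).map (φ x.1 : A →+* AL K) = 0 := by
      ext1 n
      by_cases hn : n ∈ (C b * G - Q * Ψ).support
      · rw [coeff_map]; exact hx.2 n hn
      · rw [coeff_map, notMem_support_iff.1 hn, map_zero, coeff_zero]
    have h8 := hφ x.1 x.2 (C b * G - Q * Ψ)
    rw [h7, eval_zero, map_sub, map_mul, map_mul, h6, mul_zero, sub_zero, aevalTower_C] at h8
    exact (mul_eq_zero.1 h8).resolve_left hx.1

lemma app_all [CharZero K] (κ : Type) [Finite κ] :
    ∀ z : κ → LaurentSeries K, AppAx (MvPolynomial.aeval z : MvPolynomial κ K →ₐ[K] _) := by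
  induction κ using Finite.induction_empty_option with
  | of_equiv e ih =>
    intro z
    convert app_comp (ih (z ∘ e)) (MvPolynomial.rename e.symm)
    ext1 j
    simp
  | h_empty =>
    intro z
    refine ⟨Unit, ⊤, fun _ => MvPolynomial.aeval PEmpty.elim, inferInstance, ?_⟩
    have : ∀ a : MvPolynomial PEmpty K,
        ((MvPolynomial.aeval PEmpty.elim a : AL K) : LaurentSeries K) = MvPolynomial.aeval z a :=
      fun a => by rw [a.eq_C_of_isEmpty]; simp
    exact ⟨fun a => this a ▸ tendsto_const_nhds,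
      fun a h => .of_forall fun _ => Subtype.ext ((this a).trans h)⟩
  | h_option ih =>
    intro z
    convert app_comp (app_step (ih fun j => z (some j)) (z none))
      (MvPolynomial.optionEquivLeft K _).toAlgHom
    ext1 j
    cases j <;> simp

lemma app_const {z : LaurentSeries K} (h : IsAlgebraic K z) : ∃ a, z = algebraMap K _ a := by
  rcases le_or_gt (Valued.v z) 1 with h1 | h1
  · obtain ⟨c, hc⟩ := lau_res z h1
    exact ⟨c, lau_cst z c h hc⟩
  · have := lau_cst z⁻¹ 0 h.inv (by simpa using inv_lt_one_of_one_lt₀ h1)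
    exact ⟨0, by simpa using this⟩

lemma app_open {z : LaurentSeries K} (h : ∀ a, z ≠ algebraMap K _ a) :
    ∀ᶠ y in 𝓝 z, ∀ a, y ≠ algebraMap K _ a := by
  have h0 := sub_ne_zero.2 (h (z.coeff 0))
  obtain ⟨n, hn⟩ : ∃ n, (z - algebraMap K _ (z.coeff 0)).coeff n ≠ 0 := by
    by_contra! hc
    exact h0 (HahnSeries.ext (funext hc))
  rw [LaurentSeries.algebraMap_apply, HahnSeries.C_apply, HahnSeries.coeff_sub] at hn
  have n0 : n ≠ 0 := by rintro rfl; simp at hn
  refine app_nhds.2 ⟨exp (-(n + 1)), exp_ne_zero, fun y hy a e => hn ?_⟩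
  have := (lau_v _ _).1 hy.le n (by omega)
  rw [e, LaurentSeries.algebraMap_apply, HahnSeries.C_apply, HahnSeries.coeff_sub,
    HahnSeries.coeff_single_of_ne n0] at this
  rw [HahnSeries.coeff_single_of_ne n0]
  simpa using this

end app

theorem p_APP :
    S_APP := by
  intro K κ _ _ _ z
  obtain ⟨ι, 𝓕, φ, hb, ht, hz⟩ := app_all κ z
  obtain ⟨s, hs⟩ := IsNoetherian.noetherian
    (RingHom.ker (MvPolynomial.aeval z : MvPolynomial κ K →ₐ[K] _))
  have h1 := (Filter.eventually_all_finset s).2 fun p hp =>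
    hz p ((hs ▸ Submodule.subset_span hp : p ∈ RingHom.ker _))
  have h2 : ∀ᶠ i in 𝓕, ∀ j, (∀ a, z j ≠ algebraMap K _ a) →
      ∀ a, (φ i (.X j) : LaurentSeries K) ≠ algebraMap K _ a :=
    Filter.eventually_all.2 fun j => Filter.eventually_imp_distrib_left.2 fun h =>
      (ht (.X j)).eventually (by simpa using app_open h)
  obtain ⟨i, h3, h4⟩ := (h1.and h2).exists
  refine ⟨fun j => φ i (.X j), fun p hp => ?_, fun j hj ha => ?_⟩
  · have : Submodule.span _ (s : Set (MvPolynomial κ K)) ≤ RingHom.ker (φ i) :=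
      Submodule.span_le.2 h3
    exact (DFunLike.congr_fun (MvPolynomial.aeval_unique (φ i)) p).symm.trans (this (hs.ge hp))
  · obtain ⟨a, e⟩ := app_const (ha.algebraMap (A := LaurentSeries K))
    exact h4 j hj a e

end

section

lemma upc_hom {A A' σ : Type} [CommRing A] [CommRing A'] (φ : A →+* A') (u : σ → A) (w : σ → A')
    (h : ∀ i, φ (u i) = w i) (p : MvPolynomial σ ℤ) :
    φ (MvPolynomial.aeval u p) = MvPolynomial.aeval w p := by
  obtain rfl : (fun i => φ (u i)) = w := funext h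
  exact MvPolynomial.comp_aeval_apply u φ.toIntAlgHom p

theorem p_UPC :
    S_UPC := by
  refine ⟨?_, fun ι μ e e' he he' F _ U K _ π _ x hx j => ?_⟩
  · rintro ι H ⟨κ, μ, _, _, p, h⟩ F _ U K _ π hπ x hx
    choose y hy using fun n => (h _ _).1 (hx n)
    refine (h _ _).2 ⟨fun k => π fun n => y n k, fun j => ?_⟩
    rw [← upc_hom π (fun s n => Sum.elim (x n) (y n) s) _ (by rintro (s | s) <;> rfl), hπ.ker]
    exact Filter.Eventually.of_forall fun n => (upc_hom (Pi.evalRingHom F n) _ _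
      (fun _ => rfl) _).trans (hy n j)
  · have h : e j (∀ n, F n) (fun i n => x n i) = e' j (∀ n, F n) (fun i n => x n i) :=
      funext fun n => (he j _ _ (Pi.evalRingHom F n) _).trans
        ((hx n j).trans (he' j _ _ (Pi.evalRingHom F n) fun i n => x n i).symm)
    exact (he j _ _ π fun i n => x n i).symm.trans ((congrArg π h).trans (he' j _ _ π _))

end

section

lemma mt_hom {A A' σ : Type} [CommRing A] [CommRing A'] (φ : A →+* A') (u : σ → A) (w : σ → A')
    (h : ∀ i, φ (u i) = w i) (p : MvPolynomial σ ℤ) :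
    φ (MvPolynomial.aeval u p) = MvPolynomial.aeval w p := by
  obtain rfl : (fun i => φ (u i)) = w := funext h
  exact MvPolynomial.comp_aeval_apply u φ.toIntAlgHom p

lemma mt_two {K A A' : Type} [Field K] [CommRing A] [CommRing A'] [Algebra K A] [Algebra K A']
    (φ : A →ₐ[K] A') (x y : A) (P : K[X][X]) :
    φ (Polynomial.aevalAeval x y P) = Polynomial.aevalAeval (φ x) (φ y) P :=
  DFunLike.congr_fun (show φ.comp (Polynomial.aevalAeval x y) = Polynomial.aevalAeval (φ x) (φ y) by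
    ext <;> simp) P

theorem p_MT (hAPP : S_APP) (hUP : Tor.S_UP) (hREG : Tor.S_REG) (hPJ : Tor.S_PJ) (hPAC : Tor.S_PAC) :
    S_MT := by
  rintro ι κ μ _ _ H S j m c h1 ⟨κ2, μ2, _, _, p2, h2⟩ h
  by_contra hc
  push Not at hc
  choose F i1 i2 hch x hx B hB hn using fun n => hc n n
  obtain ⟨K, _, π, hπ⟩ := hUP F (Ultrafilter.of Filter.atTop)
  have hU := Ultrafilter.of_le (Filter.atTop : Filter ℕ)
  generalize Ultrafilter.of (Filter.atTop : Filter ℕ) = U at hπ hU
  have : CharZero K := charZero_of_inj_zero fun m hm => by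
    rw [← map_natCast π, hπ.ker] at hm
    obtain ⟨n, a1, a2⟩ := (hm.and (hU (Filter.eventually_ge_atTop m))).exists
    by_contra a3
    have := Nat.le_of_dvd (Nat.pos_of_ne_zero a3) (ringChar.dvd (R := F n) a1)
    have := hch n
    omega
  obtain ⟨z, z1, z2⟩ := h K (fun i => π fun n => x n i) (h1 F U K π hπ x hx)
  obtain ⟨w, hw⟩ := (h2 _ _).1 z1
  obtain ⟨t, t1, t2⟩ := hAPP K (κ ⊕ κ2) (Sum.elim z w)
  obtain ⟨Ψ, b, r1, r2, r3, r4⟩ := hREG K (κ ⊕ κ2) t
  have hP : ∀ l, ∃ P : K[X][X], (∃ a : ℕ → K[X],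
      ∑ i ∈ Finset.range (P.natDegree + 1), a i * P.coeff i = 1) ∧
      (Polynomial.aevalAeval (t (.inl (m l))) (Tor.tA K) P = 0 ∨
        z (j l) = algebraMap K _ (π fun n => x n (c l))) := fun l => by
    rcases z2 l with e | e
    · obtain ⟨P, a, a1, a2⟩ := hPJ K _ (t2 (.inl (m l)) e)
      exact ⟨P, ⟨a, a2⟩, .inl a1⟩
    · exact ⟨1, ⟨fun _ => 1, by simp⟩, .inr e⟩
  choose P q1 q2 using hP
  obtain ⟨a, θ, a1, a2, a3⟩ := hPAC F U K π hπ hU hch B hB Ψ b r1 r2 r3 μ P q1
  obtain ⟨u, hu⟩ := r4 a θ a1 a2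
  have hu' : ∀ p : MvPolynomial (κ ⊕ κ2) K, MvPolynomial.aeval (Sum.elim z w) p = 0 →
      MvPolynomial.aeval u p = 0 := fun p e => by
    have := hu (MvPolynomial.rename some p) (by rw [MvPolynomial.aeval_rename]; exact t1 p e)
    rwa [MvPolynomial.aeval_rename] at this
  choose v hv using fun s => hπ.surj (u s)
  have e1 : ∀ᶠ n in U, ∀ j, MvPolynomial.aeval (Sum.elim (Sum.elim (x n) fun k => v (.inl k) n)
      fun k => v (.inr k) n) (p2 j) = 0 := Filter.eventually_all.2 fun j => by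
    let g : (ι ⊕ κ) ⊕ κ2 → MvPolynomial (κ ⊕ κ2) K := Sum.elim (Sum.elim
      (fun i => MvPolynomial.C (π fun n => x n i)) fun k => .X (.inl k)) fun k => .X (.inr k)
    have b1 := hu' (MvPolynomial.aeval g (p2 j)) ((mt_hom (MvPolynomial.aeval (R := K)
      (Sum.elim z w)).toRingHom g _ (by rintro ((s | s) | s) <;> simp [g]) _).trans (hw j))
    let g' : (ι ⊕ κ) ⊕ κ2 → ∀ n, F n := Sum.elim (Sum.elim (fun i n => x n i)
      fun k => v (.inl k)) fun k => v (.inr k)
    have b2 := (mt_hom π g' _ (fun _ => rfl) _).trans ((mt_hom (MvPolynomial.aeval (R := K)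
      u).toRingHom g (fun s => π (g' s)) (by
        rintro ((s | s) | s) <;> simp [g, g', hv]) (p2 j)).symm.trans b1)
    exact ((hπ.ker _).1 b2).mono fun n e => (mt_hom (Pi.evalRingHom F n) g' _ (by
      rintro ((s | s) | s) <;> rfl) _).symm.trans e
  have e2 : ∀ᶠ n in U, ∀ l, v (.inl (m l)) n ∉ B n ∨ v (.inl (j l)) n = x n (c l) :=
    Filter.eventually_all.2 fun l => by
    rcases q2 l with e | e
    · have b1 := hu (Polynomial.aevalAeval (.X (some (.inl (m l)))) (.X none) (P l)) (by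
        rw [mt_two]
        simpa using e)
      rw [mt_two, Polynomial.coe_aevalAeval_eq_evalEval] at b1
      exact (a3 l (v (.inl (m l))) (by simpa [hv] using b1)).mono fun n => .inl
    · have b1 := hu' (.X (.inl (j l)) - .C (π fun n => x n (c l))) (by simp [e])
      have b2 : π (v (.inl (j l)) - fun n => x n (c l)) = 0 := by simpa [hv] using b1
      exact ((hπ.ker _).1 b2).mono fun n e => .inr (sub_eq_zero.1 e)
  obtain ⟨n, b1, b2⟩ := (e1.and e2).exists
  obtain ⟨l, c1, c2⟩ := hn n _ ((h2 _ _).2 ⟨_, b1⟩)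
  exact (b2 l).elim (fun e => e c1) c2

end

end Pool.Agent.P.MP_9344a7_nt.Gt
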