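import Pool.Agent.P.MP_9344a7_nt.Gt.Iface

/-! Steps TRF, MANY, MDL. -/

set_option linter.unusedSectionVars false
set_option linter.unusedVariables false

namespace Pool.Agent.P.MP_9344a7_nt.Gt

open WithZero Module
open Pool.Agent.P.MP_6f117a_ag (Place FF)
open Pool.Agent.P.MP_ab3ecb_nt.Inv
open Pool.Agent.P.MP_9344a7_nt.R (Fr rr_fd)
open Pool.Agent.P.MP_9344a7_nt.Tor (Prd ExF IsUP AL)
open scoped Classical PowerSeries IntermediateField Polynomial Polynomial.Bivariate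

section

section

variable {M M1 M2 : ℕ} {β φ L L' : Type} [CommRing L] [CommRing L'] (ψ : L →+* L')
  {co : Jn M1 M2 β φ → Fin M → L} {l : Fin M → L}

lemma trf_lin (j : Jn M1 M2 β φ) :
    ψ (lin co l j) = lin (fun j k => ψ (co j k)) (fun k => ψ (l k)) j := by simp [lin]

lemma trf_pnt (h : Pnt co l) : Pnt (fun j k => ψ (co j k)) fun k => ψ (l k) :=
  ⟨by rw [← trf_lin, h.1, map_one], fun i j => by simp only [← trf_lin, ← map_mul, h.2]⟩

lemma trf_att {a : β} {x : L} {v : φ → L} (h : Att co l a x v) :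
    Att (fun j k => ψ (co j k)) (fun k => ψ (l k)) a (ψ x) fun i => ψ (v i) :=
  ⟨by simp only [← trf_lin, ← map_mul, h.1], fun i => by simp only [← trf_lin, ← map_mul, h.2]⟩

lemma trf_pnt' (hψ : Function.Injective ψ) (h : Pnt (fun j k => ψ (co j k)) fun k => ψ (l k)) :
    Pnt co l :=
  ⟨hψ (by rw [trf_lin, h.1, map_one]), fun i j => hψ (by simp only [trf_lin, map_mul, h.2])⟩

lemma trf_att' (hψ : Function.Injective ψ) {a : β} {x : L} {v : φ → L}
    (h : Att (fun j k => ψ (co j k)) (fun k => ψ (l k)) a (ψ x) fun i => ψ (v i)) :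
    Att co l a x v :=
  ⟨hψ (by simp only [trf_lin, map_mul, h.1]), fun i => hψ (by simp only [trf_lin, map_mul, h.2])⟩

end

lemma trf_and {ι : Type} {H H' : Prd ι} (h : UPC H) (h' : UPC H') :
    UPC fun L _ x => H L x ∧ H' L x := fun F _ U K _ π e x a =>
  ⟨h F U K π e x fun n => (a n).1, h' F U K π e x fun n => (a n).2⟩

lemma trf_all {ι μ : Type} {H : μ → Prd ι} (h : ∀ j, UPC (H j)) : UPC fun L _ x => ∀ j, H j L x :=
  fun F _ U K _ π e x a j => h j F U K π e x fun n => a n j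

lemma trf_eq (hUPC : S_UPC) {ι : Type} (e e' : ∀ (L : Type) [CommRing L], (ι → L) → L⟦X⟧)
    (h : ∀ (L L' : Type) [CommRing L] [CommRing L'] (ψ : L →+* L') (x : ι → L),
      PowerSeries.map ψ (e L x) = (e L' fun i => ψ (x i)) ∧
        PowerSeries.map ψ (e' L x) = e' L' fun i => ψ (x i)) :
    UPC fun L _ x => e L x = e' L x := fun F _ U K _ π a x b =>
  PowerSeries.ext (hUPC.2 ι ℕ (fun n L _ x => PowerSeries.coeff n (e L x))
    (fun n L _ x => PowerSeries.coeff n (e' L x))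
    (fun _ L L' _ _ ψ x => (PowerSeries.coeff_map ..).symm.trans (congrArg _ (h L L' ψ x).1))
    (fun _ L L' _ _ ψ x => (PowerSeries.coeff_map ..).symm.trans (congrArg _ (h L L' ψ x).2))
    F U K π a x
    fun n j => by rw [b n])

lemma trf_mk {L L' : Type} [CommRing L] [CommRing L'] (ψ : L →+* L') (f : ℕ → L) :
    PowerSeries.map ψ (PowerSeries.mk f) = PowerSeries.mk fun n => ψ (f n) := by
  ext n
  simp

lemma trf_up (hUPC : S_UPC) {M M1 M2 : ℕ} {ι β φ : Type} (c : Jn M1 M2 β φ → Fin M → ι)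
    (l : Fin M → ℕ → ι) (a : β) (v : φ → ℕ → ι) : UPC fun L _ (x : ι → L) =>
      Pnt (fun j k => PowerSeries.C (x (c j k))) (fun k => PowerSeries.mk fun n => x (l k n)) ∧
      Att (fun j k => PowerSeries.C (x (c j k))) (fun k => PowerSeries.mk fun n => x (l k n)) a
        PowerSeries.X fun i => PowerSeries.mk fun n => x (v i n) := by
  let m : Jn M1 M2 β φ → ∀ (L : Type) [CommRing L], (ι → L) → L⟦X⟧ := fun j L _ x =>
    lin (fun j k => PowerSeries.C (x (c j k))) (fun k => PowerSeries.mk fun n => x (l k n)) j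
  refine trf_and (trf_and (trf_eq hUPC (m .one) (fun _ _ _ => 1) ?_) (trf_all fun i => trf_all fun j =>
    trf_eq hUPC (fun L _ x => m (.a i) L x * m (.b j) L x) (m (.ab i j)) ?_)) (trf_and
    (trf_eq hUPC (fun L _ x => m (.d a) L x * PowerSeries.X) (m (.dt a)) ?_) (trf_all fun i =>
    trf_eq hUPC (fun L _ x => m (.d a) L x * PowerSeries.mk fun n => x (v i n)) (m (.df a i)) ?_))
  all_goals exact fun L L' _ _ ψ x => by simp [m, lin, trf_mk]

lemma trf_sub {K : Type} [Field K] {x : K⟦X⟧} (h : PowerSeries.constantCoeff x = 0) :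
    ∃ ψ : K⟦X⟧ →+* K⟦X⟧, (∀ f, ψ f = f.subst x) ∧ (∀ c, ψ (PowerSeries.C c) = PowerSeries.C c) ∧
      ψ PowerSeries.X = x ∧ (∀ f, PowerSeries.constantCoeff (ψ f) = PowerSeries.coeff 0 f) ∧
      (x = 0 → ∀ f, ψ f = PowerSeries.C (PowerSeries.coeff 0 f)) := by
  have h1 := PowerSeries.HasSubst.of_constantCoeff_zero' h
  let ψ : K⟦X⟧ →ₐ[K] K⟦X⟧ := PowerSeries.substAlgHom h1
  have h2 : ∀ f, ψ f = f.subst x := fun f => congrFun (PowerSeries.coe_substAlgHom h1) f
  have h3 : ∀ c, ψ (PowerSeries.C c) = PowerSeries.C c := ψ.commutes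
  have h4 : ψ PowerSeries.X = x := (h2 _).trans (PowerSeries.subst_X h1)
  have h5 : ∀ f, ∃ g, ψ f = x * g + PowerSeries.C (PowerSeries.coeff 0 f) := fun f => ⟨_, by
    conv_lhs => rw [f.eq_X_mul_shift_add_const, map_add, map_mul, h3, h4]
    rw [PowerSeries.coeff_zero_eq_constantCoeff_apply]⟩
  refine ⟨ψ.toRingHom, h2, h3, h4, fun f => ?_, fun e f => ?_⟩ <;> obtain ⟨g, hg⟩ := h5 f
  · exact (congrArg _ hg).trans (by simp [h])
  · exact hg.trans (by simp [e])

theorem p_TRF (hEXP : S_EXP) (hENC : S_ENC) (hUPC : S_UPC) (hMT : S_MT) :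
    S_TRF := by
  intro g n ι κ β φ π _ _ _ _ _ b sep H S hH hS hK
  obtain ⟨M, M1, M2, q0, hE⟩ := hENC g n β φ
  let ι' := ι ⊕ Jn M1 M2 β φ × Fin M ⊕ β × Fin M × ℕ ⊕ β × φ × ℕ
  let κ' := κ ⊕ π ⊕ π × φ ⊕ π × Fin M
  let S' : PrdR (ι' ⊕ κ') := fun L _ w =>
    S L (fun i => w (.inl (.inl i))) (fun i => w (.inr (.inl i))) (fun p => w (.inr (.inr (.inl p))))
      (fun p i => w (.inr (.inr (.inr (.inl (p, i)))))) ∧
    (∀ p, Pnt (fun j k => w (.inl (.inr (.inl (j, k))))) (fun k => w (.inr (.inr (.inr (.inr (p, k)))))) ∧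
      Att (fun j k => w (.inl (.inr (.inl (j, k))))) (fun k => w (.inr (.inr (.inr (.inr (p, k))))))
        (b p) (w (.inr (.inr (.inl p)))) (fun i => w (.inr (.inr (.inr (.inl (p, i)))))) ∧
      lin (fun j k => w (.inl (.inr (.inl (j, k))))) (fun k => w (.inr (.inr (.inr (.inr (p, k))))))
        (.d (b p)) ≠ 0) ∧ ∀ p p', sep (b p) (b p') →
      lin (fun j k => w (.inl (.inr (.inl (j, k))))) (fun k => w (.inr (.inr (.inr (.inr (p, k)))))) .w ≠
      lin (fun j k => w (.inl (.inr (.inl (j, k))))) (fun k => w (.inr (.inr (.inr (.inr (p', k)))))) .w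
  have hS' : ExR S' := by
    refine .and (ExR.sub (e := fun L _ (w : ι' ⊕ κ' → L) => Sum.elim (fun i => w (.inl (.inl i))) (Sum.elim
      (fun i => w (.inr (.inl i))) (Sum.elim (fun p => w (.inr (.inr (.inl p))))
        fun q => w (.inr (.inr (.inr (.inl q))))))) hS ?_) (.and (.all fun p => .and (.and (.eq ?_ ?_)
      (.all fun i => .all fun j => .eq ?_ ?_)) (.and (.and (.eq ?_ ?_) (.all fun i => .eq ?_ ?_))
        (.ne ?_ ?_))) (.all fun p => .all fun p' => .imp _ fun _ => .ne ?_ ?_))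
    · rintro (i | i | i | i) L L' _ _ ψ x <;> rfl
    all_goals exact fun L L' _ _ ψ x => by simp [lin]
  let H' : PrdR ι' := fun L _ x =>
    H L (fun i => x (.inl i)) (fun a i => x (.inr (.inr (.inr (a, i, 0)))))
      (fun a i => x (.inr (.inr (.inr (a, i, 1))))) ∧
    (∀ a, lin (fun j k => x (.inr (.inl (j, k)))) (fun k => x (.inr (.inr (.inl (a, k, 0)))))
      (.d a) ≠ 0) ∧ ∀ a a', sep a a' →
      lin (fun j k => x (.inr (.inl (j, k)))) (fun k => x (.inr (.inr (.inl (a, k, 0))))) .w ≠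
      lin (fun j k => x (.inr (.inl (j, k)))) (fun k => x (.inr (.inr (.inl (a', k, 0))))) .w
  have hH' : ExR H' := by
    refine .and (ExR.sub (e := fun L _ (w : ι' → L) => Sum.elim
      (fun i => w (.inl i)) (Sum.elim (fun q : β × φ => w (.inr (.inr (.inr (q.1, q.2, 0)))))
        fun q : β × φ => w (.inr (.inr (.inr (q.1, q.2, 1)))))) hH ?_) (.and (.all fun a => .ne ?_ ?_)
      (.all fun a => .all fun a' => .imp _ fun _ => .ne ?_ ?_))
    · rintro (i | i | i) L L' _ _ ψ x <;> rfl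
    all_goals exact fun L L' _ _ ψ x => by simp [lin]
  obtain ⟨C0, p0, h0⟩ := hMT ι' κ' (π × Fin M) (fun L _ x => H' L x ∧
    ∀ a, Pnt (fun j k => PowerSeries.C (x (.inr (.inl (j, k)))))
        (fun k => PowerSeries.mk fun n => x (.inr (.inr (.inl (a, k, n))))) ∧
      Att (fun j k => PowerSeries.C (x (.inr (.inl (j, k)))))
        (fun k => PowerSeries.mk fun n => x (.inr (.inr (.inl (a, k, n))))) a PowerSeries.X
        fun i => PowerSeries.mk fun n => x (.inr (.inr (.inr (a, i, n))))) (fun L _ w => S' L w)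
    (fun q => .inr (.inr (.inr q))) (fun q => .inr (.inl q.1))
    (fun q => .inr (.inr (.inl (b q.1, q.2, 0)))) (trf_and (hUPC.1 _ _ hH'.ex) (trf_all fun a =>
      trf_up hUPC (ι := ι') (fun j k => .inr (.inl (j, k))) (fun k n => .inr (.inr (.inl (a, k, n))))
        a fun i n => .inr (.inr (.inr (a, i, n))))) hS'.ex (by
      rintro K _ _ x ⟨⟨a1, a2, a3⟩, a4⟩
      obtain ⟨y, z, b1, b2⟩ := hK K (fun i => x (.inl i))
        (fun a i => PowerSeries.mk fun n => x (.inr (.inr (.inr (a, i, n))))) (by simpa using a1)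
      choose ψ c1 c2 c3 c4 c5 using fun p => trf_sub (b1 p)
      let z0 : κ' → K⟦X⟧ := Sum.elim y (Sum.elim z (Sum.elim
        (fun q => ψ q.1 (PowerSeries.mk fun n => x (.inr (.inr (.inr (b q.1, q.2, n))))))
        fun q => ψ q.1 (PowerSeries.mk fun n => x (.inr (.inr (.inl (b q.1, q.2, n)))))))
      have e1 : ∀ p j, PowerSeries.constantCoeff (lin (fun j k => PowerSeries.C (x (.inr (.inl (j, k)))))
          (fun k => z0 (.inr (.inr (.inr (p, k))))) j) = lin (fun j k => x (.inr (.inl (j, k))))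
          (fun k => x (.inr (.inr (.inl (b p, k, 0))))) j := fun p j => by
        rw [trf_lin]
        simp [z0, c4]
      have e2 : S' K⟦X⟧ (Sum.elim (fun i => PowerSeries.C (x i)) z0) :=
        ⟨by simpa only [z0, c1, Sum.elim_inl, Sum.elim_inr] using b2, fun p => ⟨by
          simpa only [c2, z0, Sum.elim_inl, Sum.elim_inr] using trf_pnt (ψ p) (a4 (b p)).1, by
          simpa only [c2, c3, z0, Sum.elim_inl, Sum.elim_inr] using trf_att (ψ p) (a4 (b p)).2,
          fun e => a2 (b p) ((e1 p _).symm.trans ((congrArg _ e).trans (map_zero _)))⟩,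
          fun p p' e e' => a3 _ _ e ((e1 p _).symm.trans ((congrArg _ e').trans (e1 p' _)))⟩
      have i0 := IsFractionRing.injective K⟦X⟧ (LaurentSeries K)
      have i1 : ∀ c, algebraMap K (LaurentSeries K) c =
          algebraMap K⟦X⟧ (LaurentSeries K) (PowerSeries.C c) := fun c =>
        (LaurentSeries.algebraMap_apply K c).trans (PowerSeries.coe_C c).symm
      refine ⟨fun i => algebraMap K⟦X⟧ _ (z0 i), ?_, fun q => ?_⟩
      · have e5 := hS'.mo _ _ _ i0 _ e2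
        rw [show (fun i => algebraMap K⟦X⟧ (LaurentSeries K)
          (Sum.elim (fun i => PowerSeries.C (x i)) z0 i)) = Sum.elim (fun i => algebraMap K _ (x i))
            fun i => algebraMap K⟦X⟧ _ (z0 i) from funext fun i => ?_] at e5
        · exact e5
        rcases i with i | i
        exacts [(i1 _).symm, rfl]
      · by_cases e : z q.1 = 0
        · exact .inr ((congrArg _ ((c5 _ e _).trans (by simp))).trans (i1 _).symm)
        · refine .inl fun c e' => e ?_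
          have e3 : z q.1 = PowerSeries.C c := i0 (e'.trans (i1 c))
          have e4 := b1 q.1
          rw [e3, PowerSeries.constantCoeff_C] at e4
          rw [e3, e4, map_zero])
  refine ⟨Nat.card β * C0, max p0 q0, fun F _ _ C c α t f a0 a1 X hp hL hsep hH0 hX => ?_⟩
  obtain ⟨bb, co, d1, d2, d3, d4, d5, pl, d6, d7, d8⟩ := hE F C α t f a0 a1
    (((le_max_right _ _).trans hp.le).trans char_le) inferInstance hL
  have t0 : ∀ a, t a ∈ C.O (α a) := fun a => ⟨hL.t0 a,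
    (le_one_iff (ne_zero_of_ord (by rw [hL.t1]; exact one_ne_zero))).2 (by rw [hL.t1]; exact zero_le_one)⟩
  choose ex f1 f2 f3 f4 using fun a => hEXP F g C (α a) ⟨t a, t0 a⟩ (hL.rat a) (hL.t1 a)
  have hmk : ∀ s : F⟦X⟧, (PowerSeries.mk fun n => PowerSeries.coeff n s) = s := fun s => by
    ext n
    simp
  have k0 : ∀ a, Pnt (fun j k => PowerSeries.C (co j k))
      (fun k => PowerSeries.mk fun n => PowerSeries.coeff n (ex a ⟨bb k, d1 a k⟩)) ∧
      Att (fun j k => PowerSeries.C (co j k))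
        (fun k => PowerSeries.mk fun n => PowerSeries.coeff n (ex a ⟨bb k, d1 a k⟩)) a PowerSeries.X
        fun i => PowerSeries.mk fun n => PowerSeries.coeff n (ex a ⟨f a i, hL.f0 a i⟩) := fun a => ⟨by
    simpa only [hmk, f2] using trf_pnt (ex a)
      (trf_pnt' (co := fun j i => ⟨C.c (co j i), Cv.c_mem_O _ _⟩) (l := fun i => ⟨bb i, d1 a i⟩)
        (C.O (α a)).subtype Subtype.val_injective d2), by
    simpa only [hmk, f2, f1] using trf_att (ex a)
      (trf_att' (co := fun j i => ⟨C.c (co j i), Cv.c_mem_O _ _⟩) (l := fun i => ⟨bb i, d1 a i⟩)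
        (x := ⟨t a, t0 a⟩) (v := fun i => ⟨f a i, hL.f0 a i⟩)
        (C.O (α a)).subtype Subtype.val_injective (d3 a))⟩
  let _ := Fintype.ofFinite β
  obtain ⟨z, ⟨g1, g2, g3⟩, g4⟩ := h0 F ((le_max_left _ _).trans_lt hp)
    (Sum.elim c (Sum.elim (fun q => co q.1 q.2) (Sum.elim
      (fun q => PowerSeries.coeff q.2.2 (ex q.1 ⟨bb q.2.1, d1 _ _⟩))
      fun q => PowerSeries.coeff q.2.2 (ex q.1 ⟨f q.1 q.2.1, hL.f0 _ _⟩))))
    ⟨⟨by
      simpa only [Sum.elim_inl, Sum.elim_inr, fun a i => (f4 a ⟨f a i, hL.f0 a i⟩ _ _ (hL.ex a i)).1,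
        fun a i => (f4 a ⟨f a i, hL.f0 a i⟩ _ _ (hL.ex a i)).2] using hH0,
      by simpa only [Sum.elim_inl, Sum.elim_inr, f3] using d4,
      fun a a' e => by simpa only [Sum.elim_inl, Sum.elim_inr, f3] using d5 a a' (hsep a a' e)⟩,
      k0⟩
    ((Finset.univ ×ˢ X).image fun q : β × C.Pl => C.vl q.2 (t q.1)) (by
      refine le_trans (Nat.mul_le_mul_right _ Finset.card_image_le) ?_
      rwa [Finset.card_product, Finset.card_univ, ← Nat.card_eq_fintype_card, mul_comm _ X.card,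
        mul_assoc])
  have k1 := fun p => (d8 _ (g2 p).1).2 _ _ _ (g2 p).2.2 (g2 p).2.1
  refine ⟨fun i => z (.inl i), fun p => pl fun k => z (.inr (.inr (.inr (p, k)))),
    ⟨fun p => (d8 _ (g2 p).1).1, fun p => ?_, fun p p' e e' => g3 p p' e (d7 _ _ (g2 p).1 (g2 p').1 e'),
      fun p => (k1 p).1.1, fun p i => ((k1 p).2 i).1⟩, ?_⟩
  · by_cases e : ∀ k, z (.inr (.inr (.inr (p, k)))) = C.vl (α (b p)) (bb k)
    · exact .inr ((congrArg pl (funext e)).trans (d6 _))
    · obtain ⟨k, e⟩ := not_forall.1 e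
      refine .inl fun e' => (g4 (p, k)).resolve_right (fun e1 => e (e1.trans (f3 _ _))) ?_
      exact Finset.mem_image.2 ⟨(b p, _), Finset.mem_product.2 ⟨Finset.mem_univ _, e'⟩, (k1 p).1.2⟩
  · exact (congrArg₂ (S F c _) (funext fun p => (k1 p).1.2)
      (funext fun p => funext fun i => ((k1 p).2 i).2)).mpr g1

end

section

theorem p_MANY (hUNI : S_UNI) (hTRF : S_TRF) :
    S_MANY := by
  intro g
  obtain ⟨C0, p0, h0⟩ := hTRF g (4 * g + 1) Empty Empty Unit Empty Unit id (fun _ _ => False)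
    (fun L _ _ _ _ => (0 : L) = 0) (fun _ _ _ _ x _ => x () ≠ 0)
    (ExR.eq (e := fun _ _ _ => 0) (e' := fun _ _ _ => 0) (fun _ _ _ _ φ _ => map_zero φ)
      fun _ _ _ _ φ _ => map_zero φ)
    (ExR.ne (e' := fun _ _ _ => 0) (fun _ _ _ _ _ _ => rfl) fun _ _ _ _ φ _ => map_zero φ)
    fun K _ _ _ _ _ => ⟨Empty.elim, fun _ => PowerSeries.X, fun _ => PowerSeries.constantCoeff_X,
      PowerSeries.X_ne_zero⟩
  refine ⟨C0, p0, fun F _ _ C hp ⟨P, hP⟩ B hB => ?_⟩
  obtain ⟨⟨t, t0, t1, t2⟩, -⟩ := hUNI F g C P hP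
  obtain ⟨y, Q, h1, h2⟩ := h0 F C Empty.elim (fun _ => P) (fun _ => t) (fun _ => Empty.elim)
    (fun _ => Empty.elim) (fun _ => Empty.elim) B hp ⟨fun _ => hP, fun _ => t0, fun _ => t1,
      fun _ => t2, fun _ i => i.elim, fun _ i => i.elim, fun _ i => i.elim⟩
    (fun _ _ h => h.elim) rfl hB
  refine ⟨Q (), h1.rat (), (h1.dic ()).resolve_right fun e => h2 ?_⟩
  have h3 : t ≠ 0 := ne_zero_of_ord (P := P) (by rw [t1]; exact one_ne_zero)
  have h4 : P.v t < 1 := (lt_one_iff h3).2 (by rw [t1]; exact zero_lt_one)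
  exact (congrArg (C.vl · t) e).trans ((Cv.vl_eq_zero hP ⟨t0, h4.le⟩).2 h4)

end

section

open Polynomial IntermediateField.algebraAdjoinAdjoin in
/-- The monic equation of an integral generator. -/
lemma mdl_min {k E : Type} [Field k] [Field E] [Algebra k E] [FF k E] {a b : E}
    (ht : Transcendental k a) (hi : IsIntegral (Algebra.adjoin k {a}) b) (hp : k⟮a, b⟯ = ⊤) :
    ∃ Ψ : k[X][Y], Ψ.Monic ∧ Irreducible Ψ ∧ Ψ.natDegree = finrank k⟮a⟯ E ∧
      aevalAeval a b Ψ = 0 := by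
  have := FF.fin a ht
  let e := (algEquivOfTranscendental k a ht).toRingEquiv
  have : IsIntegrallyClosed (Algebra.adjoin k {a}) := .of_equiv e
  have m := minpoly.monic hi
  refine ⟨(minpoly _ b).map (e.symm : Algebra.adjoin k {a} →+* k[X]), m.map _,
    (minpoly.irreducible hi).map (mapEquiv e.symm), ?_, ?_⟩
  · rw [m.natDegree_map, ← (Field.primitive_element_iff_minpoly_natDegree_eq _ b).1
      (IntermediateField.restrictScalars_eq_top_iff.1
        ((IntermediateField.adjoin_simple_adjoin_simple k a b).trans hp)),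
      minpoly.isIntegrallyClosed_eq_field_fractions' _ hi, m.natDegree_map]
  · have h : ((aevalAeval a b : k[X][Y] →ₐ[k] E) : k[X][Y] →+* E).comp
        (mapRingHom (e.symm : Algebra.adjoin k {a} →+* k[X])) =
        eval₂RingHom (algebraMap (Algebra.adjoin k {a}) E) b := by
      refine ringHom_ext (fun c => ?_) (by simp)
      obtain ⟨p, rfl⟩ := e.surjective c
      simp only [RingHom.comp_apply, coe_mapRingHom, map_C, RingHom.coe_coe,
        RingEquiv.symm_apply_apply, aevalAeval_C, coe_eval₂RingHom, eval₂_C]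
      exact aeval_algHom_apply (Algebra.adjoin k {a}).val ⟨a, Algebra.self_mem_adjoin_singleton k a⟩ p
    exact (RingHom.congr_fun h _).trans (minpoly.aeval _ b)

open Polynomial in
lemma mdl_sa {k E : Type} [Field k] [Field E] [Algebra k E] (σ : SA k E) (a b : E) (G : k[X][Y]) :
    aevalAeval (σ.s a) (σ.s b) (G.map (mapRingHom (σ.s0 : k →+* k))) = σ.s (aevalAeval a b G) := by
  have h : ((aevalAeval (σ.s a) (σ.s b) : k[X][Y] →ₐ[k] E) : k[X][Y] →+* E).comp
      (mapRingHom (mapRingHom (σ.s0 : k →+* k))) =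
      (σ.s : E →+* E).comp (aevalAeval a b : k[X][Y] →ₐ[k] E) :=
    ringHom_ext' (ringHom_ext (fun c => by simp [σ.h]) (by simp)) (by simp)
  exact RingHom.congr_fun h G

open Polynomial in
/-- Descent of the equation. -/
lemma mdl_desc {F : Type} [Field F] [Fintype F] {g : ℕ} (C : Cv F g) {a b : C.E} (ha : a ∈ C.E0)
    (hb : b ∈ C.E0) {Ψ : (Kb F)[X][Y]} (hm : Ψ.Monic) (h0 : aevalAeval a b Ψ = 0)
    (hd : ∀ G : (Kb F)[X][Y], aevalAeval a b G = 0 → Ψ ∣ G) :
    ∃ Φ : F[X][Y], Φ.map (mapRingHom (algebraMap F (Kb F))) = Ψ := by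
  have h1 := mdl_sa C.σ a b Ψ
  rw [Cv.mem_E0.1 ha, Cv.mem_E0.1 hb, h0, map_zero] at h1
  have h2 := eq_of_monic_of_dvd_of_natDegree_le hm (hm.map _) (hd _ h1) natDegree_map_le
  refine (mem_lifts _).1 ((lifts_iff_coeff_lifts _).2 fun i =>
    (mem_lifts _).1 ((lifts_iff_coeff_lifts _).2 fun j => mem_range_iff.1 ?_))
  have h3 := congrArg (fun G : (Kb F)[X][Y] => (G.coeff i).coeff j) h2
  simp only [coeff_map, coe_mapRingHom, RingHom.coe_coe] at h3
  rwa [C.fr.2.2] at h3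

/-- The two generators. -/
lemma mdl_gen (hBPF : S_BPF) (hPRIM : S_PRIM) (hAVF : S_AVF) (hDES : S_DES) (hAVD : S_AVD) {g : ℕ}
    (hg : 2 ≤ g) : ∃ p0 : ℕ, ∀ (F : Type) [Field F] [Fintype F] (C : Cv F g), p0 < ringChar F →
      ∃ a b : C.E, a ∈ C.E0 ∧ b ∈ C.E0 ∧ Transcendental (Kb F) a ∧ Bd (Kb F) (6 * g) a ∧
        Bd (Kb F) (6 * g) b ∧ (∀ P : C.Pl, P.v a ≤ 1 → P.v b ≤ 1) ∧ (Kb F)⟮a, b⟯ = ⊤ := by
  obtain ⟨c, d, hP⟩ := hPRIM g (6 * g)
  refine ⟨c + d + 6 * g, fun F _ _ C hp => ?_⟩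
  have q := char_le (F := F)
  obtain ⟨z, z1, z2, z3⟩ := hAVD F g C _ Cv.W_mem Unit Finset.univ (fun _ => ⊥)
    (by simpa using Fintype.one_lt_card) fun _ _ e => by
      have := C.can.lS_W
      rw [lS_eq_zero.2 e] at this
      omega
  have z0 : z ≠ 0 := z3 () (Finset.mem_univ _)
  obtain ⟨H, H0, H1, H2⟩ : ∃ H : Dv (Kb F) C.E, 0 ≤ H ∧ H ∈ C.D0 ∧ deg H = 6 * g - 6 :=
    ⟨3 • (dv _ z + C.W), nsmul_nonneg ((mem_LS' z0).1 z1) 3,
      nsmul_mem (add_mem (Cv.dv_mem z2) Cv.W_mem) 3, by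
        rw [map_nsmul, map_add, deg_dv, C.can.deg_W, nsmul_eq_mul]
        push_cast
        ring⟩
  have s := card_support_le H0
  obtain ⟨a, a1, a2, a3⟩ := hAVD F g C H H1 C.Pl H.support (fun P => LS (H - pt P)) (by omega)
    fun P _ e => by
      have := rr_fd (H - pt P)
      have h1 : lS H ≤ lS (H - pt P) := Submodule.finrank_mono e
      have h2 : deg (H - pt P) = deg H - 1 := by rw [map_sub, deg_single]
      have h3 := C.can.big (D := H) (by omega)
      have h4 := C.can.big (D := H - pt P) (by omega)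
      omega
  have a4 : ∀ P ∈ H.support, 1 < P.v a := fun P hP => by
    refine lt_of_lt_of_le ?_ (not_lt.1 fun e => a3 P hP (mem_LS_sub_pt.2 ⟨a1, e⟩))
    rw [← exp_zero, exp_lt_exp]
    exact lt_of_le_of_ne (H0 P) (Finsupp.mem_support_iff.1 hP).symm
  have a5 : Transcendental (Kb F) a := by
    obtain ⟨P, hP⟩ : H.support.Nonempty := Finsupp.support_nonempty_iff.2 fun e => by
      rw [e, map_zero] at H2
      omega
    have a0 : a ≠ 0 := fun e => by simpa [e] using a4 P hP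
    exact trans_of_ord (P := P) fun e => (a4 P hP).ne' ((eq_one_iff a0).2 e)
  have bd : ∀ f ∈ LS H, Bd (Kb F) (6 * g) f := fun f hf => .of_mem H0 (by push_cast; omega) hf
  have rg : ∀ f ∈ LS H, ∀ P ∉ H.support, P.v f ≤ 1 := fun f hf P hP =>
    le_one_of_LS hf (Finsupp.notMem_support_iff.1 hP).le
  obtain ⟨x, x1, -, x2, -⟩ := hDES F g C H H1
  obtain ⟨Δ, d1, d2, d3⟩ := hP (Kb F) C.E C.W _ a x H.support C.can (ch_of_lt (by omega)) a5
    (bd a a1) (fun P hP i => rg _ (x1 i).2 P hP) fun P hP Q hQ e => by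
      refine (hBPF _ _ g C.W H C.can H0 (by omega)).1 P Q (Finsupp.notMem_support_iff.1 hP)
        (Finsupp.notMem_support_iff.1 hQ) fun f hf => ?_
      obtain ⟨y, rfl⟩ := x2 f hf
      refine (Finset.sum_induction _ (fun f => f ∈ LS H ∧ ev P f = ev Q f) (fun f f' h h' =>
        ⟨add_mem h.1 h'.1, ?_⟩) ⟨zero_mem _, by simp⟩ fun i _ =>
          ⟨Submodule.smul_mem _ _ (x1 i).2, ?_⟩).2
      · rw [ev_add (rg _ h.1 P hP) (rg _ h'.1 P hP), ev_add (rg _ h.1 Q hQ) (rg _ h'.1 Q hQ), h.2,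
          h'.2]
      · rw [Algebra.smul_def, ev_mul (P.triv _) (rg _ (x1 i).2 P hP),
          ev_mul (Q.triv _) (rg _ (x1 i).2 Q hQ), ev_const, ev_const, e]
  obtain ⟨y, hy⟩ := hAVF F (Kb F) _ Δ (by omega) d2
  have b1 : ∑ i, algebraMap F (Kb F) (y i) • x i ∈ LS H :=
    Submodule.sum_mem _ fun i _ => Submodule.smul_mem _ _ (x1 i).2
  refine ⟨a, _, a2, sum_mem fun i _ => ?_, a5, bd a a1, bd _ b1,
    fun P hP => rg _ b1 P fun e => (a4 P e).not_ge hP, d3 _ hy⟩
  rw [Algebra.smul_def]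
  exact mul_mem (Cv.c_mem (y i)) (x1 i).1

open Polynomial in
theorem p_MDL (hBPF : S_BPF) (hREL : S_REL) (hPRIM : S_PRIM) (hAVF : S_AVF) (hDES : S_DES) (hAVD : S_AVD) :
    S_MDL := by
  intro g hg
  obtain ⟨p0, h⟩ := mdl_gen hBPF hPRIM hAVF hDES hAVD hg
  obtain ⟨d, hd⟩ := hREL (6 * g)
  refine ⟨6 * g + d, p0, fun F _ _ C hp => ?_⟩
  obtain ⟨a, b, a0, b0, ht, a1, b1, r, t⟩ := h F C hp
  obtain ⟨Ψ0, p1, -, p2, p3, -, p4⟩ := hd _ _ a b ht a1 b1
  obtain ⟨Ψ, q1, q2, q3, q4⟩ := mdl_min ht ((PL.reg_iff_integral ht b).1 r) t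
  obtain ⟨u, rfl⟩ := p4 Ψ q4
  have u0 := (q2.isUnit_or_isUnit rfl).resolve_left p1.not_isUnit
  obtain ⟨Φ, e⟩ := mdl_desc C a0 b0 q1 q4 fun G hG => u0.mul_right_dvd.2 (p4 G hG)
  obtain ⟨v, v1, rfl⟩ := Polynomial.isUnit_iff.1 u0
  have j := (algebraMap F (Kb F)).injective
  have j' : Function.Injective (mapRingHom (algebraMap F (Kb F))) := map_injective _ j
  have n1 := natDegree_map_eq_of_injective j' Φ
  rw [e] at n1
  refine ⟨a, b, Φ, a0, b0, ht, a1.mono (Nat.le_add_right _ _), b1.mono (Nat.le_add_right _ _), r,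
    monic_of_injective j' (e ▸ q1), n1 ▸ q3,
    n1 ▸ ((natDegree_mul_C_le _ _).trans p2).trans (Nat.le_add_left _ _), fun i => ?_, e ▸ q2,
    e ▸ q4⟩
  have c := congrArg (fun G : (Kb F)[X][Y] => (G.coeff i).natDegree) e
  simp only [coeff_map, coe_mapRingHom, coeff_mul_C, natDegree_map_eq_of_injective j] at c
  have c1 := natDegree_mul_le (p := Ψ0.coeff i) (q := v)
  have c2 := natDegree_eq_zero_of_isUnit v1
  have c3 := p3 i
  omega

end

end Pool.Agent.P.MP_9344a7_nt.Gt
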