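import Pool.Agent.P.MP_9344a7_nt.Gt.Iface

/-! Steps NPT, FIX, LIP, ROOT, SEC. -/

set_option linter.unusedSectionVars false
set_option linter.unusedVariables false

namespace Pool.Agent.P.MP_9344a7_nt.Gt

open WithZero Module
open Pool.Agent.P.MP_6f117a_ag (Place FF)
open Pool.Agent.P.MP_ab3ecb_nt.Inv
open Pool.Agent.P.MP_9344a7_nt.R (Fr rr_fd)
open Pool.Agent.P.MP_9344a7_nt.Tor (Prd ExF IsUP AL)
open scoped Classical PowerSeries IntermediateField Polynomial Polynomial.Bivariate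

section

section npt

open Polynomial

variable {k E : Type} [Field k] [Field E] [Algebra k E] {Ψ : k[X][Y]} {x y : E}

lemma npt_ev2 (x y : E) (G : k[X][Y]) :
    aevalAeval x y G = G.eval₂ (aeval x : k[X] →ₐ[k] E).toRingHom y := by
  induction G using Polynomial.induction_on' with
  | add p q hp hq => rw [map_add, eval₂_add, hp, hq]
  | monomial i c =>
    rw [eval₂_monomial, ← C_mul_X_pow_eq_monomial, map_mul, map_pow, aevalAeval_C, aevalAeval_Y]
    rfl

lemma npt_ker (ht : Transcendental k x) (hm : Ψ.Monic) (hi : Irreducible Ψ)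
    (h0 : aevalAeval x y Ψ = 0) (G : k[X][Y]) (hG : aevalAeval x y G = 0) : Ψ ∣ G := by
  let _ : Algebra k[X] E := (aeval x : k[X] →ₐ[k] E).toRingHom.toAlgebra
  have : FaithfulSMul k[X] E :=
    (faithfulSMul_iff_algebraMap_injective _ _).2 (transcendental_iff_injective.1 ht)
  have ha : ∀ G : k[X][Y], aeval y G = aevalAeval x y G := fun G => by
    rw [npt_ev2, aeval_def]
    rfl
  have h1 : aeval y Ψ = 0 := by rw [ha, h0]
  have hint : IsIntegral k[X] y := ⟨Ψ, hm, by rw [← aeval_def, h1]⟩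
  exact ((minpoly.irreducible hint).dvd_symm hi (minpoly.isIntegrallyClosed_dvd hint h1)).trans
    (minpoly.isIntegrallyClosed_dvd hint ((ha G).trans hG))

variable [IsAlgClosed k] [FF k E]

lemma npt_ctr (ht : Transcendental k x) (hk : ∀ G, aevalAeval x y G = 0 → Ψ ∣ G) (a b : k)
    (h0 : Ψ.evalEval a b = 0) : ∃ P : Place k E,
      P.v (x - algebraMap k E a) < 1 ∧ P.v (y - algebraMap k E b) < 1 := by
  let f : k[X][Y] →ₐ[k] E := aevalAeval x y
  have H : RingHom.ker f.rangeRestrict.toRingHom ≤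
      RingHom.ker (aevalAeval a b : k[X][Y] →ₐ[k] k).toRingHom := fun G hG => by
    obtain ⟨q, rfl⟩ := hk G (congrArg Subtype.val hG)
    change aevalAeval a b (Ψ * q) = 0
    rw [coe_aevalAeval_eq_evalEval, evalEval_mul, h0, zero_mul]
  obtain ⟨P, hP⟩ := PL.exists_center f.range
    (AlgHom.liftOfSurjective _ f.rangeRestrict_surjective _ H) (t := x)
    ⟨C X, aevalAeval_X x y⟩ ht
  have h1 := hP (f.rangeRestrict (C X))
  have h2 := hP (f.rangeRestrict Y)
  rw [AlgHom.liftOfSurjective_apply] at h1 h2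
  rw [aevalAeval_X] at h1
  rw [aevalAeval_Y] at h2
  refine ⟨P, ?_, ?_⟩
  · rw [← aevalAeval_X (R := k) x y]
    exact h1
  · rw [← aevalAeval_Y (R := k) x y]
    exact h2

/-- Over a fibre with simple roots a place is determined by its centre. -/
lemma npt_uni (ht : Transcendental k x) (hm : Ψ.Monic) (hk : ∀ G, aevalAeval x y G = 0 → Ψ ∣ G)
    (hd : Ψ.natDegree = finrank k⟮x⟯ E) (a : k)
    (h1 : ∀ P : Place k E, P.v (x - algebraMap k E a) < 1 → Ψ.evalEval a (ev P y) = 0 ∧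
      (derivative Ψ).evalEval a (ev P y) ≠ 0) {P Q : Place k E}
    (hP : P.v (x - algebraMap k E a) < 1) (hQ : Q.v (x - algebraMap k E a) < 1)
    (e : ev P y = ev Q y) : P = Q := by
  have ht' : Transcendental k (x - algebraMap k E a) := fun h' => ht (by
    simpa using h'.add (isAlgebraic_algebraMap a))
  have h0 : x - algebraMap k E a ≠ 0 := fun e => ht' (e ▸ isAlgebraic_zero)
  have hf : {Q : Place k E | Q.v (x - algebraMap k E a) < 1}.Finite :=
    (PL.finite_supp h0).subset fun Q hQ => ne_of_lt hQ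
  have hZ : ∀ Q, Q ∈ hf.toFinset ↔ Q.v (x - algebraMap k E a) < 1 := fun Q => hf.mem_toFinset
  have e' : k⟮x - algebraMap k E a⟯ = k⟮x⟯ := le_antisymm
    (IntermediateField.adjoin_simple_le_iff.2 (sub_mem (IntermediateField.mem_adjoin_simple_self k x)
      (IntermediateField.algebraMap_mem _ a)))
    (IntermediateField.adjoin_simple_le_iff.2 (by
      simpa using add_mem (IntermediateField.mem_adjoin_simple_self k (x - algebraMap k E a))
        (IntermediateField.algebraMap_mem _ a)))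
  have hsum := PL.sum_zeros ht' _ hZ
  rw [e', ← hd] at hsum
  have hm' : (Ψ.map (evalRingHom a)).Monic := hm.map _
  have hr : ∀ c, c ∈ (Ψ.map (evalRingHom a)).roots ↔ Ψ.evalEval a c = 0 := fun c => by
    rw [mem_roots hm'.ne_zero, IsRoot.def, map_evalRingHom_eval]
  have hs : ∀ c ∈ (Ψ.map (evalRingHom a)).roots, ∃ Q ∈ hf.toFinset, ev Q y = c := fun c hc =>
    let ⟨Q, q1, q2⟩ := npt_ctr ht hk a c ((hr c).1 hc); ⟨Q, (hZ Q).2 q1, ev_eq q2⟩
  have hn : (Ψ.map (evalRingHom a)).roots.Nodup := Multiset.nodup_iff_count_le_one.2 fun c => by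
    rw [count_roots, ← not_lt, one_lt_rootMultiplicity_iff_isRoot hm'.ne_zero]
    rintro ⟨c1, c2⟩
    obtain ⟨Q, q1, rfl⟩ := hs c ((mem_roots hm'.ne_zero).2 c1)
    rw [derivative_map, IsRoot.def, map_evalRingHom_eval] at c2
    exact (h1 Q ((hZ Q).1 q1)).2 c2
  refine Finset.injOn_of_surjOn_of_card_le (s := hf.toFinset)
    (t := (Ψ.map (evalRingHom a)).roots.toFinset) (fun Q => ev Q y)
    (fun Q hQ => Multiset.mem_toFinset.2 ((hr _).2 (h1 Q ((hZ Q).1 hQ)).1))
    (fun c hc => hs c (Multiset.mem_toFinset.1 hc)) ?_ ((hZ P).2 hP) ((hZ Q).2 hQ) e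
  rw [Multiset.toFinset_card_of_nodup hn, IsAlgClosed.card_roots_eq_natDegree, hm.natDegree_map]
  have : ∑ _Q ∈ hf.toFinset, (1 : ℤ) ≤ _ := (Finset.sum_le_sum fun Q hQ =>
    Int.add_one_le_iff.2 ((lt_one_iff h0).1 ((hZ Q).1 hQ))).trans hsum.le
  rw [Finset.sum_const, nsmul_eq_mul, mul_one] at this
  exact_mod_cast this

end npt

theorem p_NPT (hBDP : S_BDP) (hMDL : S_MDL) (hLWQ : Tor.S_LWQ) :
    S_NPT := by
  intro g hg
  obtain ⟨n, p1, h1⟩ := hMDL g hg
  obtain ⟨C0, p2, h2⟩ := hLWQ n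
  refine ⟨p1 + p2 + C0 * (2 * (2 * n * n)), fun F _ _ C hp => ?_⟩
  obtain ⟨a, b, Ψ, ha, hb, ht, ba, bb, hab, hm, hd, hn, hc, hi, h0⟩ := h1 F C (by omega)
  have h3 := h2 F Ψ (by omega) hm hn hc hi
  set A := {a : F | ∃ b, Ψ.evalEval a b = 0 ∧ (Polynomial.derivative Ψ).evalEval a b ≠ 0} with hA
  have h4 : 2 * (2 * n * n) < A.ncard := by
    have := char_le (F := F)
    rw [Nat.card_eq_fintype_card] at h3
    exact lt_of_mul_lt_mul_left (a := C0) (by omega) (Nat.zero_le _)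
  set ι := algebraMap F (Kb F) with hι
  set Φ := Ψ.map (Polynomial.mapRingHom ι) with hΦ
  have hm' : Φ.Monic := hm.map _
  have hd' : Φ.natDegree = Ψ.natDegree := hm.natDegree_map _
  have hc' : ∀ i, (Φ.coeff i).natDegree ≤ n := fun i => by
    rw [hΦ, Polynomial.coeff_map]
    exact Polynomial.natDegree_map_le.trans (hc i)
  have hk := npt_ker ht hm' hi h0
  obtain ⟨b1, b2⟩ := hBDP _ _ n n a b (Polynomial.derivative Φ) ba bb
    ((Polynomial.natDegree_derivative_le Φ).trans (by omega)) fun i => by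
      rw [Polynomial.coeff_derivative, ← Nat.cast_succ, mul_comm, ← nsmul_eq_mul]
      exact (Polynomial.natDegree_smul_le _ _).trans (hc' _)
  have b3 := (hBDP _ _ n n a b Φ ba bb (hd'.trans_le hn) hc').2
  have hG : Polynomial.aevalAeval a b (Polynomial.derivative Φ) ≠ 0 := fun e => by
    obtain ⟨a0, b0, -, c2⟩ := Set.nonempty_of_ncard_ne_zero (Nat.ne_zero_of_lt h4)
    have c3 := Polynomial.eq_zero_of_dvd_of_degree_lt (hk _ e)
      (Polynomial.degree_derivative_lt hm'.ne_zero)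
    refine c2 (ι.injective ?_)
    rw [← Polynomial.map_mapRingHom_evalEval, ← Polynomial.derivative_map, ← hΦ, c3,
      Polynomial.evalEval_zero, map_zero]
  obtain ⟨X, x1, x2⟩ := b1.unit hG
  obtain ⟨a0, ⟨b0, c1, -⟩, c2⟩ : ∃ a0 ∈ A, a0 ∉ X.image fun P => C.vl P a := by
    by_contra e
    push Not at e
    have := Set.ncard_le_ncard (s := A) (t := ↑(X.image fun P => C.vl P a)) fun a0 h => e a0 h
    rw [Set.ncard_coe_finset] at this
    exact h4.not_ge (this.trans (Finset.card_image_le.trans x1))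
  obtain ⟨P, p1, p2⟩ := npt_ctr ht hk (ι a0) (ι b0) (by
    rw [hΦ, Polynomial.map_mapRingHom_evalEval, c1, map_zero])
  have hσ : ∀ {z : C.E} {c : F}, z ∈ C.E0 → P.v (z - algebraMap _ C.E (ι c)) < 1 →
      (C.σ.pl P).v (z - algebraMap _ C.E (ι c)) < 1 := fun {z c} hz h => by
    rwa [← Cv.mem_E0.1 (sub_mem hz (Cv.c_mem c) : z - algebraMap _ C.E (ι c) ∈ C.E0), C.σ.pl_v]
  refine ⟨P, npt_uni ht hm' hk (hd'.trans hd) (ι a0) (fun Q hQ => ?_) (hσ ha p1) p1
    ((ev_eq (hσ hb p2)).trans (ev_eq p2).symm)⟩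
  have q1 := le_one_of_sub hQ
  have q2 := ev_eq hQ
  have q3 := (b3 Q q1 (hab Q q1)).2
  have q4 := b2 Q q1 (hab Q q1)
  rw [h0, ev_zero, q2] at q3
  rw [q2] at q4
  refine ⟨q3.symm, fun e => ?_⟩
  exact ((ev_eq_zero_iff q4.1).1 (q4.2.trans e)).ne
    (x2 Q fun h => c2 (Finset.mem_image.2 ⟨Q, h, Cv.vl_eq q2⟩))

end

section

theorem p_FIX :
    S_FIX := by
  intro K ι _ Ψ h
  have h1 : ∀ n i, PowerSeries.X ^ n ∣ (Ψ^[n + 1] 0) i - (Ψ^[n] 0) i := by
    intro n
    induction n with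
    | zero => intro i; simp
    | succ n ih =>
      intro i
      have := h n _ _ ih i
      rwa [← Function.iterate_succ_apply' Ψ, ← Function.iterate_succ_apply' Ψ] at this
  have h2 : ∀ n m i, PowerSeries.X ^ n ∣ (Ψ^[n + m] 0) i - (Ψ^[n] 0) i := by
    intro n m i
    induction m with
    | zero => simp
    | succ m ih =>
      have := dvd_add ((pow_dvd_pow _ (Nat.le_add_right n m)).trans (h1 (n + m) i)) ih
      rwa [sub_add_sub_cancel] at this
  let a : ι → K⟦X⟧ := fun i => PowerSeries.mk fun n => PowerSeries.coeff n ((Ψ^[n + 1] 0) i)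
  have h3 : ∀ n i, PowerSeries.X ^ n ∣ a i - (Ψ^[n] 0) i := by
    intro n i
    rw [PowerSeries.X_pow_dvd_iff]
    intro m hm
    obtain ⟨k, rfl⟩ : ∃ k, n = m + 1 + k := ⟨n - (m + 1), by omega⟩
    have := PowerSeries.X_pow_dvd_iff.1 (h2 (m + 1) k i) m (Nat.lt_succ_self m)
    rw [map_sub, sub_eq_zero] at this ⊢
    rw [this]
    exact PowerSeries.coeff_mk _ _
  refine ⟨a, funext fun i => PowerSeries.ext fun n => ?_⟩
  have h4 := h n _ _ (h3 n) i
  rw [← Function.iterate_succ_apply' Ψ] at h4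
  have := PowerSeries.X_pow_dvd_iff.1 h4 n (Nat.lt_succ_self n)
  rw [map_sub, sub_eq_zero] at this
  rw [this]
  simp only [a, PowerSeries.coeff_mk]

end

section

theorem lip_one {K : Type} [Field K] (f x : K⟦X⟧) (hx : PowerSeries.constantCoeff x = 0) :
    (f.subst x : K⟦X⟧) = PowerSeries.C (PowerSeries.coeff 0 f) +
      x * (PowerSeries.mk fun i => PowerSeries.coeff (i + 1) f).subst x := by
  have h := PowerSeries.HasSubst.of_constantCoeff_zero' hx
  conv_lhs => rw [PowerSeries.eq_X_mul_shift_add_const f]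
  rw [PowerSeries.subst_add h, PowerSeries.subst_mul h, PowerSeries.subst_X h,
    PowerSeries.subst_C, add_comm, PowerSeries.coeff_zero_eq_constantCoeff_apply]
  rfl

theorem lip_two {K : Type} [Field K] (n : ℕ) : ∀ (f x y : K⟦X⟧), PowerSeries.constantCoeff x = 0 →
    PowerSeries.constantCoeff y = 0 → PowerSeries.X ^ n ∣ x - y →
    PowerSeries.X ^ n ∣ (f.subst x : K⟦X⟧) - f.subst y := by
  induction n with
  | zero => intro f x y _ _ _; rw [pow_zero]; exact one_dvd _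
  | succ n ih =>
    intro f x y hx hy h
    have h1 := ih (PowerSeries.mk fun i => PowerSeries.coeff (i + 1) f) x y hx hy
      ((pow_dvd_pow _ n.le_succ).trans h)
    rw [lip_one f x hx, lip_one f y hy]
    generalize ((PowerSeries.mk fun i => PowerSeries.coeff (i + 1) f).subst x : K⟦X⟧) = a at h1 ⊢
    generalize ((PowerSeries.mk fun i => PowerSeries.coeff (i + 1) f).subst y : K⟦X⟧) = b at h1 ⊢
    have e : PowerSeries.C (PowerSeries.coeff 0 f) + x * a -
        (PowerSeries.C (PowerSeries.coeff 0 f) + y * b) = (x - y) * a + (a - b) * y := by ring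
    rw [e]
    refine dvd_add (h.mul_right _) ?_
    rw [pow_succ]
    exact mul_dvd_mul h1 (PowerSeries.X_dvd_iff.2 hy)

theorem p_LIP :
    S_LIP := by
  intro K _ f
  refine ⟨fun x hx => ⟨?_, lip_one f x hx⟩, fun n x y => lip_two n f x y, ?_⟩
  · rw [lip_one f x hx, map_add, map_mul, hx, zero_mul, add_zero, PowerSeries.constantCoeff_C]
  · intro n a b h
    refine lip_two n f _ _ (by simp) (by simp) ?_
    rw [← mul_sub]
    exact h.mul_left _

end

section

theorem p_ROOT (hFIX : S_FIX) (hLIP : S_LIP) :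
    S_ROOT := by
  intro K ι _ _ c f hc
  choose c' hc' using fun i => PowerSeries.X_dvd_iff.2 (hc i)
  obtain ⟨a, ha⟩ := hFIX K Unit
    (fun a _ => -∑ i, c' i * (f i).subst (PowerSeries.X * a () : K⟦X⟧)) fun n a b hab _ => by
      rw [neg_sub_neg, ← Finset.sum_sub_distrib]
      refine Finset.dvd_sum fun i _ => ?_
      rw [← mul_sub]
      refine Dvd.dvd.mul_left ((hLIP K (f i)).2.1 (n + 1) _ _ (by simp) (by simp) ?_) _
      rw [← mul_sub, pow_succ']
      exact mul_dvd_mul_left _ (dvd_sub_comm.1 (hab ()))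
  have h := congrFun ha ()
  refine ⟨PowerSeries.X * a (), by simp, ?_⟩
  have e : ∑ i, c i * (f i).subst (PowerSeries.X * a () : K⟦X⟧) =
      PowerSeries.X * ∑ i, c' i * (f i).subst (PowerSeries.X * a () : K⟦X⟧) := by
    rw [Finset.mul_sum]
    exact Finset.sum_congr rfl fun i _ => by rw [hc' i, mul_assoc]
  rw [e, ← mul_add, add_comm, neg_eq_iff_add_eq_zero.1 h, mul_zero]

end

section

/-- Maps that gain `m` powers of `X`. -/
def sec_Ct {K : Type} [Field K] (m : ℕ) (f : (Fin 2 → K⟦X⟧) → K⟦X⟧) : Prop :=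
  ∀ (n : ℕ) (a b : Fin 2 → K⟦X⟧), (∀ i, PowerSeries.X ^ n ∣ a i - b i) →
    PowerSeries.X ^ (n + m) ∣ f a - f b

section

variable {K : Type} [Field K] {m : ℕ} {f g : (Fin 2 → K⟦X⟧) → K⟦X⟧}

theorem sec_const (c : K⟦X⟧) : sec_Ct m fun _ => c := fun n a b _ => by
  rw [sub_self]
  exact dvd_zero _

theorem sec_proj (i : Fin 2) : sec_Ct 0 fun w : Fin 2 → K⟦X⟧ => w i := fun _ _ _ h => h i

theorem sec_add (hf : sec_Ct m f) (hg : sec_Ct m g) : sec_Ct m fun w => f w + g w :=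
  fun n a b h => by
    have e : f a + g a - (f b + g b) = (f a - f b) + (g a - g b) := by ring
    rw [e]
    exact dvd_add (hf n a b h) (hg n a b h)

theorem sec_sub (hf : sec_Ct m f) (hg : sec_Ct m g) : sec_Ct m fun w => f w - g w :=
  fun n a b h => by
    have e : f a - g a - (f b - g b) = (f a - f b) - (g a - g b) := by ring
    rw [e]
    exact dvd_sub (hf n a b h) (hg n a b h)

theorem sec_mul (hf : sec_Ct m f) (hg : sec_Ct m g) : sec_Ct m fun w => f w * g w :=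
  fun n a b h => by
    have e : f a * g a - f b * g b = f a * (g a - g b) + (f a - f b) * g b := by ring
    rw [e]
    exact dvd_add ((hg n a b h).mul_left _) ((hf n a b h).mul_right _)

theorem sec_X (hf : sec_Ct 0 f) : sec_Ct 1 fun w => PowerSeries.X * f w :=
  fun n a b h => by
    rw [← mul_sub, pow_succ']
    exact mul_dvd_mul_left _ (hf n a b h)

theorem sec_comp {Γ : K⟦X⟧ → K⟦X⟧} (hΓ : Lp Γ) (hf : sec_Ct m f) : sec_Ct m fun w => Γ (f w) :=
  fun n a b h => hΓ _ _ _ (hf n a b h)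

/-- The second order term of the cross product. -/
noncomputable def sec_R (p k : K⟦X⟧) (Γ Γ' : K⟦X⟧ → K⟦X⟧) (a b : K⟦X⟧) : K⟦X⟧ :=
  Γ a * (1 + PowerSeries.X * k * b + PowerSeries.X ^ 2 * Γ' b) +
    (a * a + PowerSeries.X * p * a) * Γ' b

theorem sec_R_ct (p k : K⟦X⟧) {Γ Γ' : K⟦X⟧ → K⟦X⟧} (h : Lp Γ) (h' : Lp Γ') (hf : sec_Ct m f)
    (hg : sec_Ct m g) : sec_Ct m fun w => sec_R p k Γ Γ' (f w) (g w) :=
  sec_add (sec_mul (sec_comp h hf) (sec_add (sec_add (sec_const _) (sec_mul (sec_const _) hg))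
    (sec_mul (sec_const _) (sec_comp h' hg))))
    (sec_mul (sec_add (sec_mul hf hf) (sec_mul (sec_const _) hf)) (sec_comp h' hg))

theorem sec_unit (a k g : K⟦X⟧) :
    ∃ d, (1 + PowerSeries.X * a * k + PowerSeries.X ^ 2 * g) * d = 1 := by
  refine IsUnit.exists_right_inv ?_
  rw [PowerSeries.isUnit_iff_constantCoeff]
  simp

end

theorem p_SEC (hFIX : S_FIX) :
    S_SEC := by
  intro K _ _ p κ Γ Γ' a0 hΓ hΓ' ha hκ hp
  obtain ⟨q, hq⟩ : (PowerSeries.X : K⟦X⟧) ∣ p 0 - p 1 - PowerSeries.C a0 ^ 2 *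
      (PowerSeries.C (κ 0) - PowerSeries.C (κ 1)) := by
    rw [PowerSeries.X_dvd_iff]
    simp only [map_sub, map_mul, map_pow, PowerSeries.constantCoeff_C]
    rw [hp, sub_self]
  set c : K⟦X⟧ := PowerSeries.C a0 with hc
  set k : Fin 2 → K⟦X⟧ := fun i => PowerSeries.C (κ i) with hk
  obtain ⟨e1, he1⟩ : ∃ e : K⟦X⟧, 4 * c * e = 1 := by
    refine IsUnit.exists_right_inv ?_
    rw [PowerSeries.isUnit_iff_constantCoeff, isUnit_iff_ne_zero]
    simp only [hc, map_mul, map_ofNat, PowerSeries.constantCoeff_C]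
    exact mul_ne_zero (by norm_num) ha
  obtain ⟨e2, he2⟩ : ∃ e : K⟦X⟧, 4 * (k 0 - k 1) * c ^ 2 * e = 1 := by
    refine IsUnit.exists_right_inv ?_
    rw [PowerSeries.isUnit_iff_constantCoeff, isUnit_iff_ne_zero]
    simp only [hc, hk, map_mul, map_sub, map_pow, map_ofNat, PowerSeries.constantCoeff_C]
    exact mul_ne_zero (mul_ne_zero (by norm_num) (sub_ne_zero.2 hκ)) (pow_ne_zero _ ha)
  let A : (Fin 2 → K⟦X⟧) → K⟦X⟧ := fun w => c + PowerSeries.X * (w 0 + w 1)
  let B : (Fin 2 → K⟦X⟧) → K⟦X⟧ := fun w => -c + PowerSeries.X * (w 0 - w 1)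
  let R : Fin 2 → (Fin 2 → K⟦X⟧) → K⟦X⟧ := fun i w =>
    sec_R (p i) (k i) (Γ i) (Γ' i) (A w) (B w) - sec_R (p i) (k i) (Γ i) (Γ' i) (B w) (A w)
  have hA : sec_Ct 1 A := sec_add (sec_const _) (sec_X (sec_add (sec_proj 0) (sec_proj 1)))
  have hB : sec_Ct 1 B := sec_add (sec_const _) (sec_X (sec_sub (sec_proj 0) (sec_proj 1)))
  have hR : ∀ i, sec_Ct 1 (R i) := fun i =>
    sec_sub (sec_R_ct _ _ (hΓ i) (hΓ' i) hA hB) (sec_R_ct _ _ (hΓ i) (hΓ' i) hB hA)
  let P0 : (Fin 2 → K⟦X⟧) → K⟦X⟧ := fun w => -e1 * (PowerSeries.X * (4 * (w 0 * w 1)) +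
    (A w - B w) * (p 0 + k 0 * (A w * B w)) + PowerSeries.X * R 0 w)
  let P1 : (Fin 2 → K⟦X⟧) → K⟦X⟧ := fun w => e2 *
    (PowerSeries.X * (-4 * (k 0 - k 1) * c * (w 1 * w 1)) +
      (A w - B w) * (q + PowerSeries.X * ((k 0 - k 1) * (w 0 * w 0 - w 1 * w 1))) +
      (R 0 w - R 1 w))
  have h0 : sec_Ct 1 P0 := sec_mul (sec_const _) (sec_add (sec_add
    (sec_X (sec_mul (sec_const _) (sec_mul (sec_proj 0) (sec_proj 1))))
    (sec_mul (sec_sub hA hB) (sec_add (sec_const _) (sec_mul (sec_const _) (sec_mul hA hB)))))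
    (sec_mul (sec_const _) (hR 0)))
  have h1 : sec_Ct 1 P1 := sec_mul (sec_const _) (sec_add (sec_add
    (sec_X (sec_mul (sec_const _) (sec_mul (sec_proj 1) (sec_proj 1))))
    (sec_mul (sec_sub hA hB) (sec_add (sec_const _) (sec_X (sec_mul (sec_const _)
      (sec_sub (sec_mul (sec_proj 0) (sec_proj 0)) (sec_mul (sec_proj 1) (sec_proj 1))))))))
    (sec_sub (hR 0) (hR 1)))
  obtain ⟨w, hw⟩ := hFIX K (Fin 2) (fun w => ![P0 w, P1 w]) (fun n a b h => by
    rw [Fin.forall_fin_two]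
    exact ⟨h0 n a b h, h1 n a b h⟩)
  have w0 : P0 w = w 0 := congrFun hw 0
  have w1 : P1 w = w 1 := congrFun hw 1
  have eA : A w = c + PowerSeries.X * (w 0 + w 1) := rfl
  have eB : B w = -c + PowerSeries.X * (w 0 - w 1) := rfl
  have F0 : (A w - B w) * (2 * w 0 + p 0 + k 0 * (A w * B w)) + PowerSeries.X * R 0 w = 0 := by
    simp only [P0] at w0
    linear_combination (-4 * c) * w0 - (PowerSeries.X * (4 * (w 0 * w 1)) +
      (A w - B w) * (p 0 + k 0 * (A w * B w)) + PowerSeries.X * R 0 w) * he1 +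
      2 * w 0 * (eA - eB)
  have G2 : (A w - B w) * (q - 2 * (k 0 - k 1) * c * w 1 +
      PowerSeries.X * ((k 0 - k 1) * (w 0 * w 0 - w 1 * w 1))) + (R 0 w - R 1 w) = 0 := by
    simp only [P1] at w1
    linear_combination (4 * (k 0 - k 1) * c ^ 2) * w1 -
      (PowerSeries.X * (-4 * (k 0 - k 1) * c * (w 1 * w 1)) +
      (A w - B w) * (q + PowerSeries.X * ((k 0 - k 1) * (w 0 * w 0 - w 1 * w 1))) +
      (R 0 w - R 1 w)) * he2 - 2 * (k 0 - k 1) * c * w 1 * (eA - eB)
  have eAB : A w * B w = -c ^ 2 - 2 * PowerSeries.X * c * w 1 +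
      PowerSeries.X ^ 2 * (w 0 * w 0 - w 1 * w 1) := by
    rw [eA, eB]
    ring
  have hq' : p 0 - p 1 - c ^ 2 * (k 0 - k 1) = PowerSeries.X * q := hq
  have F : ∀ i, (A w - B w) * (2 * w 0 + p i + k i * (A w * B w)) + PowerSeries.X * R i w = 0 := by
    rw [Fin.forall_fin_two]
    refine ⟨F0, ?_⟩
    linear_combination F0 - PowerSeries.X * G2 - (A w - B w) * hq' -
      (A w - B w) * (k 0 - k 1) * eAB
  choose d hd using fun i => sec_unit (A w) (k i) (Γ' i (A w))
  refine ⟨![A w, B w], fun i => -(A w ^ 2 + PowerSeries.X * A w * p i +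
    PowerSeries.X ^ 2 * Γ i (A w)) * d i, ?_, ?_, fun i => ?_⟩
  · show PowerSeries.constantCoeff (A w) = a0
    simp [eA, hc]
  · show PowerSeries.constantCoeff (B w) = -a0
    simp [eB, hc]
  · have hi := hd i
    have Fi := F i
    have eS : A w + B w = 2 * PowerSeries.X * w 0 := by
      rw [eA, eB]
      ring
    simp only [R, sec_R] at Fi
    rw [Fin.forall_fin_two]
    constructor
    · show A w ^ 2 + PowerSeries.X * A w * p i + PowerSeries.X ^ 2 * Γ i (A w) + _ *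
        (1 + PowerSeries.X * A w * k i + PowerSeries.X ^ 2 * Γ' i (A w)) = 0
      linear_combination (-(A w ^ 2 + PowerSeries.X * A w * p i +
        PowerSeries.X ^ 2 * Γ i (A w))) * hi
    · show B w ^ 2 + PowerSeries.X * B w * p i + PowerSeries.X ^ 2 * Γ i (B w) + _ *
        (1 + PowerSeries.X * B w * k i + PowerSeries.X ^ 2 * Γ' i (B w)) = 0
      linear_combination (-(B w ^ 2 + PowerSeries.X * B w * p i +
        PowerSeries.X ^ 2 * Γ i (B w))) * hi - d i * PowerSeries.X * Fi -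
        d i * (A w - B w) * eS

end

end Pool.Agent.P.MP_9344a7_nt.Gt
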