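import Pool.Agent.P.MP_9344a7_nt.Gt.Iface

/-! Steps PK, MK, ME, AUX. -/

set_option linter.unusedSectionVars false
set_option linter.unusedVariables false

namespace Pool.Agent.P.MP_9344a7_nt.Gt

open WithZero Module
open Pool.Agent.P.MP_6f117a_ag (Place FF)
open Pool.Agent.P.MP_ab3ecb_nt.Inv
open Pool.Agent.P.MP_9344a7_nt.R (Fr rr_fd)
open Pool.Agent.P.MP_9344a7_nt.Tor (Prd ExF IsUP AL)
open scoped Classical PowerSeries IntermediateField Polynomial Polynomial.Bivariate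

section

section pk

open PowerSeries

variable {K : Type} [Field K] {φ ψ : K⟦X⟧ → K⟦X⟧}

lemma pk_add (h : Lp φ) (h' : Lp ψ) : Lp fun a => φ a + ψ a := fun n a b e => by
  have := (h n a b e).add (h' n a b e)
  rwa [show φ a - φ b + (ψ a - ψ b) = φ a + ψ a - (φ b + ψ b) by ring] at this

lemma pk_mul (h : Lp φ) (h' : Lp ψ) : Lp fun a => φ a * ψ a := fun n a b e => by
  have := ((h n a b e).mul_right (ψ a)).add ((h' n a b e).mul_left (φ b))
  rwa [show (φ a - φ b) * ψ a + φ b * (ψ a - ψ b) = φ a * ψ a - φ b * ψ b by ring] at this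

lemma pk_const (c : K⟦X⟧) : Lp fun _ => c := fun n a b _ => by simp

lemma pk_id : Lp fun a : K⟦X⟧ => a := fun _ _ _ e => e

lemma pk_sum {γ : Type} (s : Finset γ) {φ : γ → K⟦X⟧ → K⟦X⟧} (h : ∀ j, Lp (φ j)) :
    Lp fun a => ∑ j ∈ s, φ j a := fun n a b e => by
  rw [← Finset.sum_sub_distrib]
  exact Finset.dvd_sum fun j _ => h j n a b e

lemma pk_two (y φ ψ : Fin 2 → K⟦X⟧) (hy : constantCoeff (y 0) ≠ constantCoeff (y 1))
    (h : ∀ i, constantCoeff (φ i) = 1) (h' : ∀ i, constantCoeff (ψ i) = 1) : ∃ p p' : K⟦X⟧,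
    constantCoeff p = -(constantCoeff (y 0) + constantCoeff (y 1)) ∧
      ∀ i, y i ^ 2 + p * y i * φ i + p' * ψ i = 0 := by
  obtain ⟨u, hu⟩ : IsUnit (y 0 * φ 0 * ψ 1 - y 1 * φ 1 * ψ 0) := by
    rw [isUnit_iff_constantCoeff]
    simpa [h, h', sub_eq_zero] using hy
  have e : (y 0 * φ 0 * ψ 1 - y 1 * φ 1 * ψ 0) * (u⁻¹ : K⟦X⟧ˣ) = 1 := by rw [← hu, u.mul_inv]
  generalize ((u⁻¹ : K⟦X⟧ˣ) : K⟦X⟧) = v at e
  have k : ∀ i, y i ^ 2 + -(y 0 ^ 2 * ψ 1 - y 1 ^ 2 * ψ 0) * v * y i * φ i +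
      -(y 0 * φ 0 * y 1 ^ 2 - y 1 * φ 1 * y 0 ^ 2) * v * ψ i = 0 :=
    Fin.forall_fin_two.2 ⟨by linear_combination -y 0 ^ 2 * e, by linear_combination -y 1 ^ 2 * e⟩
  refine ⟨_, _, ?_, k⟩
  generalize -(y 0 ^ 2 * ψ 1 - y 1 ^ 2 * ψ 0) * v = p at k
  generalize -(y 0 * φ 0 * y 1 ^ 2 - y 1 * φ 1 * y 0 ^ 2) * v = p' at k
  have k0 := congrArg constantCoeff (k 0)
  have k1 := congrArg constantCoeff (k 1)
  simp only [map_add, map_mul, map_pow, h, h', map_zero] at k0 k1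
  refine mul_left_cancel₀ (sub_ne_zero.2 hy) ?_
  linear_combination k0 - k1

lemma pk_lin {γ : Type} [Fintype γ] (A : Matrix γ γ K⟦X⟧) (r : γ → K⟦X⟧)
    (hA : ∀ l j, constantCoeff (A l j) = if l = j then 1 else 0)
    (hr : ∀ l, constantCoeff (r l) = 0) :
    ∃ k : γ → K⟦X⟧, ∀ l, r l + ∑ j, X * k j * A l j = 0 := by
  have h : IsUnit A.det := by
    rw [isUnit_iff_constantCoeff, RingHom.map_det,
      show (constantCoeff (R := K)).mapMatrix A = 1 from Matrix.ext fun l j => by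
        rw [Matrix.one_apply, ← hA]; rfl, Matrix.det_one]
    exact isUnit_one
  choose r' hr' using fun l => X_dvd_iff.2 (hr l)
  refine ⟨-(A⁻¹.mulVec r'), fun l => ?_⟩
  have e : A.mulVec (A⁻¹.mulVec r') l = r' l := by
    rw [Matrix.mulVec_mulVec, A.mul_nonsing_inv h, Matrix.one_mulVec]
  rw [hr', ← e, Matrix.mulVec, dotProduct, Finset.mul_sum, ← Finset.sum_add_distrib]
  exact Finset.sum_eq_zero fun j _ => by rw [Pi.neg_apply]; ring

end pk

theorem p_PK (hLIP : S_LIP) (hROOT : S_ROOT) :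
    S_PK := by
  intro K γ _ _ y b0 b1 bf bg z0 z1 zf zg hy h00 h01 h1 hf hg hzf hzg hzg'
  let S : K⟦X⟧ → K⟦X⟧ := fun f => PowerSeries.mk fun i => PowerSeries.coeff (i + 1) f
  have cS : ∀ f, PowerSeries.coeff 0 (S f) = PowerSeries.coeff 1 f := fun f => PowerSeries.coeff_mk _ _
  have c0 : ∀ f x : K⟦X⟧, PowerSeries.constantCoeff x = 0 →
    PowerSeries.constantCoeff (f.subst x) = PowerSeries.coeff 0 f := fun f x h => ((hLIP K f).1 x h).1
  have s0 : ∀ f x : K⟦X⟧, PowerSeries.constantCoeff x = 0 → f.subst x =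
    PowerSeries.C (PowerSeries.coeff 0 f) + x * (S f).subst x := fun f x h => ((hLIP K f).1 x h).2
  have lp : ∀ f : K⟦X⟧, Lp fun a : K⟦X⟧ => (f.subst (PowerSeries.X * a : K⟦X⟧) : K⟦X⟧) :=
    fun f => (hLIP K f).2.2
  have x2 : ∀ i, PowerSeries.constantCoeff (PowerSeries.X ^ 2 * y i) = 0 := fun i => by simp
  obtain ⟨p, p', hp, hp'⟩ := pk_two y (fun i => (S b0).subst (PowerSeries.X ^ 2 * y i))
    (fun i => b1.subst (PowerSeries.X ^ 2 * y i)) hy (fun i => by rw [c0 _ _ (x2 i), cS, h01])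
    fun i => by rw [c0 _ _ (x2 i), h1]
  choose ζ hζ hζ' using fun l => hROOT K (Fin 2) ![PowerSeries.X ^ 2 * p, PowerSeries.X ^ 4 * p']
    ![z0 l, z1 l] (Fin.forall_fin_two.2 ⟨by simp, by simp⟩)
  obtain ⟨k, hk⟩ := pk_lin (Matrix.of fun l j => (zg l j).subst (ζ l)) (fun l => (zf l).subst (ζ l))
    (fun l j => by
      rw [Matrix.of_apply, c0 _ _ (hζ l)]
      split_ifs with h
      · rw [← h, hzg]
      · exact hzg' l j (Ne.symm h)) fun l => by rw [c0 _ _ (hζ l), hzf]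
  refine ⟨p, p', fun j => PowerSeries.X * k j, ζ, fun a => p * (a * a) *
    (S (S b0)).subst (PowerSeries.X * a) + p' * b1.subst (PowerSeries.X * a), fun a => a * a *
    (S (S bf)).subst (PowerSeries.X * a) + ∑ j, k j * a * (S (bg j)).subst (PowerSeries.X * a),
    pk_add (pk_mul (pk_mul (pk_const _) (pk_mul pk_id pk_id)) (lp _)) (pk_mul (pk_const _) (lp _)),
    pk_add (pk_mul (pk_mul pk_id pk_id) (lp _)) (pk_sum _ fun j =>
      pk_mul (pk_mul (pk_const _) pk_id) (lp _)), hp, fun i => ?_, fun l => ⟨hζ l, ?_, hk l⟩,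
    fun a => ?_⟩
  · rw [s0 b0 _ (x2 i), h00, map_zero]
    linear_combination PowerSeries.X ^ 4 * hp' i
  · have := hζ' l
    rw [Fin.sum_univ_two, ← add_assoc] at this
    exact this
  · have xa : PowerSeries.constantCoeff (PowerSeries.X * a) = 0 := by simp
    refine ⟨?_, ?_⟩
    · rw [s0 b0 _ xa, s0 (S b0) _ xa, h00, cS, h01, map_zero, map_one]
      ring
    · rw [s0 bf _ xa, s0 (S bf) _ xa, hf, cS, map_one, mul_add (PowerSeries.X ^ 2), Finset.mul_sum,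
        Finset.sum_congr rfl fun j _ => show PowerSeries.X * k j * (bg j).subst (PowerSeries.X * a) =
          PowerSeries.X ^ 2 * (k j * a * (S (bg j)).subst (PowerSeries.X * a)) by
            rw [s0 (bg j) _ xa, hg, map_zero]; ring]
      ring

end

section

namespace MKx

open PowerSeries

variable {K : Type} [Field K]

lemma ccs (hLIP : S_LIP) (f x : K⟦X⟧) (hx : constantCoeff x = 0) :
    constantCoeff (f.subst x : K⟦X⟧) = coeff 0 f :=
  ((hLIP K f).1 x hx).1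

lemma scale (hLIP : S_LIP) (hROOT : S_ROOT) (s : K⟦X⟧) (q : K) (hs : coeff 0 s ≠ 0) :
    ∃ w : K⟦X⟧, constantCoeff w = q ∧
      (s.subst (X ^ 2 * w : K⟦X⟧) : K⟦X⟧) * w = C (q * coeff 0 s) := by
  have hs' : constantCoeff s ≠ 0 := by simpa using hs
  obtain ⟨x, hx0, hx⟩ := hROOT K Unit (fun _ => -(X ^ 2 * C (q * coeff 0 s))) (fun _ => s⁻¹)
    (fun _ => by simp)
  have hx' : x = X ^ 2 * (C (q * coeff 0 s) * (s⁻¹).subst x) := by
    simp only [Finset.univ_unique, Finset.sum_singleton] at hx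
    linear_combination hx
  have hS : HasSubst x := HasSubst.of_constantCoeff_zero' hx0
  have h1 : (s.subst x : K⟦X⟧) * (s⁻¹).subst x = 1 := by
    rw [← subst_mul hS, PowerSeries.mul_inv_cancel s hs', ← coe_substAlgHom hS, map_one]
  refine ⟨C (q * coeff 0 s) * (s⁻¹).subst x, ?_, ?_⟩
  · rw [map_mul, ccs hLIP _ _ hx0]
    simp only [constantCoeff_C, coeff_zero_eq_constantCoeff, constantCoeff_inv]
    field_simp
  · rw [← hx']
    linear_combination C (q * coeff 0 s) * h1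

lemma farpt (hROOT : S_ROOT) {γ : Type} [Fintype γ] (p p' e f0 f1 f2 : K⟦X⟧) (kk g : γ → K⟦X⟧) :
    ∃ x : K⟦X⟧, constantCoeff x = 0 ∧
      x + X ^ 2 * p * f0.subst x + X ^ 4 * p' * f1.subst x +
        X ^ 2 * e * (f2.subst x + ∑ l, kk l * (g l).subst x) = 0 := by
  obtain ⟨x, hx0, hx⟩ := hROOT K (Fin 3 ⊕ γ)
    (Sum.elim ![X ^ 2 * p, X ^ 4 * p', X ^ 2 * e] fun l => X ^ 2 * e * kk l)
    (Sum.elim ![f0, f1, f2] g) (by
      rintro (i | l)
      · fin_cases i <;> simp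
      · simp)
  refine ⟨x, hx0, ?_⟩
  rw [Fintype.sum_sum_type, Fin.sum_univ_three] at hx
  simp only [Sum.elim_inl, Sum.elim_inr, Matrix.cons_val_zero, Matrix.cons_val_one,
    Matrix.cons_val] at hx
  rw [mul_add, Finset.mul_sum]
  simp only [← mul_assoc]
  linear_combination hx

lemma cpt (hROOT : S_ROOT) (μ f : K⟦X⟧) (hμ : constantCoeff μ = 0) :
    ∃ x : K⟦X⟧, constantCoeff x = 0 ∧ x = μ * f.subst x := by
  obtain ⟨x, hx0, hx⟩ := hROOT K Unit (fun _ => -μ) (fun _ => f) (fun _ => by simp [hμ])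
  simp only [Finset.univ_unique, Finset.sum_singleton] at hx
  exact ⟨x, hx0, by linear_combination hx⟩

lemma mupt (hLIP : S_LIP) (f x : K⟦X⟧) (hx : constantCoeff x = 0) (h0 : coeff 0 f = 0)
    (h1 : coeff 1 f = 1) : ∃ μ : K⟦X⟧, constantCoeff μ = 0 ∧ x ^ 2 = μ * f.subst x := by
  set u : K⟦X⟧ := (PowerSeries.mk fun i => coeff (i + 1) f).subst x with hu
  have hu1 : constantCoeff u ≠ 0 := by
    rw [hu, ccs hLIP _ _ hx]
    simp [h1]
  have h2 : u * u⁻¹ = 1 := PowerSeries.mul_inv_cancel u hu1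
  refine ⟨x * u⁻¹, by simp [hx], ?_⟩
  rw [((hLIP K f).1 x hx).2, h0, ← hu, map_zero]
  linear_combination (-x ^ 2) * h2

lemma third (N D : K⟦X⟧) (hD : constantCoeff D ≠ 0) : ∃ l : K⟦X⟧, N + l * D = 0 :=
  ⟨-N * D⁻¹, by linear_combination (-N) * PowerSeries.mul_inv_cancel D hD⟩

lemma X2_ne (w : K⟦X⟧) (hw : constantCoeff w ≠ 0) : (X ^ 2 * w : K⟦X⟧) ≠ 0 :=
  mul_ne_zero (pow_ne_zero _ X_ne_zero) fun h => hw (by simp [h])

lemma X1_ne (a w : K⟦X⟧) (ha : constantCoeff a ≠ 0) : (X * a : K⟦X⟧) ≠ X ^ 2 * w := by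
  intro h
  have : a = X * w := mul_left_cancel₀ X_ne_zero (by rw [h]; ring)
  exact ha (by simp [this])

/-- The scales of the near points. -/
noncomputable def sc {m : ℕ} (qt : Fin 2 → K⟦X⟧) (d : Fin 2 → K) : Pn m → K⟦X⟧
  | .Q i => qt i
  | .R i => C (d i)
  | _ => 0

end MKx

open MKx PowerSeries in
theorem p_MK (_hFIX : S_FIX) (hLIP : S_LIP) (hROOT : S_ROOT) (hSEC : S_SEC) (hPK : S_PK) :
    S_MK := by
  intro m K _ _ c r h
  have hsB : coeff 0 (r .B .s) ≠ 0 := by rw [h.s0]; exact h.sB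
  choose qt hq0 hq using fun i : Fin 2 => scale hLIP hROOT (r .B .s) (c (.q i)) hsB
  have hqd : ∀ j : J4, c (.q j.1) ≠ c (.d j.2) := by
    intro j he
    have h1 := h.aκ j
    rw [he, sub_self] at h1
    exact mul_ne_zero (pow_ne_zero 2 (h.a j)) (sub_ne_zero.2 (h.κ j)) h1
  let S : Pn m → K⟦X⟧ := sc qt fun i => c (.d i)
  have hS : ∀ I : I12, constantCoeff (S (np I 0)) ≠ constantCoeff (S (np I 1)) := by
    rintro ⟨j, i⟩
    fin_cases i
    · simpa [S, sc, np] using h.d j.2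
    · simpa [S, sc, np, hq0] using h.q j.1
    · simpa [S, sc, np, hq0] using hqd j
  choose p p' kk ζ Γ Γ' hΓ hΓ' hp hnp hζ hf using fun I : I12 =>
    hPK K (Fin (m + 3)) (fun l => S (np I l)) (r .B (.h 0)) (r .B (.h 1)) (r .B (.f I))
      (fun l => r .B (.g I l)) (fun l => r (.Z l) (.h 0)) (fun l => r (.Z l) (.h 1))
      (fun l => r (.Z l) (.f I)) (fun l l' => r (.Z l) (.g I l')) (hS I) h.h00 h.h01 h.h10
      (h.f0 I) (h.g0 I) (fun l => h.zf l I) (fun l => h.zg l I) (fun l l' => h.zg' l I l')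
  let κ : I12 → K := fun I => coeff 1 (r .B (.f I))
  choose a l ha0 ha1 hl using fun j : J4 =>
    hSEC K ![p (j, 0), p (j, 1)] ![κ (j, 0), κ (j, 1)] ![Γ (j, 0), Γ (j, 1)]
      ![Γ' (j, 0), Γ' (j, 1)] (c (.a j))
      (fun i => by fin_cases i; exacts [hΓ _, hΓ _])
      (fun i => by fin_cases i; exacts [hΓ' _, hΓ' _]) (h.a j) (h.κ j) (by
        have h1 := h.aκ j
        have h2 := hp (j, 0)
        have h3 := hp (j, 1)
        simp only [S, sc, np, Matrix.cons_val_zero, Matrix.cons_val_one, map_zero, add_zero,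
          constantCoeff_C, hq0] at h2 h3
        simp only [Matrix.cons_val_zero, Matrix.cons_val_one, h2, h3]
        linear_combination h1)
  let N : I12 → K⟦X⟧ → K⟦X⟧ := fun I b => b ^ 2 + X * b * p I + X ^ 2 * Γ I b
  let D : I12 → K⟦X⟧ → K⟦X⟧ := fun I b => 1 + X * b * C (κ I) + X ^ 2 * Γ' I b
  have hD : ∀ I b, constantCoeff (D I b) = 1 := fun I b => by simp [D]
  have hN : ∀ I b, constantCoeff (N I b) = constantCoeff b ^ 2 := fun I b => by simp [N]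
  have hlam : ∀ I : I12, ∃ e : K⟦X⟧, N I (a I.1 0) + e * D I (a I.1 0) = 0 ∧
      (I.2 ≠ 2 → N I (a I.1 1) + e * D I (a I.1 1) = 0) := by
    rintro ⟨j, i⟩
    fin_cases i
    · exact ⟨l j 0, hl j 0 0, fun _ => hl j 0 1⟩
    · exact ⟨l j 1, hl j 1 0, fun _ => hl j 1 1⟩
    · obtain ⟨e, he⟩ := third (N (j, 2) (a j 0)) (D (j, 2) (a j 0)) (by rw [hD]; exact one_ne_zero)
      exact ⟨e, he, fun hh => (hh rfl).elim⟩
  choose e he0 he1 using hlam
  have he : ∀ I, constantCoeff (e I) ≠ 0 := by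
    intro I h0
    have h1 := congrArg constantCoeff (he0 I)
    rw [map_add, map_mul, hN, h0, ha0, map_zero] at h1
    exact pow_ne_zero 2 (h.a I.1) (by simpa using h1)
  have haa : ∀ j i, constantCoeff (a j i) ≠ 0 := by
    intro j i
    fin_cases i
    · exact (ha0 j).trans_ne (h.a j)
    · exact (ha1 j).trans_ne (neg_ne_zero.2 (h.a j))
  choose xf hxf0 hxf using fun (I : I12) (d : Fin 2 ⊕ Fin m) =>
    farpt hROOT (p I) (p' I) (e I) (r (far I d) (.h 0)) (r (far I d) (.h 1)) (r (far I d) (.f I))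
      (kk I) fun l => r (far I d) (.g I l)
  choose μ hμ0 hμ using fun j : J4 =>
    mupt hLIP (r .B (.c j)) (X * a j 0) (by simp) (h.c0 j) (h.c1 j)
  choose xc hxc0 hxc using fun (j : J4) (d : Fin 3 ⊕ Fin m) =>
    cpt hROOT (μ j) (r (cfar j d) (.c j)) (hμ0 j)
  let y : Un m → K⟦X⟧ := fun u => match u with
    | .s I i => ![X ^ 2 * p I, X ^ 4 * p' I] i
    | .e I => X ^ 2 * e I
    | .k I l => kk I l
    | .μ j => μ j
  let x : Pn m → K⟦X⟧ := fun u => match u with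
    | .o => 0
    | .Q i => X ^ 2 * qt i
    | .R i => X ^ 2 * C (c (.d i))
    | .T j l => X * a j l
    | .Z I l => ζ I l
    | .F I d => xf I d
    | .C j d => xc j d
  have hxn : ∀ (I : I12) (i : Fin 2), x (np I i) = X ^ 2 * S (np I i) ∧ bs (np I i : Pn m) = .B := by
    rintro ⟨j, i⟩ i'
    fin_cases i <;> fin_cases i' <;> simp [x, S, sc, np, bs]
  have hs1 : ∀ (I : I12) (b : K⟦X⟧),
      s1 y I ((X * b) ^ 2) (fun i => (r .B i).subst (X * b : K⟦X⟧)) = X ^ 2 * N I b :=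
    fun I b => (hf I b).1
  have hs3 : ∀ (I : I12) (b : K⟦X⟧),
      s3 y I ((X * b) ^ 2) (fun i => (r .B i).subst (X * b : K⟦X⟧)) =
        X ^ 2 * (N I b + e I * D I b) := by
    intro I b
    have h2 : s2 y I (fun i => (r .B i).subst (X * b : K⟦X⟧)) = D I b := (hf I b).2
    rw [s3, hs1, h2]
    simp only [y]
    ring
  refine ⟨y, x, ?_, ?_⟩
  · rintro (_ | i | i | ⟨j, i⟩ | ⟨I, i⟩ | ⟨I, d⟩ | ⟨j, d⟩)
    · simp [x]
    · simp [x]
    · simp [x]
    · simp [x]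
    · exact (hζ I i).1
    · exact hxf0 I d
    · exact hxc0 j d
  · refine
      { o := rfl
        con := fun j => ?_
        np := fun I i => ?_
        z1 := fun I i => (hζ I i).2.1
        z2 := fun I i => (hζ I i).2.2
        far := fun I d => hxf I d
        t0 := fun I => ?_
        t1 := fun I hI => ?_
        n1 := fun I => ?_
        n3 := fun I => ?_
        c0 := fun j => hμ j
        cf := fun j d => hxc j d
        Q0 := fun i => X2_ne _ (by rw [hq0]; exact h.q i)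
        R0 := fun i => X2_ne _ (by simpa using h.d i)
        T0 := fun j i => mul_ne_zero X_ne_zero fun hh => haa j i (by simp [hh])
        QR := fun j hh => ?_
        TQ := fun j i => X1_ne _ _ (haa j i)
        TR := fun j i => X1_ne _ _ (haa j i)
        TT := fun j hh => ?_ }
    · have h1 := hq j.1
      rw [h.s0, h.qd j, map_mul] at h1
      change C (c (.σ j)) * (X ^ 2 * C (c (.d j.2))) =
        (r .B .s).subst (X ^ 2 * qt j.1 : K⟦X⟧) * (X ^ 2 * qt j.1)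
      linear_combination (-X ^ 2) * h1
    · simp only [(hxn I i).1, (hxn I i).2]
      exact hnp I i
    · exact (hs3 I (a I.1 0)).trans (by rw [he0, mul_zero])
    · exact (hs3 I (a I.1 1)).trans (by rw [he1 I hI, mul_zero])
    · refine (hs1 I (a I.1 0)).trans_ne (X2_ne _ ?_)
      rw [hN]
      exact pow_ne_zero 2 (haa _ _)
    · have h1 := hs3 I 0
      rw [mul_zero] at h1
      refine h1.trans_ne (X2_ne _ ?_)
      rw [map_add, map_mul, hN, hD]
      simpa using he I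
    · have h1 : qt j.1 = C (c (.d j.2)) := mul_left_cancel₀ (pow_ne_zero 2 X_ne_zero) hh
      exact hqd j (by rw [← hq0, h1]; simp)
    · have h1 : a j 0 = a j 1 := mul_left_cancel₀ X_ne_zero hh
      have h2 := ha0 j
      rw [h1, ha1] at h2
      exact h.a j (by linear_combination (-1 / 2 : K) * h2)

end

section

lemma me_hm {m : ℕ} {L : Type} [CommRing L] (c : Sc → L) (a0 a1 : Bs m → Fn m → L) :
    HM m L c a0 a1 ↔
    (a0 .B (.h 0) = 0) ∧
    (a1 .B (.h 0) = 1) ∧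
    (a0 .B (.h 1) = 1) ∧
    (∀ I : I12, a0 .B (.f I) = 1) ∧
    (∀ I l, a0 .B (.g I l) = 0) ∧
    (∀ j, a0 .B (.c j) = 0) ∧
    (∀ j, a1 .B (.c j) = 1) ∧
    (a0 .B .s = c .sB) ∧
    (∀ l I, a0 (.Z l) (.f I) = 0) ∧
    (∀ l I, a0 (.Z l) (.g I l) = 1) ∧
    (∀ l I l', l' ≠ l → a0 (.Z l) (.g I l') = 0) ∧
    (c .sB ≠ 0) ∧
    (∀ i, c (.d i) ≠ 0) ∧
    (∀ i, c (.q i) ≠ 0) ∧
    (∀ j : J4, c (.q j.1) * c .sB = c (.σ j) * c (.d j.2)) ∧
    (∀ j, c (.a j) ≠ 0) ∧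
    (∀ j, a1 .B (.f (j, 0)) ≠ a1 .B (.f (j, 1))) ∧
    (∀ j : J4, c (.a j) ^ 2 * (a1 .B (.f (j, 0)) - a1 .B (.f (j, 1))) = c (.q j.1) - c (.d j.2)) :=
  ⟨fun ⟨h0, h1, h2, h3, h4, h5, h6, h7, h8, h9, h10, h11, h12, h13, h14, h15, h16, h17⟩ =>
    ⟨h0, h1, h2, h3, h4, h5, h6, h7, h8, h9, h10, h11, h12, h13, h14, h15, h16, h17⟩,
  fun ⟨h0, h1, h2, h3, h4, h5, h6, h7, h8, h9, h10, h11, h12, h13, h14, h15, h16, h17⟩ =>
    ⟨h0, h1, h2, h3, h4, h5, h6, h7, h8, h9, h10, h11, h12, h13, h14, h15, h16, h17⟩⟩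

lemma me_sm {m : ℕ} {L : Type} [CommRing L] (c : Sc → L) (y : Un m → L) (x : Pn m → L)
    (V : Pn m → Fn m → L) : SM m L c y x V ↔
    (x .o = 0) ∧
    (∀ j : J4, c (.σ j) * x (.R j.2) = V (.Q j.1) .s * x (.Q j.1)) ∧
    (∀ I l, s1 y I (x (np I l) ^ 2) (V (np I l)) = 0) ∧
    (∀ I l, s1 y I (x (.Z I l)) (V (.Z I l)) = 0) ∧
    (∀ I l, s2 y I (V (.Z I l)) = 0) ∧
    (∀ I d, s3 y I (x (.F I d)) (V (.F I d)) = 0) ∧
    (∀ I : I12, s3 y I (x (.T I.1 0) ^ 2) (V (.T I.1 0)) = 0) ∧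
    (∀ I : I12, I.2 ≠ 2 → s3 y I (x (.T I.1 1) ^ 2) (V (.T I.1 1)) = 0) ∧
    (∀ I : I12, s1 y I (x (.T I.1 0) ^ 2) (V (.T I.1 0)) ≠ 0) ∧
    (∀ I, s3 y I (x .o ^ 2) (V .o) ≠ 0) ∧
    (∀ j, x (.T j 0) ^ 2 = y (.μ j) * V (.T j 0) (.c j)) ∧
    (∀ j d, x (.C j d) = y (.μ j) * V (.C j d) (.c j)) ∧
    (∀ i, x (.Q i) ≠ 0) ∧
    (∀ i, x (.R i) ≠ 0) ∧
    (∀ j l, x (.T j l) ≠ 0) ∧
    (∀ j : J4, x (.Q j.1) ≠ x (.R j.2)) ∧
    (∀ (j : J4) l, x (.T j l) ≠ x (.Q j.1)) ∧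
    (∀ (j : J4) l, x (.T j l) ≠ x (.R j.2)) ∧
    (∀ j, x (.T j 0) ≠ x (.T j 1)) :=
  ⟨fun ⟨h0, h1, h2, h3, h4, h5, h6, h7, h8, h9, h10, h11, h12, h13, h14, h15, h16, h17, h18⟩ =>
    ⟨h0, h1, h2, h3, h4, h5, h6, h7, h8, h9, h10, h11, h12, h13, h14, h15, h16, h17, h18⟩,
  fun ⟨h0, h1, h2, h3, h4, h5, h6, h7, h8, h9, h10, h11, h12, h13, h14, h15, h16, h17, h18⟩ =>
    ⟨h0, h1, h2, h3, h4, h5, h6, h7, h8, h9, h10, h11, h12, h13, h14, h15, h16, h17, h18⟩⟩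

theorem p_ME :
    S_ME := by
  intro m
  refine ⟨ExR.iff ?_ fun L _ w => me_hm _ _ _, ExR.iff ?_ fun L _ w => me_sm _ _ _ _⟩
  all_goals
    repeat' first
      | refine ExR.and ?_ ?_
      | refine ExR.ne ?_ ?_
      | refine ExR.eq ?_ ?_
      | refine ExR.all fun _ => ?_
      | refine ExR.imp _ fun _ => ?_
  all_goals
    intro L L' _ _ φ x
    simp only [s1, s2, s3, map_sum, map_add, map_mul, map_pow, map_sub, map_zero, map_one]

end

section

theorem p_AUX :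
    S_AUX := by
  intro g C1 n
  refine ⟨(n + 3 * g) * C1, fun F _ _ C X hq hM hX => ?_⟩
  have key : ∀ r ≤ g, ∃ Z : Fin r → C.Pl, Function.Injective Z ∧ (∀ l, C.Rat (Z l) ∧ Z l ∉ X) ∧
      lS (C.W - ∑ l, pt (Z l)) + r = g := by
    intro r
    induction r with
    | zero =>
      exact fun _ => ⟨Fin.elim0, fun l => l.elim0, fun l => l.elim0, by simpa using C.can.lS_W⟩
    | succ r ih =>
      intro hr
      obtain ⟨Z, h1, h2, h3⟩ := ih (by omega)
      obtain ⟨B, h4, h5⟩ := base_pts (D := C.W - ∑ l, pt (Z l)) (by omega)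
      rw [map_sub, C.can.deg_W, deg_sum_pt, Finset.card_fin] at h4
      have h6 : (X ∪ B ∪ Finset.univ.image Z).card ≤ n + 3 * g := by
        have a1 := Finset.card_union_le (X ∪ B) (Finset.univ.image Z)
        have a2 := Finset.card_union_le X B
        have a3 := Finset.card_image_le (s := Finset.univ) (f := Z)
        rw [Finset.card_fin] at a3
        omega
      obtain ⟨P, h7, h8⟩ := hM _ ((Nat.mul_le_mul_right _ h6).trans hq)
      simp only [Finset.mem_union, Finset.mem_image, Finset.mem_univ, true_and, not_or] at h8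
      refine ⟨Fin.cons P Z, Fin.cons_injective_iff.2 ⟨h8.2, h1⟩,
        Fin.forall_fin_succ.2 ⟨⟨h7, h8.1.1⟩, h2⟩, ?_⟩
      have h9 := h5 P h8.1.2
      rw [Fin.sum_univ_succ, add_comm (pt _), ← sub_sub]
      simp only [Fin.cons_zero, Fin.cons_succ]
      omega
  obtain ⟨Z, h1, h2, h3⟩ := key g le_rfl
  exact ⟨Z, h1, h2, by omega⟩

end

end Pool.Agent.P.MP_9344a7_nt.Gt
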