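import Pool.Agent.P.MP_9344a7_nt.Gt.M1
import Pool.Agent.P.MP_9344a7_nt.Gt.M2
import Pool.Agent.P.MP_9344a7_nt.Gt.M3
import Pool.Agent.P.MP_9344a7_nt.Gt.M4
import Pool.Agent.P.MP_9344a7_nt.Gt.M5
import Pool.Agent.P.MP_9344a7_nt.Gt.M6
import Pool.Agent.P.MP_9344a7_nt.Gt.M7
import Pool.Agent.P.MP_9344a7_nt.Gt.M8
import Pool.Agent.P.MP_9344a7_nt.Gt.M9
import Pool.Agent.P.MP_9344a7_nt.Gt.M10
import Pool.Agent.P.MP_9344a7_nt.Gt.M11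
import Pool.Agent.P.MP_9344a7_nt.Gt.M12
import Pool.Agent.P.MP_9344a7_nt.Gt.M13
import Pool.Agent.P.MP_9344a7_nt.Gt.M14
import Pool.Agent.P.MP_9344a7_nt.Gt.M15
import Pool.Agent.P.MP_9344a7_nt.Gt.M16
import Pool.Agent.P.MP_9344a7_nt.Tor.TFRE
import Pool.Agent.P.MP_9344a7_nt.Tor.TLIN
import Pool.Agent.P.MP_9344a7_nt.Tor.THUA
import Pool.Agent.P.MP_9344a7_nt.Tor.TLWQ
import Pool.Agent.P.MP_9344a7_nt.Tor.TUP
import Pool.Agent.P.MP_9344a7_nt.Tor.TAIR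
import Pool.Agent.P.MP_9344a7_nt.Tor.TPAC
import Pool.Agent.P.MP_9344a7_nt.Tor.TPJ
import Pool.Agent.P.MP_9344a7_nt.Tor.TIRR
import Pool.Agent.P.MP_9344a7_nt.Tor.TREG

/-! The assembly of the steps. -/

namespace Pool.Agent.P.MP_9344a7_nt.Gt

theorem t_FRE : Tor.S_FRE := Tor.p_FRE
theorem t_LIN : Tor.S_LIN := Tor.p_LIN
theorem t_HUA : Tor.S_HUA := Tor.p_HUA t_LIN
theorem t_LWQ : Tor.S_LWQ := Tor.p_LWQ
theorem t_UP : Tor.S_UP := Tor.p_UP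
theorem t_AIR : Tor.S_AIR := Tor.p_AIR t_UP
theorem t_PAC : Tor.S_PAC := Tor.p_PAC t_UP t_AIR t_LWQ
theorem t_PJ : Tor.S_PJ := Tor.p_PJ
theorem t_IRR : Tor.S_IRR := Tor.p_IRR
theorem t_REG : Tor.S_REG := Tor.p_REG t_IRR
theorem a_BDP : S_BDP := p_BDP
theorem a_BPF : S_BPF := p_BPF
theorem a_REL : S_REL := p_REL
theorem a_RAM : S_RAM := p_RAM a_BDP a_REL
theorem a_PRIM : S_PRIM := p_PRIM a_RAM
theorem a_AVF : S_AVF := p_AVF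
theorem a_DES : S_DES := p_DES
theorem a_AVD : S_AVD := p_AVD a_AVF a_DES
theorem a_MDL : S_MDL := p_MDL a_BPF a_REL a_PRIM a_AVF a_DES a_AVD
theorem a_NPT : S_NPT := p_NPT a_BDP a_MDL t_LWQ
theorem a_FRB : S_FRB := p_FRB
theorem a_H2 : S_H2 := p_H2
theorem a_UNI : S_UNI := p_UNI a_AVD
theorem a_EXP : S_EXP := p_EXP
theorem a_ENC : S_ENC := p_ENC a_BPF a_DES a_AVD
theorem a_UPC : S_UPC := p_UPC
theorem a_APP : S_APP := p_APP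
theorem a_MT : S_MT := p_MT a_APP t_UP t_REG t_PJ t_PAC
theorem a_TRF : S_TRF := p_TRF a_EXP a_ENC a_UPC a_MT
theorem a_MANY : S_MANY := p_MANY a_UNI a_TRF
theorem a_RM2 : S_RM2 := p_RM2 a_RAM
theorem a_FRM : S_FRM := p_FRM a_RM2 a_AVD
theorem a_NETF : S_NETF := p_NETF a_FRB
theorem a_DEN : S_DEN := p_DEN
theorem a_NF : S_NF := p_NF
theorem a_RES : S_RES := p_RES
theorem a_GF : S_GF := p_GF a_RES a_NF
theorem a_FIX : S_FIX := p_FIX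
theorem a_LIP : S_LIP := p_LIP
theorem a_ROOT : S_ROOT := p_ROOT a_FIX a_LIP
theorem a_SEC : S_SEC := p_SEC a_FIX
theorem a_PK : S_PK := p_PK a_LIP a_ROOT
theorem a_MK : S_MK := p_MK a_FIX a_LIP a_ROOT a_SEC a_PK
theorem a_ME : S_ME := p_ME
theorem a_KAP : S_KAP := p_KAP a_RES a_NF
theorem a_AUX : S_AUX := p_AUX
theorem a_FUN : S_FUN := p_FUN a_NF a_KAP a_AVD a_UNI a_AUX
theorem a_GC : S_GC := p_GC a_RES a_NF
theorem a_CF : S_CF := p_CF a_NF a_GC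
theorem a_M2 : S_M2 := p_M2 a_NF a_GF a_TRF a_MK a_ME a_FUN a_CF
theorem a_HH : S_HH := p_HH a_TRF a_FIX a_LIP
theorem a_TEL : S_TEL := p_TEL t_FRE
theorem a_AFF : S_AFF := p_AFF a_NF a_M2 a_HH a_TEL a_DEN
theorem a_MOB : S_MOB := p_MOB t_HUA
theorem a_RAT : S_RAT := p_RAT a_FRB a_NETF a_DEN a_AFF a_MOB
theorem a_NH : S_NH := p_NH a_FRB
theorem a_FROB : S_FROB := p_FROB
theorem a_TAU : S_TAU := p_TAU a_FRB a_RAT a_FROB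
theorem a_ISO : S_ISO := p_ISO
theorem a_EMB : S_EMB := p_EMB a_BDP a_REL a_ISO
theorem a_NHI : S_NHI := p_NHI a_FRB a_NH a_PRIM a_AVF a_TAU a_EMB
theorem a_HT : S_HT := p_HT
theorem a_HM1 : S_HM1 := p_HM1 a_AVD
theorem a_HM2 : S_HM2 := p_HM2
theorem a_SQP : S_SQP := p_SQP
theorem a_HI : S_HI := p_HI a_ISO a_HM1 a_HM2 a_SQP
theorem a_TORC : S_TORC := p_TORC a_FRB a_H2 a_MANY a_FRM a_RAT a_NHI a_HT a_HI
theorem a_CV : S_CV := p_CV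
theorem a_TR : S_TR := p_TR
theorem a_TOR : S_TOR := p_TOR a_NPT a_TORC a_CV a_TR

end Pool.Agent.P.MP_9344a7_nt.Gt
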