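import Pool.Agent.P.MP_9344a7_nt.Cnt
import Pool.Agent.P.MP_9344a7_nt.Stmt
import Pool.Agent.P.MP_9344a7_nt.Tor.TEXF

/-!
Divisors, nets, frames and certificates on a curve of arbitrary genus.
-/

namespace Pool.Agent.P.MP_9344a7_nt.Gt

open WithZero Module
open Pool.Agent.P.MP_6f117a_ag (Place FF)
open Pool.Agent.P.MP_ab3ecb_nt.Inv
open Pool.Agent.P.MP_9344a7_nt.R (Fr rr_fd rr_mono rr_zero rr_le)
open Pool.Agent.P.MP_9344a7_nt.Tor (Prd ExF)
open scoped Classical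

set_option linter.unusedSectionVars false

/-! ### Divisors -/

section geo

variable {k E : Type} [Field k] [Field E] [Algebra k E]

/-- The divisor of a point. -/
noncomputable abbrev pt (P : Place k E) : Dv k E := Finsupp.single P 1

/-- The dimension of the Riemann-Roch space. -/
noncomputable def lS (D : Dv k E) : ℕ := finrank k (LS D)

/-- Principal divisors. -/
abbrev Pr (D : Dv k E) : Prop := R.Prin D

/-- `W` is a canonical divisor and `g` is the genus. -/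
def Can (g : ℕ) (W : Dv k E) : Prop := ∀ D, (lS D : ℤ) = deg D + 1 - g + lS (W - D)

variable (k) in
/-- The function has at most `n` poles. -/
def Bd (n : ℕ) (f : E) : Prop := ∃ H : Dv k E, 0 ≤ H ∧ deg H ≤ n ∧ f ∈ LS H

variable (k) in
/-- The characteristic is zero or larger than `d`. -/
def Ch (d : ℕ) : Prop := ∀ j : ℕ, 0 < j → j ≤ d → (j : k) ≠ 0

variable (k E) in
/-- There is a function of degree at most two. -/
def G12 : Prop := ∃ P Q : Place k E, lS (pt P + pt Q) ≠ 1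

variable {D D' A H W : Dv k E} {P Q : Place k E} {x y z : E} {g n m : ℕ}

lemma pt_nonneg (P : Place k E) : 0 ≤ pt P := Finsupp.single_nonneg.2 zero_le_one

lemma pt_ne (h : Q ≠ P) : pt P Q = 0 := Finsupp.single_eq_of_ne h

lemma sum_pt_nonneg {ι : Type} (s : Finset ι) (U : ι → Place k E) : 0 ≤ ∑ i ∈ s, pt (U i) :=
  Finset.sum_nonneg fun _ _ => pt_nonneg _

lemma deg_sum_pt {ι : Type} (s : Finset ι) (U : ι → Place k E) :
    deg (∑ i ∈ s, pt (U i)) = s.card := by simp [map_sum]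

lemma sum_pt_ne {ι : Type} {s : Finset ι} {U : ι → Place k E} (h : ∀ i ∈ s, U i ≠ P) :
    (∑ i ∈ s, pt (U i)) P = 0 := by
  rw [Finsupp.finsetSum_apply]
  exact Finset.sum_eq_zero fun i hi => pt_ne (h i hi).symm

lemma sum_pt_self {ι : Type} [Fintype ι] {U : ι → Place k E} (h : Function.Injective U) (i : ι) :
    (∑ j, pt (U j)) (U i) = 1 := by
  rw [Finsupp.finsetSum_apply, Finset.sum_eq_single i (fun j _ e => pt_ne (h.ne e.symm)) (by simp),
    Finsupp.single_eq_same]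

lemma sum_pt_eq_zero {ι : Type} [Fintype ι] {U : ι → Place k E} :
    (∑ j, pt (U j)) P = 0 ↔ ∀ i, U i ≠ P := by
  refine ⟨fun h i e => ?_, fun h => sum_pt_ne fun i _ => h i⟩
  rw [Finsupp.finsetSum_apply] at h
  have := (Finset.sum_eq_zero_iff_of_nonneg fun j _ => pt_nonneg (U j) P).1 h i (Finset.mem_univ i)
  simp [e] at this

lemma card_support_le (h : 0 ≤ D) : (D.support.card : ℤ) ≤ deg D := by
  rw [deg_eq, Finset.card_eq_sum_ones, Nat.cast_sum]
  exact Finset.sum_le_sum fun P hP => by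
    have h1 : 0 ≤ D P := h P
    have := Finsupp.mem_support_iff.1 hP
    push_cast
    omega

lemma mul_mem_LS (hx : x ∈ LS D) (hy : y ∈ LS D') : x * y ∈ LS (D + D') :=
  mem_LS.2 fun P => by
    rw [map_mul, Finsupp.add_apply, exp_add]
    exact mul_le_mul' (mem_LS.1 hx P) (mem_LS.1 hy P)

lemma one_mem_LS : (1 : E) ∈ LS D ↔ 0 ≤ D := by
  rw [mem_LS, Finsupp.le_def]
  exact forall_congr' fun P => by rw [map_one, ← exp_zero, exp_le_exp]; rfl

lemma const_mem_LS (h : 0 ≤ D) (c : k) : algebraMap k E c ∈ LS D := by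
  rw [Algebra.algebraMap_eq_smul_one]
  exact Submodule.smul_mem _ c (one_mem_LS.2 h)

lemma pow_mem_LS (hx : x ∈ LS D) (n : ℕ) : x ^ n ∈ LS (n • D) := by
  induction n with
  | zero => simpa using one_mem_LS.2 le_rfl
  | succ n ih => rw [pow_succ, succ_nsmul]; exact mul_mem_LS ih hx

lemma le_one_of_LS (hx : x ∈ LS D) (h : D P ≤ 0) : P.v x ≤ 1 :=
  (mem_LS.1 hx P).trans (by rw [← exp_zero, exp_le_exp]; exact h)

lemma lt_exp_iff_le {a : ℤᵐ⁰} {n : ℤ} : a < exp n ↔ a ≤ exp (n - 1) := by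
  rw [← lt_mul_exp_iff_le exp_ne_zero, ← exp_add, sub_add_cancel]

lemma mem_LS_sub_pt : z ∈ LS (D - pt P) ↔ z ∈ LS D ∧ P.v z < exp (D P) := by
  rw [lt_exp_iff_le]
  refine ⟨fun h => ⟨LS_mono (sub_le_self _ (pt_nonneg P)) h, by simpa using mem_LS.1 h P⟩,
    fun h => mem_LS.2 fun Q => ?_⟩
  rcases eq_or_ne Q P with rfl | e
  · simpa using h.2
  · rw [Finsupp.sub_apply, pt_ne e, sub_zero]
    exact mem_LS.1 h.1 Q

/-- A section that vanishes at distinct points. -/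
lemma zer {ι : Type} [Fintype ι] {U : ι → Place k E} (h : Function.Injective U) (hz : z ∈ LS H)
    (h1 : ∀ i, (U i).v z < exp (H (U i))) : z ∈ LS (H - ∑ i, pt (U i)) := mem_LS.2 fun Q => by
  rw [Finsupp.sub_apply]
  by_cases e : ∃ i, U i = Q
  · obtain ⟨i, rfl⟩ := e
    rw [sum_pt_self h]
    exact lt_exp_iff_le.1 (h1 i)
  · rw [sum_pt_ne fun i _ e' => e ⟨i, e'⟩, sub_zero]
    exact mem_LS.1 hz Q

/-- Vanishing of a section, read in a local frame. -/
lemma van {α : Place k E} {t : E} (ht : ord α t = 1) (h : P.v (t ^ m * z) < 1)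
    (hP : (P = α ∧ H α = m) ∨ (P.v t = 1 ∧ H P = 0)) : P.v z < exp (H P) := by
  rw [map_mul, map_pow] at h
  rcases hP with ⟨rfl, e⟩ | ⟨e, e'⟩
  · rw [(ord_eq_iff (ne_zero_of_ord (by rw [ht]; exact one_ne_zero))).1 ht, ← exp_nsmul] at h
    have := mul_lt_mul_of_pos_left h (exp_pos (a := (m : ℤ)))
    rwa [← mul_assoc, ← exp_add, nsmul_eq_mul, mul_neg_one, add_neg_cancel, exp_zero, one_mul,
      mul_one, ← e] at this
  · rwa [e, one_pow, one_mul, ← exp_zero, ← e'] at h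

namespace Bd

lemma mono (h : Bd k n x) (hn : n ≤ m) : Bd k m x :=
  let ⟨H, a, b, c⟩ := h; ⟨H, a, b.trans (by exact_mod_cast hn), c⟩

lemma const (n : ℕ) (c : k) : Bd k n (algebraMap k E c) :=
  ⟨0, le_rfl, by simp, const_mem_LS le_rfl c⟩

lemma mul (h : Bd k n x) (h' : Bd k m y) : Bd k (n + m) (x * y) :=
  let ⟨H, a, b, c⟩ := h; let ⟨H', a', b', c'⟩ := h'
  ⟨H + H', add_nonneg a a', by rw [map_add]; push_cast; omega, mul_mem_LS c c'⟩

lemma add (h : Bd k n x) (h' : Bd k m y) : Bd k (n + m) (x + y) :=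
  let ⟨H, a, b, c⟩ := h; let ⟨H', a', b', c'⟩ := h'
  ⟨H + H', add_nonneg a a', by rw [map_add]; push_cast; omega,
    add_mem (LS_mono (le_add_of_nonneg_right a') c) (LS_mono (le_add_of_nonneg_left a) c')⟩

lemma neg (h : Bd k n x) : Bd k n (-x) := let ⟨H, a, b, c⟩ := h; ⟨H, a, b, neg_mem c⟩

lemma sub (h : Bd k n x) (h' : Bd k m y) : Bd k (n + m) (x - y) := by
  rw [sub_eq_add_neg]
  exact h.add h'.neg

lemma cmul (h : Bd k n x) (c : k) : Bd k n (algebraMap k E c * x) := by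
  simpa using (const 0 c).mul h

lemma sub_const (h : Bd k n x) (c : k) : Bd k n (x - algebraMap k E c) := h.sub (const 0 c)

lemma pow (h : Bd k n x) (m : ℕ) : Bd k (m * n) (x ^ m) :=
  let ⟨H, a, b, c⟩ := h
  ⟨m • H, nsmul_nonneg a m, by
    rw [map_nsmul, nsmul_eq_mul, Nat.cast_mul]
    exact mul_le_mul_of_nonneg_left b (Nat.cast_nonneg m), pow_mem_LS c m⟩

lemma of_mem (h0 : 0 ≤ H) (h : deg H ≤ n) (hx : x ∈ LS H) : Bd k n x := ⟨H, h0, h, hx⟩

end Bd

variable [IsAlgClosed k] [FF k E]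

lemma Bd.inv (h : Bd k n x) : Bd k n x⁻¹ := by
  obtain ⟨H, a, b, c⟩ := h
  rcases eq_or_ne x 0 with rfl | e
  · exact ⟨H, a, b, by simp⟩
  · exact ⟨dv k x + H, (mem_LS' e).1 c, by rwa [map_add, deg_dv, zero_add],
      (mem_LS' (inv_ne_zero e)).2 (by simpa using a)⟩

lemma Bd.div (h : Bd k n x) (h' : Bd k m y) : Bd k (n + m) (x / y) := by
  rw [div_eq_mul_inv]
  exact h.mul h'.inv

/-- The poles. -/
lemma Bd.poles (h : Bd k n x) : ∃ X : Finset (Place k E), X.card ≤ n ∧ ∀ P ∉ X, P.v x ≤ 1 := by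
  obtain ⟨H, a, b, c⟩ := h
  exact ⟨H.support, by exact_mod_cast (card_support_le a).trans b, fun P hP =>
    le_one_of_LS c (Finsupp.notMem_support_iff.1 hP).le⟩

/-- The zeros and the poles. -/
lemma Bd.unit (h : Bd k n x) (h0 : x ≠ 0) :
    ∃ X : Finset (Place k E), X.card ≤ 2 * n ∧ ∀ P ∉ X, P.v x = 1 := by
  obtain ⟨X, a, b⟩ := h.poles
  obtain ⟨X', a', b'⟩ := h.inv.poles
  refine ⟨X ∪ X', (Finset.card_union_le _ _).trans (by omega), fun P hP => ?_⟩
  rw [Finset.mem_union, not_or] at hP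
  have := b' P hP.2
  rw [map_inv₀, inv_le_one₀ (zero_lt_iff.2 (v_ne P h0))] at this
  exact le_antisymm (b P hP.1) this

/-- The fibres. -/
lemma Bd.fibre (h : Bd k n x) (ht : Transcendental k x) (c : k) :
    ∃ X : Finset (Place k E), X.card ≤ 2 * n ∧ ∀ P ∉ X, P.v x ≤ 1 ∧ ev P x ≠ c := by
  obtain ⟨X, a, b⟩ := (h.sub_const c).unit (sub_ne_zero.2 fun e => ht (e ▸ isAlgebraic_algebraMap c))
  refine ⟨X, a, fun P hP => ?_⟩
  have h1 : P.v x ≤ 1 := by
    simpa using P.v.map_add_le (b P hP).le (P.triv c)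
  exact ⟨h1, fun e => (e ▸ ev_spec h1).ne (b P hP)⟩

lemma trans_of_ord (h : ord P x ≠ 0) : Transcendental k x :=
  P.trans (ne_zero_of_ord h) fun e => h ((eq_one_iff (ne_zero_of_ord h)).1 e)

@[simp] lemma lS_zero : lS (0 : Dv k E) = 1 := rr_zero

lemma lS_le (h : D ≤ D') : (lS D' : ℤ) ≤ lS D + (deg D' - deg D) := rr_mono h

lemma lS_le_deg (h : 0 ≤ deg D) : (lS D : ℤ) ≤ deg D + 1 := rr_le h

lemma lS_add_dv (hz : z ≠ 0) (D : Dv k E) : lS (D + dv k z) = lS D := finrank_LS_add_dv hz D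

lemma lS_mono (h : D ≤ D') : lS D ≤ lS D' :=
  have := rr_fd D'
  Submodule.finrank_mono (LS_mono h)

lemma lS_lt (h : D ≤ D') (hz : z ∈ LS D') (hz' : z ∉ LS D) : lS D < lS D' :=
  have := rr_fd D'
  Submodule.finrank_lt_finrank_of_lt (lt_of_le_of_ne (LS_mono h) fun e => hz' (e.ge hz))

lemma lS_step (D : Dv k E) (P : Place k E) : lS D ≤ lS (D - pt P) + 1 := by
  have := lS_le (sub_le_self D (pt_nonneg P))
  rw [map_sub, deg_single] at this
  omega

lemma lS_eq_zero : lS D = 0 ↔ ∀ z ∈ LS D, z = 0 :=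
  have := rr_fd D
  Submodule.finrank_eq_zero.trans (Submodule.eq_bot_iff _)

lemma lS_ne_zero (hz : z ∈ LS D) (h0 : z ≠ 0) : lS D ≠ 0 := fun e => h0 (lS_eq_zero.1 e z hz)

lemma exists_of_lS_lt (h : lS D < lS D') : ∃ z ∈ LS D', z ∉ LS D := by
  have := rr_fd D
  by_contra e
  push Not at e
  exact h.not_ge (Submodule.finrank_mono e)

lemma lS_neg (h : deg D < 0) : lS D = 0 := by rw [lS, LS_eq_bot h, finrank_bot]

lemma lS_pos (h : 0 ≤ D) : lS D ≠ 0 := lS_ne_zero (one_mem_LS.2 h) one_ne_zero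

lemma Pr.lS_eq (h : Pr (D - D')) : lS D = lS D' := h.finrank_eq

lemma pr_of_lS (h0 : deg D = 0) (h : lS D ≠ 0) : Pr D := by
  obtain ⟨A, a, b⟩ := R.exists_eff h
  have := b.deg_eq
  rw [eq_zero_of_deg a (this.trans h0)] at b
  simpa using b.neg

/-- The base points of a linear system. -/
lemma base_pts (h : lS D ≠ 0) :
    ∃ X : Finset (Place k E), (X.card : ℤ) ≤ deg D ∧ ∀ P ∉ X, lS (D - pt P) + 1 = lS D := by
  obtain ⟨z, a, b⟩ : ∃ z ∈ LS D, z ≠ 0 := by simpa [lS_eq_zero] using h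
  have h1 := (mem_LS' b).1 a
  refine ⟨(dv k z + D).support, by simpa using card_support_le h1, fun P hP => ?_⟩
  have h2 := lS_lt (sub_le_self D (pt_nonneg P)) a fun e => by
    have h3 := (lt_exp_iff b).1 (mem_LS_sub_pt.1 e).2
    have h4 := Finsupp.notMem_support_iff.1 hP
    rw [Finsupp.add_apply, dv_apply] at h4
    omega
  have := lS_step D P
  omega

namespace Can

variable (h : Can g W)
include h

lemma lS_W : lS W = g := by
  have := h 0
  rw [lS_zero, map_zero, sub_zero] at this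
  omega

lemma deg_W : deg W = 2 * g - 2 := by
  have := h W
  rw [h.lS_W, sub_self, lS_zero] at this
  omega

lemma ns (h0 : lS (W - D) = 0) : (lS D : ℤ) = deg D + 1 - g := by simpa [h0] using h D

lemma big (h0 : 2 * (g : ℤ) - 1 ≤ deg D) : (lS D : ℤ) = deg D + 1 - g :=
  h.ns (lS_neg (by rw [map_sub, h.deg_W]; omega))

lemma add_dv (hz : z ≠ 0) : Can g (W + dv k z) := fun D => by
  rw [h D, add_sub_right_comm W, lS_add_dv hz]

lemma lS_pt (hg : 0 < g) (P : Place k E) : lS (pt P) = 1 := by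
  by_contra e
  have h1 := lS_step (pt P) P
  rw [sub_self, lS_zero] at h1
  obtain ⟨f, f1, f2⟩ := exists_of_lS_lt (D := 0) (D' := pt P) (by
    have := lS_pos (pt_nonneg P)
    rw [lS_zero]
    omega)
  have f0 : f ≠ 0 := fun e => f2 (by rw [e]; exact zero_mem _)
  have f3 : P.v f = exp 1 := by
    refine le_antisymm (by simpa using mem_LS.1 f1 P) (not_lt.1 fun e => f2 ?_)
    rw [← sub_self (pt P)]
    exact mem_LS_sub_pt.2 ⟨f1, by simpa using e⟩
  have key : ∀ n : ℕ, n + 1 ≤ lS (n • pt P) := fun n => by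
    induction n with
    | zero => rw [zero_nsmul, lS_zero]
    | succ n ih =>
      refine lt_of_le_of_lt ih (lS_lt (by rw [succ_nsmul]; exact le_add_of_nonneg_right (pt_nonneg P))
        (pow_mem_LS f1 _) fun e => ?_)
      have := mem_LS.1 e P
      rw [map_pow, f3, ← exp_nsmul, exp_le_exp] at this
      simp at this
  have h2 := key (2 * g)
  have h4 : deg ((2 * g) • pt P) = 2 * g := by rw [map_nsmul, deg_single, nsmul_one, Nat.cast_mul]; rfl
  have h3 := h.big (D := (2 * g) • pt P) (by omega)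
  omega

lemma eq_of_pr (hg : 0 < g) (e : Pr (pt P - pt Q)) : P = Q :=
  Finsupp.single_left_injective one_ne_zero
    (R.eff_unique (h.lS_pt hg Q) (pt_nonneg Q) (pt_nonneg P) e)

end Can

end geo

/-! ### Nets, certificates, frames -/

section net

variable (k E : Type) [Field k] [Field E] [Algebra k E]

/-- The net of canonical divisors through `m` points, with affine coordinates `u`, `v`; the line at
infinity cuts out `Y` and passes through `A` and `B`. -/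
structure Net (m : ℕ) where
  Y : Dv k E
  c : Fin m → Place k E
  A : Place k E
  B : Place k E
  u : E
  v : E
  can : Can (m + 3) (Y + ∑ i, pt (c i))
  inj : Function.Injective c
  cA : ∀ i, c i ≠ A
  cB : ∀ i, c i ≠ B
  AB : A ≠ B
  le : pt A + pt B ≤ Y
  one : lS (Y - pt A - pt B) = 1
  u1 : u ∈ LS (Y - pt B)
  u2 : u ∉ LS (Y - pt A)
  v1 : v ∈ LS (Y - pt A)
  v2 : v ∉ LS (Y - pt B)

variable {k E} {m g : ℕ}

namespace Net

variable (N : Net k E m)

/-- The base divisor. -/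
noncomputable abbrev S : Dv k E := ∑ i, pt (N.c i)

/-- An affine point that is not a base point. -/
def Off (P : Place k E) : Prop := N.Y P = 0 ∧ ∀ i, N.c i ≠ P

/-- The line at infinity is transversal at `A` and `B`. -/
def Sim : Prop := N.Y N.A = 1 ∧ N.Y N.B = 1

/-- The lines `z Q`, `A R`, `B P` are concurrent. -/
def Conc (z P Q R : Place k E) : Prop :=
  (ev P N.u - ev z N.u) * (ev Q N.v - ev z N.v) = (ev Q N.u - ev z N.u) * (ev R N.v - ev z N.v)

/-- Four affine points in general position. -/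
structure Gp (z P Q R : Place k E) : Prop where
  oz : N.Off z
  oP : N.Off P
  oQ : N.Off Q
  oR : N.Off R
  zP : z ≠ P
  zQ : z ≠ Q
  zR : z ≠ R
  PQ : P ≠ Q
  PR : P ≠ R
  QR : Q ≠ R
  uQ : ev Q N.u ≠ ev z N.u
  vQ : ev Q N.v ≠ ev z N.v

/-- The first two pencils have a member through `T0 + T1`. -/
structure Two (z P Q R T0 T1 : Place k E) (Z0 Z1 : Dv k E) : Prop where
  p0 : 0 ≤ Z0
  p1 : 0 ≤ Z1
  e0 : Pr (pt T0 + pt T1 + Z0 - (pt R + pt N.B + (pt N.A + pt P + N.S)))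
  e1 : Pr (pt T0 + pt T1 + Z1 - (pt Q + pt N.B + (pt z + pt P + N.S)))
  nR : (pt T0 + pt T1 + Z0) R = 0
  nQ : (pt T0 + pt T1 + Z1) Q = 0

/-- A certificate for concurrency. -/
structure Cert (z P Q R T0 T1 : Place k E) (Z0 Z1 Z2 Z3 : Dv k E) : Prop
    extends N.Two z P Q R T0 T1 Z0 Z1 where
  p2 : 0 ≤ Z2
  p3 : 0 ≤ Z3
  e2 : Pr (pt T0 + pt T1 + Z2 - (pt Q + pt R + (pt z + pt N.A + N.S)))
  e3 : Pr (pt T0 + Z3 - (pt N.B + (pt N.A + pt z + pt P + N.S)))
  n0 : (pt N.B + (pt N.A + pt z + pt P + N.S)) T0 = 0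
  n1 : Z3 T1 = 0

/-- The basic facts on a net. -/
structure NF : Prop where
  deg : deg N.Y = m + 4
  bu : Bd k (m + 4) N.u
  bv : Bd k (m + 4) N.v
  tu : Transcendental k N.u
  tv : Transcendental k N.v
  uA : N.A.v N.u = exp (N.Y N.A)
  vB : N.B.v N.v = exp (N.Y N.B)
  reg : ∀ P, N.Y P = 0 → P.v N.u ≤ 1 ∧ P.v N.v ≤ 1 ∧ P ≠ N.A ∧ P ≠ N.B
  mu : ∀ z, N.Y z = 0 → N.u - algebraMap k E (ev z N.u) ∈ LS (N.Y - pt N.B - pt z)
  mv : ∀ z, N.Y z = 0 → N.v - algebraMap k E (ev z N.v) ∈ LS (N.Y - pt N.A - pt z)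
  l1 : ∀ z, N.Y z = 0 → lS (N.Y - pt N.A - pt N.B - pt z) = 0
  l2 : ∀ z P, N.Y z = 0 → N.Y P = 0 → ev P N.u ≠ ev z N.u → lS (N.Y - pt N.B - pt z - pt P) = 0
  l3 : ∀ z P, N.Y z = 0 → N.Y P = 0 → ev P N.v ≠ ev z N.v → lS (N.Y - pt N.A - pt z - pt P) = 0

end Net

/-- Points in general position and the dual basis of the canonical system. -/
structure Frm (W : Dv k E) (g : ℕ) where
  G : Fin g → Place k E
  w : Fin g → E
  inj : Function.Injective G
  mem : ∀ i, w i ∈ LS (W - ∑ j, pt (G j) + pt (G i))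
  ne : ∀ i, w i ≠ 0
  ns : lS (W - ∑ j, pt (G j)) = 0

/-- The sections have simple zeros at the points. -/
def Frm.Sim {W : Dv k E} (Γ : Frm W g) : Prop :=
  ∀ i j, i ≠ j → lS (W - ∑ l, pt (Γ.G l) + pt (Γ.G j) - pt (Γ.G i)) = 0

/-- The basic facts on a frame. -/
structure Frm.FF {W : Dv k E} (Γ : Frm W g) : Prop where
  bd : ∀ i j, Bd k (2 * g) (Γ.w i / Γ.w j)
  neg : ∀ i j, i ≠ j → ord (Γ.G i) (Γ.w i / Γ.w j) < 0
  zero : Γ.Sim → ∀ i j l, i ≠ j → i ≠ l → ord (Γ.G i) (Γ.w l / Γ.w j) = 0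
  span : ∀ z ∈ LS W, ∃ c : Fin g → k, z = ∑ i, c i • Γ.w i

end net

/-! ### Curves over a finite field -/

/-- The algebraic closure. -/
abbrev Kb (F : Type) [Field F] : Type := AlgebraicClosure F

/-- A curve of genus `g` with its Frobenius map and an invariant canonical divisor. -/
structure Cv (F : Type) [Field F] [Fintype F] (g : ℕ) where
  E : Type
  [fE : Field E]
  [aE : Algebra (Kb F) E]
  [ff : FF (Kb F) E]
  σ : SA (Kb F) E
  fr : Fr σ (Fintype.card F)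
  W : Dv (Kb F) E
  can : Can g W
  inv : σ.dm W = W

attribute [instance] Cv.fE Cv.aE Cv.ff

section fin

variable {F : Type} [Field F] [Fintype F] {g m : ℕ}

lemma ch_of_lt {d : ℕ} (h : d < ringChar F) : Ch (Kb F) d := fun j h0 h1 e => by
  rw [← map_natCast (algebraMap F (Kb F)), map_eq_zero, ringChar.spec] at e
  have := Nat.le_of_dvd h0 e
  omega

lemma char_le : ringChar F ≤ Fintype.card F :=
  Nat.le_of_dvd Fintype.card_pos ((ringChar.spec F _).1 (FiniteField.cast_card_eq_zero F))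

lemma mem_range_iff {c : Kb F} : c ^ Fintype.card F = c ↔ ∃ a, algebraMap F (Kb F) a = c := by
  refine ⟨fun h => ?_, by rintro ⟨a, rfl⟩; rw [← map_pow, FiniteField.pow_card]⟩
  have h1 := FiniteField.X_pow_card_sub_X_ne_zero F (Fintype.one_lt_card (α := F))
  have h2 : ((Polynomial.X ^ Fintype.card F - Polynomial.X : Polynomial F)).Splits :=
    Polynomial.splits_iff_card_roots.2 (by
      rw [FiniteField.roots_X_pow_card_sub_X, FiniteField.X_pow_card_sub_X_natDegree_eq F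
        Fintype.one_lt_card]; rfl)
  exact h2.mem_range_of_isRoot h1 (by simp [h])

namespace Cv

variable (C : Cv F g)

/-- The geometric points. -/
abbrev Pl : Type := Place (Kb F) C.E

/-- Rational points. -/
def Rat (P : C.Pl) : Prop := C.σ.pl P = P

/-- The function field over `F`. -/
def E0 : Subfield C.E := RingHom.eqLocusField (C.σ.s : C.E →+* C.E) (RingHom.id _)

/-- Rational divisors. -/
noncomputable def D0 : AddSubgroup (Dv (Kb F) C.E) := C.σ.dm.toAddMonoidHom.eqLocus (.id _)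

/-- The constants. -/
noncomputable def c : F →+* C.E := (algebraMap (Kb F) C.E).comp (algebraMap F (Kb F))

/-- The value of a function at a rational point. -/
noncomputable def vl (P : C.Pl) (f : C.E) : F := Function.invFun (algebraMap F (Kb F)) (ev P f)

/-- The rational functions that are regular at a point. -/
def O (P : C.Pl) : Subring C.E := C.E0.toSubring ⊓ P.v.integer

/-- There are many rational points. -/
def Many (C0 : ℕ) : Prop :=
  ∀ B : Finset C.Pl, B.card * C0 ≤ Fintype.card F → ∃ P, C.Rat P ∧ P ∉ B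

/-- The isomorphism with a conjugate. -/
def Iso (D : Cv F g) : Prop := ∃ (i : C.E ≃+* D.E) (s : Kb F ≃+* Kb F),
  (∀ c, i (algebraMap _ C.E c) = algebraMap _ D.E (s c)) ∧ ∀ z, i (C.σ.s z) = D.σ.s (i z)

/-- A rational net. -/
structure RN (N : Net (Kb F) C.E m) : Prop where
  A : C.Rat N.A
  B : C.Rat N.B
  c : ∀ i, C.Rat (N.c i)
  u : N.u ∈ C.E0
  v : N.v ∈ C.E0

/-- A rational frame. -/
def RF (Γ : Frm C.W g) : Prop := ∀ i, C.Rat (Γ.G i) ∧ Γ.w i ∈ C.E0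

variable {C} {P : C.Pl} {f f' : C.E} {D : Dv (Kb F) C.E}

lemma mem_E0 : f ∈ C.E0 ↔ C.σ.s f = f := Iff.rfl

lemma mem_D0 : D ∈ C.D0 ↔ C.σ.dm D = D := Iff.rfl

lemma mem_O : f ∈ C.O P ↔ f ∈ C.E0 ∧ P.v f ≤ 1 := Iff.rfl

lemma c_apply (a : F) : C.c a = algebraMap (Kb F) C.E (algebraMap F (Kb F) a) := rfl

lemma c_mem (a : F) : C.c a ∈ C.E0 := by
  rw [mem_E0, c_apply, C.σ.h, C.fr.2.2, ← map_pow, FiniteField.pow_card]

lemma c_mem_O (P : C.Pl) (a : F) : C.c a ∈ C.O P := ⟨c_mem a, P.triv _⟩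

lemma Rat.pt_mem (h : C.Rat P) : pt P ∈ C.D0 := by
  rw [mem_D0, C.σ.dm_single, h]

lemma dv_mem (h : f ∈ C.E0) : dv (Kb F) f ∈ C.D0 := by rw [mem_D0, ← C.σ.dv_s, mem_E0.1 h]

lemma W_mem : C.W ∈ C.D0 := C.inv

lemma D0_apply (h : D ∈ C.D0) (P : C.Pl) : D (C.σ.pl P) = D P := R.dm_eq.1 h P

lemma vl_spec (hP : C.Rat P) (h : f ∈ C.E0) : algebraMap F (Kb F) (C.vl P f) = ev P f :=
  Function.invFun_eq (mem_range_iff.1 (by
    rw [← C.fr.2.2, ← C.σ.ev_pl, hP, mem_E0.1 h]))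

lemma vl_eq {a : F} (h : ev P f = algebraMap F (Kb F) a) : C.vl P f = a := by
  rw [vl, h, Function.leftInverse_invFun (algebraMap F (Kb F)).injective]

@[simp] lemma vl_c (P : C.Pl) (a : F) : C.vl P (C.c a) = a := vl_eq (ev_const _ _)

/-- The value at a rational point, as a ring homomorphism. -/
noncomputable def vh (hP : C.Rat P) : C.O P →+* F where
  toFun f := C.vl P f
  map_one' := by simpa using vl_c P 1
  map_zero' := by simpa using vl_c P 0
  map_mul' a b := vl_eq (by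
    rw [map_mul, vl_spec hP a.2.1, vl_spec hP b.2.1]; exact ev_mul a.2.2 b.2.2)
  map_add' a b := vl_eq (by
    rw [map_add, vl_spec hP a.2.1, vl_spec hP b.2.1]; exact ev_add a.2.2 b.2.2)

lemma vl_add (hP : C.Rat P) (h : f ∈ C.O P) (h' : f' ∈ C.O P) :
    C.vl P (f + f') = C.vl P f + C.vl P f' := (vh hP).map_add ⟨f, h⟩ ⟨f', h'⟩

lemma vl_sub (hP : C.Rat P) (h : f ∈ C.O P) (h' : f' ∈ C.O P) :
    C.vl P (f - f') = C.vl P f - C.vl P f' := (vh hP).map_sub ⟨f, h⟩ ⟨f', h'⟩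

lemma vl_mul (hP : C.Rat P) (h : f ∈ C.O P) (h' : f' ∈ C.O P) :
    C.vl P (f * f') = C.vl P f * C.vl P f' := (vh hP).map_mul ⟨f, h⟩ ⟨f', h'⟩

lemma vl_pow (hP : C.Rat P) (h : f ∈ C.O P) (n : ℕ) : C.vl P (f ^ n) = C.vl P f ^ n :=
  (vh hP).map_pow ⟨f, h⟩ n

lemma vl_sum (hP : C.Rat P) {ι : Type} (s : Finset ι) {a : ι → C.E} (h : ∀ i, a i ∈ C.O P) :
    C.vl P (∑ i ∈ s, a i) = ∑ i ∈ s, C.vl P (a i) := by
  have := map_sum (vh hP) (fun i => ⟨a i, h i⟩) s
  rwa [vh, RingHom.coe_mk, MonoidHom.coe_mk, OneHom.coe_mk, AddSubmonoidClass.coe_finsetSum] at this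

lemma vl_eq_zero (hP : C.Rat P) (h : f ∈ C.O P) : C.vl P f = 0 ↔ P.v f < 1 := by
  rw [← ev_eq_zero_iff h.2, ← vl_spec hP h.1, map_eq_zero]

lemma vl_inv (hP : C.Rat P) (h : f ∈ C.E0) (h1 : P.v f = 1) : C.vl P f⁻¹ = (C.vl P f)⁻¹ :=
  vl_eq (by rw [map_inv₀, vl_spec hP h, ev_inv h1])

lemma Many.mono {a b : ℕ} (h : C.Many a) (hab : a ≤ b) : C.Many b := fun B hB =>
  h B ((Nat.mul_le_mul_left _ hab).trans hB)

end Cv

/-- A bijection between almost all rational points of two curves that respects linear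
equivalence. -/
structure Tr (C D : Cv F g) where
  B : Finset C.Pl
  B' : Finset D.Pl
  φ : C.Pl → D.Pl
  φ' : D.Pl → C.Pl
  ok : ∀ P, C.Rat P → P ∉ B → D.Rat (φ P) ∧ φ P ∉ B' ∧ φ' (φ P) = P
  ok' : ∀ P, D.Rat P → P ∉ B' → C.Rat (φ' P) ∧ φ' P ∉ B ∧ φ (φ' P) = P
  pr : ∀ A : Dv (Kb F) C.E, (∀ P ∈ A.support, C.Rat P ∧ P ∉ B) → Pr A → Pr (A.mapDomain φ)
  pr' : ∀ A : Dv (Kb F) D.E, (∀ P ∈ A.support, D.Rat P ∧ P ∉ B') → Pr A → Pr (A.mapDomain φ')

namespace Tr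

variable {C D : Cv F g} (T : Tr C D)

/-- The inverse. -/
def symm : Tr D C := ⟨T.B', T.B, T.φ', T.φ, T.ok', T.ok, T.pr', T.pr⟩

/-- The points that are transported. -/
def Ok (P : C.Pl) : Prop := C.Rat P ∧ P ∉ T.B

/-- The divisors that are transported. -/
def S : AddSubgroup (Dv (Kb F) C.E) where
  carrier := {A | ∀ P ∈ A.support, T.Ok P}
  zero_mem' := by simp
  add_mem' h h' P hP := (Finset.mem_union.1 (Finsupp.support_add hP)).elim (h P) (h' P)
  neg_mem' h P hP := h P (by rwa [Finsupp.support_neg] at hP)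

/-- The transport of divisors. -/
noncomputable def mp : Dv (Kb F) C.E →+ Dv (Kb F) D.E := Finsupp.mapDomain.addMonoidHom T.φ

/-- The exceptional sets are small. -/
def Sm (C0 : ℕ) : Prop := T.B.card * C0 ≤ Fintype.card F ∧ T.B'.card * C0 ≤ Fintype.card F

/-- The functions `a`, `a'` correspond to each other, up to `τ`, outside `X`. -/
def Rl (X : Finset C.Pl) (τ : F ≃+* F) (a : C.E) (a' : D.E) : Prop :=
  ∀ z, T.Ok z → z ∉ X → z.v a ≤ 1 ∧ (T.φ z).v a' ≤ 1 ∧ D.vl (T.φ z) a' = τ (C.vl z a)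

/-- Two nets with corresponding base points. -/
structure Mt (N : Net (Kb F) C.E m) (N' : Net (Kb F) D.E m) : Prop where
  rn : C.RN N
  rn' : D.RN N'
  sim : N.Sim
  oA : T.Ok N.A
  oB : T.Ok N.B
  oc : ∀ i, T.Ok (N.c i)
  A : T.φ N.A = N'.A
  B : T.φ N.B = N'.B
  c : ∀ i, T.φ (N.c i) = N'.c i

/-- Two frames with corresponding points. -/
structure Mf (Γ : Frm C.W g) (Γ' : Frm D.W g) : Prop where
  rf : C.RF Γ
  rf' : D.RF Γ'
  sim : Γ.Sim
  ok : ∀ i, T.Ok (Γ.G i)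
  eq : ∀ i, T.φ (Γ.G i) = Γ'.G i

variable {T} {P Q : C.Pl} {A : Dv (Kb F) C.E}

lemma Ok.rat (h : T.Ok P) : D.Rat (T.φ P) := (T.ok P h.1 h.2).1

lemma Ok.symm (h : T.Ok P) : T.symm.Ok (T.φ P) := ⟨h.rat, (T.ok P h.1 h.2).2.1⟩

lemma Ok.inv (h : T.Ok P) : T.φ' (T.φ P) = P := (T.ok P h.1 h.2).2.2

lemma Ok.inj (h : T.Ok P) (h' : T.Ok Q) (e : T.φ P = T.φ Q) : P = Q := by
  rw [← h.inv, e, h'.inv]

lemma Ok.ne (h : T.Ok P) (h' : T.Ok Q) (e : P ≠ Q) : T.φ P ≠ T.φ Q := mt (h.inj h') e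

lemma Ok.not_mem (h : T.Ok P) {X : Finset D.Pl} (e : P ∉ X.image T.φ') : T.φ P ∉ X :=
  fun e' => e (Finset.mem_image.2 ⟨_, e', h.inv⟩)

lemma Ok.pt_mem (h : T.Ok P) : pt P ∈ T.S := fun Q hQ => by
  rwa [Finset.mem_singleton.1 (Finsupp.support_single_subset hQ)]

@[simp] lemma mp_pt (P : C.Pl) : T.mp (pt P) = pt (T.φ P) := Finsupp.mapDomain_single

lemma mp_apply (h : A ∈ T.S) (hP : T.Ok P) : T.mp A (T.φ P) = A P :=
  Finsupp.mapDomain_apply' {P | T.Ok P} A h (fun _ a _ b => Ok.inj a b) hP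

lemma mp_nonneg (h : 0 ≤ A) : 0 ≤ T.mp A := Finsupp.mapDomain_nonneg h

lemma mp_pr (h : A ∈ T.S) (h' : Pr A) : Pr (T.mp A) := T.pr A h h'

lemma many {a : ℕ} (h : C.Many a) (hT : T.Sm (2 * a)) : D.Many (2 * a) := fun X hX => by
  obtain ⟨P, h1, h2⟩ := h (T.B ∪ X.image T.φ') (by
    have := Nat.mul_le_mul_right a ((Finset.card_union_le T.B (X.image T.φ')).trans
      (Nat.add_le_add_left Finset.card_image_le _))
    have := hT.1
    nlinarith)
  rw [Finset.mem_union, not_or] at h2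
  exact ⟨_, Ok.rat ⟨h1, h2.1⟩, Ok.not_mem ⟨h1, h2.1⟩ h2.2⟩

lemma Sm.symm {a : ℕ} (h : T.Sm a) : T.symm.Sm a := ⟨h.2, h.1⟩

lemma Sm.mono {a b : ℕ} (h : T.Sm b) (hab : a ≤ b) : T.Sm a :=
  ⟨(Nat.mul_le_mul_left _ hab).trans h.1, (Nat.mul_le_mul_left _ hab).trans h.2⟩

end Tr

/-- A good centre. -/
structure Gz {C : Cv F g} (N : Net (Kb F) C.E m) (z : C.Pl) : Prop where
  rat : C.Rat z
  off : N.Off z
  uB : C.vl z N.u ≠ C.vl N.B N.u
  vA : C.vl z N.v ≠ C.vl N.A N.v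

/-- A point that is very good for the centre `z`. -/
structure Vg {C : Cv F g} (N : Net (Kb F) C.E m) (z P : C.Pl) : Prop where
  rat : C.Rat P
  off : N.Off P
  uB : C.vl P N.u ≠ C.vl N.B N.u
  uz : C.vl P N.u ≠ C.vl z N.u
  vz : C.vl P N.v ≠ C.vl z N.v
  su : IsSquare (C.vl P N.u - C.vl z N.u)
  sv : IsSquare ((C.vl P N.v - C.vl z N.v) * (C.vl N.A N.v - C.vl z N.v))

end fin

end Pool.Agent.P.MP_9344a7_nt.Gt
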