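import Pool.Agent.P.MP_9344a7_nt.Gt.Base

/-!
Definable predicates, and the polynomial system of a certificate.
-/

namespace Pool.Agent.P.MP_9344a7_nt.Gt

open WithZero
open Pool.Agent.P.MP_6f117a_ag (Place FF)
open Pool.Agent.P.MP_ab3ecb_nt.Inv
open Pool.Agent.P.MP_9344a7_nt.Tor (Prd ExF IsUP)
open scoped Classical PowerSeries

set_option linter.unusedSectionVars false
set_option linter.dupNamespace false

/-! ### Definable predicates -/

section df

variable {ι : Type}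

/-- A property of tuples in all commutative rings. -/
abbrev PrdR (ι : Type) : Type 1 := ∀ (L : Type) [CommRing L], (ι → L) → Prop

/-- Natural terms. -/
def Nt (e : ∀ (L : Type) [CommRing L], (ι → L) → L) : Prop :=
  ∀ (L L' : Type) [CommRing L] [CommRing L'] (φ : L →+* L') (x : ι → L),
    φ (e L x) = e L' fun i => φ (x i)

/-- Finite systems of equations and inequations. -/
structure ExR (S : PrdR ι) : Prop where
  ex : ExF fun L _ x => S L x
  mo : ∀ (L L' : Type) [CommRing L] [CommRing L'] (φ : L →+* L'), Function.Injective φ →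
    ∀ x, S L x → S L' fun i => φ (x i)

lemma Nt.tm {e : ∀ (L : Type) [CommRing L], (ι → L) → L} (h : Nt e) : Tor.Tm fun L _ x => e L x :=
  ⟨e _ MvPolynomial.X, fun L _ x => by
    simpa using (h _ L (MvPolynomial.aeval (R := ℤ) x).toRingHom MvPolynomial.X).symm⟩

namespace ExR

variable {e e' : ∀ (L : Type) [CommRing L], (ι → L) → L} {S S' : PrdR ι}

lemma eq (h : Nt e) (h' : Nt e') : ExR fun L _ x => e L x = e' L x :=
  ⟨Tor.p_EXF.eq h.tm h'.tm, fun L L' _ _ φ _ x a => by rw [← h, ← h', a]⟩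

lemma ne (h : Nt e) (h' : Nt e') : ExR fun L _ x => e L x ≠ e' L x :=
  ⟨Tor.p_EXF.ne h.tm h'.tm, fun L L' _ _ φ i x a => by rw [← h, ← h']; exact i.ne a⟩

lemma and (h : ExR S) (h' : ExR S') : ExR fun L _ x => S L x ∧ S' L x :=
  ⟨Tor.p_EXF.and h.ex h'.ex, fun L L' _ _ φ i x a => ⟨h.mo L L' φ i x a.1, h'.mo L L' φ i x a.2⟩⟩

lemma all {μ : Type} [Finite μ] {S : μ → PrdR ι} (h : ∀ j, ExR (S j)) :
    ExR fun L _ x => ∀ j, S j L x :=
  ⟨Tor.p_EXF.all fun j => (h j).ex, fun L L' _ _ φ i x a j => (h j).mo L L' φ i x (a j)⟩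

lemma imp (c : Prop) (h : c → ExR S) : ExR fun L _ x => c → S L x :=
  ⟨Tor.p_EXF.imp c fun a => (h a).ex, fun L L' _ _ φ i x a b => (h b).mo L L' φ i x (a b)⟩

lemma iff (h : ExR S) (e : ∀ (L : Type) [CommRing L] (x : ι → L), S' L x ↔ S L x) : ExR S' :=
  ⟨Tor.p_EXF.iff h.ex fun L _ x => e L x,
    fun L L' _ _ φ i x a => (e _ _).2 (h.mo L L' φ i x ((e _ _).1 a))⟩

lemma sub {κ : Type} {S : PrdR κ} {e : ∀ (L : Type) [CommRing L], (ι → L) → κ → L} (h : ExR S)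
    (h' : ∀ j, Nt fun L _ x => e L x j) : ExR fun L _ x => S L (e L x) :=
  ⟨Tor.p_EXF.sub' h.ex fun j => (h' j).tm, fun L L' _ _ φ i x a => by
    have := h.mo L L' φ i _ a
    rwa [funext fun j => h' j L L' φ x] at this⟩

end ExR

/-- Properties that pass to ultraproducts. -/
def UPC (H : Prd ι) : Prop :=
  ∀ (F : ℕ → Type) [∀ n, Field (F n)] (U : Ultrafilter ℕ) (K : Type) [Field K]
    (π : (∀ n, F n) →+* K), IsUP U π → ∀ x : ∀ n, ι → F n, (∀ n, H (F n) (x n)) →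
      H K fun i => π fun n => x n i

/-- Conditions on constants and on the first two coefficients of expansions. -/
abbrev PrdH (ι β φ : Type) : Type 1 :=
  ∀ (L : Type) [CommRing L], (ι → L) → (β → φ → L) → (β → φ → L) → Prop

/-- Conditions on constants, unknowns, local coordinates of points and values of functions. -/
abbrev PrdS (ι κ π φ : Type) : Type 1 :=
  ∀ (L : Type) [CommRing L], (ι → L) → (κ → L) → (π → L) → (π → φ → L) → Prop

/-- Definability. -/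
def ExH {β φ : Type} (H : PrdH ι β φ) : Prop :=
  ExR fun L _ (w : ι ⊕ β × φ ⊕ β × φ → L) => H L (fun i => w (.inl i))
    (fun a i => w (.inr (.inl (a, i)))) fun a i => w (.inr (.inr (a, i)))

/-- Definability. -/
def ExS {κ π φ : Type} (S : PrdS ι κ π φ) : Prop :=
  ExR fun L _ (w : ι ⊕ κ ⊕ π ⊕ π × φ → L) => S L (fun i => w (.inl i))
    (fun i => w (.inr (.inl i))) (fun p => w (.inr (.inr (.inl p))))
    fun p i => w (.inr (.inr (.inr (p, i))))

/-- The system has a solution in formal power series, near the base points. -/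
def Solv {κ β φ π : Type} (b : π → β) (H : PrdH ι β φ) (S : PrdS ι κ π φ) : Prop :=
  ∀ (K : Type) [Field K] [CharZero K] (c : ι → K) (r : β → φ → K⟦X⟧),
    H K c (fun a i => PowerSeries.coeff 0 (r a i)) (fun a i => PowerSeries.coeff 1 (r a i)) →
    ∃ (y : κ → K⟦X⟧) (x : π → K⟦X⟧), (∀ p, PowerSeries.constantCoeff (x p) = 0) ∧
      S K⟦X⟧ (fun i => PowerSeries.C (c i)) y x fun p i => (r (b p) i).subst (x p)

end df

/-- Base points, local coordinates and regular functions. -/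
structure Loc {F : Type} [Field F] [Fintype F] {g : ℕ} (C : Cv F g) (n : ℕ) {β φ : Type}
    (α : β → C.Pl) (t : β → C.E) (f : β → φ → C.E) (a0 a1 : β → φ → F) : Prop where
  rat : ∀ a, C.Rat (α a)
  t0 : ∀ a, t a ∈ C.E0
  t1 : ∀ a, ord (α a) (t a) = 1
  tb : ∀ a, Bd (Kb F) n (t a)
  f0 : ∀ a i, f a i ∈ C.O (α a)
  fb : ∀ a i, Bd (Kb F) n (f a i)
  ex : ∀ a i, (α a).v (f a i - C.c (a0 a i) - C.c (a1 a i) * t a) < exp (-1)

/-- Rational points near the base points. -/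
structure Near {F : Type} [Field F] [Fintype F] {g : ℕ} (C : Cv F g) {β φ π : Type} (b : π → β)
    (α : β → C.Pl) (t : β → C.E) (f : β → φ → C.E) (X : Finset C.Pl) (sep : β → β → Prop)
    (P : π → C.Pl) : Prop where
  rat : ∀ p, C.Rat (P p)
  dic : ∀ p, P p ∉ X ∨ P p = α (b p)
  ne : ∀ p p', sep (b p) (b p') → P p ≠ P p'
  t0 : ∀ p, (P p).v (t (b p)) ≤ 1
  f0 : ∀ p i, (P p).v (f (b p) i) ≤ 1

/-! ### Points as linear forms -/

/-- The names of some functions. -/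
inductive Jn (M1 M2 : ℕ) (β φ : Type)
  | a (i : Fin M1)
  | b (j : Fin M2)
  | ab (i : Fin M1) (j : Fin M2)
  | one
  | d (a : β)
  | dt (a : β)
  | df (a : β) (i : φ)
  | w

section jn

variable {M M1 M2 : ℕ} {β φ L : Type} [CommRing L] (co : Jn M1 M2 β φ → Fin M → L) (l : Fin M → L)

/-- The value of a named function. -/
def lin (j : Jn M1 M2 β φ) : L := ∑ k, co j k * l k

/-- The vector is a point of the curve. -/
def Pnt : Prop := lin co l .one = 1 ∧ ∀ i j, lin co l (.a i) * lin co l (.b j) = lin co l (.ab i j)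

/-- The values of the functions attached to a base point. -/
def Att (a : β) (x : L) (v : φ → L) : Prop :=
  lin co l (.d a) * x = lin co l (.dt a) ∧ ∀ i, lin co l (.d a) * v i = lin co l (.df a i)

end jn

/-! ### Power series -/

/-- Maps that respect congruences. -/
def Lp {K : Type} [Field K] (φ : K⟦X⟧ → K⟦X⟧) : Prop :=
  ∀ (n : ℕ) (a b : K⟦X⟧), PowerSeries.X ^ n ∣ a - b → PowerSeries.X ^ n ∣ φ a - φ b

/-! ### The system of four certificates -/

/-- The four certificates. -/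
abbrev J4 : Type := Fin 2 × Fin 2

/-- The twelve pencils. -/
abbrev I12 : Type := J4 × Fin 3

/-- The base points: `B`, `A`, `z`, the points `P`, the base points of the net, auxiliary points. -/
inductive Bs (m : ℕ)
  | B
  | A
  | z
  | P (j : J4)
  | c (i : Fin m)
  | Z (l : Fin (m + 3))

/-- The functions. -/
inductive Fn (m : ℕ)
  | h (i : Fin 2)
  | f (I : I12)
  | g (I : I12) (l : Fin (m + 3))
  | c (j : J4)
  | s

/-- The unknown points. -/
inductive Pn (m : ℕ)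
  | o
  | Q (i : Fin 2)
  | R (i : Fin 2)
  | T (j : J4) (l : Fin 2)
  | Z (I : I12) (l : Fin (m + 3))
  | F (I : I12) (d : Fin 2 ⊕ Fin m)
  | C (j : J4) (d : Fin 3 ⊕ Fin m)

/-- The unknown coefficients. -/
inductive Un (m : ℕ)
  | s (I : I12) (i : Fin 2)
  | e (I : I12)
  | k (I : I12) (l : Fin (m + 3))
  | μ (j : J4)

/-- The constants. -/
inductive Sc
  | sB
  | σ (j : J4)
  | d (i : Fin 2)
  | q (i : Fin 2)
  | a (j : J4)

section sys

variable {m : ℕ}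

instance : Finite (Bs m) := .of_surjective
  (Sum.elim ![.B, .A, .z] (Sum.elim .P (Sum.elim .c .Z)) : Fin 3 ⊕ _ → Bs m) fun
  | .B => ⟨.inl 0, rfl⟩
  | .A => ⟨.inl 1, rfl⟩
  | .z => ⟨.inl 2, rfl⟩
  | .P j => ⟨.inr (.inl j), rfl⟩
  | .c i => ⟨.inr (.inr (.inl i)), rfl⟩
  | .Z l => ⟨.inr (.inr (.inr l)), rfl⟩

instance : Finite (Fn m) := .of_surjective
  (Sum.elim .h (Sum.elim .f (Sum.elim (Function.uncurry .g) (Sum.elim .c fun _ : Unit => .s))) :
    _ → Fn m) fun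
  | .h i => ⟨.inl i, rfl⟩
  | .f I => ⟨.inr (.inl I), rfl⟩
  | .g I l => ⟨.inr (.inr (.inl (I, l))), rfl⟩
  | .c j => ⟨.inr (.inr (.inr (.inl j))), rfl⟩
  | .s => ⟨.inr (.inr (.inr (.inr ()))), rfl⟩

instance : Finite (Pn m) := .of_surjective
  (Sum.elim (Sum.elim (fun _ : Unit => .o) (Sum.elim .Q .R)) (Sum.elim (Function.uncurry .T)
    (Sum.elim (Function.uncurry .Z) (Sum.elim (Function.uncurry .F) (Function.uncurry .C)))) :
    _ → Pn m) fun
  | .o => ⟨.inl (.inl ()), rfl⟩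
  | .Q i => ⟨.inl (.inr (.inl i)), rfl⟩
  | .R i => ⟨.inl (.inr (.inr i)), rfl⟩
  | .T j l => ⟨.inr (.inl (j, l)), rfl⟩
  | .Z I l => ⟨.inr (.inr (.inl (I, l))), rfl⟩
  | .F I d => ⟨.inr (.inr (.inr (.inl (I, d)))), rfl⟩
  | .C j d => ⟨.inr (.inr (.inr (.inr (j, d)))), rfl⟩

instance : Finite (Un m) := .of_surjective
  (Sum.elim (Function.uncurry .s) (Sum.elim .e (Sum.elim (Function.uncurry .k) .μ)) :
    _ → Un m) fun
  | .s I i => ⟨.inl (I, i), rfl⟩
  | .e I => ⟨.inr (.inl I), rfl⟩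
  | .k I l => ⟨.inr (.inr (.inl (I, l))), rfl⟩
  | .μ j => ⟨.inr (.inr (.inr j)), rfl⟩

/-- The far poles of a pencil. -/
def far (I : I12) : Fin 2 ⊕ Fin m → Bs m :=
  Sum.elim (![![.A, .P I.1], ![.z, .P I.1], ![.z, .A]] I.2) .c

/-- The far poles of the constant pencil. -/
def cfar (j : J4) : Fin 3 ⊕ Fin m → Bs m := Sum.elim ![.A, .z, .P j] .c

/-- The two near poles of a pencil. -/
def np (I : I12) : Fin 2 → Pn m := ![![.R I.1.2, .o], ![.Q I.1.1, .o], ![.Q I.1.1, .R I.1.2]] I.2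

/-- The base point of an unknown point. -/
def bs : Pn m → Bs m
  | .Z _ l => .Z l
  | .F I d => far I d
  | .C j d => cfar j d
  | _ => .B

/-- The pairs of base points that are distinct. -/
def Sep (a a' : Bs m) : Prop := a ≠ a' ∧ ∀ j j', ¬ (a = .P j ∧ a' = .P j')

/-- The order of the poles at a base point. -/
def mu : Bs m → ℕ
  | .B => 2
  | _ => 1

variable {L : Type} [CommRing L]

/-- The section with the near poles as zeros. -/
def s1 (y : Un m → L) (I : I12) (w : L) (V : Fn m → L) : L :=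
  w + y (.s I 0) * V (.h 0) + y (.s I 1) * V (.h 1)

/-- The second section. -/
def s2 (y : Un m → L) (I : I12) (V : Fn m → L) : L := V (.f I) + ∑ l, y (.k I l) * V (.g I l)

/-- The member of the pencil. -/
def s3 (y : Un m → L) (I : I12) (w : L) (V : Fn m → L) : L := s1 y I w V + y (.e I) * s2 y I V

variable (m L)

/-- The conditions on the data. -/
structure HM (c : Sc → L) (a0 a1 : Bs m → Fn m → L) : Prop where
  h00 : a0 .B (.h 0) = 0
  h01 : a1 .B (.h 0) = 1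
  h10 : a0 .B (.h 1) = 1
  f0 : ∀ I, a0 .B (.f I) = 1
  g0 : ∀ I l, a0 .B (.g I l) = 0
  c0 : ∀ j, a0 .B (.c j) = 0
  c1 : ∀ j, a1 .B (.c j) = 1
  s0 : a0 .B .s = c .sB
  zf : ∀ l I, a0 (.Z l) (.f I) = 0
  zg : ∀ l I, a0 (.Z l) (.g I l) = 1
  zg' : ∀ l I l', l' ≠ l → a0 (.Z l) (.g I l') = 0
  sB : c .sB ≠ 0
  d : ∀ i, c (.d i) ≠ 0
  q : ∀ i, c (.q i) ≠ 0
  qd : ∀ j : J4, c (.q j.1) * c .sB = c (.σ j) * c (.d j.2)
  a : ∀ j, c (.a j) ≠ 0
  κ : ∀ j, a1 .B (.f (j, 0)) ≠ a1 .B (.f (j, 1))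
  aκ : ∀ j : J4, c (.a j) ^ 2 * (a1 .B (.f (j, 0)) - a1 .B (.f (j, 1))) = c (.q j.1) - c (.d j.2)

/-- The system. -/
structure SM (c : Sc → L) (y : Un m → L) (x : Pn m → L) (V : Pn m → Fn m → L) : Prop where
  o : x .o = 0
  con : ∀ j : J4, c (.σ j) * x (.R j.2) = V (.Q j.1) .s * x (.Q j.1)
  np : ∀ I l, s1 y I (x (np I l) ^ 2) (V (np I l)) = 0
  z1 : ∀ I l, s1 y I (x (.Z I l)) (V (.Z I l)) = 0
  z2 : ∀ I l, s2 y I (V (.Z I l)) = 0
  far : ∀ I d, s3 y I (x (.F I d)) (V (.F I d)) = 0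
  t0 : ∀ I : I12, s3 y I (x (.T I.1 0) ^ 2) (V (.T I.1 0)) = 0
  t1 : ∀ I : I12, I.2 ≠ 2 → s3 y I (x (.T I.1 1) ^ 2) (V (.T I.1 1)) = 0
  n1 : ∀ I : I12, s1 y I (x (.T I.1 0) ^ 2) (V (.T I.1 0)) ≠ 0
  n3 : ∀ I, s3 y I (x .o ^ 2) (V .o) ≠ 0
  c0 : ∀ j, x (.T j 0) ^ 2 = y (.μ j) * V (.T j 0) (.c j)
  cf : ∀ j d, x (.C j d) = y (.μ j) * V (.C j d) (.c j)
  Q0 : ∀ i, x (.Q i) ≠ 0
  R0 : ∀ i, x (.R i) ≠ 0
  T0 : ∀ j l, x (.T j l) ≠ 0
  QR : ∀ j : J4, x (.Q j.1) ≠ x (.R j.2)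
  TQ : ∀ (j : J4) l, x (.T j l) ≠ x (.Q j.1)
  TR : ∀ (j : J4) l, x (.T j l) ≠ x (.R j.2)
  TT : ∀ j, x (.T j 0) ≠ x (.T j 1)

variable {m L} {k E : Type} [Field k] [Field E] [Algebra k E]

/-- The base points. -/
def al (N : Net k E m) (z : Place k E) (P : J4 → Place k E) (Z : Fin (m + 3) → Place k E) :
    Bs m → Place k E
  | .B => N.B
  | .A => N.A
  | .z => z
  | .P j => P j
  | .c i => N.c i
  | .Z l => Z l

/-- The functions, made regular at a base point. -/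
def fn (t : Bs m → E) (h : Fn m → E) : Bs m → Fn m → E
  | .B, .s => h .s
  | _, .s => 0
  | a, i => t a ^ mu a * h i

/-- The functions that enter the system. -/
structure FD {F : Type} [Field F] [Fintype F] (C : Cv F (m + 3)) (N : Net (Kb F) C.E m) (z : C.Pl)
    (P : J4 → C.Pl) (n : ℕ) where
  Z : Fin (m + 3) → C.Pl
  t : Bs m → C.E
  h : Fn m → C.E
  c : Sc → F
  a0 : Bs m → Fn m → F
  a1 : Bs m → Fn m → F
  loc : Loc C n (al N z P Z) t (fn t h) a0 a1
  sep : ∀ a a', Sep a a' → al N z P Z a ≠ al N z P Z a'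
  hm : HM m F c a0 a1
  tB : t .B = (N.v - C.c (C.vl z N.v))⁻¹
  hs : h .s = N.u - C.c (C.vl z N.u)
  cσ : ∀ j, c (.σ j) = C.vl (P j) N.u - C.vl z N.u
  mh : ∀ i, h (.h i) ∈ LS (pt N.B + pt N.B + ∑ l, pt (Z l))
  mf : ∀ I, h (.f I) ∈ LS (pt N.B + pt N.B + ∑ d, pt (al N z P Z (far I d)) + ∑ l, pt (Z l))
  mg : ∀ I l, h (.g I l) ∈ LS (pt N.B + pt N.B + ∑ d, pt (al N z P Z (far I d)) + ∑ l, pt (Z l))
  mc : ∀ j, h (.c j) ∈ LS (pt N.B + ∑ d, pt (al N z P Z (cfar j d)))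

end sys

end Pool.Agent.P.MP_9344a7_nt.Gt
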