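import Pool.Agent.P.MP_9344a7_nt.Gt.BaseK

/-!
The intermediate statements of the Torelli theorem over a finite field, in genus at least three.
-/

namespace Pool.Agent.P.MP_9344a7_nt.Gt

open WithZero Module
open Pool.Agent.P.MP_6f117a_ag (Place FF)
open Pool.Agent.P.MP_ab3ecb_nt.Inv
open Pool.Agent.P.MP_9344a7_nt.R (Fr rr_fd)
open Pool.Agent.P.MP_9344a7_nt.Tor (Prd ExF IsUP AL)
open scoped Classical PowerSeries IntermediateField Polynomial Polynomial.Bivariate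

/-! ### Geometry over an algebraically closed field -/

-- deps:
def S_RES : Prop := ∀ (k E : Type) [Field k] [Field E] [Algebra k E] [IsAlgClosed k] [FF k E]
  (g : ℕ) (W : Dv k E), Can g W → ∀ (ι : Type) [Fintype ι] (U : ι → Place k E) (t : ι → E),
  Function.Injective U → (∀ i, (U i).v (t i) = exp (-(W (U i) + 1))) →
    ∃ ρ : ι → k, (∀ i, ρ i ≠ 0) ∧ ∀ f ∈ LS (W + ∑ i, pt (U i)), ∑ i, ρ i * ev (U i) (t i * f) = 0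

-- deps:
def S_NF : Prop := ∀ (k E : Type) [Field k] [Field E] [Algebra k E] [IsAlgClosed k] [FF k E]
  (m : ℕ) (N : Net k E m), N.NF

-- deps: RES NF
def S_GF : Prop := ∀ (k E : Type) [Field k] [Field E] [Algebra k E] [IsAlgClosed k] [FF k E]
  (m : ℕ) (N : Net k E m) (z P Q R T0 T1 : Place k E) (Z0 Z1 Z2 Z3 : Dv k E), N.Gp z P Q R →
  N.Cert z P Q R T0 T1 Z0 Z1 Z2 Z3 → N.Conc z P Q R

-- deps: RES NF
def S_GC : Prop := ∀ (k E : Type) [Field k] [Field E] [Algebra k E] [IsAlgClosed k] [FF k E]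
  (m : ℕ) (N : Net k E m) (z P Q R T0 T1 : Place k E) (Z0 Z1 Z2 : Dv k E), N.Gp z P Q R →
  N.Two z P Q R T0 T1 Z0 Z1 → N.Conc z P Q R → T0 ≠ P → T1 ≠ P → T0 ≠ N.B → T1 ≠ N.B → 0 ≤ Z2 →
  deg Z2 = m + 2 → Z2 T1 = 0 → (pt Q + pt R + (pt z + pt N.A + N.S)) T0 = 0 →
  lS (pt Q + pt R + (pt z + pt N.A + N.S) - pt T0 - Z2) ≠ 0 →
    Pr (pt T0 + pt T1 + Z2 - (pt Q + pt R + (pt z + pt N.A + N.S)))

-- deps: RES NF
def S_KAP : Prop := ∀ (k E : Type) [Field k] [Field E] [Algebra k E] [IsAlgClosed k] [FF k E]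
  (m : ℕ) (N : Net k E m) (z P : Place k E) (t f0 f1 : E) (κ0 κ1 : k), N.Y N.B = 1 → N.Off z →
  N.Off P → t = (N.v - algebraMap k E (ev z N.v))⁻¹ →
  f0 ∈ LS (pt N.B + pt N.B + (pt N.A + pt P + N.S)) →
  f1 ∈ LS (pt N.B + pt N.B + (pt z + pt P + N.S)) → z ≠ P →
  N.B.v (t ^ 2 * f0 - 1 - algebraMap k E κ0 * t) < exp (-1) →
  N.B.v (t ^ 2 * f1 - 1 - algebraMap k E κ1 * t) < exp (-1) →
    (κ0 - κ1) * (ev P N.u - ev z N.u) = (ev P N.u - ev N.B N.u) * (ev P N.v - ev z N.v)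

-- deps:
def S_BDP : Prop := ∀ (k E : Type) [Field k] [Field E] [Algebra k E] [IsAlgClosed k] [FF k E]
  (n d : ℕ) (a b : E) (G : k[X][Y]), Bd k n a → Bd k n b → G.natDegree ≤ d →
  (∀ i, (G.coeff i).natDegree ≤ d) → Bd k (2 * d * n) (Polynomial.aevalAeval a b G) ∧
    ∀ P : Place k E, P.v a ≤ 1 → P.v b ≤ 1 → P.v (Polynomial.aevalAeval a b G) ≤ 1 ∧
      ev P (Polynomial.aevalAeval a b G) = G.evalEval (ev P a) (ev P b)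

-- deps:
def S_REL : Prop := ∀ n : ℕ, ∃ d : ℕ, ∀ (k E : Type) [Field k] [Field E] [Algebra k E]
  [IsAlgClosed k] [FF k E] (a b : E), Transcendental k a → Bd k n a → Bd k n b →
    ∃ Ψ : k[X][Y], Irreducible Ψ ∧ 0 < Ψ.natDegree ∧ Ψ.natDegree ≤ d ∧
      (∀ i, (Ψ.coeff i).natDegree ≤ d) ∧ Polynomial.aevalAeval a b Ψ = 0 ∧
      ∀ G : k[X][Y], Polynomial.aevalAeval a b G = 0 → Ψ ∣ G

-- deps: BDP REL
def S_RAM : Prop := ∀ g n : ℕ, ∃ c d : ℕ, ∀ (k E : Type) [Field k] [Field E] [Algebra k E]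
  [IsAlgClosed k] [FF k E] (W : Dv k E) (f : E), Can g W → Ch k d → Transcendental k f →
  Bd k n f → ∃ X : Finset (Place k E), X.card ≤ c ∧
    ∀ P ∉ X, P.v f ≤ 1 ∧ ord P (f - algebraMap k E (ev P f)) = 1

-- deps: RAM
def S_RM2 : Prop := ∀ g : ℕ, ∃ c d : ℕ, ∀ (k E : Type) [Field k] [Field E] [Algebra k E]
  [IsAlgClosed k] [FF k E] (W D : Dv k E), Can g W → Ch k d → 2 ≤ lS D → deg D ≤ 2 * g →
    ∃ X : Finset (Place k E), X.card ≤ c ∧ ∀ P ∉ X, lS (D - pt P - pt P) + 2 = lS D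

-- deps:
def S_BPF : Prop := ∀ (k E : Type) [Field k] [Field E] [Algebra k E] [IsAlgClosed k] [FF k E]
  (g : ℕ) (W H : Dv k E), Can g W → 0 ≤ H → 2 * g + 1 ≤ deg H →
  (∀ P Q : Place k E, H P = 0 → H Q = 0 → (∀ a ∈ LS H, ev P a = ev Q a) → P = Q) ∧
    ∀ l : E →ₗ[k] k, l 1 = 1 → (∀ a ∈ LS H, ∀ b ∈ LS (2 • H), l (a * b) = l a * l b) →
      ∃ P : Place k E, H P = 0 ∧ ∀ a ∈ LS H, l a = ev P a

-- deps: RAM
def S_PRIM : Prop := ∀ g n : ℕ, ∃ c d : ℕ, ∀ (k E : Type) [Field k] [Field E] [Algebra k E]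
  [IsAlgClosed k] [FF k E] (W : Dv k E) (ι : Type) [Fintype ι] (a : E) (x : ι → E)
  (X : Finset (Place k E)), Can g W → Ch k d → Transcendental k a → Bd k n a →
  (∀ P ∉ X, ∀ i, P.v (x i) ≤ 1) → (∀ P ∉ X, ∀ Q ∉ X, (∀ i, ev P (x i) = ev Q (x i)) → P = Q) →
    ∃ Δ : Finset (ι → k), Δ.card ≤ c ∧ (∀ δ ∈ Δ, δ ≠ 0) ∧
      ∀ y : ι → k, (∀ δ ∈ Δ, ∑ i, y i * δ i ≠ 0) → k⟮a, ∑ i, y i • x i⟯ = ⊤

-- deps:
def S_FRB : Prop := ∀ (k E : Type) [Field k] [Field E] [Algebra k E] [IsAlgClosed k] [FF k E]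
  (g : ℕ) (W : Dv k E) (Γ : Frm W g), Can g W → Γ.FF

-- deps: FRB
def S_NH : Prop := ∀ (k E : Type) [Field k] [Field E] [Algebra k E] [IsAlgClosed k] [FF k E]
  (g : ℕ) (W : Dv k E) (Γ : Frm W g) (j : Fin g), Can g W → ¬ G12 k E →
    ∃ X : Finset (Place k E), (∀ P ∉ X, ∀ i, P.v (Γ.w i / Γ.w j) ≤ 1) ∧
      ∀ P ∉ X, ∀ Q ∉ X, (∀ i, ev P (Γ.w i / Γ.w j) = ev Q (Γ.w i / Γ.w j)) → P = Q

-- deps:
def S_H2 : Prop := ∀ (k E : Type) [Field k] [Field E] [Algebra k E] [IsAlgClosed k] [FF k E]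
  (g : ℕ) (W : Dv k E) (Γ : Frm W g) (i j : Fin g), Can g W → G12 k E → i ≠ j →
    Bd k 2 (Γ.w i / Γ.w j)

-- deps: FRB
def S_NETF : Prop := ∀ (k E : Type) [Field k] [Field E] [Algebra k E] [IsAlgClosed k] [FF k E]
  (m : ℕ) (W : Dv k E) (Γ : Frm W (m + 3)) (i j l : Fin (m + 3)) (e : Fin m → Fin (m + 3)),
  Can (m + 3) W → i ≠ j → i ≠ l → j ≠ l → Function.Injective e →
  (∀ a, e a ≠ i ∧ e a ≠ j ∧ e a ≠ l) → ∃ N : Net k E m, N.A = Γ.G i ∧ N.B = Γ.G l ∧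
    (∀ a, N.c a = Γ.G (e a)) ∧ N.u = Γ.w i / Γ.w j ∧ N.v = Γ.w l / Γ.w j ∧ (Γ.Sim → N.Sim)

/-! ### Rational functions and rational points -/

-- deps:
def S_AVF : Prop := ∀ (F k ι : Type) [Field F] [Fintype F] [Field k] [Algebra F k] [Fintype ι]
  (Δ : Finset (ι → k)), Δ.card < Fintype.card F → (∀ δ ∈ Δ, δ ≠ 0) →
    ∃ y : ι → F, ∀ δ ∈ Δ, ∑ i, algebraMap F k (y i) * δ i ≠ 0

-- deps:
def S_DES : Prop := ∀ (F : Type) [Field F] [Fintype F] (g : ℕ) (C : Cv F g), ∀ D ∈ C.D0,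
  ∃ b : Fin (lS D) → C.E, (∀ i, b i ∈ C.E0 ∧ b i ∈ LS D) ∧ LinearIndependent (Kb F) b ∧
    (∀ z ∈ LS D, ∃ c : Fin (lS D) → Kb F, z = ∑ i, c i • b i) ∧
    ∀ z ∈ LS D, z ∈ C.E0 → ∃ c : Fin (lS D) → F, z = ∑ i, C.c (c i) * b i

-- deps: AVF DES
def S_AVD : Prop := ∀ (F : Type) [Field F] [Fintype F] (g : ℕ) (C : Cv F g), ∀ D ∈ C.D0,
  ∀ (ι : Type) (s : Finset ι) (U : ι → Submodule (Kb F) C.E), s.card < Fintype.card F →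
  (∀ i ∈ s, ¬ LS D ≤ U i) → ∃ z ∈ LS D, z ∈ C.E0 ∧ ∀ i ∈ s, z ∉ U i

-- deps: AVD
def S_UNI : Prop := ∀ (F : Type) [Field F] [Fintype F] (g : ℕ) (C : Cv F g) (P : C.Pl), C.Rat P →
  (∃ t ∈ C.E0, ord P t = 1 ∧ Bd (Kb F) (4 * g + 1) t) ∧ ∀ t ∈ C.E0, ord P t = 1 → ∀ f ∈ C.O P,
    ∃ a0 a1 : F, P.v (f - C.c a0 - C.c a1 * t) < exp (-1)

-- deps:
def S_EXP : Prop := ∀ (F : Type) [Field F] [Fintype F] (g : ℕ) (C : Cv F g) (P : C.Pl) (t : C.O P),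
  C.Rat P → ord P t.1 = 1 → ∃ e : C.O P →+* F⟦X⟧, e t = PowerSeries.X ∧
    (∀ a, e ⟨C.c a, Cv.c_mem_O P a⟩ = PowerSeries.C a) ∧
    (∀ f, PowerSeries.coeff 0 (e f) = C.vl P f) ∧ ∀ (f : C.O P) (a0 a1 : F),
      P.v (f - C.c a0 - C.c a1 * t) < exp (-1) →
        PowerSeries.coeff 0 (e f) = a0 ∧ PowerSeries.coeff 1 (e f) = a1

-- deps: BPF DES AVD
def S_ENC : Prop := ∀ (g n : ℕ) (β φ : Type) [Finite β] [Finite φ], ∃ M M1 M2 q0 : ℕ,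
  ∀ (F : Type) [Field F] [Fintype F] (C : Cv F g) (α : β → C.Pl) (t : β → C.E) (f : β → φ → C.E)
  (a0 a1 : β → φ → F), q0 ≤ Fintype.card F → Nonempty β → Loc C n α t f a0 a1 →
    ∃ (b : Fin M → C.E) (co : Jn M1 M2 β φ → Fin M → F), (∀ a i, b i ∈ C.O (α a)) ∧
      Pnt (fun j i => C.c (co j i)) b ∧ (∀ a, Att (fun j i => C.c (co j i)) b a (t a) (f a)) ∧
      (∀ a, lin co (fun i => C.vl (α a) (b i)) (.d a) ≠ 0) ∧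
      (∀ a a', α a ≠ α a' →
        lin co (fun i => C.vl (α a) (b i)) .w ≠ lin co (fun i => C.vl (α a') (b i)) .w) ∧
      ∃ pl : (Fin M → F) → C.Pl, (∀ a, pl (fun i => C.vl (α a) (b i)) = α a) ∧
        (∀ l l', Pnt co l → Pnt co l' → pl l = pl l' → lin co l .w = lin co l' .w) ∧
        ∀ l, Pnt co l → C.Rat (pl l) ∧ ∀ a x v, lin co l (.d a) ≠ 0 → Att co l a x v →
          ((pl l).v (t a) ≤ 1 ∧ C.vl (pl l) (t a) = x) ∧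
            ∀ i, (pl l).v (f a i) ≤ 1 ∧ C.vl (pl l) (f a i) = v i

-- deps:
def S_APP : Prop := ∀ (K κ : Type) [Field K] [CharZero K] [Finite κ] (z : κ → LaurentSeries K),
  ∃ w : κ → AL K, (∀ p : MvPolynomial κ K, MvPolynomial.aeval z p = 0 →
    MvPolynomial.aeval w p = 0) ∧ ∀ j, (∀ a, z j ≠ algebraMap K _ a) → Transcendental K (w j)

-- deps:
def S_UPC : Prop := (∀ (ι : Type) (H : Prd ι), ExF H → UPC H) ∧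
  ∀ (ι μ : Type) (e e' : μ → ∀ (L : Type) [CommRing L], (ι → L) → L), (∀ j, Nt (e j)) →
    (∀ j, Nt (e' j)) → UPC fun L _ x => ∀ j, e j L x = e' j L x

-- deps: APP Tor.UP Tor.REG Tor.PJ Tor.PAC
def S_MT : Prop := ∀ (ι κ μ : Type) [Finite κ] [Finite μ] (H : Prd ι) (S : Prd (ι ⊕ κ))
  (j m : μ → κ) (c : μ → ι), UPC H → ExF S →
  (∀ (K : Type) [Field K] [CharZero K] (x : ι → K), H K x → ∃ z : κ → LaurentSeries K,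
    S (LaurentSeries K) (Sum.elim (fun i => algebraMap K _ (x i)) z) ∧
      ∀ a, (∀ y, z (m a) ≠ algebraMap K _ y) ∨ z (j a) = algebraMap K _ (x (c a))) →
  ∃ C0 p0 : ℕ, ∀ (F : Type) [Field F] [Fintype F], p0 < ringChar F → ∀ x : ι → F, H F x →
    ∀ B : Finset F, B.card * C0 ≤ Fintype.card F →
      ∃ z : κ → F, S F (Sum.elim x z) ∧ ∀ a, z (m a) ∉ B ∨ z (j a) = x (c a)

-- deps: EXP ENC UPC MT
def S_TRF : Prop := ∀ (g n : ℕ) (ι κ β φ π : Type) [Finite κ] [Finite β] [Finite φ] [Finite π]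
  [Nonempty β] (b : π → β) (sep : β → β → Prop) (H : PrdH ι β φ) (S : PrdS ι κ π φ), ExH H →
  ExS S → Solv b H S → ∃ C0 p0 : ℕ, ∀ (F : Type) [Field F] [Fintype F] (C : Cv F g) (c : ι → F)
  (α : β → C.Pl) (t : β → C.E) (f : β → φ → C.E) (a0 a1 : β → φ → F) (X : Finset C.Pl),
  p0 < ringChar F → Loc C n α t f a0 a1 → (∀ a a', sep a a' → α a ≠ α a') → H F c a0 a1 →
  X.card * C0 ≤ Fintype.card F → ∃ (y : κ → F) (P : π → C.Pl), Near C b α t f X sep P ∧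
    S F c y (fun p => C.vl (P p) (t (b p))) fun p i => C.vl (P p) (f (b p) i)

-- deps: UNI TRF
def S_MANY : Prop := ∀ g : ℕ, ∃ C0 p0 : ℕ, ∀ (F : Type) [Field F] [Fintype F] (C : Cv F g),
  p0 < ringChar F → (∃ P, C.Rat P) → C.Many C0

-- deps: BPF REL PRIM AVF DES AVD
def S_MDL : Prop := ∀ g : ℕ, 2 ≤ g → ∃ n p0 : ℕ, ∀ (F : Type) [Field F] [Fintype F] (C : Cv F g),
  p0 < ringChar F → ∃ (a b : C.E) (Ψ : F[X][Y]), a ∈ C.E0 ∧ b ∈ C.E0 ∧ Transcendental (Kb F) a ∧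
    Bd (Kb F) n a ∧ Bd (Kb F) n b ∧ (∀ P : C.Pl, P.v a ≤ 1 → P.v b ≤ 1) ∧ Ψ.Monic ∧
    Ψ.natDegree = finrank (Kb F)⟮a⟯ C.E ∧ Ψ.natDegree ≤ n ∧ (∀ i, (Ψ.coeff i).natDegree ≤ n) ∧
    Irreducible (Ψ.map (Polynomial.mapRingHom (algebraMap F (Kb F)))) ∧
    Polynomial.aevalAeval a b (Ψ.map (Polynomial.mapRingHom (algebraMap F (Kb F)))) = 0

-- deps: BDP MDL Tor.LWQ
def S_NPT : Prop := ∀ g : ℕ, 2 ≤ g → ∃ p0 : ℕ, ∀ (F : Type) [Field F] [Fintype F] (C : Cv F g),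
  p0 < ringChar F → ∃ P, C.Rat P

/-! ### Power series -/

-- deps:
def S_FIX : Prop := ∀ (K ι : Type) [Field K] (Ψ : (ι → K⟦X⟧) → ι → K⟦X⟧),
  (∀ (n : ℕ) a b, (∀ i, PowerSeries.X ^ n ∣ a i - b i) →
    ∀ i, PowerSeries.X ^ (n + 1) ∣ Ψ a i - Ψ b i) → ∃ a, Ψ a = a

-- deps:
def S_LIP : Prop := ∀ (K : Type) [Field K] (f : K⟦X⟧),
  (∀ x : K⟦X⟧, PowerSeries.constantCoeff x = 0 →
    PowerSeries.constantCoeff (f.subst x) = PowerSeries.coeff 0 f ∧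
    f.subst x = PowerSeries.C (PowerSeries.coeff 0 f) +
      x * (PowerSeries.mk fun i => PowerSeries.coeff (i + 1) f).subst x) ∧
  (∀ (n : ℕ) (x y : K⟦X⟧), PowerSeries.constantCoeff x = 0 → PowerSeries.constantCoeff y = 0 →
    PowerSeries.X ^ n ∣ x - y → PowerSeries.X ^ n ∣ f.subst x - f.subst y) ∧
  Lp fun a : K⟦X⟧ => (f.subst (PowerSeries.X * a : K⟦X⟧) : K⟦X⟧)

-- deps: FIX LIP
def S_ROOT : Prop := ∀ (K ι : Type) [Field K] [Fintype ι] (c f : ι → K⟦X⟧),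
  (∀ i, PowerSeries.constantCoeff (c i) = 0) →
    ∃ x : K⟦X⟧, PowerSeries.constantCoeff x = 0 ∧ x + ∑ i, c i * (f i).subst x = 0

-- deps: FIX
def S_SEC : Prop := ∀ (K : Type) [Field K] [CharZero K] (p : Fin 2 → K⟦X⟧) (κ : Fin 2 → K)
  (Γ Γ' : Fin 2 → K⟦X⟧ → K⟦X⟧) (a0 : K), (∀ i, Lp (Γ i)) → (∀ i, Lp (Γ' i)) → a0 ≠ 0 → κ 0 ≠ κ 1 →
  a0 ^ 2 * (κ 0 - κ 1) = PowerSeries.constantCoeff (p 0) - PowerSeries.constantCoeff (p 1) →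
    ∃ a l : Fin 2 → K⟦X⟧, PowerSeries.constantCoeff (a 0) = a0 ∧
      PowerSeries.constantCoeff (a 1) = -a0 ∧ ∀ i j,
        a j ^ 2 + PowerSeries.X * a j * p i + PowerSeries.X ^ 2 * Γ i (a j) + l i *
          (1 + PowerSeries.X * a j * PowerSeries.C (κ i) + PowerSeries.X ^ 2 * Γ' i (a j)) = 0

-- deps: LIP ROOT
def S_PK : Prop := ∀ (K γ : Type) [Field K] [Fintype γ] (y : Fin 2 → K⟦X⟧) (b0 b1 bf : K⟦X⟧)
  (bg z0 z1 zf : γ → K⟦X⟧) (zg : γ → γ → K⟦X⟧),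
  PowerSeries.constantCoeff (y 0) ≠ PowerSeries.constantCoeff (y 1) →
  PowerSeries.coeff 0 b0 = 0 → PowerSeries.coeff 1 b0 = 1 → PowerSeries.coeff 0 b1 = 1 →
  PowerSeries.coeff 0 bf = 1 → (∀ j, PowerSeries.coeff 0 (bg j) = 0) →
  (∀ l, PowerSeries.coeff 0 (zf l) = 0) → (∀ l, PowerSeries.coeff 0 (zg l l) = 1) →
  (∀ l j, j ≠ l → PowerSeries.coeff 0 (zg l j) = 0) →
    ∃ (p p' : K⟦X⟧) (kk ζ : γ → K⟦X⟧) (Γ Γ' : K⟦X⟧ → K⟦X⟧), Lp Γ ∧ Lp Γ' ∧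
      PowerSeries.constantCoeff p =
        -(PowerSeries.constantCoeff (y 0) + PowerSeries.constantCoeff (y 1)) ∧
      (∀ i, (PowerSeries.X ^ 2 * y i) ^ 2 + PowerSeries.X ^ 2 * p * b0.subst (PowerSeries.X ^ 2 * y i)
        + PowerSeries.X ^ 4 * p' * b1.subst (PowerSeries.X ^ 2 * y i) = 0) ∧
      (∀ l, PowerSeries.constantCoeff (ζ l) = 0 ∧ ζ l + PowerSeries.X ^ 2 * p * (z0 l).subst (ζ l) +
        PowerSeries.X ^ 4 * p' * (z1 l).subst (ζ l) = 0 ∧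
        (zf l).subst (ζ l) + ∑ j, kk j * (zg l j).subst (ζ l) = 0) ∧
      ∀ a, (PowerSeries.X * a) ^ 2 + PowerSeries.X ^ 2 * p * b0.subst (PowerSeries.X * a) +
          PowerSeries.X ^ 4 * p' * b1.subst (PowerSeries.X * a) = PowerSeries.X ^ 2 *
            (a ^ 2 + PowerSeries.X * a * p + PowerSeries.X ^ 2 * Γ a) ∧
        bf.subst (PowerSeries.X * a) + ∑ j, kk j * (bg j).subst (PowerSeries.X * a) =
          1 + PowerSeries.X * a * PowerSeries.C (PowerSeries.coeff 1 bf) + PowerSeries.X ^ 2 * Γ' a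

-- deps: FIX LIP ROOT SEC PK
def S_MK : Prop := ∀ m : ℕ, Solv bs (HM m) (SM m)

-- deps:
def S_ME : Prop := ∀ m : ℕ, ExH (HM m) ∧ ExS (SM m)

/-! ### Certificates -/

-- deps:
def S_AUX : Prop := ∀ g C1 n : ℕ, ∃ q0 : ℕ, ∀ (F : Type) [Field F] [Fintype F] (C : Cv F g)
  (X : Finset C.Pl), q0 ≤ Fintype.card F → C.Many C1 → X.card ≤ n →
    ∃ Z : Fin g → C.Pl, Function.Injective Z ∧ (∀ l, C.Rat (Z l) ∧ Z l ∉ X) ∧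
      lS (C.W - ∑ l, pt (Z l)) = 0

-- deps: NF KAP AVD UNI AUX
def S_FUN : Prop := ∀ m C1 : ℕ, ∃ n p0 : ℕ, ∀ (F : Type) [Field F] [Fintype F] (C : Cv F (m + 3))
  (N : Net (Kb F) C.E m) (z : C.Pl) (P : J4 → C.Pl), p0 < ringChar F → C.Many C1 → C.RN N →
  N.Sim → Gz N z → (∀ j, Vg N z (P j)) →
  (C.vl (P (0, 0)) N.u - C.vl z N.u) * (C.vl (P (1, 1)) N.u - C.vl z N.u) =
    (C.vl (P (0, 1)) N.u - C.vl z N.u) * (C.vl (P (1, 0)) N.u - C.vl z N.u) →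
    Nonempty (FD C N z P n)

-- deps: NF GC
def S_CF : Prop := ∀ m n : ℕ, ∃ n1 : ℕ, ∀ (F : Type) [Field F] [Fintype F] (C : Cv F (m + 3))
  (N : Net (Kb F) C.E m) (z : C.Pl) (P : J4 → C.Pl) (Δ : FD C N z P n), C.RN N → Gz N z →
  (∀ j, Vg N z (P j)) → ∃ X0 : Finset C.Pl, X0.card ≤ n1 ∧ ∀ (X : Finset C.Pl) (y : Un m → F)
  (p : Pn m → C.Pl), X0 ⊆ X → Near C bs (al N z P Δ.Z) Δ.t (fn Δ.t Δ.h) X Sep p →
  SM m F Δ.c y (fun i => C.vl (p i) (Δ.t (bs i))) (fun i l => C.vl (p i) (fn Δ.t Δ.h (bs i) l)) →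
    ∀ j : J4, N.Gp z (P j) (p (.Q j.1)) (p (.R j.2)) ∧
      N.Cert z (P j) (p (.Q j.1)) (p (.R j.2)) (p (.T j 0)) (p (.T j 1))
        (∑ d, pt (p (.F (j, 0) d))) (∑ d, pt (p (.F (j, 1) d))) (∑ d, pt (p (.F (j, 2) d)))
        (∑ d, pt (p (.C j d))) ∧
      p (.Q j.1) ∉ X ∧ p (.R j.2) ∉ X ∧ ∀ l, p (.T j l) ∉ X

-- deps: NF GF TRF MK ME FUN CF
def S_M2 : Prop := ∀ m C1 : ℕ, ∃ C0 p0 : ℕ, ∀ (F : Type) [Field F] [Fintype F]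
  (C D : Cv F (m + 3)) (T : Tr C D) (N : Net (Kb F) C.E m) (N' : Net (Kb F) D.E m) (z : C.Pl)
  (P : J4 → C.Pl), p0 < ringChar F → C.Many C1 → T.Sm C0 → T.Mt N N' → Gz N z → z ∉ T.B →
  N'.Y (T.φ z) = 0 → (∀ j, Vg N z (P j) ∧ P j ∉ T.B ∧ N'.Y (T.φ (P j)) = 0) →
  (C.vl (P (0, 0)) N.u - C.vl z N.u) * (C.vl (P (1, 1)) N.u - C.vl z N.u) =
    (C.vl (P (0, 1)) N.u - C.vl z N.u) * (C.vl (P (1, 0)) N.u - C.vl z N.u) →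
  (D.vl (T.φ (P (0, 0))) N'.u - D.vl (T.φ z) N'.u) *
      (D.vl (T.φ (P (1, 1))) N'.u - D.vl (T.φ z) N'.u) =
    (D.vl (T.φ (P (0, 1))) N'.u - D.vl (T.φ z) N'.u) *
      (D.vl (T.φ (P (1, 0))) N'.u - D.vl (T.φ z) N'.u)

-- deps: TRF FIX LIP
def S_HH : Prop := ∀ g n M : ℕ, ∃ C0 p0 : ℕ, ∀ (F : Type) [Field F] [Fintype F] (C : Cv F g)
  (A : C.Pl) (u v : C.E) (ε γ : Fin M → F) (a b : Fin M → Fin 2 → F) (X : Finset C.Pl),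
  p0 < ringChar F → C.Rat A → u ∈ C.E0 → v ∈ C.O A → Bd (Kb F) n u → Bd (Kb F) n v →
  ord A u = -1 → (∀ j, ε j ≠ 0) → (∀ j l, b j l ≠ C.vl A v) → X.card * C0 ≤ Fintype.card F →
    ∃ (τ : F) (P : Fin M → C.Pl), ∀ j, C.Rat (P j) ∧ P j ∉ X ∧ C.vl (P j) u = ε j ^ 2 * τ + γ j ∧
      ∀ l, IsSquare (C.vl (P j) u - a j l) ∧
        IsSquare ((C.vl (P j) v - b j l) * (C.vl A v - b j l))

/-! ### From the multiplicative relation to the field automorphism -/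

-- deps: Tor.FRE
def S_TEL : Prop := ∀ C0 n : ℕ, ∃ M p0 : ℕ, ∀ (F Pt : Type) [Field F] [Fintype F] (u u' : Pt → F)
  (G : Pt → Prop) (V : Pt → Pt → Prop), p0 < ringChar F →
  (∀ S : Finset F, S.card * C0 ≤ Fintype.card F → ∃ z, G z ∧ u z ∉ S) →
  (∀ z P0 P1 P2 P3, G z → V z P0 → V z P1 → V z P2 → V z P3 →
    (u P0 - u z) * (u P3 - u z) = (u P1 - u z) * (u P2 - u z) →
    (u' P0 - u' z) * (u' P3 - u' z) = (u' P1 - u' z) * (u' P2 - u' z)) →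
  (∀ (ε γ : Fin M → F) (ce : Fin M → Fin 2 → Pt) (S : Finset F), (∀ j, ε j ≠ 0) →
    (∀ j l, G (ce j l)) → S.card ≤ M → ∃ (τ : F) (P : Fin M → Pt), ∀ j,
      u (P j) = ε j ^ 2 * τ + γ j ∧ (∀ l, V (ce j l) (P j)) ∧ u' (P j) ∉ S) →
  (∀ (c : F) (T : Finset Pt), (∀ P ∈ T, (∃ z, V z P) ∧ u' P = c) → T.card ≤ n) →
    ∃ (Λ : F →+ F) (e : F), ∀ z, G z → u' z = Λ (u z) + e

-- deps:
def S_DEN : Prop := ∀ n C1 : ℕ, ∃ C0 : ℕ, ∀ (F : Type) [Field F] [Fintype F] (g : ℕ) (C D : Cv F g)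
  (T : Tr C D) (a : C.E) (a' : D.E) (X : Finset C.Pl) (S : Finset F), C.Many C1 → T.Sm C0 →
  a ∈ C.E0 → a' ∈ D.E0 → Transcendental (Kb F) a → Transcendental (Kb F) a' → Bd (Kb F) n a →
  Bd (Kb F) n a' → X.card * C0 ≤ Fintype.card F → S.card * C0 ≤ Fintype.card F →
  C0 ≤ Fintype.card F → ∃ z, T.Ok z ∧ z ∉ X ∧ z.v a ≤ 1 ∧ (T.φ z).v a' ≤ 1 ∧ C.vl z a ∉ S ∧
    D.vl (T.φ z) a' ∉ S

-- deps: NF M2 HH TEL DEN
def S_AFF : Prop := ∀ m C1 : ℕ, ∃ n C0 p0 : ℕ, ∀ (F : Type) [Field F] [Fintype F]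
  (C D : Cv F (m + 3)) (T : Tr C D) (N : Net (Kb F) C.E m) (N' : Net (Kb F) D.E m),
  p0 < ringChar F → C.Many C1 → T.Sm C0 → T.Mt N N' → ∃ (X : Finset C.Pl) (Λ : F →+ F) (e : F),
    X.card ≤ n ∧ ∀ z, T.Ok z → z ∉ X → D.vl (T.φ z) N'.u = Λ (C.vl z N.u) + e

-- deps: Tor.HUA
def S_MOB : Prop := ∀ C0 : ℕ, ∃ p0 : ℕ, ∀ (F Pt : Type) [Field F] [Fintype F] (u u' : Pt → F)
  (G : Pt → Prop) (Λ Λ' : F →+ F) (e e' : F), p0 < ringChar F →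
  (∀ S : Finset F, S.card * C0 ≤ Fintype.card F → ∃ z, G z ∧ u z ∉ S ∧ u' z ∉ S) →
  (∀ z, G z → u z ≠ 0 ∧ u' z ≠ 0 ∧ u' z = Λ (u z) + e ∧ (u' z)⁻¹ = Λ' (u z)⁻¹ + e') →
    ∃ (τ : F ≃+* F) (c : F), c ≠ 0 ∧ ∀ z, G z → c * u' z = τ (u z)

-- deps: RM2 AVD
def S_FRM : Prop := ∀ g C1 : ℕ, ∃ C0 p0 : ℕ, ∀ (F : Type) [Field F] [Fintype F] (C D : Cv F g)
  (T : Tr C D), p0 < ringChar F → C.Many C1 → T.Sm C0 →
    ∃ (Γ : Frm C.W g) (Γ' : Frm D.W g), T.Mf Γ Γ'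

-- deps: FRB NETF DEN AFF MOB
def S_RAT : Prop := ∀ m C1 : ℕ, ∃ n C0 p0 : ℕ, ∀ (F : Type) [Field F] [Fintype F]
  (C D : Cv F (m + 3)) (T : Tr C D) (Γ : Frm C.W (m + 3)) (Γ' : Frm D.W (m + 3)),
  p0 < ringChar F → C.Many C1 → T.Sm C0 → T.Mf Γ Γ' → ∀ i j, i ≠ j →
    ∃ (X : Finset C.Pl) (τ : F ≃+* F) (c : F), X.card ≤ n ∧ c ≠ 0 ∧
      T.Rl X τ (Γ.w i / Γ.w j) (D.c c * (Γ'.w i / Γ'.w j))

-- deps:
def S_FROB : Prop := ∀ n C1 : ℕ, ∃ C0 p0 : ℕ, ∀ (F : Type) [Field F] [Fintype F] (g : ℕ)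
  (C : Cv F g) (a b : C.E) (G : C.Pl) (α β : F ≃+* F) (c : F) (X : Finset C.Pl), p0 < ringChar F →
  C.Many C1 → a ∈ C.E0 → b ∈ C.E0 → Bd (Kb F) n a → Bd (Kb F) n b → ord G a ≠ 0 → b ≠ 0 →
  ord G b = 0 → X.card * C0 ≤ Fintype.card F → (∀ z, C.Rat z → z ∉ X → z.v a ≤ 1 → z.v b ≤ 1 →
    α (C.vl z a) * C.vl z b = c * C.vl z a * β (C.vl z b)) → α = RingEquiv.refl F

-- deps: FRB RAT FROB
def S_TAU : Prop := ∀ m C1 : ℕ, ∃ n C0 p0 : ℕ, ∀ (F : Type) [Field F] [Fintype F]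
  (C D : Cv F (m + 3)) (T : Tr C D) (Γ : Frm C.W (m + 3)) (Γ' : Frm D.W (m + 3)),
  p0 < ringChar F → C.Many C1 → T.Sm C0 → T.Mf Γ Γ' →
    ∃ (X : Finset C.Pl) (τ : F ≃+* F) (c : Fin (m + 3) → F), X.card ≤ n ∧ ∀ i, c i ≠ 0 ∧
      T.Rl X τ (Γ.w i / Γ.w 0) (D.c (c i) * (Γ'.w i / Γ'.w 0))

/-! ### The isomorphism -/

-- deps:
def S_ISO : Prop := ∀ (F : Type) [Field F] [Fintype F] (g : ℕ) (C D : Cv F g) (a b : C.E)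
  (a' b' : D.E) (s : Kb F ≃+* Kb F) (Ψ : (Kb F)[X][Y]), a ∈ C.E0 → b ∈ C.E0 → a' ∈ D.E0 →
  b' ∈ D.E0 → Transcendental (Kb F) a → Transcendental (Kb F) a' → (Kb F)⟮a, b⟯ = ⊤ →
  (Kb F)⟮a', b'⟯ = ⊤ → Irreducible Ψ → Polynomial.aevalAeval a b Ψ = 0 →
  Polynomial.aevalAeval a' b' (Ψ.map (Polynomial.mapRingHom (s : Kb F →+* Kb F))) = 0 → C.Iso D

-- deps: BDP REL ISO
def S_EMB : Prop := ∀ n C1 : ℕ, ∃ C0 : ℕ, ∀ (F : Type) [Field F] [Fintype F] (g : ℕ) (C D : Cv F g)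
  (T : Tr C D) (a b : C.E) (a' b' : D.E) (X : Finset C.Pl) (τ : F ≃+* F), C.Many C1 → T.Sm C0 →
  X.card * C0 ≤ Fintype.card F → C0 ≤ Fintype.card F → a ∈ C.E0 → b ∈ C.E0 → a' ∈ D.E0 →
  b' ∈ D.E0 → Bd (Kb F) n a → Bd (Kb F) n b → Bd (Kb F) n a' → Bd (Kb F) n b' →
  Transcendental (Kb F) a → Transcendental (Kb F) a' → (Kb F)⟮a, b⟯ = ⊤ → (Kb F)⟮a', b'⟯ = ⊤ →
  T.Rl X τ a a' → T.Rl X τ b b' → C.Iso D

-- deps: FRB NH PRIM AVF TAU EMB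
def S_NHI : Prop := ∀ m C1 : ℕ, ∃ C0 p0 : ℕ, ∀ (F : Type) [Field F] [Fintype F]
  (C D : Cv F (m + 3)) (T : Tr C D) (Γ : Frm C.W (m + 3)) (Γ' : Frm D.W (m + 3)),
  p0 < ringChar F → C.Many C1 → T.Sm C0 → T.Mf Γ Γ' → ¬ G12 (Kb F) C.E → ¬ G12 (Kb F) D.E →
    C.Iso D

-- deps:
def S_HT : Prop := ∀ C1 : ℕ, ∃ C0 : ℕ, ∀ (F : Type) [Field F] [Fintype F] (g : ℕ) (C D : Cv F g)
  (T : Tr C D) (a : C.E), 0 < g → C0 ≤ Fintype.card F → C.Many C1 → T.Sm C0 → a ∈ C.E0 →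
  Transcendental (Kb F) a → Bd (Kb F) 2 a → G12 (Kb F) D.E

-- deps: AVD
def S_HM1 : Prop := ∀ g : ℕ, 0 < g → ∃ n p0 : ℕ, ∀ (F : Type) [Field F] [Fintype F] (C : Cv F g)
  (a : C.E), p0 < ringChar F → a ∈ C.E0 → Transcendental (Kb F) a → Bd (Kb F) 2 a →
    ∃ (f : F[X]) (y : C.E), y ∈ C.E0 ∧ Squarefree f ∧ f.natDegree ≠ 0 ∧ f.natDegree ≤ n ∧
      y ^ 2 = f.eval₂ C.c a ∧ (Kb F)⟮a, y⟯ = ⊤

-- deps:
def S_HM2 : Prop := ∀ (F : Type) [Field F] [Fintype F] (g : ℕ) (C : Cv F g) (a y : C.E) (f : F[X]),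
  (2 : F) ≠ 0 → a ∈ C.E0 → y ∈ C.E0 → Transcendental (Kb F) a → Bd (Kb F) 2 a → Squarefree f →
  f.natDegree ≠ 0 → y ^ 2 = f.eval₂ C.c a →
  (∀ P, C.Rat P → P.v a ≤ 1 → IsSquare (f.eval (C.vl P a))) ∧
    ∀ x w : F, w ≠ 0 → w ^ 2 = f.eval x → ∃ P, C.Rat P ∧ P.v a ≤ 1 ∧ C.vl P a = x

-- imports: Pool.Agent.P.MP_9344a7_nt.Lwm
-- deps:
def S_SQP : Prop := ∀ n : ℕ, ∃ C0 p0 : ℕ, ∀ (F : Type) [Field F] [Fintype F] (f f' : F[X])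
  (S : Finset F), p0 < ringChar F → Squarefree f → Squarefree f' → f.natDegree ≠ 0 →
  f.natDegree ≤ n → f'.natDegree ≤ n → S.card * C0 ≤ Fintype.card F →
  (∀ x ∉ S, IsSquare (f.eval x) ↔ IsSquare (f'.eval x)) →
    ∃ c : F, c ≠ 0 ∧ f' = Polynomial.C (c ^ 2) * f

-- deps: ISO HM1 HM2 SQP
def S_HI : Prop := ∀ g n : ℕ, 0 < g → ∃ C0 p0 : ℕ, ∀ (F : Type) [Field F] [Fintype F]
  (C D : Cv F g) (T : Tr C D) (a : C.E) (a' : D.E) (X : Finset C.Pl) (τ : F ≃+* F),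
  p0 < ringChar F → T.Sm C0 → X.card ≤ n → a ∈ C.E0 → a' ∈ D.E0 → Transcendental (Kb F) a →
  Transcendental (Kb F) a' → Bd (Kb F) 2 a → Bd (Kb F) 2 a' → T.Rl X τ a a' → C.Iso D

-- deps: FRB H2 MANY FRM RAT NHI HT HI
def S_TORC : Prop := ∀ m : ℕ, ∃ C0 p0 : ℕ, ∀ (F : Type) [Field F] [Fintype F] (C D : Cv F (m + 3))
  (T : Tr C D), p0 < ringChar F → (∃ P, C.Rat P) → T.Sm C0 → C.Iso D

/-! ### The curves of the statement -/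

-- deps:
def S_CV : Prop := ∀ (F E : Type) [Field F] [Fintype F] [Field E] [Algebra (Kb F) E]
  (C : Curve F E) (g : ℕ), 0 < g → Genus (Kb F) E g → ∃ (_ : FF (Kb F) E) (σ : SA (Kb F) E)
    (W : Dv (Kb F) E), Fr σ (Fintype.card F) ∧ Can g W ∧ σ.dm W = W ∧ σ.s = C.Φ ∧ C.fr = σ.pl ∧
      C.φ = R.ph σ ∧ {P | σ.pl P = P}.Finite

-- deps:
def S_TR : Prop := ∀ (F : Type) [Field F] [Fintype F] (g : ℕ) (C D : Cv F g)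
  (ψ : (R.ph C.σ).eqLocus (.id _) ≃+ (R.ph D.σ).eqLocus (.id _)) (B : Finset C.Pl), 0 < g →
  {P | C.Rat P}.Finite → {P | D.Rat P}.Finite → (∃ P, D.Rat P) → (∃ P, C.Rat P) →
  Nat.card {P // C.Rat P} = Nat.card {P // D.Rat P} →
  (∀ (x : (R.ph C.σ).eqLocus (.id _)) (P), P ∉ B → x.1 = cls P → ∃ Q, (ψ x).1 = cls Q) →
    ∃ T : Tr C D, T.B = B ∧ T.B'.card ≤ B.card

-- deps: NPT TORC CV TR
def S_TOR : Prop := ∀ g : ℕ, 3 ≤ g → ∃ C0 p0 : ℕ, ∀ (F E E' : Type) [Field F] [Fintype F] [Field E]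
  [Algebra (AlgebraicClosure F) E] [Field E'] [Algebra (AlgebraicClosure F) E'] (C : Curve F E)
  (D : Curve F E'), p0 < ringChar F → Genus (AlgebraicClosure F) E g →
  Genus (AlgebraicClosure F) E' g → C.pts 1 = D.pts 1 → ∀ (ψ : C.PicF ≃+ D.PicF)
  (B : Finset (Place (AlgebraicClosure F) E)), B.card * C0 ≤ Fintype.card F →
  (∀ (x : C.PicF) (P), P ∉ B → x.1 = cls P → ∃ Q, (ψ x).1 = cls Q) → C.Conj D

end Pool.Agent.P.MP_9344a7_nt.Gt
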