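import Pool.Agent.P.MP_9344a7_nt.Gt.Iface

/-! Steps CF. -/

set_option linter.unusedSectionVars false
set_option linter.unusedVariables false

namespace Pool.Agent.P.MP_9344a7_nt.Gt

open WithZero Module
open Pool.Agent.P.MP_6f117a_ag (Place FF)
open Pool.Agent.P.MP_ab3ecb_nt.Inv
open Pool.Agent.P.MP_9344a7_nt.R (Fr rr_fd)
open Pool.Agent.P.MP_9344a7_nt.Tor (Prd ExF IsUP AL)
open scoped Classical PowerSeries IntermediateField Polynomial Polynomial.Bivariate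

section

section cf

variable {m : ℕ}

/-- A label that separates base points. -/
def cf_cd : Bs m → ℕ × ℕ
  | .B => (0, 0)
  | .A => (1, 0)
  | .z => (2, 0)
  | .P _ => (3, 0)
  | .c i => (4, i)
  | .Z l => (5, l)

lemma cf_sep {a a' : Bs m} (h : cf_cd a ≠ cf_cd a') : Sep a a' :=
  ⟨fun e => h (by rw [e]), fun _ _ e => h (by rw [e.1, e.2]; rfl)⟩

/-- Families of points with separated base points other than `B`. -/
def cf_Ok {γ : Type} (κ : γ → Pn m) : Prop :=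
  (∀ d, cf_cd (bs (κ d)) ≠ (0, 0)) ∧ Function.Injective fun d => cf_cd (bs (κ d))

lemma cf_okZ (I : I12) : cf_Ok (Pn.Z (m := m) I) :=
  ⟨fun _ => by simp [bs, cf_cd], fun _ _ e => Fin.ext (by simpa [bs, cf_cd] using e)⟩

lemma cf_okC (j : J4) : cf_Ok (Pn.C (m := m) j) := by
  refine ⟨?_, ?_⟩
  · rintro (d | d)
    · fin_cases d <;> simp [bs, cfar, cf_cd]
    · simp [bs, cfar, cf_cd]
  · rintro (d | d) (d' | d') e
    · fin_cases d <;> fin_cases d' <;> first | rfl | simp [bs, cfar, cf_cd] at e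
    · fin_cases d <;> simp [bs, cfar, cf_cd] at e
    · fin_cases d' <;> simp [bs, cfar, cf_cd] at e
    · exact congrArg _ (Fin.ext (by simpa [bs, cfar, cf_cd] using e))

lemma cf_okF (I : I12) : cf_Ok (Sum.elim (Pn.F (m := m) I) (Pn.Z I)) := by
  obtain ⟨j, i⟩ := I
  refine ⟨?_, ?_⟩
  · rintro ((d | d) | d)
    · fin_cases d <;> fin_cases i <;> simp [bs, far, cf_cd]
    · simp [bs, far, cf_cd]
    · simp [bs, cf_cd]
  · rintro ((d | d) | d) ((d' | d') | d') e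
    · fin_cases d <;> fin_cases d' <;> first | rfl | (fin_cases i <;> simp [bs, far, cf_cd] at e)
    · fin_cases d <;> fin_cases i <;> simp [bs, far, cf_cd] at e
    · fin_cases d <;> fin_cases i <;> simp [bs, far, cf_cd] at e
    · fin_cases d' <;> fin_cases i <;> simp [bs, far, cf_cd] at e
    · exact congrArg _ (congrArg _ (Fin.ext (by simpa [bs, far, cf_cd] using e)))
    · simp [bs, far, cf_cd] at e
    · fin_cases d' <;> fin_cases i <;> simp [bs, far, cf_cd] at e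
    · simp [bs, far, cf_cd] at e
    · exact congrArg _ (Fin.ext (by simpa [bs, cf_cd] using e))

lemma cf_mu {a : Bs m} (h : cf_cd a ≠ (0, 0)) : mu a = 1 := by
  cases a <;> first | rfl | exact absurd rfl h

/-- Natural and homogeneous expressions. -/
structure cf_Nat (e : ∀ (L : Type) [CommRing L], (Un m → L) → L → (Fn m → L) → L) : Prop where
  nat : ∀ (L L' : Type) [CommRing L] [CommRing L'] (φ : L →+* L') y w V,
    φ (e L y w V) = e L' (fun u => φ (y u)) (φ w) fun l => φ (V l)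
  hom : ∀ (E : Type) [Field E] y (t : Bs m → E) h a,
    e E y (t a ^ mu a) (fn t h a) = t a ^ mu a * e E y 1 h

lemma cf_fn {E : Type} [Field E] (t : Bs m → E) (h : Fn m → E) (a : Bs m) :
    (∀ i, fn t h a (.h i) = t a ^ mu a * h (.h i)) ∧ (∀ I, fn t h a (.f I) = t a ^ mu a * h (.f I)) ∧
    (∀ I l, fn t h a (.g I l) = t a ^ mu a * h (.g I l)) ∧
    ∀ j, fn t h a (.c j) = t a ^ mu a * h (.c j) := by
  cases a <;> exact ⟨fun _ => rfl, fun _ => rfl, fun _ _ => rfl, fun _ => rfl⟩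

lemma cf_n1 (I : I12) : cf_Nat (m := m) fun _ _ y w V => s1 y I w V :=
  ⟨fun _ _ _ _ φ y w V => by simp only [s1, map_add, map_mul], fun E _ y t h a => by
    simp only [s1, (cf_fn t h a).1]; ring⟩

lemma cf_n3 (I : I12) : cf_Nat (m := m) fun _ _ y w V => s3 y I w V :=
  ⟨fun _ _ _ _ φ y w V => by simp only [s1, s2, s3, map_add, map_mul, map_sum],
    fun E _ y t h a => by
      simp only [s1, s2, s3, (cf_fn t h a).1, (cf_fn t h a).2.1, (cf_fn t h a).2.2.1,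
        mul_left_comm _ (t a ^ mu a), ← Finset.mul_sum]
      ring⟩

lemma cf_n4 (j : J4) : cf_Nat (m := m) fun _ _ y w V => w - y (.μ j) * V (.c j) :=
  ⟨fun _ _ _ _ φ y w V => by simp only [map_sub, map_mul], fun E _ y t h a => by
    simp only [(cf_fn t h a).2.2.2]; ring⟩

variable {F : Type} [Field F] [Fintype F] {n : ℕ} {C : Cv F (m + 3)} {N : Net (Kb F) C.E m}
  {z : C.Pl} {P : J4 → C.Pl}

/-- The local coordinate of a point. -/
noncomputable abbrev cf_x (Δ : FD C N z P n) (p : Pn m → C.Pl) (i : Pn m) : F :=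
  C.vl (p i) (Δ.t (bs i))

/-- The values at a point. -/
noncomputable abbrev cf_V (Δ : FD C N z P n) (p : Pn m → C.Pl) (i : Pn m) (l : Fn m) : F :=
  C.vl (p i) (fn Δ.t Δ.h (bs i) l)

/-- A solution of the system. -/
structure cf_H (Δ : FD C N z P n) (X : Finset C.Pl) (y : Un m → F) (p : Pn m → C.Pl) : Prop where
  nr : Near C bs (al N z P Δ.Z) Δ.t (fn Δ.t Δ.h) X Sep p
  sm : SM m F Δ.c y (cf_x Δ p) (cf_V Δ p)
  ob : ∀ Q ∉ X, ∀ a, al N z P Δ.Z a ≠ Q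
  ot : ∀ Q ∉ X, ∀ a, Q.v (Δ.t a) = 1
  oY : ∀ Q ∉ X, N.Y Q = 0
  ou : ∀ Q ∉ X, ev Q N.u ≠ ev z N.u

namespace cf_H

variable {Δ : FD C N z P n} {X : Finset C.Pl} {y : Un m → F} {p : Pn m → C.Pl}
  {e : ∀ (L : Type) [CommRing L], (Un m → L) → L → (Fn m → L) → L} (h : cf_H Δ X y p)
include h

lemma tO (i : Pn m) : Δ.t (bs i) ∈ C.O (p i) := ⟨Δ.loc.t0 _, h.nr.t0 i⟩

lemma fO (i : Pn m) (l : Fn m) : fn Δ.t Δ.h (bs i) l ∈ C.O (p i) := ⟨(Δ.loc.f0 _ _).1, h.nr.f0 i l⟩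

lemma out {i : Pn m} (hx : cf_x Δ p i ≠ 0) : p i ∉ X :=
  (h.nr.dic i).resolve_right fun e => hx ((Cv.vl_eq_zero (h.nr.rat i) (h.tO i)).2 (by
    have := Δ.loc.t1 (bs i)
    rw [e, lt_one_iff (ne_zero_of_ord (by rw [this]; exact one_ne_zero)), this]
    exact one_pos))

lemma o : p .o = N.B :=
  (h.nr.dic .o).resolve_left fun e =>
    ((Cv.vl_eq_zero (h.nr.rat _) (h.tO _)).1 h.sm.o).ne (h.ot _ e _)

lemma val (he : cf_Nat e) (i : Pn m) :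
    e F y (cf_x Δ p i ^ mu (bs i)) (cf_V Δ p i) = 0 ↔
      (p i).v (Δ.t (bs i) ^ mu (bs i) * e C.E (fun u => C.c (y u)) 1 Δ.h) < 1 := by
  let W : C.O (p i) := e (C.O (p i)) (fun u => ⟨C.c (y u), Cv.c_mem_O _ _⟩)
    (⟨_, h.tO i⟩ ^ mu (bs i)) fun l => ⟨_, h.fO i l⟩
  have h1 : (W : C.E) = _ := (he.nat _ _ (C.O (p i)).subtype _ _ _).trans (he.hom C.E _ Δ.t Δ.h _)
  have h2 : C.vl (p i) W = e F y (cf_x Δ p i ^ mu (bs i)) (cf_V Δ p i) := by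
    refine (he.nat _ _ (Cv.vh (h.nr.rat i)) _ _ _).trans ?_
    rw [map_pow]
    exact congrArg (fun y => e F y _ _) (funext fun u => Cv.vl_c _ _)
  rw [← h2, Cv.vl_eq_zero (h.nr.rat i) W.2, h1]
  rfl

lemma ne0 (he : cf_Nat e) {i : Pn m} (hi : e F y (cf_x Δ p i ^ mu (bs i)) (cf_V Δ p i) ≠ 0) :
    e C.E (fun u => C.c (y u)) 1 Δ.h ≠ 0 := fun e0 =>
  hi ((h.val he i).2 (by rw [e0, mul_zero, map_zero]; exact zero_lt_one))

lemma neB {i i' : Pn m} (b : bs i = .B) (b' : cf_cd (bs i') ≠ (0, 0)) : p i' ≠ p i :=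
  h.nr.ne _ _ (cf_sep (by rw [b]; exact b'))

lemma nex {i i' : Pn m} (b : bs i = bs i') (hx : cf_x Δ p i ≠ cf_x Δ p i') : p i ≠ p i' :=
  fun e => hx (by rw [cf_x, cf_x, e, b])

/-- The zeros of a section. -/
lemma zero (he : cf_Nat e) {ι γ : Type} [Fintype ι] [Fintype γ] {κ0 : ι → Pn m} {κ : γ → Pn m}
    {H0 : Dv (Kb F) C.E} (ok : cf_Ok κ) (b0 : ∀ i, bs (κ0 i) = .B)
    (i0 : ∀ i i', i ≠ i' → cf_x Δ p (κ0 i) ≠ cf_x Δ p (κ0 i')) (H1 : ∀ Q, Q ≠ N.B → H0 Q = 0)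
    (H2 : H0 N.B = 2 ∨ ∀ i, p (κ0 i) ∉ X)
    (hs : e C.E (fun u => C.c (y u)) 1 Δ.h ∈ LS (H0 + ∑ d, pt (al N z P Δ.Z (bs (κ d)))))
    (h0 : e C.E (fun u => C.c (y u)) 1 Δ.h ≠ 0)
    (z0 : ∀ i, e F y (cf_x Δ p (κ0 i) ^ 2) (cf_V Δ p (κ0 i)) = 0)
    (z1 : ∀ d, e F y (cf_x Δ p (κ d)) (cf_V Δ p (κ d)) = 0) :
    lS (H0 + ∑ d, pt (al N z P Δ.Z (bs (κ d))) - (∑ i, pt (p (κ0 i)) + ∑ d, pt (p (κ d)))) ≠ 0 := by
  have a1 : Function.Injective fun i => p (Sum.elim κ0 κ i) := by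
    rintro (i | i) (i' | i') e
    · exact congrArg _ (by_contra fun e' => h.nex ((b0 _).trans (b0 _).symm) (i0 i i' e') e)
    · exact absurd e.symm (h.neB (b0 _) (ok.1 _))
    · exact absurd e (h.neB (b0 _) (ok.1 _))
    · exact congrArg _ (by_contra fun e' => h.nr.ne _ _ (cf_sep (ok.2.ne e')) e)
  have a2 : Function.Injective fun d => al N z P Δ.Z (bs (κ d)) := fun d d' e =>
    by_contra fun e' => Δ.sep _ _ (cf_sep (ok.2.ne e')) e
  have a3 : ∀ d, al N z P Δ.Z (bs (κ d)) ≠ N.B := fun d => Δ.sep _ .B (cf_sep (ok.1 d))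
  have a4 : ∀ i, p i ∉ X → (p i).v (Δ.t (bs i)) = 1 ∧
      (H0 + ∑ d, pt (al N z P Δ.Z (bs (κ d)))) (p i) = 0 := fun i hi => ⟨h.ot _ hi _, by
    rw [Finsupp.add_apply, H1 _ (h.ob _ hi .B).symm, sum_pt_ne fun d _ => h.ob _ hi _, add_zero]⟩
  have a5 := zer a1 hs fun i => by
    refine van (m := mu (bs (Sum.elim κ0 κ i))) (Δ.loc.t1 (bs (Sum.elim κ0 κ i)))
      ((h.val he _).1 ?_) ?_
    · rcases i with i | i
      · simpa only [Sum.elim_inl, b0, mu] using z0 i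
      · simpa only [Sum.elim_inr, cf_mu (ok.1 i), pow_one] using z1 i
    · rcases h.nr.dic (Sum.elim κ0 κ i) with e | e
      · exact .inr (a4 _ e)
      rcases i with i | i
      · refine H2.elim (fun e' => .inl ⟨e, ?_⟩) fun e' => .inr (a4 _ (e' i))
        rw [Sum.elim_inl, b0, Finsupp.add_apply]
        exact (congrArg₂ _ e' (sum_pt_ne fun d _ => a3 d)).trans rfl
      · refine .inl ⟨e, ?_⟩
        rw [Sum.elim_inr, Finsupp.add_apply, H1 _ (a3 i), sum_pt_self a2, cf_mu (ok.1 i)]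
        rfl
  rw [Fintype.sum_sum_type] at a5
  exact lS_ne_zero a5 h0

omit h in
lemma cm {f : C.E} {D : Dv (Kb F) C.E} (a : F) (hf : f ∈ LS D) : C.c a * f ∈ LS D := by
  rw [Cv.c_apply, ← Algebra.smul_def]
  exact Submodule.smul_mem _ _ hf

omit h in
lemma m1 (I : I12) : s1 (fun u => C.c (y u)) I 1 Δ.h ∈ LS (pt N.B + pt N.B + ∑ l, pt (Δ.Z l)) :=
  add_mem (add_mem (one_mem_LS.2 (add_nonneg (add_nonneg (pt_nonneg _) (pt_nonneg _))
    (sum_pt_nonneg _ _))) (cm _ (Δ.mh 0))) (cm _ (Δ.mh 1))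

omit h in
lemma hB (Q : C.Pl) (e : Q ≠ N.B) : (pt N.B + pt N.B) Q = 0 := by
  rw [Finsupp.add_apply, pt_ne e, add_zero]

omit h in
lemma hB' : (pt N.B + pt N.B) N.B = 2 := by
  rw [Finsupp.add_apply, Finsupp.single_eq_same]; rfl

/-- The near poles. -/
lemma pr1 (I : I12) : Pr (pt N.B + pt N.B + ∑ l, pt (Δ.Z l) -
    (∑ i, pt (p (np I i)) + ∑ l, pt (p (.Z I l)))) := by
  obtain ⟨j, i⟩ := I
  have a : cf_x Δ p (np (j, i) 0) ≠ cf_x Δ p (np (j, i) 1) := by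
    fin_cases i
    · exact fun e => h.sm.R0 j.2 (e.trans h.sm.o)
    · exact fun e => h.sm.Q0 j.1 (e.trans h.sm.o)
    · exact h.sm.QR j
  have b := h.zero (cf_n1 (j, i)) (κ0 := np (j, i)) (cf_okZ (j, i))
    (fun l => by fin_cases i <;> fin_cases l <;> rfl) (fun l l' e => by
      fin_cases l <;> fin_cases l'
      exacts [absurd rfl e, a, a.symm, absurd rfl e]) hB (.inl hB') (m1 _)
    (h.ne0 (cf_n1 _) (i := .T j 0) (h.sm.n1 (j, i))) (h.sm.np _) (h.sm.z1 _)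
  exact pr_of_lS (by simp only [map_sub, map_add, deg_sum_pt, deg_single]; simp) b

/-- The member of a pencil. -/
lemma l3 (I : I12) {ι : Type} [Fintype ι] {κ0 : ι → Pn m} (b0 : ∀ i, bs (κ0 i) = .B)
    (i0 : ∀ i i', i ≠ i' → cf_x Δ p (κ0 i) ≠ cf_x Δ p (κ0 i'))
    (z0 : ∀ i, s3 y I (cf_x Δ p (κ0 i) ^ 2) (cf_V Δ p (κ0 i)) = 0) :
    lS (∑ i, pt (p (np I i)) + ∑ d, pt (al N z P Δ.Z (far I d)) - ∑ i, pt (p (κ0 i)) -
      ∑ d, pt (p (.F I d))) ≠ 0 := by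
  have a1 : s3 (fun u => C.c (y u)) I 1 Δ.h ∈
      LS (pt N.B + pt N.B + ∑ d, pt (al N z P Δ.Z (far I d)) + ∑ l, pt (Δ.Z l)) :=
    add_mem (LS_mono (add_le_add_left (le_add_of_nonneg_right (sum_pt_nonneg _ _)) _) (m1 I))
      (cm _ (add_mem (Δ.mf I) (sum_mem fun l _ => cm _ (Δ.mg I l))))
  have a2 : ∑ d, pt (al N z P Δ.Z (bs (Sum.elim (Pn.F I) (Pn.Z I) d))) =
      ∑ d, pt (al N z P Δ.Z (far I d)) + ∑ l, pt (Δ.Z l) := Fintype.sum_sum_type _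
  have a3 : ∑ d, pt (p (Sum.elim (Pn.F I) (Pn.Z I) d)) =
      ∑ d, pt (p (.F I d)) + ∑ l, pt (p (.Z I l)) := Fintype.sum_sum_type _
  rw [add_assoc, ← a2] at a1
  have a4 := h.zero (cf_n3 I) (cf_okF I) b0 i0 hB (.inl hB') a1 (h.ne0 (cf_n3 I) (h.sm.n3 I)) z0 (by
    rintro (d | l)
    · exact h.sm.far I d
    · exact (congrArg₂ (fun a b => a + y (.e I) * b) (h.sm.z1 I l) (h.sm.z2 I l)).trans (by simp))
  rw [a2, a3] at a4
  refine fun e => a4 ((Pr.lS_eq ?_).trans e)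
  convert h.pr1 I using 1
  abel

lemma pr3 (j : J4) (i : Fin 3) (hi : i ≠ 2) : Pr (pt (p (.T j 0)) + pt (p (.T j 1)) +
    ∑ d, pt (p (.F (j, i) d)) -
      (∑ l, pt (p (np (j, i) l)) + ∑ d, pt (al N z P Δ.Z (far (j, i) d)))) := by
  have a := h.l3 (j, i) (κ0 := .T j) (fun _ => rfl) (fun l l' e => by
    fin_cases l <;> fin_cases l'
    exacts [absurd rfl e, h.sm.TT j, (h.sm.TT j).symm, absurd rfl e])
    (Fin.forall_fin_two.2 ⟨h.sm.t0 (j, i), h.sm.t1 (j, i) hi⟩)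
  have b := (pr_of_lS (by simp only [map_sub, map_add, deg_sum_pt]; simp) a).neg
  rw [Fin.sum_univ_two fun l => pt (p (.T j l))] at b
  convert b using 1
  abel

/-- The constant pencil. -/
lemma pr4 (j : J4) : Pr (pt (p (.T j 0)) + ∑ d, pt (p (.C j d)) -
    (pt N.B + ∑ d, pt (al N z P Δ.Z (cfar j d)))) := by
  have a0 : (1 : C.E) - C.c (y (.μ j)) * Δ.h (.c j) ≠ 0 := fun e => by
    have b1 := Δ.loc.ex .B (.c j)
    have b2 := Δ.loc.t1 .B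
    have b3 := (ord_eq_iff (ne_zero_of_ord (by rw [b2]; exact one_ne_zero))).1 b2
    rw [Δ.hm.c0, Δ.hm.c1, map_zero, map_one, sub_zero, one_mul, ← b3] at b1
    have b4 := Valuation.map_eq_of_sub_lt _ b1
    have b5 : Δ.t .B ^ 2 = C.c (y (.μ j)) * fn Δ.t Δ.h .B (.c j) := by
      rw [← mul_one (Δ.t .B ^ 2), sub_eq_zero.1 e, mul_left_comm]
      rfl
    have b6 := congrArg (al N z P Δ.Z .B).v b5
    rcases eq_or_ne (y (.μ j)) 0 with e' | e'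
    · rw [e', map_zero, zero_mul, sub_zero] at e
      exact one_ne_zero e
    · rw [map_pow, map_mul, b4, b3, Cv.c_apply, Place.v_const _ ((_root_.map_ne_zero _).2 e'),
        one_mul, ← exp_nsmul, exp_inj] at b6
      simp at b6
  have a := h.zero (cf_n4 j) (κ0 := fun _ : Unit => .T j 0) (H0 := pt N.B) (cf_okC j) (fun _ => rfl)
    (fun _ _ e => absurd rfl e) (fun _ => pt_ne) (.inr fun _ => h.out (h.sm.T0 j 0))
    (sub_mem (one_mem_LS.2 (add_nonneg (pt_nonneg _) (sum_pt_nonneg _ _))) (cm _ (Δ.mc j))) a0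
    (fun _ => sub_eq_zero.2 (h.sm.c0 j)) fun d => sub_eq_zero.2 (h.sm.cf j d)
  have b := (pr_of_lS (by simp only [map_sub, map_add, deg_sum_pt, deg_single]; simp) a).neg
  rwa [neg_sub, Fintype.sum_unique] at b

lemma gp (hN : N.NF) (rn : C.RN N) (hz : Gz N z) (hP : ∀ j, Vg N z (P j)) (j : J4) :
    N.Gp z (P j) (p (.Q j.1)) (p (.R j.2)) ∧ N.Conc z (P j) (p (.Q j.1)) (p (.R j.2)) := by
  have hQ := h.out (h.sm.Q0 j.1)
  have hR := h.out (h.sm.R0 j.2)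
  have hv : ∀ i, p i ∉ X → C.vl (p i) (Δ.t .B) = (C.vl (p i) N.v - C.vl z N.v)⁻¹ ∧
      C.vl (p i) N.v ≠ C.vl z N.v := fun i hi => by
    have a : N.v ∈ C.O (p i) := ⟨rn.v, (hN.reg _ (h.oY _ hi)).2.1⟩
    have b := h.ot _ hi .B
    rw [Δ.tB, map_inv₀, inv_eq_one] at b
    have c := Cv.vl_sub (h.nr.rat i) a (Cv.c_mem_O _ (C.vl z N.v))
    rw [Cv.vl_c] at c
    refine ⟨by rw [Δ.tB, Cv.vl_inv (h.nr.rat i) (sub_mem rn.v (Cv.c_mem _)) b, c], fun e => ?_⟩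
    rw [e, sub_self, Cv.vl_eq_zero (h.nr.rat i) (sub_mem a (Cv.c_mem_O _ _))] at c
    exact c.ne b
  obtain ⟨q1, q2⟩ := hv _ hQ
  obtain ⟨r1, r2⟩ := hv _ hR
  refine ⟨⟨hz.off, (hP j).off, ⟨h.oY _ hQ, fun i => h.ob _ hQ (.c i)⟩,
    ⟨h.oY _ hR, fun i => h.ob _ hR (.c i)⟩, fun e => (hP j).uz (by rw [e]), h.ob _ hQ .z,
    h.ob _ hR .z, h.ob _ hQ (.P j), h.ob _ hR (.P j), h.nex rfl (h.sm.QR j), h.ou _ hQ,
    fun e => q2 (by rw [Cv.vl, Cv.vl, e])⟩, ?_⟩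
  have a : C.vl (p (.Q j.1)) (Δ.h .s) = C.vl (p (.Q j.1)) N.u - C.vl z N.u := by
    rw [Δ.hs, Cv.vl_sub (h.nr.rat _) ⟨rn.u, (hN.reg _ (h.oY _ hQ)).1⟩ (Cv.c_mem_O _ _), Cv.vl_c]
  have b : Δ.c (.σ j) * C.vl (p (.R j.2)) (Δ.t .B) =
    C.vl (p (.Q j.1)) (Δ.h .s) * C.vl (p (.Q j.1)) (Δ.t .B) := h.sm.con j
  rw [Δ.cσ, a, q1, r1, ← div_eq_mul_inv, ← div_eq_mul_inv,
    div_eq_div_iff (sub_ne_zero.2 r2) (sub_ne_zero.2 q2)] at b
  have c := congrArg (algebraMap F (Kb F)) b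
  simpa only [Net.Conc, map_mul, map_sub, Cv.vl_spec (h.nr.rat _) rn.u, Cv.vl_spec (h.nr.rat _) rn.v,
    Cv.vl_spec hz.rat rn.u, Cv.vl_spec hz.rat rn.v, Cv.vl_spec (hP j).rat rn.u] using c

lemma nF (I : I12) {i : Pn m} (b : bs i = .B) : (∑ d, pt (p (.F I d))) (p i) = 0 :=
  sum_pt_ne fun d _ => h.neB b ((cf_okF I).1 (.inl d))

lemma TQ (j : J4) (l : Fin 2) : p (.T j l) ≠ p (.Q j.1) := h.nex (i := .T j l) rfl (h.sm.TQ j l)

lemma TR (j : J4) (l : Fin 2) : p (.T j l) ≠ p (.R j.2) := h.nex (i := .T j l) rfl (h.sm.TR j l)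

lemma two (j : J4) : N.Two z (P j) (p (.Q j.1)) (p (.R j.2)) (p (.T j 0)) (p (.T j 1))
    (∑ d, pt (p (.F (j, 0) d))) (∑ d, pt (p (.F (j, 1) d))) := by
  have a0 := h.pr3 j 0 (by decide)
  have a1 := h.pr3 j 1 (by decide)
  rw [Fintype.sum_sum_type (fun d => pt (al N z P Δ.Z (far _ d))), Fin.sum_univ_two,
    Fin.sum_univ_two] at a0 a1
  refine ⟨sum_pt_nonneg _ _, sum_pt_nonneg _ _, h.o ▸ a0, h.o ▸ a1, ?_, ?_⟩
  · rw [Finsupp.add_apply, Finsupp.add_apply, h.nF _ rfl, pt_ne (h.TR j 0).symm,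
      pt_ne (h.TR j 1).symm]
    rfl
  · rw [Finsupp.add_apply, Finsupp.add_apply, h.nF _ rfl, pt_ne (h.TQ j 0).symm,
      pt_ne (h.TQ j 1).symm]
    rfl

lemma cert (hN : N.NF) (hGC : S_GC) (rn : C.RN N) (hz : Gz N z) (hP : ∀ j, Vg N z (P j)) (j : J4) :
    N.Cert z (P j) (p (.Q j.1)) (p (.R j.2)) (p (.T j 0)) (p (.T j 1))
      (∑ d, pt (p (.F (j, 0) d))) (∑ d, pt (p (.F (j, 1) d))) (∑ d, pt (p (.F (j, 2) d)))
      (∑ d, pt (p (.C j d))) := by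
  have t0 := h.ob _ (h.out (h.sm.T0 j 0))
  have t1 := h.ob _ (h.out (h.sm.T0 j 1))
  have s0 : N.S (p (.T j 0)) = 0 := sum_pt_ne fun i _ => t0 (.c i)
  have sz : pt z (p (.T j 0)) = 0 := pt_ne (t0 .z).symm
  have sA : pt N.A (p (.T j 0)) = 0 := pt_ne (t0 .A).symm
  have sB : pt N.B (p (.T j 0)) = 0 := pt_ne (t0 .B).symm
  have sP : pt (P j) (p (.T j 0)) = 0 := pt_ne (t0 (.P j)).symm
  have a2 := h.l3 (j, 2) (κ0 := fun _ : Unit => .T j 0) (fun _ => rfl) (fun _ _ e => absurd rfl e)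
    fun _ => h.sm.t0 (j, 2)
  rw [Fintype.sum_unique (fun _ : Unit => pt (p (.T j 0))),
    Fintype.sum_sum_type (fun d => pt (al N z P Δ.Z (far _ d))), Fin.sum_univ_two,
    Fin.sum_univ_two] at a2
  have a3 := h.pr4 j
  rw [Fintype.sum_sum_type (fun d => pt (al N z P Δ.Z (cfar _ d))), Fin.sum_univ_three] at a3
  obtain ⟨g1, g2⟩ := h.gp hN rn hz hP j
  have a4 := hGC _ _ m N _ _ _ _ _ _ _ _ (∑ d, pt (p (.F (j, 2) d))) g1 (h.two j) g2
    (t0 (.P j)).symm (t1 (.P j)).symm (t0 .B).symm (t1 .B).symm (sum_pt_nonneg _ _)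
    (by rw [deg_sum_pt]; simp [add_comm]) (h.nF _ rfl) (by
      simp only [Finsupp.add_apply, s0, sz, sA, pt_ne (h.TQ j 0), pt_ne (h.TR j 0), add_zero]) a2
  exact ⟨h.two j, sum_pt_nonneg _ _, sum_pt_nonneg _ _, a4, a3,
    by simp only [Finsupp.add_apply, s0, sz, sA, sB, sP, add_zero],
    sum_pt_ne fun d _ => h.neB rfl ((cf_okC j).1 d)⟩

end cf_H

end cf

theorem p_CF (hNF : S_NF) (hGC : S_GC) :
    S_CF := by
  intro m n
  have := Fintype.ofFinite (Bs m)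
  refine ⟨Fintype.card (Bs m) + Fintype.card (Bs m) * (2 * n) + (m + 4) + 2 * (m + 4),
    fun F _ _ C N z P Δ rn hz hP => ?_⟩
  have hN := hNF _ _ m N
  choose X1 a1 b1 using fun a => (Δ.loc.tb a).unit
    (ne_zero_of_ord (by rw [Δ.loc.t1 a]; exact one_ne_zero))
  obtain ⟨X2, a2, b2⟩ := hN.bu.fibre hN.tu (ev z N.u)
  refine ⟨Finset.univ.image (al N z P Δ.Z) ∪ Finset.univ.biUnion X1 ∪ N.Y.support ∪ X2, ?_,
    fun X y p hX nr sm j => ?_⟩
  · have c1 := card_support_le ((add_nonneg (pt_nonneg _) (pt_nonneg _)).trans N.le)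
    rw [hN.deg] at c1
    exact (Finset.card_union_le _ _).trans (add_le_add ((Finset.card_union_le _ _).trans (add_le_add
      ((Finset.card_union_le _ _).trans (add_le_add Finset.card_image_le
        (Finset.card_biUnion_le_card_mul _ _ _ fun a _ => a1 a))) (by exact_mod_cast c1))) a2)
  simp only [Finset.union_subset_iff] at hX
  have h : cf_H Δ X y p := ⟨nr, sm,
    fun Q hQ a e => hQ (hX.1.1.1 (Finset.mem_image.2 ⟨a, Finset.mem_univ _, e⟩)),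
    fun Q hQ a => b1 a Q fun e => hQ (hX.1.1.2 (Finset.mem_biUnion.2 ⟨a, Finset.mem_univ _, e⟩)),
    fun Q hQ => Finsupp.notMem_support_iff.1 fun e => hQ (hX.1.2 e),
    fun Q hQ => (b2 Q fun e => hQ (hX.2 e)).2⟩
  exact ⟨(h.gp hN rn hz hP j).1, h.cert hN hGC rn hz hP j, h.out (sm.Q0 _), h.out (sm.R0 _),
    fun l => h.out (sm.T0 j l)⟩

end

end Pool.Agent.P.MP_9344a7_nt.Gt
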